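import Pool.Agent.MAE.Stmts

/-!
Squad MAE (MP_f46acb_co), module AVC: the number of sets in no member of a stable family.
-/

set_option autoImplicit false

namespace Pool.Agent.MAE

open Pool.Agent.Helper3.MAS Finset

namespace AVC_

/-- two members of a stable family with a common `(r-1)`-subset are equal -/
lemma eq_of_common {m r : ℕ} {I : Finset (Finset ℕ)} (hr : 1 ≤ r) (hI : Stab m r I)
    {C C' A : Finset ℕ} (hC : C ∈ I) (hC' : C' ∈ I) (hA : A.card = r - 1) (hAC : A ⊆ C)
    (hAC' : A ⊆ C') : C = C' := by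
  have h1 := mem_powersetCard.1 (hI.1 hC)
  have h2 := mem_powersetCard.1 (hI.1 hC')
  by_contra hne
  -- the extra elements
  have h3 : (C \ A).card = 1 := by
    rw [card_sdiff_of_subset hAC, h1.2, hA]; omega
  have h4 : (C' \ A).card = 1 := by
    rw [card_sdiff_of_subset hAC', h2.2, hA]; omega
  obtain ⟨a, ha⟩ := card_eq_one.1 h3
  obtain ⟨b, hb⟩ := card_eq_one.1 h4
  have haC : a ∈ C ∧ a ∉ A := by
    have : a ∈ C \ A := by rw [ha]; exact mem_singleton_self a
    exact mem_sdiff.1 this
  have hbC : b ∈ C' ∧ b ∉ A := by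
    have : b ∈ C' \ A := by rw [hb]; exact mem_singleton_self b
    exact mem_sdiff.1 this
  have hCA : C.erase a = A := by
    ext x
    rw [mem_erase]
    constructor
    · rintro ⟨hx1, hx2⟩
      by_contra hx3
      have : x ∈ C \ A := mem_sdiff.2 ⟨hx2, hx3⟩
      rw [ha, mem_singleton] at this
      exact hx1 this
    · intro hx
      exact ⟨fun h => haC.2 (h ▸ hx), hAC hx⟩
  have hCb : insert b A = C' := by
    ext x
    rw [mem_insert]
    constructor
    · rintro (h | h)
      · rw [h]; exact hbC.1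
      · exact hAC' h
    · intro hx
      by_cases hxA : x ∈ A
      · exact Or.inr hxA
      · have : x ∈ C' \ A := mem_sdiff.2 ⟨hx, hxA⟩
        rw [hb, mem_singleton] at this
        exact Or.inl this
  have hbC2 : b ∉ C := by
    intro h
    have : b ∈ C \ A := mem_sdiff.2 ⟨h, hbC.2⟩
    rw [ha, mem_singleton] at this
    apply hne
    rw [← hCb, this, ← hCA, insert_erase haC.1]
  refine hI.2 C hC a haC.1 b (h2.1 hbC.1) hbC2 ?_
  rw [hCA, hCb]
  exact hC'

end AVC_

open AVC_ in
theorem avc_proof : Stmt_AVC := by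
  intro m r hr hrm I hI
  have hst : Stab m r I := by
    classical
    unfold stF at hI
    rw [mem_filter] at hI
    exact hI.2
  have h1 : ((range m).powersetCard (r - 1)).filter (fun A => ¬ ∀ C ∈ I, ¬ A ⊆ C) =
      I.biUnion (fun C => C.powersetCard (r - 1)) := by
    ext A
    simp only [mem_filter, mem_powersetCard, mem_biUnion]
    constructor
    · rintro ⟨⟨hA1, hA2⟩, hA3⟩
      push Not at hA3
      obtain ⟨C, hC, hAC⟩ := hA3
      exact ⟨C, hC, hAC, hA2⟩
    · rintro ⟨C, hC, hAC, hA⟩
      refine ⟨⟨hAC.trans (mem_powersetCard.1 (hst.1 hC)).1, hA⟩, ?_⟩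
      push Not
      exact ⟨C, hC, hAC⟩
  have h2 : (I.biUnion (fun C => C.powersetCard (r - 1))).card = r * I.card := by
    rw [card_biUnion]
    · have : ∀ C ∈ I, (C.powersetCard (r - 1)).card = r := by
        intro C hC
        rw [card_powersetCard, (mem_powersetCard.1 (hst.1 hC)).2]
        obtain ⟨k, rfl⟩ : ∃ k, r = k + 1 := ⟨r - 1, by omega⟩
        simp
      rw [sum_congr rfl this, sum_const, smul_eq_mul, mul_comm]
    · intro C hC C' hC' hne
      refine Finset.disjoint_left.2 ?_
      intro A hA hA'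
      rw [mem_powersetCard] at hA hA'
      exact hne (eq_of_common hr hst hC hC' hA.2 hA.1 hA'.1)
  have h3 := card_filter_add_card_filter_not (s := (range m).powersetCard (r - 1))
    (fun A => ∀ C ∈ I, ¬ A ⊆ C)
  rw [h1, h2, card_powersetCard, card_range] at h3
  exact h3

end Pool.Agent.MAE
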