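import Pool.Agent.MAE.Stmts

set_option autoImplicit false

namespace Pool.Agent.MAE

open Pool.Agent.Helper3.MAS Finset

namespace AVG_

theorem exm_val {m : ℕ} (π : Equiv.Perm (Fin m)) (i : Fin m) : exm π (i : ℕ) = (π i : ℕ) := by
  unfold exm
  exact Equiv.Perm.viaEmbedding_apply π Fin.valEmbedding i

theorem exm_mul {m : ℕ} (σ π : Equiv.Perm (Fin m)) : exm (σ * π) = exm σ * exm π := by
  unfold exm
  have := map_mul (Equiv.Perm.viaEmbeddingHom (Fin.valEmbedding (n := m))) σ π
  simpa only [Equiv.Perm.viaEmbeddingHom_apply] using this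

theorem exm_one {m : ℕ} : exm (1 : Equiv.Perm (Fin m)) = 1 := by
  unfold exm
  have := map_one (Equiv.Perm.viaEmbeddingHom (Fin.valEmbedding (n := m)))
  simpa only [Equiv.Perm.viaEmbeddingHom_apply] using this

theorem image_mem {m k : ℕ} (π : Equiv.Perm (Fin m)) {C : Finset ℕ}
    (hC : C ∈ (range m).powersetCard k) : C.image (exm π) ∈ (range m).powersetCard k := by
  rw [mem_powersetCard] at hC ⊢
  refine ⟨?_, by rw [card_image_of_injective _ (exm π).injective]; exact hC.2⟩
  intro x hx
  obtain ⟨y, hy, rfl⟩ := mem_image.mp hx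
  have hy' := mem_range.mp (hC.1 hy)
  have := exm_val π ⟨y, hy'⟩
  simp only at this
  rw [this]
  exact mem_range.mpr (π ⟨y, hy'⟩).2

theorem exists_pm {m k : ℕ} {B B' : Finset ℕ} (hB : B ∈ (range m).powersetCard k)
    (hB' : B' ∈ (range m).powersetCard k) : ∃ τ : Equiv.Perm (Fin m), B'.image (exm τ) = B := by
  classical
  set b : Finset (Fin m) := univ.filter (fun i => (i : ℕ) ∈ B) with hb
  set b' : Finset (Fin m) := univ.filter (fun i => (i : ℕ) ∈ B') with hb'
  have hval : ∀ D ∈ (range m).powersetCard k,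
      (univ.filter (fun i : Fin m => (i : ℕ) ∈ D)).image (fun i : Fin m => (i : ℕ)) = D := by
    intro D hD
    rw [mem_powersetCard] at hD
    ext x
    simp only [mem_image, mem_filter, mem_univ, true_and]
    constructor
    · rintro ⟨i, hi, rfl⟩; exact hi
    · intro hx
      exact ⟨⟨x, mem_range.mp (hD.1 hx)⟩, hx, rfl⟩
  have hcard : ∀ D ∈ (range m).powersetCard k,
      (univ.filter (fun i : Fin m => (i : ℕ) ∈ D)).card = k := by
    intro D hD
    have h1 := hval D hD
    have h2 : (univ.filter (fun i : Fin m => (i : ℕ) ∈ D)).card = D.card := by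
      conv_rhs => rw [← h1]
      rw [card_image_of_injective _ Fin.val_injective]
    rw [h2, (mem_powersetCard.mp hD).2]
  have hc : b'.card = b.card := by rw [hb, hb', hcard B hB, hcard B' hB']
  let e : {x // x ∈ b'} ≃ {x // x ∈ b} := Finset.equivOfCardEq hc
  refine ⟨e.extendSubtype, ?_⟩
  apply Finset.eq_of_subset_of_card_le
  · intro y hy
    obtain ⟨x, hx, rfl⟩ := mem_image.mp hy
    have hxm := mem_range.mp ((mem_powersetCard.mp hB').1 hx)
    have hxb : (⟨x, hxm⟩ : Fin m) ∈ b' := by
      rw [hb', mem_filter]; exact ⟨mem_univ _, hx⟩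
    have h3 := exm_val e.extendSubtype ⟨x, hxm⟩
    simp only at h3
    rw [h3, Equiv.extendSubtype_apply_of_mem e ⟨x, hxm⟩ hxb]
    exact (mem_filter.mp (e ⟨⟨x, hxm⟩, hxb⟩).2).2
  · rw [card_image_of_injective _ (exm _).injective, (mem_powersetCard.mp hB).2,
      (mem_powersetCard.mp hB').2]

open Classical in
/-- the number of permutations moving `C` to `B` -/
noncomputable def nn (m : ℕ) (B C : Finset ℕ) : ℕ :=
  (univ.filter (fun π : Equiv.Perm (Fin m) => C.image (exm π) = B)).card

theorem nn_eq {m k : ℕ} {B B' C : Finset ℕ} (hB : B ∈ (range m).powersetCard k)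
    (hB' : B' ∈ (range m).powersetCard k) : nn m B' C ≤ nn m B C := by
  classical
  obtain ⟨τ, hτ⟩ := exists_pm hB hB'
  unfold nn
  refine card_le_card_of_injOn (fun π => τ * π) ?_ ?_
  · intro π hπ
    have hπ' : C.image (exm π) = B' := by simpa using hπ
    have : C.image (exm (τ * π)) = B := by
      rw [exm_mul, ← hτ, ← hπ', image_image]
      rfl
    simpa using this
  · intro π _ π' _ h
    exact mul_left_cancel h

theorem nn_sum {m k : ℕ} {C : Finset ℕ} (hC : C ∈ (range m).powersetCard k) :
    ∑ B ∈ (range m).powersetCard k, nn m B C = m.factorial := by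
  classical
  unfold nn
  have h := (card_eq_sum_card_fiberwise (s := (univ : Finset (Equiv.Perm (Fin m))))
    (t := (range m).powersetCard k) (f := fun π => C.image (exm π))
    (fun π _ => image_mem π hC)).symm
  rw [card_univ, Fintype.card_perm, Fintype.card_fin] at h
  rw [← h]

theorem nn_val {m k : ℕ} {B C : Finset ℕ} (hB : B ∈ (range m).powersetCard k)
    (hC : C ∈ (range m).powersetCard k) : m.choose k * nn m B C = m.factorial := by
  rw [← nn_sum hC]
  have : ∀ B' ∈ (range m).powersetCard k, nn m B' C = nn m B C := fun B' hB' =>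
    le_antisymm (nn_eq hB hB') (nn_eq hB' hB)
  rw [sum_congr rfl this, sum_const, card_powersetCard, card_range, smul_eq_mul]

theorem inter_card (m : ℕ) (X Y : Finset (Finset ℕ)) (π : Equiv.Perm (Fin m)) :
    (X ∩ rl (exm π) Y).card = ∑ B ∈ X, ∑ C ∈ Y, if C.image (exm π) = B then 1 else 0 := by
  classical
  have h1 : (X ∩ rl (exm π) Y).card = ∑ B ∈ X, if B ∈ rl (exm π) Y then 1 else 0 := by
    rw [← filter_mem_eq_inter, card_filter]
  rw [h1]
  refine sum_congr rfl fun B _ => ?_
  by_cases hB : B ∈ rl (exm π) Y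
  · rw [if_pos hB]
    unfold rl at hB
    obtain ⟨C, hC, hCB⟩ := mem_image.mp hB
    rw [sum_eq_single_of_mem C hC, if_pos hCB]
    intro C' _ hne
    rw [if_neg]
    intro h
    exact hne (image_injective (exm π).injective (h.trans hCB.symm))
  · rw [if_neg hB]
    symm
    apply sum_eq_zero
    intro C hC
    rw [if_neg]
    intro h
    apply hB
    unfold rl
    exact mem_image.mpr ⟨C, hC, h⟩

end AVG_

open AVG_ in
theorem avg_proof : Stmt_AVG := by
  classical
  intro m k X Y hX hY
  have h1 : ∑ π : Equiv.Perm (Fin m), (X ∩ rl (exm π) Y).card =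
      ∑ B ∈ X, ∑ C ∈ Y, nn m B C := by
    rw [sum_congr rfl (fun π _ => inter_card m X Y π), sum_comm]
    refine sum_congr rfl fun B _ => ?_
    rw [sum_comm]
    refine sum_congr rfl fun C _ => ?_
    unfold nn
    rw [card_filter]
  rw [h1, mul_sum]
  have h2 : ∀ B ∈ X, m.choose k * ∑ C ∈ Y, nn m B C = Y.card * m.factorial := by
    intro B hB
    rw [mul_sum, sum_congr rfl (fun C hC => nn_val (hX hB) (hY hC)), sum_const, smul_eq_mul]
  rw [sum_congr rfl h2, sum_const, smul_eq_mul]
  ring

end Pool.Agent.MAE
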