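import Pool.Agent.MAE.Stmts

/-!
Assembly, first part: the growth of the number of paving families.
-/

set_option autoImplicit false

namespace Pool.Agent.MAE

open Pool.Agent.Helper3.MAS Finset

namespace Asm

theorem al_mul {n r : ℕ} (hr : 1 ≤ r) (hrn : r ≤ n) :
    al n r * ((n : ℝ) - r + 1) = (n.choose r : ℝ) := by
  obtain ⟨k, rfl⟩ : ∃ k, r = k + 1 := ⟨r - 1, by omega⟩
  have h := Nat.choose_succ_right_eq n k
  have h' : ((n.choose (k + 1) : ℕ) : ℝ) * ((k : ℝ) + 1) = (n.choose k : ℝ) * ((n : ℝ) - k) := by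
    have h2 : ((n - k : ℕ) : ℝ) = (n : ℝ) - k := by
      rw [Nat.cast_sub (by omega)]
    rw [← h2]; exact_mod_cast h
  unfold al
  simp only [Nat.add_sub_cancel]
  push_cast
  field_simp
  linarith

theorem al_pos {n r : ℕ} (hr : 1 ≤ r) (hrn : r ≤ n) : 0 < al n r := by
  unfold al
  have : 0 < n.choose (r - 1) := Nat.choose_pos (by omega)
  positivity

theorem cc_nonneg (n : ℕ) : 0 ≤ cc n := by
  unfold cc
  have : 0 < Real.log 2 := Real.log_pos (by norm_num)
  positivity

theorem al_le {n r : ℕ} (hr : 1 ≤ r) (h2 : 2 * r ≤ n) : al n r * Real.log 2 ≤ 2 * cc n := by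
  have hlog : 0 < Real.log 2 := Real.log_pos (by norm_num)
  have h := al_mul hr (by omega : r ≤ n)
  have hpos := al_pos hr (by omega : r ≤ n)
  have hn : (0 : ℝ) < n := by
    have : 0 < n := by omega
    exact_mod_cast this
  have h2' : 2 * (r : ℝ) ≤ n := by exact_mod_cast h2
  have h3 : al n r * (n / 2) ≤ (n.choose r : ℝ) := by
    rw [← h]
    apply mul_le_mul_of_nonneg_left _ hpos.le
    linarith
  have h4 : (n.choose r : ℝ) ≤ n.choose (n / 2) := by exact_mod_cast Nat.choose_le_middle r n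
  have h5 : al n r ≤ 2 * (n.choose (n / 2) : ℝ) / n := by
    rw [le_div_iff₀ hn]; linarith
  unfold cc
  calc al n r * Real.log 2 ≤ 2 * (n.choose (n / 2) : ℝ) / n * Real.log 2 :=
        mul_le_mul_of_nonneg_right h5 hlog.le
    _ = 2 * (Real.log 2 * (n.choose (n / 2) : ℝ) / n) := by ring

theorem log_st_le (hSTW : Stmt_STW) (ε : ℝ) (hε : 0 < ε) : ∃ n₀ : ℕ, ∀ n ≥ n₀, ∀ r : ℕ,
    n ≤ 4 * r → 2 * r ≤ n →
      Real.log ((stF n r).card : ℝ) ≤ (1 + ε) * (al n r * Real.log 2) := by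
  obtain ⟨n₀, h⟩ := hSTW 1 ε le_rfl hε
  refine ⟨n₀, fun n hn r h1 h2 => ?_⟩
  have := h n hn r h1 h2
  simp only [one_pow, Finset.sum_const, nsmul_eq_mul, mul_one] at this
  rw [show (1 : ℝ) + 1 = 2 by norm_num] at this
  linarith

/-- upper bound for the number of paving families -/
theorem upa (hSTW : Stmt_STW) (hPUP : Stmt_PUP) : ∀ ε : ℝ, 0 < ε → ∃ n₀ : ℕ, ∀ n ≥ n₀,
    Real.log (num PavK n) ≤ (2 + ε) * cc n := by
  intro ε hε
  obtain ⟨n₁, h1⟩ := log_st_le hSTW (ε / 4) (by linarith)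
  obtain ⟨n₂, h2⟩ := hPUP (ε / 4) (by linarith)
  refine ⟨max (max n₁ n₂) 1, fun n hn => ?_⟩
  have hn1 : n₁ ≤ n := le_trans (le_trans (le_max_left _ _) (le_max_left _ _)) hn
  have hn2 : n₂ ≤ n := le_trans (le_trans (le_max_right _ _) (le_max_left _ _)) hn
  have hn3 : 1 ≤ n := le_trans (le_max_right _ _) hn
  obtain ⟨r, hr1, hr2, -, hr3⟩ := h2 n hn2
  have h3 := h1 n hn1 r hr1 hr2
  have h4 := al_le (by omega : 1 ≤ r) hr2
  have h5 := cc_nonneg n
  have h6 : (1 + ε / 4) * (al n r * Real.log 2) ≤ (1 + ε / 4) * (2 * cc n) :=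
    mul_le_mul_of_nonneg_left h4 (by linarith)
  nlinarith

theorem fac_le (m : ℕ) : Real.log (m.factorial : ℝ) ≤ (m : ℝ) * m := by
  have e1 : (m.factorial : ℝ) ≤ Real.exp ((m : ℝ) * m) := by
    calc (m.factorial : ℝ) ≤ (m : ℝ) ^ m := by exact_mod_cast Nat.factorial_le_pow m
      _ ≤ (Real.exp m) ^ m := by
          apply pow_le_pow_left₀ (by positivity)
          linarith [Real.add_one_le_exp (m : ℝ)]
      _ = Real.exp ((m : ℝ) * m) := by rw [← Real.exp_nat_mul]
  have h0 : (0 : ℝ) < m.factorial := by exact_mod_cast Nat.factorial_pos m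
  have e2 := Real.log_le_log h0 e1
  rwa [Real.log_exp] at e2

theorem log_div_small (ε : ℝ) (hε : 0 < ε) : ∃ n₀ : ℕ, ∀ n ≥ n₀, Real.log n ≤ ε * n := by
  have h : Filter.Tendsto (fun n : ℕ => Real.log n / n) Filter.atTop (nhds 0) :=
    (Real.isLittleO_log_id_atTop.tendsto_div_nhds_zero).comp tendsto_natCast_atTop_atTop
  have h2 := h.eventually (gt_mem_nhds hε)
  obtain ⟨n₀, h3⟩ := Filter.eventually_atTop.mp h2
  refine ⟨max n₀ 1, fun n hn => ?_⟩
  have h4 := h3 n (le_trans (le_max_left _ _) hn)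
  have h5 : (0 : ℝ) < n := by
    have : 1 ≤ n := le_trans (le_max_right _ _) hn
    exact_mod_cast this
  rw [div_lt_iff₀ h5] at h4
  exact h4.le

/-- superadditivity with a gain -/
theorem npa (hSTW : Stmt_STW) (hPUP : Stmt_PUP) (hBIG : Stmt_BIG) (hGLU : Stmt_GLU)
    (hKNP : Stmt_KNP) (hSBS : Stmt_SBS) (hCCR : Stmt_CCR) (hCCI : Stmt_CCI) :
    ∃ c₀ : ℝ, 0 < c₀ ∧ ∃ n₀ : ℕ, ∀ n ≥ n₀,
      2 * Real.log (num PavK n) + c₀ * cc (n + 2) ≤ Real.log (num PavK (n + 2)) := by
  have hlog : 0 < Real.log 2 := Real.log_pos (by norm_num)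
  have hlog' : 0.69 < Real.log 2 := lt_trans (by norm_num) Real.log_two_gt_d9
  refine ⟨1 / 200000, by norm_num, ?_⟩
  obtain ⟨n₁, h1⟩ := log_st_le hSTW 1 one_pos
  obtain ⟨n₂, h2⟩ := hPUP (1 / 100000) (by norm_num)
  obtain ⟨n₃, h3⟩ := hBIG
  obtain ⟨n₄, h4⟩ := hCCR (1 / 100) (by norm_num)
  obtain ⟨n₅, h5⟩ := hCCI (1 / 100000) (by norm_num)
  obtain ⟨n₆, h6⟩ := log_div_small (1 / 10 ^ 12) (by norm_num)
  refine ⟨max (max (max n₁ n₂) (max n₃ n₄)) (max (max n₅ n₆) 100000), fun m hm => ?_⟩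
  simp only [ge_iff_le, max_le_iff] at hm
  obtain ⟨⟨⟨hm1, hm2⟩, hm3, hm4⟩, ⟨hm5, hm6⟩, hm7⟩ := hm
  obtain ⟨r, hr1, hr2, hr3, hr4⟩ := h2 m hm2
  have hr : 1 ≤ r := by omega
  have hrm : r ≤ m := by omega
  have hmpos : (0 : ℝ) < m := by
    have : 0 < m := by omega
    exact_mod_cast this
  have hm7' : (100000 : ℝ) ≤ m := by exact_mod_cast hm7
  set s : ℝ := ((stF m r).card : ℝ) with hs
  set a : ℝ := al m r with ha
  set c : ℝ := cc m with hc
  have hapos : 0 < a := al_pos hr hrm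
  have hal : a * Real.log 2 ≤ 2 * c := al_le hr hr2
  have hst : Real.log s ≤ (1 + 1) * (a * Real.log 2) := h1 m hm1 r hr1 hr2
  have hm3c : (m : ℝ) ^ 3 ≤ 1 / 100000 * c := h5 m hm5
  have hc1 : (10 : ℝ) ^ 10 ≤ c := by
    have : (100000 : ℝ) ^ 3 ≤ (m : ℝ) ^ 3 := pow_le_pow_left₀ (by norm_num) hm7' 3
    norm_num at this hm3c ⊢
    linarith
  -- the large families are few
  have hspos : 0 < s := by
    by_contra hcon
    have : s = 0 := le_antisymm (not_lt.mp hcon) (by rw [hs]; positivity)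
    rw [this, Real.log_zero] at hr3
    linarith
  have hbig := h3 m hm3 r hr1 hr2
  have hbig2 : Real.exp (3 / 10 * a) ≤ s / 2 := by
    have e1 : 3 / 10 * a ≤ 87 / 100 * c := by
      have : a * 0.69 ≤ 2 * c := le_trans (mul_le_mul_of_nonneg_left hlog'.le hapos.le) hal
      norm_num at this
      linarith
    have e2 : Real.exp (3 / 10 * a) * 2 ≤ s := by
      have h2e : (2 : ℝ) ≤ Real.exp (13 / 100 * c) := by
        have := Real.add_one_le_exp (13 / 100 * c)
        norm_num at hc1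
        linarith
      calc Real.exp (3 / 10 * a) * 2 ≤ Real.exp (87 / 100 * c) * Real.exp (13 / 100 * c) := by
            gcongr
        _ = Real.exp c := by rw [← Real.exp_add]; congr 1; ring
        _ ≤ Real.exp (Real.log s) := Real.exp_le_exp.mpr hr3
        _ = s := Real.exp_log hspos
    linarith
  let G := (stF m r).filter (fun X => ¬ (19 / 20 * al m r < (X.card : ℝ)))
  have hGcard : s / 2 ≤ (G.card : ℝ) := by
    have := Finset.card_filter_add_card_filter_not (s := stF m r)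
      (fun X => 19 / 20 * al m r < (X.card : ℝ))
    have h' : (((stF m r).filter (fun X => 19 / 20 * al m r < (X.card : ℝ))).card : ℝ) +
        (G.card : ℝ) = s := by
      rw [hs]; exact_mod_cast this
    linarith
  have hG := hGLU m r (1 / 20) hr hrm (by norm_num) (by norm_num) G (Finset.filter_subset _ _) (by
    intro I hI
    have := (Finset.mem_filter.mp hI).2
    push Not at this
    calc (I.card : ℝ) ≤ 19 / 20 * al m r := this
      _ = (1 - 1 / 20) * al m r := by norm_num)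
  set q := ⌊2 / (1 / 20 : ℝ) ^ 2 * ((al m r) ^ 2 / (m.choose r : ℝ))⌋₊ with hq
  have hGpos : 0 < (G.card : ℝ) := by linarith
  have hchoose : al m r * ((m : ℝ) - r + 1) = (m.choose r : ℝ) := al_mul hr hrm
  have hr1' : (m : ℝ) ≤ 4 * r := by exact_mod_cast hr1
  have hr2' : 2 * (r : ℝ) ≤ m := by exact_mod_cast hr2
  have hchoose1 : (m.choose (r - 1) : ℝ) = r * a := by
    rw [ha]; unfold al
    have : (r : ℝ) ≠ 0 := by positivity
    field_simp
  -- bound of sbs
  have hqle : (q : ℝ) ≤ 1600 * a / m := by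
    have h0 : (0 : ℝ) ≤ 2 / (1 / 20 : ℝ) ^ 2 * ((al m r) ^ 2 / (m.choose r : ℝ)) := by positivity
    refine (Nat.floor_le h0).trans ?_
    rw [← hchoose, ← ha]
    have hden : (0 : ℝ) < (m : ℝ) - r + 1 := by linarith
    have e : (2 / (1 / 20 : ℝ) ^ 2 * (a ^ 2 / (a * ((m : ℝ) - r + 1)))) =
        800 * a / ((m : ℝ) - r + 1) := by
      field_simp; norm_num
    rw [e, div_le_div_iff₀ hden hmpos]
    nlinarith
  have hsbs : Real.log (sbs (m.choose r) q : ℝ) ≤ 1 / 50000 * c := by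
    have h' := hSBS (m.choose r) q ((m : ℝ) ^ 4) (one_le_pow₀ (by linarith))
    have hpos : 0 < (sbs (m.choose r) q : ℝ) := by
      have : 0 < sbs (m.choose r) q := by
        unfold sbs
        exact Finset.sum_pos' (fun i _ => Nat.zero_le _) ⟨0, by simp, by simp⟩
      exact_mod_cast this
    have h'' := Real.log_le_log hpos h'
    rw [Real.log_mul (by positivity) (Real.exp_pos _).ne', Real.log_exp, Real.log_pow,
      Real.log_pow] at h''
    have e1 : (q : ℝ) * ((4 : ℕ) * Real.log m) ≤ 1 / 10 ^ 6 * c := by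
      have hl := h6 m hm6
      have hl0 : 0 ≤ Real.log m := Real.log_nonneg (by linarith)
      have hac : a ≤ 4 * c := by
        have : a * 0.69 ≤ 2 * c := le_trans (mul_le_mul_of_nonneg_left hlog'.le hapos.le) hal
        norm_num at this
        have hc0 : 0 ≤ c := cc_nonneg m
        linarith
      calc (q : ℝ) * ((4 : ℕ) * Real.log m) ≤ (1600 * a / m) * ((4 : ℕ) * (1 / 10 ^ 12 * m)) := by
            gcongr
        _ = 6400 * a / 10 ^ 12 := by push_cast; field_simp; ring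
        _ ≤ 1 / 10 ^ 6 * c := by
            have hc0 : 0 ≤ c := cc_nonneg m
            norm_num
            linarith
    have e2 : (m.choose r : ℝ) / (m : ℝ) ^ 4 ≤ 1 / 10 ^ 6 * c := by
      have hac : a ≤ 4 * c := by
        have : a * 0.69 ≤ 2 * c := le_trans (mul_le_mul_of_nonneg_left hlog'.le hapos.le) hal
        norm_num at this
        have hc0 : 0 ≤ c := cc_nonneg m
        linarith
      rw [← hchoose, ← ha, div_le_iff₀ (by positivity)]
      have hm1' : (m : ℝ) - r + 1 ≤ m := by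
        have : (1 : ℝ) ≤ r := by exact_mod_cast hr
        linarith
      have hc0 : 0 ≤ c := cc_nonneg m
      have hm3' : (10 : ℝ) ^ 7 ≤ (m : ℝ) ^ 3 := by
        calc (10 : ℝ) ^ 7 ≤ (100000 : ℝ) ^ 3 := by norm_num
          _ ≤ (m : ℝ) ^ 3 := pow_le_pow_left₀ (by norm_num) hm7' 3
      calc a * ((m : ℝ) - r + 1) ≤ (4 * c) * m := by
            apply mul_le_mul hac hm1' (by linarith) (by linarith)
        _ = (1 / 10 ^ 6 * c) * ((4 * 10 ^ 6) * m) := by ring
        _ ≤ (1 / 10 ^ 6 * c) * ((m : ℝ) ^ 3 * m) := by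
            apply mul_le_mul_of_nonneg_left _ (by positivity)
            apply mul_le_mul_of_nonneg_right _ hmpos.le
            norm_num at hm3' ⊢
            linarith
        _ = 1 / 10 ^ 6 * c * (m : ℝ) ^ 4 := by ring
    have hc0 : 0 ≤ c := cc_nonneg m
    norm_num at e1 e2 h'' ⊢
    linarith
  have hfac : Real.log (m.factorial : ℝ) ≤ 1 / 100000 * c := by
    have e2 := fac_le m
    have e3 : (m : ℝ) * m ≤ (m : ℝ) ^ 3 := by nlinarith
    linarith
  -- take logarithms
  have hpos1 : 0 < (sbs (m.choose r) q : ℝ) := by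
    have : 0 < sbs (m.choose r) q := by
      unfold sbs
      exact Finset.sum_pos' (fun i _ => Nat.zero_le _) ⟨0, by simp, by simp⟩
    exact_mod_cast this
  have hst2pos : 0 < ((stF (m + 2) (r + 1)).card : ℝ) := by
    by_contra hcon
    have : ((stF (m + 2) (r + 1)).card : ℝ) = 0 := le_antisymm (not_lt.mp hcon) (by positivity)
    rw [this, zero_mul] at hG
    have : 0 < (G.card : ℝ) ^ 2 *
      (2 : ℝ) ^ ((1 / 20 : ℝ) ^ 2 / 2 * (m.choose (r - 1) : ℝ) / m) := by positivity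
    linarith
  have hlogG := Real.log_le_log (by positivity) hG
  rw [Real.log_mul (by positivity) (by positivity), Real.log_pow,
    Real.log_rpow (by norm_num), Real.log_mul (by positivity) (by positivity),
    Real.log_mul (by positivity) (by positivity)] at hlogG
  have hlogG2 : Real.log s - Real.log 2 ≤ Real.log (G.card : ℝ) := by
    rw [← Real.log_div (by positivity) (by norm_num)]
    exact Real.log_le_log (by positivity) hGcard
  have hgain : 1 / 6400 * c ≤ (1 / 20 : ℝ) ^ 2 / 2 * (m.choose (r - 1) : ℝ) / m * Real.log 2 := by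
    rw [hchoose1]
    have e1 : (1 / 20 : ℝ) ^ 2 / 2 * (r * a) / m * Real.log 2 =
        1 / 800 * ((r : ℝ) / m) * (a * Real.log 2) := by ring
    rw [e1]
    have e2 : (1 / 4 : ℝ) ≤ (r : ℝ) / m := by
      rw [le_div_iff₀ hmpos]; linarith
    have e3 : c / 2 ≤ a * Real.log 2 := by linarith
    calc 1 / 6400 * c = 1 / 800 * (1 / 4) * (c / 2) := by ring
      _ ≤ 1 / 800 * ((r : ℝ) / m) * (a * Real.log 2) := by
          have hc0 : 0 ≤ c := cc_nonneg m
          gcongr
  have hknp : Real.log ((stF (m + 2) (r + 1)).card : ℝ) ≤ Real.log (num PavK (m + 2)) := by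
    apply Real.log_le_log hst2pos
    exact_mod_cast hKNP (m + 2) (r + 1)
  have hcc2 : cc (m + 2) ≤ 5 * c := by
    have e1 := (h4 m hm4).2
    have e2 := (h4 (m + 1) (by omega)).2
    have e3 : cc (m + 1 + 1) = cc (m + 2) := rfl
    have hc0 : 0 ≤ c := cc_nonneg m
    rw [e3] at e2
    rw [← hc] at e1
    norm_num at e1 e2
    linarith
  have hlog2' : Real.log 2 ≤ 1 := by
    have := Real.log_two_lt_d9
    linarith
  norm_num at hc1 hr4 hsbs hfac hgain hlogG ⊢
  linarith

end Asm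

end Pool.Agent.MAE
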