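import Pool.Agent.Helper3.MAS.Defs

/-!
Paving matroids.
-/

namespace Pool.Agent.MAE

open Pool.Agent.Helper3.MAS

/-- A matroid is paving if every circuit has at least as many elements as the rank. -/
def Paving {n : ℕ} (M : LabelledMatroid n) : Prop :=
  ∀ C : Set (Fin n), M.1.IsCircuit C → M.1.eRank ≤ C.encard

/-- the labelled paving matroids on `n` elements -/
def pavingSet (n : ℕ) : Set (LabelledMatroid n) := {M | Paving M}

end Pool.Agent.MAE
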