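import Pool.Agent.MAE.Asm1
import Pool.Agent.MAE.PavDef
import Pool.Agent.Helper3.MAS.Transfer

/-!
Assembly, second part: from families to matroids.
-/

set_option autoImplicit false

namespace Pool.Agent.MAE

open Pool.Agent.Helper3.MAS Finset

namespace Asm

variable {n : ℕ}

theorem card_fam {M : LabelledMatroid n} {B : Finset ℕ} (hB : B ∈ fam M) :
    M.1.eRank = (B.card : ℕ∞) := by
  rw [mem_fam] at hB
  rw [← hB.2.encard_eq_eRank]
  have h1 : (dn n B).encard = ((Fin.val '' (dn n B)) : Set ℕ).encard :=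
    (Fin.val_injective.encard_image _).symm
  rw [h1]
  have h2 : (Fin.val '' (dn n B)) = (B : Set ℕ) := by
    ext k
    constructor
    · rintro ⟨i, hi, rfl⟩; exact hi
    · intro hk
      exact ⟨⟨k, Finset.mem_range.mp (hB.1 hk)⟩, hk, rfl⟩
  rw [h2, Set.encard_coe_eq_coe_finsetCard]

theorem encard_up (X : Set (Fin n)) : X.encard = ((up X).card : ℕ∞) := by
  have h1 : X.encard = ((Fin.val '' X) : Set ℕ).encard := (Fin.val_injective.encard_image _).symm
  rw [h1]
  have h2 : (Fin.val '' X) = (up X : Set ℕ) := by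
    ext k
    constructor
    · rintro ⟨i, hi, rfl⟩; exact Finset.mem_coe.mpr (mem_up.mpr hi)
    · intro hk
      obtain ⟨h, hk'⟩ := mem_up'.mp (Finset.mem_coe.mp hk)
      exact ⟨⟨k, h⟩, hk', rfl⟩
  rw [h2, Set.encard_coe_eq_coe_finsetCard]

/-- paving matroids and paving families -/
theorem pav_iff (M : LabelledMatroid n) : PavK (range n) (fam M) ↔ Paving M := by
  constructor
  · rintro ⟨-, h⟩ C hC
    by_contra hlt
    push Not at hlt
    obtain ⟨B, hB⟩ := fam_nonempty M
    have hr := card_fam hB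
    rw [hr, encard_up] at hlt
    have hlt' : (up C).card < B.card := by exact_mod_cast hlt
    have hBn : B.card ≤ (range n).card := Finset.card_le_card (mem_fam.mp hB).1
    obtain ⟨Z, hCZ, hZn, hZc⟩ := Finset.exists_subsuperset_card_eq (up_subset C)
      (show (up C).card ≤ B.card - 1 by omega) (show B.card - 1 ≤ (range n).card by omega)
    obtain ⟨B', hB', hZB'⟩ := h B hB Z hZn (by omega)
    have hind : M.1.Indep (dn n B') := (mem_fam.mp hB').2.indep
    have hsub : C ⊆ dn n B' := by
      intro i hi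
      exact hZB' (hCZ (mem_up.mpr hi))
    exact hC.not_indep (hind.subset hsub)
  · intro h
    refine ⟨fam_ExK M, ?_⟩
    intro B hB Z hZ hZc
    have hE : dn n Z ⊆ M.1.E := by rw [M.2]; exact Set.subset_univ _
    by_cases hind : M.1.Indep (dn n Z)
    · obtain ⟨D, hD, hZD⟩ := hind.exists_isBase_superset
      refine ⟨up D, (isBase_iff M D).mp hD, ?_⟩
      intro k hk
      have hkn : k < n := Finset.mem_range.mp (hZ hk)
      exact mem_up'.mpr ⟨hkn, hZD hk⟩
    · exfalso
      obtain ⟨C, hCZ, hC⟩ := (Matroid.not_indep_iff (M := M.1) hE |>.mp hind).exists_isCircuit_subset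
      have h1 := h C hC
      rw [card_fam hB] at h1
      have h2 : C.encard ≤ (dn n Z).encard := Set.encard_le_encard hCZ
      rw [encard_up (dn n Z), up_dn hZ] at h2
      have h3 : (B.card : ℕ∞) ≤ (Z.card : ℕ∞) := h1.trans h2
      have h4 : B.card ≤ Z.card := by exact_mod_cast h3
      omega

theorem paving_isoClosed (n : ℕ) : IsoClosed (pavingSet n) := by
  rintro M N ⟨σ, hσ⟩ hM
  rw [isIso_iff] at hσ
  subst hσ
  intro C hC
  have h1 : M.1.IsCircuit (σ.symm '' C) := by
    have hc : (M.1.mapEquiv σ).IsCircuit C := hC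
    rw [Matroid.isCircuit_iff_minimal_not_indep
      (by rw [Matroid.mapEquiv_ground_eq, M.2]; simp)] at hc
    rw [Matroid.isCircuit_iff_minimal_not_indep (by rw [M.2]; exact Set.subset_univ _)]
    constructor
    · have h0 : ¬ (M.1.mapEquiv σ).Indep C := hc.1
      rw [Matroid.mapEquiv_indep_iff] at h0
      exact h0
    · intro D hD hDC
      have h2 : ¬ (M.1.mapEquiv σ).Indep (σ '' D) := by
        rw [Matroid.mapEquiv_indep_iff, Equiv.symm_image_image]; exact hD
      have h3 := hc.2 h2 (by
        rintro _ ⟨d, hd, rfl⟩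
        obtain ⟨c, hc', hcd⟩ := hDC hd
        rw [← hcd, Equiv.apply_symm_apply]; exact hc')
      rintro _ ⟨c, hc', rfl⟩
      obtain ⟨d, hd, hdc⟩ := h3 hc'
      rw [← hdc, Equiv.symm_apply_apply]; exact hd
  have h2 := hM _ h1
  have h3 : (σ • M).1.eRank = M.1.eRank := by
    obtain ⟨B, hB⟩ := M.1.exists_isBase
    have hB' : (σ • M).1.IsBase (σ '' B) := by
      rw [smul_isBase, Equiv.symm_image_image]; exact hB
    rw [← hB.encard_eq_eRank, ← hB'.encard_eq_eRank, σ.injective.encard_image]
  rw [h3]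
  rwa [σ.symm.injective.encard_image] at h2

theorem PavK_empty (S : Finset ℕ) : PavK S ∅ :=
  ⟨ExK_empty S, fun B hB => absurd hB (Finset.notMem_empty B)⟩

/-- one family more than paving matroids -/
theorem card_paving (n : ℕ) : (pavingSet n).ncard + 1 = num PavK n := by
  unfold num cnt
  have h1 : {F | PavK (range n) F} = insert ∅ (fam '' (pavingSet n)) := by
    ext F
    simp only [Set.mem_ofPred_eq, Set.mem_insert_iff, Set.mem_image]
    constructor
    · intro hF
      rcases Finset.eq_empty_or_nonempty F with h | h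
      · exact Or.inl h
      · obtain ⟨M, hM⟩ := exists_of_ExK hF.1 h
        refine Or.inr ⟨M, ?_, hM⟩
        exact (pav_iff M).mp (by rw [hM]; exact hF)
    · rintro (rfl | ⟨M, hM, rfl⟩)
      · exact PavK_empty _
      · exact (pav_iff M).mpr hM
  have hfin : (fam '' (pavingSet n)).Finite := (Set.toFinite _).image _
  rw [h1, Set.ncard_insert_of_notMem _ hfin, Set.ncard_image_of_injective _ fam_injective]
  rintro ⟨M, -, hM⟩
  exact (fam_nonempty M).ne_empty hM

theorem num_pos_pav (n : ℕ) : 1 ≤ num PavK n := by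
  rw [← card_paving n]; omega

theorem num_pos_ex (n : ℕ) : 1 ≤ num ExK n := by
  rw [← card_labelled n]; omega

/-- free matroids are paving -/
theorem paving_pos (n : ℕ) : 0 < (pavingSet n).ncard := by
  have : (⟨Matroid.freeOn Set.univ, rfl⟩ : LabelledMatroid n) ∈ pavingSet n := by
    intro C hC
    exfalso
    apply hC.not_indep
    change (Matroid.freeOn Set.univ).Indep C
    rw [Matroid.freeOn_indep_iff]
    exact Set.subset_univ _
  exact (Set.ncard_pos (Set.toFinite _)).mpr ⟨_, this⟩

/-- Burnside for paving matroids -/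
theorem pav_bounds (hPMC : Stmt_PMC) (n : ℕ) :
    (pavingSet n).ncard ≤ (Quotient.mk (isoSetoid n) '' pavingSet n).ncard * n.factorial ∧
    (Quotient.mk (isoSetoid n) '' pavingSet n).ncard * n.factorial ≤ (pavingSet n).ncard +
      ∑ σ ∈ (univ : Finset (Equiv.Perm (Fin n))).erase 1, fx PavK (exm σ) (range n) := by
  classical
  rw [burnside (pavingSet n) (paving_isoClosed n),
    ← Finset.add_sum_erase _ _ (Finset.mem_univ (1 : Equiv.Perm (Fin n)))]
  have h1 : {M | M ∈ pavingSet n ∧ IsIso 1 M M} = pavingSet n := by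
    ext M
    exact ⟨fun h => h.1, fun h => ⟨h, isIso_one M⟩⟩
  rw [h1]
  refine ⟨Nat.le_add_right _ _, Nat.add_le_add_left ?_ _⟩
  apply Finset.sum_le_sum
  intro σ _
  unfold fx
  apply Set.ncard_le_ncard_of_injOn fam _ fam_injective.injOn
    ((fin_cls hPMC (range n)).subset (fun F hF => hF.1))
  intro M hM
  exact ⟨(pav_iff M).mpr hM.1, rl_fam hM.2⟩

/-- Burnside for all matroids -/
theorem all_bounds (n : ℕ) :
    Nat.card (LabelledMatroid n) ≤ Nat.card (Quotient (isoSetoid n)) * n.factorial ∧
    Nat.card (Quotient (isoSetoid n)) * n.factorial ≤ Nat.card (LabelledMatroid n) +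
      ∑ σ ∈ (univ : Finset (Equiv.Perm (Fin n))).erase 1, fx ExK (exm σ) (range n) := by
  classical
  have hu : (Quotient.mk (isoSetoid n) '' (Set.univ : Set (LabelledMatroid n))).ncard =
      Nat.card (Quotient (isoSetoid n)) := by
    rw [Set.image_univ, Set.range_eq_univ.mpr Quotient.mk_surjective, Set.ncard_univ]
  rw [← hu, ← Set.ncard_univ, burnside Set.univ (fun _ _ _ _ => trivial),
    ← Finset.add_sum_erase _ _ (Finset.mem_univ (1 : Equiv.Perm (Fin n)))]
  have h1 : {M : LabelledMatroid n | M ∈ Set.univ ∧ IsIso 1 M M} = Set.univ := by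
    ext M
    exact ⟨fun h => h.1, fun h => ⟨h, isIso_one M⟩⟩
  rw [h1]
  refine ⟨Nat.le_add_right _ _, Nat.add_le_add_left ?_ _⟩
  apply Finset.sum_le_sum
  intro σ _
  unfold fx
  apply Set.ncard_le_ncard_of_injOn fam _ fam_injective.injOn
    ((fin_cls ExK_MC (range n)).subset (fun F hF => hF.1))
  intro M hM
  exact ⟨fam_ExK M, rl_fam hM.2⟩

end Asm

end Pool.Agent.MAE
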