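import Pool.Agent.MAE.Asm2

/-!
Assembly, third part: the equivalence.
-/

set_option autoImplicit false

namespace Pool.Agent.MAE

open Pool.Agent.Helper3.MAS Finset Filter Topology

namespace Asm

/-- few pairs for paving matroids -/
theorem pav_pairs (hPMC : Stmt_PMC) (hKNP : Stmt_KNP) (hKNU : Stmt_KNU) (hSTW : Stmt_STW)
    (hPUP : Stmt_PUP) (hBIG : Stmt_BIG) (hGLU : Stmt_GLU) (hSBS : Stmt_SBS) (hCCR : Stmt_CCR)
    (hCCI : Stmt_CCI) (hGEN : Stmt_GEN) : ∀ ε : ℝ, 0 < ε → ∃ n₀ : ℕ, ∀ n ≥ n₀,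
    (∑ σ ∈ (univ : Finset (Equiv.Perm (Fin n))).erase 1, (fx PavK (exm σ) (range n) : ℝ)) ≤
      ε * num PavK n := by
  have hlow : ∀ n, 1 ≤ n → cc n ≤ Real.log (num PavK n) := by
    intro n hn
    refine (hKNU n hn).trans ?_
    rcases Nat.eq_zero_or_pos (stF n (n / 2)).card with h | h
    · rw [h, Nat.cast_zero, Real.log_zero]
      apply Real.log_nonneg
      exact_mod_cast num_pos_pav n
    · apply Real.log_le_log (by exact_mod_cast h)
      exact_mod_cast hKNP n (n / 2)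
  exact hGEN PavK hPMC (fun S F h => h.1.2) hlow num_pos_pav (upa hSTW hPUP)
    (npa hSTW hPUP hBIG hGLU hKNP hSBS hCCR hCCI)

/-- few pairs for all matroids, if paving matroids have positive lower density -/
theorem all_pairs (hPMC : Stmt_PMC) (hKNP : Stmt_KNP) (hKNU : Stmt_KNU) (hSTW : Stmt_STW)
    (hPUP : Stmt_PUP) (hBIG : Stmt_BIG) (hGLU : Stmt_GLU) (hSBS : Stmt_SBS) (hCCR : Stmt_CCR)
    (hCCI : Stmt_CCI) (hGEN : Stmt_GEN) (c : ℝ) (hc : 0 < c)
    (hpos : ∃ n₁ : ℕ, ∀ n ≥ n₁, c ≤ labelledProportion (pavingSet n)) :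
    ∀ ε : ℝ, 0 < ε → ∃ n₀ : ℕ, ∀ n ≥ n₀,
    (∑ σ ∈ (univ : Finset (Equiv.Perm (Fin n))).erase 1, (fx ExK (exm σ) (range n) : ℝ)) ≤
      ε * num ExK n := by
  have hlow : ∀ n, 1 ≤ n → cc n ≤ Real.log (num PavK n) := by
    intro n hn
    refine (hKNU n hn).trans ?_
    rcases Nat.eq_zero_or_pos (stF n (n / 2)).card with h | h
    · rw [h, Nat.cast_zero, Real.log_zero]
      apply Real.log_nonneg
      exact_mod_cast num_pos_pav n
    · apply Real.log_le_log (by exact_mod_cast h)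
      exact_mod_cast hKNP n (n / 2)
  -- comparison of the two counting functions
  have hle : ∀ n, (num PavK n : ℝ) ≤ num ExK n := by
    intro n
    rw [← card_labelled n, ← card_paving n]
    have : (pavingSet n).ncard ≤ Nat.card (LabelledMatroid n) := by
      rw [← Set.ncard_univ]; exact Set.ncard_le_ncard (Set.subset_univ _)
    exact_mod_cast Nat.add_le_add_right this 1
  obtain ⟨n₁, hn₁⟩ := hpos
  let C : ℝ := 1 / c + 1
  have hC1 : 1 ≤ C := by
    have : 0 < 1 / c := by positivity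
    simp only [C]; linarith
  have hge : ∀ n ≥ n₁, (num ExK n : ℝ) ≤ C * num PavK n := by
    intro n hn
    have h1 := hn₁ n hn
    unfold labelledProportion at h1
    have hl : (0 : ℝ) < Nat.card (LabelledMatroid n) := by exact_mod_cast labelled_pos n
    rw [le_div_iff₀ hl] at h1
    have h2 : ((num ExK n : ℕ) : ℝ) = Nat.card (LabelledMatroid n) + 1 := by
      rw [← card_labelled n]; push_cast; ring
    have h3 : ((num PavK n : ℕ) : ℝ) = (pavingSet n).ncard + 1 := by
      rw [← card_paving n]; push_cast; ring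
    have h4 : (Nat.card (LabelledMatroid n) : ℝ) ≤ 1 / c * (pavingSet n).ncard := by
      rw [div_mul_eq_mul_div, one_mul, le_div_iff₀ hc]; linarith
    have h5 : (0 : ℝ) ≤ (pavingSet n).ncard := by positivity
    have h6 : 0 < 1 / c := by positivity
    rw [h2, h3]
    simp only [C]
    nlinarith
  have hlogle : ∀ n ≥ n₁, Real.log (num ExK n) ≤ Real.log C + Real.log (num PavK n) := by
    intro n hn
    have h1 : (0 : ℝ) < num PavK n := by exact_mod_cast num_pos_pav n
    have h2 : (0 : ℝ) < num ExK n := lt_of_lt_of_le h1 (hle n)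
    rw [← Real.log_mul (by positivity) h1.ne']
    exact Real.log_le_log h2 (hge n hn)
  have hlogge : ∀ n, Real.log (num PavK n) ≤ Real.log (num ExK n) := by
    intro n
    have h1 : (0 : ℝ) < num PavK n := by exact_mod_cast num_pos_pav n
    exact Real.log_le_log h1 (hle n)
  have hlogC : 0 ≤ Real.log C := Real.log_nonneg hC1
  -- a constant is small against `cc`
  have hconst : ∀ ε : ℝ, 0 < ε → ∃ n₀ : ℕ, ∀ n ≥ n₀, Real.log C ≤ ε * cc n := by
    intro ε hε
    obtain ⟨n₂, h2⟩ := hCCI ε hε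
    obtain ⟨n₃, h3⟩ := exists_nat_ge (Real.log C)
    refine ⟨max (max n₂ n₃) 1, fun n hn => ?_⟩
    simp only [ge_iff_le, max_le_iff] at hn
    have h4 := h2 n hn.1.1
    have h5 : Real.log C ≤ n := h3.trans (by exact_mod_cast hn.1.2)
    have h6 : (1 : ℝ) ≤ n := by exact_mod_cast hn.2
    have h7 : (n : ℝ) ≤ (n : ℝ) ^ 3 := by nlinarith [sq_nonneg ((n : ℝ))]
    linarith
  refine hGEN ExK ExK_MC (fun S F h => h.2) (fun n hn => (hlow n hn).trans (hlogge n))
    num_pos_ex ?_ ?_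
  · intro ε hε
    obtain ⟨n₂, h2⟩ := upa hSTW hPUP (ε / 2) (by linarith)
    obtain ⟨n₃, h3⟩ := hconst (ε / 2) (by linarith)
    refine ⟨max (max n₂ n₃) n₁, fun n hn => ?_⟩
    simp only [ge_iff_le, max_le_iff] at hn
    have h4 := h2 n hn.1.1
    have h5 := h3 n hn.1.2
    have h6 := hlogle n hn.2
    linarith
  · obtain ⟨c₀, hc₀, n₂, h2⟩ := npa hSTW hPUP hBIG hGLU hKNP hSBS hCCR hCCI
    obtain ⟨n₃, h3⟩ := hconst (c₀ / 4) (by linarith)
    refine ⟨c₀ / 2, by linarith, max (max n₂ n₃) n₁, fun n hn => ?_⟩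
    simp only [ge_iff_le, max_le_iff] at hn
    have h4 := h2 n hn.1.1
    have h5 := h3 (n + 2) (by omega)
    have h6 := hlogle n hn.2
    have h7 := hlogge (n + 2)
    linarith

/-- the abstract conclusion -/
theorem conclude (hP : ∀ ε : ℝ, 0 < ε → ∃ n₀ : ℕ, ∀ n ≥ n₀,
      (∑ σ ∈ (univ : Finset (Equiv.Perm (Fin n))).erase 1, (fx PavK (exm σ) (range n) : ℝ)) ≤
        ε * num PavK n)
    (hPMC : Stmt_PMC)
    (hA : ∀ c : ℝ, 0 < c → (∃ n₁ : ℕ, ∀ n ≥ n₁, c ≤ labelledProportion (pavingSet n)) →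
      ∀ ε : ℝ, 0 < ε → ∃ n₀ : ℕ, ∀ n ≥ n₀,
      (∑ σ ∈ (univ : Finset (Equiv.Perm (Fin n))).erase 1, (fx ExK (exm σ) (range n) : ℝ)) ≤
        ε * num ExK n) :
    (∀ ε : ℝ, 0 < ε → ∃ n₀ : ℕ, ∀ n ≥ n₀, ((pavingSet n).ncard : ℝ) ≤
      (Quotient.mk (isoSetoid n) '' pavingSet n).ncard * n.factorial ∧
      ((Quotient.mk (isoSetoid n) '' pavingSet n).ncard : ℝ) * n.factorial ≤
        (1 + ε) * (pavingSet n).ncard) ∧
    (∀ ε : ℝ, 0 < ε → ∃ n₀ : ℕ, ∀ n ≥ n₀,
      unlabelledProportion (pavingSet n) ≤ (1 + ε) * labelledProportion (pavingSet n)) ∧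
    (∀ c : ℝ, 0 < c → (∃ n₁ : ℕ, ∀ n ≥ n₁, c ≤ labelledProportion (pavingSet n)) →
      ∀ ε : ℝ, 0 < ε → ∃ n₀ : ℕ, ∀ n ≥ n₀,
        labelledProportion (pavingSet n) ≤ (1 + ε) * unlabelledProportion (pavingSet n)) := by
  have h1 : ∀ ε : ℝ, 0 < ε → ∃ n₀ : ℕ, ∀ n ≥ n₀, ((pavingSet n).ncard : ℝ) ≤
      (Quotient.mk (isoSetoid n) '' pavingSet n).ncard * n.factorial ∧
      ((Quotient.mk (isoSetoid n) '' pavingSet n).ncard : ℝ) * n.factorial ≤
        (1 + ε) * (pavingSet n).ncard := by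
    intro ε hε
    obtain ⟨n₀, h⟩ := hP (ε / 2) (by linarith)
    refine ⟨n₀, fun n hn => ?_⟩
    obtain ⟨b1, b2⟩ := pav_bounds hPMC n
    have b1' : ((pavingSet n).ncard : ℝ) ≤
      (Quotient.mk (isoSetoid n) '' pavingSet n).ncard * n.factorial := by exact_mod_cast b1
    have b2' : ((Quotient.mk (isoSetoid n) '' pavingSet n).ncard : ℝ) * n.factorial ≤
      (pavingSet n).ncard +
      ∑ σ ∈ (univ : Finset (Equiv.Perm (Fin n))).erase 1, (fx PavK (exm σ) (range n) : ℝ) := by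
      exact_mod_cast b2
    have b3 := h n hn
    have b4 : ((num PavK n : ℕ) : ℝ) = (pavingSet n).ncard + 1 := by
      rw [← card_paving n]; push_cast; ring
    have b5 : (1 : ℝ) ≤ (pavingSet n).ncard := by exact_mod_cast paving_pos n
    refine ⟨b1', ?_⟩
    rw [b4] at b3
    nlinarith
  refine ⟨h1, ?_, ?_⟩
  · intro ε hε
    obtain ⟨n₀, h⟩ := h1 ε hε
    refine ⟨n₀, fun n hn => ?_⟩
    obtain ⟨-, h2⟩ := h n hn
    obtain ⟨a1, -⟩ := all_bounds n
    have a1' : (Nat.card (LabelledMatroid n) : ℝ) ≤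
      Nat.card (Quotient (isoSetoid n)) * n.factorial := by exact_mod_cast a1
    have hl : (0 : ℝ) < Nat.card (LabelledMatroid n) := by exact_mod_cast labelled_pos n
    have hN : (0 : ℝ) < n.factorial := by exact_mod_cast Nat.factorial_pos n
    have hf : (0 : ℝ) < Nat.card (Quotient (isoSetoid n)) := by
      by_contra hcon
      have : (Nat.card (Quotient (isoSetoid n)) : ℝ) = 0 :=
        le_antisymm (not_lt.mp hcon) (by positivity)
      rw [this, zero_mul] at a1'
      linarith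
    unfold unlabelledProportion labelledProportion
    rw [← mul_div_assoc, div_le_div_iff₀ hf hl]
    have hp0 : (0 : ℝ) ≤ (pavingSet n).ncard := by positivity
    have hq0 : (0 : ℝ) ≤ (Quotient.mk (isoSetoid n) '' pavingSet n).ncard := by positivity
    calc ((Quotient.mk (isoSetoid n) '' pavingSet n).ncard : ℝ) * Nat.card (LabelledMatroid n)
        ≤ ((Quotient.mk (isoSetoid n) '' pavingSet n).ncard : ℝ) *
            (Nat.card (Quotient (isoSetoid n)) * n.factorial) :=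
          mul_le_mul_of_nonneg_left a1' hq0
      _ = (((Quotient.mk (isoSetoid n) '' pavingSet n).ncard : ℝ) * n.factorial) *
            Nat.card (Quotient (isoSetoid n)) := by ring
      _ ≤ (1 + ε) * (pavingSet n).ncard * Nat.card (Quotient (isoSetoid n)) :=
          mul_le_mul_of_nonneg_right h2 hf.le
  · intro c hc hpos ε hε
    obtain ⟨n₀, h⟩ := hA c hc hpos (ε / 2) (by linarith)
    refine ⟨n₀, fun n hn => ?_⟩
    obtain ⟨b1, -⟩ := pav_bounds hPMC n
    obtain ⟨a1, a2⟩ := all_bounds n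
    have b1' : ((pavingSet n).ncard : ℝ) ≤
      (Quotient.mk (isoSetoid n) '' pavingSet n).ncard * n.factorial := by exact_mod_cast b1
    have a2' : (Nat.card (Quotient (isoSetoid n)) : ℝ) * n.factorial ≤
      Nat.card (LabelledMatroid n) +
      ∑ σ ∈ (univ : Finset (Equiv.Perm (Fin n))).erase 1, (fx ExK (exm σ) (range n) : ℝ) := by
      exact_mod_cast a2
    have a3 := h n hn
    have a4 : ((num ExK n : ℕ) : ℝ) = Nat.card (LabelledMatroid n) + 1 := by
      rw [← card_labelled n]; push_cast; ring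
    have hl1 : (1 : ℝ) ≤ Nat.card (LabelledMatroid n) := by exact_mod_cast labelled_pos n
    have hN : (0 : ℝ) < n.factorial := by exact_mod_cast Nat.factorial_pos n
    have a1' : (Nat.card (LabelledMatroid n) : ℝ) ≤
      Nat.card (Quotient (isoSetoid n)) * n.factorial := by exact_mod_cast a1
    have hf : (0 : ℝ) < Nat.card (Quotient (isoSetoid n)) := by
      by_contra hcon
      have : (Nat.card (Quotient (isoSetoid n)) : ℝ) = 0 :=
        le_antisymm (not_lt.mp hcon) (by positivity)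
      rw [this, zero_mul] at a1'
      linarith
    have hl : (0 : ℝ) < Nat.card (LabelledMatroid n) := by linarith
    have a5 : (Nat.card (Quotient (isoSetoid n)) : ℝ) * n.factorial ≤
        (1 + ε) * Nat.card (LabelledMatroid n) := by
      rw [a4] at a3
      nlinarith
    unfold unlabelledProportion labelledProportion
    rw [← mul_div_assoc, div_le_div_iff₀ hl hf]
    have hq0 : (0 : ℝ) ≤ (Quotient.mk (isoSetoid n) '' pavingSet n).ncard := by positivity
    calc ((pavingSet n).ncard : ℝ) * Nat.card (Quotient (isoSetoid n))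
        ≤ ((Quotient.mk (isoSetoid n) '' pavingSet n).ncard * n.factorial) *
            Nat.card (Quotient (isoSetoid n)) := mul_le_mul_of_nonneg_right b1' hf.le
      _ = ((Quotient.mk (isoSetoid n) '' pavingSet n).ncard : ℝ) *
            (Nat.card (Quotient (isoSetoid n)) * n.factorial) := by ring
      _ ≤ ((Quotient.mk (isoSetoid n) '' pavingSet n).ncard : ℝ) *
            ((1 + ε) * Nat.card (LabelledMatroid n)) := mul_le_mul_of_nonneg_left a5 hq0
      _ = _ := by ring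

/-- a squeeze -/
theorem squeeze {f g : ℕ → ℝ} {L : ℝ}
    (hf : ∀ n, 0 ≤ f n)
    (h1 : ∀ ε : ℝ, 0 < ε → ∃ n₀ : ℕ, ∀ n ≥ n₀, f n ≤ (1 + ε) * g n)
    (h2 : ∀ ε : ℝ, 0 < ε → ∃ n₀ : ℕ, ∀ n ≥ n₀, g n ≤ (1 + ε) * f n)
    (hg : Tendsto g atTop (𝓝 L)) : Tendsto f atTop (𝓝 L) := by
  have hL : 0 ≤ L := by
    apply ge_of_tendsto hg
    obtain ⟨n₀, h⟩ := h1 1 one_pos
    filter_upwards [eventually_ge_atTop n₀] with n hn
    have := h n hn
    linarith [hf n]
  rw [Metric.tendsto_atTop] at hg ⊢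
  intro ε hε
  -- choose δ with δ (L + 1) small
  let δ : ℝ := ε / (4 * (L + 1 + ε))
  have hδ : 0 < δ := by positivity
  obtain ⟨n₁, e1⟩ := h1 δ hδ
  obtain ⟨n₂, e2⟩ := h2 δ hδ
  obtain ⟨n₃, e3⟩ := hg (ε / 4) (by linarith)
  refine ⟨max (max n₁ n₂) n₃, fun n hn => ?_⟩
  simp only [ge_iff_le, max_le_iff] at hn
  have f1 := e1 n hn.1.1
  have f2 := e2 n hn.1.2
  have f3 := e3 n hn.2
  rw [Real.dist_eq, abs_lt] at f3 ⊢
  have hδ' : δ * (L + 1 + ε) = ε / 4 := by
    simp only [δ]; field_simp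
  have hg1 : g n < L + ε := by linarith
  have hf0 := hf n
  have hf2 : f n ≤ L + ε := by
    have : δ * g n ≤ δ * (L + 1 + ε) := mul_le_mul_of_nonneg_left (by linarith) hδ.le
    nlinarith
  have hδf : δ * f n ≤ ε / 4 := by
    rw [← hδ']; exact mul_le_mul_of_nonneg_left (by linarith) hδ.le
  have hδg : δ * g n ≤ ε / 4 := by
    rw [← hδ']; exact mul_le_mul_of_nonneg_left (by linarith) hδ.le
  constructor <;> nlinarith

end Asm

end Pool.Agent.MAE
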