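import Pool.Agent.MAE.GEN

/-!
GEQ: the general principle with an explicit bound (variant of GEN).
-/

set_option autoImplicit false

namespace Pool.Agent.MAE

open Pool.Agent.Helper3.MAS Finset

/-- the general principle, with a bound -/
def Stmt_GEQ : Prop := ∀ K : Finset ℕ → Finset (Finset ℕ) → Prop, MC K →
  (∀ S F, K S F → Exch F) → (∀ n, 1 ≤ n → cc n ≤ Real.log (num K n)) → (∀ n, 1 ≤ num K n) →
  (∀ ε : ℝ, 0 < ε → ∃ n₀ : ℕ, ∀ n ≥ n₀, Real.log (num K n) ≤ (2 + ε) * cc n) →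
  ∀ c₀ : ℝ, 0 < c₀ → (∃ n₀ : ℕ, ∀ n ≥ n₀,
    2 * Real.log (num K n) + c₀ * cc (n + 2) ≤ Real.log (num K (n + 2))) →
  ∃ n₀ : ℕ, ∀ n ≥ n₀,
    (∑ σ ∈ (univ : Finset (Equiv.Perm (Fin n))).erase 1, (fx K (exm σ) (range n) : ℝ)) ≤
      Real.exp (-(c₀ / 8 * cc n)) * num K n

open GEN_ in
theorem geq_proof (hTRI : Stmt_TRI) (hPEL : Stmt_PEL) (hCLO : Stmt_CLO) (hINV : Stmt_INV)
    (hCCR : Stmt_CCR) (hCCI : Stmt_CCI) : Stmt_GEQ := by
  intro K hK hEx hcc hnum hup c₀ hc₀ hgr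
  obtain ⟨n1, hgrow⟩ := hgr
  obtain ⟨η, hη, hη1, hηc⟩ : ∃ η : ℝ, 0 < η ∧ η ≤ 1 ∧ η ≤ c₀ / 44 :=
    ⟨min 1 (c₀ / 44), by positivity, min_le_left _ _, min_le_right _ _⟩
  obtain ⟨n2, h2⟩ := hup η hη
  obtain ⟨n3, h3⟩ := hCCR η hη
  obtain ⟨n4, h4⟩ := hCCI (c₀ / 8) (by positivity)
  obtain ⟨n5, h5⟩ := hINV K hK hEx hnum hup η hη
  refine ⟨n1 + n2 + n3 + n4 + n5 + 10, fun n hn => ?_⟩
  obtain ⟨m, rfl⟩ : ∃ m, n = m + 3 := ⟨n - 3, by omega⟩
  set N : ℕ → ℝ := fun k => Real.log (num K k) with hN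
  have hNpos : ∀ k, (0 : ℝ) < num K k := fun k => by
    have := hnum k
    exact_mod_cast this
  have hNexp : ∀ k, Real.exp (N k) = num K k := fun k => Real.exp_log (hNpos k)
  have hc3 := cc_nonneg (m + 3)
  -- growth of cc
  have r1 : 2 * cc (m + 2) ≤ (1 + η) * cc (m + 3) := (h3 (m + 2) (by omega)).1
  have r2 : 2 * cc (m + 1) ≤ (1 + η) * cc (m + 2) := (h3 (m + 1) (by omega)).1
  have r3 : 2 * cc m ≤ (1 + η) * cc (m + 1) := (h3 m (by omega)).1
  have s2 : 4 * cc (m + 1) ≤ (1 + η) ^ 2 * cc (m + 3) := by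
    have := mul_le_mul_of_nonneg_left r1 (show 0 ≤ 1 + η by linarith)
    nlinarith
  have s3 : 8 * cc m ≤ (1 + η) ^ 3 * cc (m + 3) := by
    have := mul_le_mul_of_nonneg_left s2 (show 0 ≤ 1 + η by linarith)
    nlinarith
  have hη3 : (1 + η) ^ 3 ≤ 1 + 7 * η := by nlinarith [mul_pos hη hη, mul_pos (mul_pos hη hη) hη]
  -- growth of num
  have g1 : 2 * N (m + 1) + c₀ * cc (m + 3) ≤ N (m + 3) := hgrow (m + 1) (by omega)
  have g2 : cc (m + 3) ≤ N (m + 3) := hcc (m + 3) (by omega)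
  have g3 : N m ≤ (2 + η) * cc m := h2 m (by omega)
  have cub : ((m + 3 : ℕ) : ℝ) ^ 3 ≤ c₀ / 8 * cc (m + 3) := h4 (m + 3) (by omega)
  have hm3 : (3 : ℝ) ≤ ((m + 3 : ℕ) : ℝ) := by push_cast; linarith [(Nat.cast_nonneg m : (0 : ℝ) ≤ m)]
  have key : ∀ σ : Equiv.Perm (Fin (m + 3)), σ ≠ 1 →
      (fx K (exm σ) (range (m + 3)) : ℝ) ≤
        num K (m + 3) * Real.exp (-(c₀ / 4 * cc (m + 3))) := by
    intro σ hσ
    have hgoal : (num K (m + 3) : ℝ) * Real.exp (-(c₀ / 4 * cc (m + 3))) =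
        Real.exp (N (m + 3) - c₀ / 4 * cc (m + 3)) := by
      rw [← hNexp, ← Real.exp_add]
      rfl
    rw [hgoal]
    set τ := exm σ with hτ
    by_cases hsq : ∃ i : Fin (m + 3), σ (σ i) ≠ i
    · obtain ⟨i, hi⟩ := hsq
      have hi1 : σ i ≠ i := fun h => hi (by rw [h, h])
      have hi2 : σ (σ i) ≠ σ i := fun h => hi1 (σ.injective h)
      have h := hTRI K hK m (range (m + 3)) (card_range _) τ i (σ i) (σ (σ i))
        (mem_range.2 i.2) (mem_range.2 (σ i).2) (mem_range.2 (σ (σ i)).2)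
        (fun h => hi1 (Fin.ext h).symm) (fun h => hi2 (Fin.ext h).symm)
        (fun h => hi (Fin.ext h).symm) (exm_apply σ i) (exm_apply σ (σ i)) (exm_pow σ)
      have h' : (fx K τ (range (m + 3)) : ℝ) ≤ (num K (m + 1) : ℝ) * (num K m : ℝ) ^ 2 := by
        exact_mod_cast h
      refine h'.trans ?_
      rw [← hNexp, ← hNexp, ← Real.exp_nat_mul, ← Real.exp_add, Real.exp_le_exp]
      push_cast
      have e1 : 2 * N m ≤ 2 * (2 + η) * cc m := by linarith
      have e2 : 2 * (2 + η) * cc m ≤ (2 + η) / 4 * ((1 + 7 * η) * cc (m + 3)) := by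
        have a1 : 8 * cc m ≤ (1 + 7 * η) * cc (m + 3) :=
          s3.trans (mul_le_mul_of_nonneg_right hη3 hc3)
        nlinarith
      have e3 : (2 + η) / 4 * ((1 + 7 * η) * cc (m + 3)) ≤ (1 / 2 + c₀ / 8) * cc (m + 3) := by
        have a2 : (2 + η) / 4 * (1 + 7 * η) ≤ 1 / 2 + c₀ / 8 := by nlinarith
        nlinarith
      nlinarith [mul_nonneg hc₀.le hc3]
    · push Not at hsq
      obtain ⟨i, hi⟩ : ∃ i, σ i ≠ i := by
        by_contra hcon
        push Not at hcon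
        exact hσ (Equiv.ext hcon)
      have hx : (i : ℕ) ∈ range (m + 3) := mem_range.2 i.2
      have hy : (σ i : ℕ) ∈ range (m + 3) := mem_range.2 (σ i).2
      have hxy : (i : ℕ) ≠ (σ i : ℕ) := fun h => hi (Fin.ext h).symm
      have t1 : τ (i : ℕ) = (σ i : ℕ) := exm_apply σ i
      have t2 : τ (σ i : ℕ) = (i : ℕ) := by rw [hτ, exm_apply, hsq]
      by_cases htr : ∀ w ∈ range (m + 3), w ≠ i → w ≠ σ i → τ w = w
      · have h := hCLO K hK hEx (m + 1) (range (m + 3)) (card_range _) τ i (σ i) hx hy hxy t1 t2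
          htr
        have h7 : num K (m + 2) ≤ num K (m + 1) * num K (m + 1) := num_succ_le hK (m + 1)
        have h8 : fx K τ (range (m + 3)) ≤ 3 * (num K (m + 1)) ^ 2 := by
          have : num K (m + 1 + 1) = num K (m + 2) := rfl
          nlinarith
        have h' : (fx K τ (range (m + 3)) : ℝ) ≤ 3 * (num K (m + 1) : ℝ) ^ 2 := by
          exact_mod_cast h8
        refine h'.trans ?_
        have a1 : (3 : ℝ) ≤ Real.exp 2 := by
          have := Real.add_one_le_exp (2 : ℝ)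
          linarith
        have a2 : 3 * (num K (m + 1) : ℝ) ^ 2 ≤ Real.exp 2 * Real.exp (2 * N (m + 1)) := by
          rw [← hNexp, ← Real.exp_nat_mul]
          push_cast
          exact mul_le_mul_of_nonneg_right a1 (Real.exp_pos _).le
        refine a2.trans ?_
        rw [← Real.exp_add, Real.exp_le_exp]
        have a3 : (27 : ℝ) ≤ ((m + 3 : ℕ) : ℝ) ^ 3 := by
          have := pow_le_pow_left₀ (by norm_num : (0 : ℝ) ≤ 3) hm3 3
          linarith
        linarith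
      · push Not at htr
        obtain ⟨w, hw, hwx, hwy, hww⟩ := htr
        have h := hPEL K hK (m + 1) (range (m + 3)) (card_range _) τ i (σ i) hx hy hxy t1 t2
        set S' := ((range (m + 3)).erase (i : ℕ)).erase (σ i : ℕ) with hS'
        have hcard : S'.card = m + 1 := by
          rw [hS', card_erase_of_mem (mem_erase.2 ⟨hxy.symm, hy⟩), card_erase_of_mem hx,
            card_range]
          rfl
        have hinv : ∀ w ∈ S', τ w ∈ S' ∧ τ (τ w) = w := by
          intro w hw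
          rw [hS', mem_erase, mem_erase] at hw
          obtain ⟨hw1, hw2, hw3⟩ := hw
          have q1 : τ (τ w) = w := by
            have e1 := exm_apply σ ⟨w, mem_range.1 hw3⟩
            rw [← hτ] at e1
            rw [show ((⟨w, mem_range.1 hw3⟩ : Fin (m + 3)) : ℕ) = w from rfl] at e1
            rw [e1, hτ, exm_apply, hsq]
          refine ⟨?_, q1⟩
          rw [hS', mem_erase, mem_erase]
          refine ⟨?_, ?_, exm_mem σ hw3⟩
          · intro h
            apply hw2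
            rw [← q1, h, t2]
          · intro h
            apply hw1
            rw [← q1, h, t1]
        have h9 := h5 S' (by rw [hcard]; omega) τ hinv ⟨w, by
          rw [hS', mem_erase, mem_erase]
          exact ⟨hwy, hwx, hw⟩, hww⟩
        rw [hcard] at h9
        have h' : (fx K τ (range (m + 3)) : ℝ) ≤ (num K (m + 1) : ℝ) * (fx K τ S' : ℝ) ^ 2 := by
          exact_mod_cast h
        have h10 : (fx K τ S' : ℝ) ≤ Real.exp ((1 + η) * cc (m + 1)) :=
          (Real.le_exp_log _).trans (Real.exp_le_exp.2 h9)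
        have h11 : (fx K τ S' : ℝ) ^ 2 ≤ Real.exp ((1 + η) * cc (m + 1)) ^ 2 := by
          have := (Nat.cast_nonneg (fx K τ S') : (0 : ℝ) ≤ _)
          gcongr
        refine (h'.trans (mul_le_mul_of_nonneg_left h11 (hNpos _).le)).trans ?_
        rw [← hNexp, ← Real.exp_nat_mul, ← Real.exp_add, Real.exp_le_exp]
        push_cast
        have e2 : 2 * ((1 + η) * cc (m + 1)) ≤ (1 + η) ^ 3 / 2 * cc (m + 3) := by
          have := mul_le_mul_of_nonneg_left s2 (show 0 ≤ 1 + η by linarith)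
          nlinarith
        have e3 : (1 + η) ^ 3 / 2 * cc (m + 3) ≤ (1 / 2 + c₀ / 8) * cc (m + 3) := by
          apply mul_le_mul_of_nonneg_right _ hc3
          linarith
        nlinarith [mul_nonneg hc₀.le hc3]
  refine (sum_le_sum (fun σ hσ => key σ (mem_erase.1 hσ).1)).trans ?_
  rw [sum_const, nsmul_eq_mul]
  have hcard : (((univ : Finset (Equiv.Perm (Fin (m + 3)))).erase 1).card : ℝ) ≤
      Real.exp (((m + 3 : ℕ) : ℝ) ^ 3) := by
    have c1 : ((univ : Finset (Equiv.Perm (Fin (m + 3)))).erase 1).card ≤ (m + 3) ^ (m + 3) := by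
      refine (card_erase_le).trans ?_
      rw [card_univ, Fintype.card_perm, Fintype.card_fin]
      exact Nat.factorial_le_pow (m + 3)
    have c2 : (((univ : Finset (Equiv.Perm (Fin (m + 3)))).erase 1).card : ℝ) ≤
        ((m + 3 : ℕ) : ℝ) ^ (m + 3) := by exact_mod_cast c1
    refine c2.trans ?_
    have c3 : ((m + 3 : ℕ) : ℝ) ≤ Real.exp ((m + 3 : ℕ) : ℝ) := by
      have := Real.add_one_le_exp ((m + 3 : ℕ) : ℝ)
      linarith
    calc ((m + 3 : ℕ) : ℝ) ^ (m + 3) ≤ Real.exp ((m + 3 : ℕ) : ℝ) ^ (m + 3) := by gcongr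
      _ = Real.exp (((m + 3 : ℕ) : ℝ) * ((m + 3 : ℕ) : ℝ)) := by rw [← Real.exp_nat_mul]
      _ ≤ Real.exp (((m + 3 : ℕ) : ℝ) ^ 3) := by
        rw [Real.exp_le_exp]
        nlinarith
  have hfin : Real.exp (((m + 3 : ℕ) : ℝ) ^ 3) * Real.exp (-(c₀ / 4 * cc (m + 3))) ≤
      Real.exp (-(c₀ / 8 * cc (m + 3))) := by
    rw [← Real.exp_add, Real.exp_le_exp]
    linarith
  calc (((univ : Finset (Equiv.Perm (Fin (m + 3)))).erase 1).card : ℝ) *
        (num K (m + 3) * Real.exp (-(c₀ / 4 * cc (m + 3))))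
      ≤ Real.exp (((m + 3 : ℕ) : ℝ) ^ 3) *
        (num K (m + 3) * Real.exp (-(c₀ / 4 * cc (m + 3)))) := by
        apply mul_le_mul_of_nonneg_right hcard
        exact mul_nonneg (hNpos _).le (Real.exp_pos _).le
    _ = (Real.exp (((m + 3 : ℕ) : ℝ) ^ 3) * Real.exp (-(c₀ / 4 * cc (m + 3)))) *
        num K (m + 3) := by ring
    _ ≤ Real.exp (-(c₀ / 8 * cc (m + 3))) * num K (m + 3) :=
        mul_le_mul_of_nonneg_right hfin (hNpos _).le

end Pool.Agent.MAE
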