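import Pool.Agent.MAE.Stmts

/-!
Squad MAE, part 2 (all matroids): statements of the modules.
-/

set_option autoImplicit false

namespace Pool.Agent.MAE

open Pool.Agent.Helper3.MAS Finset

open Classical in
/-- the finite set of all nonempty exchange families of rank `r` on `{0,...,n-1}` -/
noncomputable def allF (n r : ℕ) : Finset (Finset (Finset ℕ)) :=
  ((range n).powersetCard r).powerset.filter (fun F => F.Nonempty ∧ Exch F)

/-- the dependent sets of size at most `d` -/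
def smd (n d : ℕ) (F : Finset (Finset ℕ)) : Finset (Finset ℕ) :=
  (range n).powerset.filter (fun D => D.card ≤ d ∧ ∀ B ∈ F, ¬ D ⊆ B)

/-- the sets of size at most `d` that meet all members of `F` -/
def smc (n d : ℕ) (F : Finset (Finset ℕ)) : Finset (Finset ℕ) :=
  (range n).powerset.filter (fun D => D.card ≤ d ∧ ∀ B ∈ F, ¬ Disjoint D B)

/-- the `r`-sets containing a member of `P` or disjoint from a member of `Q` -/
def kno (n r : ℕ) (P Q : Finset (Finset ℕ)) : Finset (Finset ℕ) :=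
  ((range n).powersetCard r).filter (fun X => (∃ D ∈ P, D ⊆ X) ∨ (∃ D ∈ Q, Disjoint D X))

/-- an exchange family is empty or has a rank -/
def Stmt_SUA : Prop := ∀ n : ℕ, num ExK n ≤ 1 + ∑ r ∈ range (n + 1), (allF n r).card

/-- dual exchange -/
def Stmt_DEX : Prop := ∀ F : Finset (Finset ℕ), Exch F → ∀ B ∈ F, ∀ B' ∈ F, ∀ e ∈ B, e ∉ B' →
  ∃ z ∈ B', z ∉ B ∧ insert e (B'.erase z) ∈ F

/-- the fundamental circuit -/
def Stmt_FUC : Prop := ∀ (n r : ℕ) (F : Finset (Finset ℕ)), F ∈ allF n r →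
  ∀ (D X : Finset ℕ), D ⊆ range n → D.card = r + 1 → X ∈ F → X ⊆ D →
    ∀ B ∈ F, ¬ (D.filter (fun z => D.erase z ∈ F)) ⊆ B

/-- the fundamental cocircuit -/
def Stmt_COC : Prop := ∀ (n r : ℕ) (F : Finset (Finset ℕ)), F ∈ allF n r →
  ∀ (Z : Finset ℕ) (b : ℕ), Z ⊆ range n → Z.card + 1 = r → b ∉ Z → insert b Z ∈ F →
    ∀ B ∈ F, ¬ Disjoint ((range n).filter (fun y => y ∉ Z ∧ insert y Z ∈ F)) B

/-- two adjacent non-bases -/
def Stmt_DIC : Prop := ∀ (n r : ℕ) (F : Finset (Finset ℕ)), F ∈ allF n r →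
  ∀ X ∈ (range n).powersetCard r, ∀ X' ∈ (range n).powersetCard r, (X ∩ X').card + 1 = r →
    X ∉ F → X' ∉ F →
    (∀ Y ∈ (range n).powersetCard r, Y ⊆ X ∪ X' → Y ∉ F) ∨
    (∀ Y ∈ (range n).powersetCard r, X ∩ X' ⊆ Y → Y ∉ F)

/-- the non-bases adjacent to a non-basis are certified by two sets -/
def Stmt_LOC : Prop := ∀ (n r : ℕ) (F : Finset (Finset ℕ)), F ∈ allF n r →
  ∀ s ∈ (range n).powersetCard r, s ∉ F →
    (∀ X ∈ (range n).powersetCard r, (s ∩ X).card + 1 = r → X ∉ F) ∨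
    ∃ C H : Finset ℕ, C ⊆ range n ∧ H ⊆ range n ∧
      (∀ X ∈ (range n).powersetCard r, (C ⊆ X ∨ X ⊆ H) → X ∉ F) ∧
      (∀ X ∈ (range n).powersetCard r, (s ∩ X).card + 1 = r → X ∉ F → (C ⊆ X ∨ X ⊆ H))

/-- the container algorithm -/
def Stmt_RUN : Prop := ∀ (adj : Finset ℕ → Finset ℕ → Prop) [DecidableRel adj],
  (∀ u, ¬ adj u u) → ∀ (V : Finset (Finset ℕ)) (α ρ : ℝ) (Δ : ℕ),
    0 < α → 0 < ρ → 1 ≤ Δ →
    (∀ A, A ⊆ V → A.Nonempty → ∃ v ∈ A,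
      ρ * ((A.card : ℝ) / α - 1) ≤ ((A.filter (fun w => adj v w)).card : ℝ)) →
    ∃ cont : Finset (Finset ℕ) → Finset (Finset ℕ), ∀ K, K ⊆ V → ∃ S, S ⊆ K ∧
      (S.card : ℝ) ≤ α / ρ * Real.log (1 + V.card / α) + 1 + 2 * α / Δ ∧
      cont S ⊆ V ∧
      (∀ X ∈ cont S, ((cont S).filter (fun Y => adj X Y)).card ≤ Δ) ∧
      (∀ X ∈ V, X ∉ cont S → X ∈ K → X ∈ S ∨ ∃ s ∈ S, adj s X)

/-- no adjacent pair is shattered -/
def Stmt_SHA : Prop := ∀ (n r Δ : ℕ) (F F' A : Finset (Finset ℕ)) (X X' : Finset ℕ),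
  F ∈ allF n r → F' ∈ allF n r → A ⊆ (range n).powersetCard r →
  smd n (Δ + 1) F = smd n (Δ + 1) F' → smc n (Δ + 1) F = smc n (Δ + 1) F' →
  (∀ Y ∈ A, Y ∉ kno n r (smd n (Δ + 1) F) (smc n (Δ + 1) F)) →
  (∀ Y ∈ (range n).powersetCard r, Y ∉ A → (Y ∈ F ↔ Y ∈ F')) →
  (∀ Y ∈ A, (A.filter (fun W => (Y ∩ W).card + 1 = r)).card ≤ Δ) →
  X ∈ A → X' ∈ A → (X ∩ X').card + 1 = r → X ∉ F → X' ∉ F → X ∉ F' → X' ∈ F' → False

/-- the number of matroids of rank `r` against the number of stable families -/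
def Stmt_ENC : Prop := ∀ n r Δ q : ℕ, 1 ≤ r → r ≤ n → 1 ≤ Δ →
  al n r / r * Real.log (1 + (n.choose r : ℝ) / al n r) + 1 + 2 * al n r / Δ ≤ q →
  (allF n r).card ≤ 2 ^ (2 * sbs n (Δ + 1)) * (sbs (n.choose r) q) ^ 2 * (sbs (2 ^ n) q) ^ 2 *
    (stF n r).card

/-- the number of matroids against the maximal number of stable families -/
def Stmt_PUE : Prop := ∀ ε : ℝ, 0 < ε → ∃ n₀ : ℕ, ∀ n ≥ n₀, ∃ r : ℕ, n ≤ 4 * r ∧ 2 * r ≤ n ∧
  cc n ≤ Real.log (stF n r).card ∧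
  Real.log (num ExK n) ≤ Real.log (stF n r).card + ε * cc n

end Pool.Agent.MAE
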