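import Pool.Agent.MAE.Asm2
import Pool.Agent.MAE.Stmts2
import Pool.Agent.MAE.GEQ

/-!
Assembly for all matroids.
-/

set_option autoImplicit false

namespace Pool.Agent.MAE

open Pool.Agent.Helper3.MAS Finset

namespace Asm

/-- upper bound for the number of exchange families -/
theorem upe (hSTW : Stmt_STW) (hPUE : Stmt_PUE) : ∀ ε : ℝ, 0 < ε → ∃ n₀ : ℕ, ∀ n ≥ n₀,
    Real.log (num ExK n) ≤ (2 + ε) * cc n := by
  intro ε hε
  obtain ⟨n₁, h1⟩ := log_st_le hSTW (ε / 4) (by linarith)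
  obtain ⟨n₂, h2⟩ := hPUE (ε / 4) (by linarith)
  refine ⟨max (max n₁ n₂) 1, fun n hn => ?_⟩
  have hn1 : n₁ ≤ n := le_trans (le_trans (le_max_left _ _) (le_max_left _ _)) hn
  have hn2 : n₂ ≤ n := le_trans (le_trans (le_max_right _ _) (le_max_left _ _)) hn
  have hn3 : 1 ≤ n := le_trans (le_max_right _ _) hn
  obtain ⟨r, hr1, hr2, -, hr3⟩ := h2 n hn2
  have h3 := h1 n hn1 r hr1 hr2
  have h4 := al_le (by omega : 1 ≤ r) hr2
  have h5 := cc_nonneg n
  have h6 : (1 + ε / 4) * (al n r * Real.log 2) ≤ (1 + ε / 4) * (2 * cc n) :=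
    mul_le_mul_of_nonneg_left h4 (by linarith)
  nlinarith

/-- superadditivity with a gain -/
theorem npe (hSTW : Stmt_STW) (hPUE : Stmt_PUE) (hBIG : Stmt_BIG) (hGLU : Stmt_GLU)
    (hKNE : ∀ n r : ℕ, (stF n r).card ≤ num ExK n) (hSBS : Stmt_SBS) (hCCR : Stmt_CCR) (hCCI : Stmt_CCI) :
    ∃ c₀ : ℝ, 0 < c₀ ∧ ∃ n₀ : ℕ, ∀ n ≥ n₀,
      2 * Real.log (num ExK n) + c₀ * cc (n + 2) ≤ Real.log (num ExK (n + 2)) := by
  have hlog : 0 < Real.log 2 := Real.log_pos (by norm_num)
  have hlog' : 0.69 < Real.log 2 := lt_trans (by norm_num) Real.log_two_gt_d9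
  refine ⟨1 / 200000, by norm_num, ?_⟩
  obtain ⟨n₁, h1⟩ := log_st_le hSTW 1 one_pos
  obtain ⟨n₂, h2⟩ := hPUE (1 / 100000) (by norm_num)
  obtain ⟨n₃, h3⟩ := hBIG
  obtain ⟨n₄, h4⟩ := hCCR (1 / 100) (by norm_num)
  obtain ⟨n₅, h5⟩ := hCCI (1 / 100000) (by norm_num)
  obtain ⟨n₆, h6⟩ := log_div_small (1 / 10 ^ 12) (by norm_num)
  refine ⟨max (max (max n₁ n₂) (max n₃ n₄)) (max (max n₅ n₆) 100000), fun m hm => ?_⟩
  simp only [ge_iff_le, max_le_iff] at hm
  obtain ⟨⟨⟨hm1, hm2⟩, hm3, hm4⟩, ⟨hm5, hm6⟩, hm7⟩ := hm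
  obtain ⟨r, hr1, hr2, hr3, hr4⟩ := h2 m hm2
  have hr : 1 ≤ r := by omega
  have hrm : r ≤ m := by omega
  have hmpos : (0 : ℝ) < m := by
    have : 0 < m := by omega
    exact_mod_cast this
  have hm7' : (100000 : ℝ) ≤ m := by exact_mod_cast hm7
  set s : ℝ := ((stF m r).card : ℝ) with hs
  set a : ℝ := al m r with ha
  set c : ℝ := cc m with hc
  have hapos : 0 < a := al_pos hr hrm
  have hal : a * Real.log 2 ≤ 2 * c := al_le hr hr2
  have hst : Real.log s ≤ (1 + 1) * (a * Real.log 2) := h1 m hm1 r hr1 hr2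
  have hm3c : (m : ℝ) ^ 3 ≤ 1 / 100000 * c := h5 m hm5
  have hc1 : (10 : ℝ) ^ 10 ≤ c := by
    have : (100000 : ℝ) ^ 3 ≤ (m : ℝ) ^ 3 := pow_le_pow_left₀ (by norm_num) hm7' 3
    norm_num at this hm3c ⊢
    linarith
  -- the large families are few
  have hspos : 0 < s := by
    by_contra hcon
    have : s = 0 := le_antisymm (not_lt.mp hcon) (by rw [hs]; positivity)
    rw [this, Real.log_zero] at hr3
    linarith
  have hbig := h3 m hm3 r hr1 hr2
  have hbig2 : Real.exp (3 / 10 * a) ≤ s / 2 := by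
    have e1 : 3 / 10 * a ≤ 87 / 100 * c := by
      have : a * 0.69 ≤ 2 * c := le_trans (mul_le_mul_of_nonneg_left hlog'.le hapos.le) hal
      norm_num at this
      linarith
    have e2 : Real.exp (3 / 10 * a) * 2 ≤ s := by
      have h2e : (2 : ℝ) ≤ Real.exp (13 / 100 * c) := by
        have := Real.add_one_le_exp (13 / 100 * c)
        norm_num at hc1
        linarith
      calc Real.exp (3 / 10 * a) * 2 ≤ Real.exp (87 / 100 * c) * Real.exp (13 / 100 * c) := by
            gcongr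
        _ = Real.exp c := by rw [← Real.exp_add]; congr 1; ring
        _ ≤ Real.exp (Real.log s) := Real.exp_le_exp.mpr hr3
        _ = s := Real.exp_log hspos
    linarith
  let G := (stF m r).filter (fun X => ¬ (19 / 20 * al m r < (X.card : ℝ)))
  have hGcard : s / 2 ≤ (G.card : ℝ) := by
    have := Finset.card_filter_add_card_filter_not (s := stF m r)
      (fun X => 19 / 20 * al m r < (X.card : ℝ))
    have h' : (((stF m r).filter (fun X => 19 / 20 * al m r < (X.card : ℝ))).card : ℝ) +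
        (G.card : ℝ) = s := by
      rw [hs]; exact_mod_cast this
    linarith
  have hG := hGLU m r (1 / 20) hr hrm (by norm_num) (by norm_num) G (Finset.filter_subset _ _) (by
    intro I hI
    have := (Finset.mem_filter.mp hI).2
    push Not at this
    calc (I.card : ℝ) ≤ 19 / 20 * al m r := this
      _ = (1 - 1 / 20) * al m r := by norm_num)
  set q := ⌊2 / (1 / 20 : ℝ) ^ 2 * ((al m r) ^ 2 / (m.choose r : ℝ))⌋₊ with hq
  have hGpos : 0 < (G.card : ℝ) := by linarith
  have hchoose : al m r * ((m : ℝ) - r + 1) = (m.choose r : ℝ) := al_mul hr hrm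
  have hr1' : (m : ℝ) ≤ 4 * r := by exact_mod_cast hr1
  have hr2' : 2 * (r : ℝ) ≤ m := by exact_mod_cast hr2
  have hchoose1 : (m.choose (r - 1) : ℝ) = r * a := by
    rw [ha]; unfold al
    have : (r : ℝ) ≠ 0 := by positivity
    field_simp
  -- bound of sbs
  have hqle : (q : ℝ) ≤ 1600 * a / m := by
    have h0 : (0 : ℝ) ≤ 2 / (1 / 20 : ℝ) ^ 2 * ((al m r) ^ 2 / (m.choose r : ℝ)) := by positivity
    refine (Nat.floor_le h0).trans ?_
    rw [← hchoose, ← ha]
    have hden : (0 : ℝ) < (m : ℝ) - r + 1 := by linarith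
    have e : (2 / (1 / 20 : ℝ) ^ 2 * (a ^ 2 / (a * ((m : ℝ) - r + 1)))) =
        800 * a / ((m : ℝ) - r + 1) := by
      field_simp; norm_num
    rw [e, div_le_div_iff₀ hden hmpos]
    nlinarith
  have hsbs : Real.log (sbs (m.choose r) q : ℝ) ≤ 1 / 50000 * c := by
    have h' := hSBS (m.choose r) q ((m : ℝ) ^ 4) (one_le_pow₀ (by linarith))
    have hpos : 0 < (sbs (m.choose r) q : ℝ) := by
      have : 0 < sbs (m.choose r) q := by
        unfold sbs
        exact Finset.sum_pos' (fun i _ => Nat.zero_le _) ⟨0, by simp, by simp⟩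
      exact_mod_cast this
    have h'' := Real.log_le_log hpos h'
    rw [Real.log_mul (by positivity) (Real.exp_pos _).ne', Real.log_exp, Real.log_pow,
      Real.log_pow] at h''
    have e1 : (q : ℝ) * ((4 : ℕ) * Real.log m) ≤ 1 / 10 ^ 6 * c := by
      have hl := h6 m hm6
      have hl0 : 0 ≤ Real.log m := Real.log_nonneg (by linarith)
      have hac : a ≤ 4 * c := by
        have : a * 0.69 ≤ 2 * c := le_trans (mul_le_mul_of_nonneg_left hlog'.le hapos.le) hal
        norm_num at this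
        have hc0 : 0 ≤ c := cc_nonneg m
        linarith
      calc (q : ℝ) * ((4 : ℕ) * Real.log m) ≤ (1600 * a / m) * ((4 : ℕ) * (1 / 10 ^ 12 * m)) := by
            gcongr
        _ = 6400 * a / 10 ^ 12 := by push_cast; field_simp; ring
        _ ≤ 1 / 10 ^ 6 * c := by
            have hc0 : 0 ≤ c := cc_nonneg m
            norm_num
            linarith
    have e2 : (m.choose r : ℝ) / (m : ℝ) ^ 4 ≤ 1 / 10 ^ 6 * c := by
      have hac : a ≤ 4 * c := by
        have : a * 0.69 ≤ 2 * c := le_trans (mul_le_mul_of_nonneg_left hlog'.le hapos.le) hal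
        norm_num at this
        have hc0 : 0 ≤ c := cc_nonneg m
        linarith
      rw [← hchoose, ← ha, div_le_iff₀ (by positivity)]
      have hm1' : (m : ℝ) - r + 1 ≤ m := by
        have : (1 : ℝ) ≤ r := by exact_mod_cast hr
        linarith
      have hc0 : 0 ≤ c := cc_nonneg m
      have hm3' : (10 : ℝ) ^ 7 ≤ (m : ℝ) ^ 3 := by
        calc (10 : ℝ) ^ 7 ≤ (100000 : ℝ) ^ 3 := by norm_num
          _ ≤ (m : ℝ) ^ 3 := pow_le_pow_left₀ (by norm_num) hm7' 3
      calc a * ((m : ℝ) - r + 1) ≤ (4 * c) * m := by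
            apply mul_le_mul hac hm1' (by linarith) (by linarith)
        _ = (1 / 10 ^ 6 * c) * ((4 * 10 ^ 6) * m) := by ring
        _ ≤ (1 / 10 ^ 6 * c) * ((m : ℝ) ^ 3 * m) := by
            apply mul_le_mul_of_nonneg_left _ (by positivity)
            apply mul_le_mul_of_nonneg_right _ hmpos.le
            norm_num at hm3' ⊢
            linarith
        _ = 1 / 10 ^ 6 * c * (m : ℝ) ^ 4 := by ring
    have hc0 : 0 ≤ c := cc_nonneg m
    norm_num at e1 e2 h'' ⊢
    linarith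
  have hfac : Real.log (m.factorial : ℝ) ≤ 1 / 100000 * c := by
    have e2 := fac_le m
    have e3 : (m : ℝ) * m ≤ (m : ℝ) ^ 3 := by nlinarith
    linarith
  -- take logarithms
  have hpos1 : 0 < (sbs (m.choose r) q : ℝ) := by
    have : 0 < sbs (m.choose r) q := by
      unfold sbs
      exact Finset.sum_pos' (fun i _ => Nat.zero_le _) ⟨0, by simp, by simp⟩
    exact_mod_cast this
  have hst2pos : 0 < ((stF (m + 2) (r + 1)).card : ℝ) := by
    by_contra hcon
    have : ((stF (m + 2) (r + 1)).card : ℝ) = 0 := le_antisymm (not_lt.mp hcon) (by positivity)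
    rw [this, zero_mul] at hG
    have : 0 < (G.card : ℝ) ^ 2 *
      (2 : ℝ) ^ ((1 / 20 : ℝ) ^ 2 / 2 * (m.choose (r - 1) : ℝ) / m) := by positivity
    linarith
  have hlogG := Real.log_le_log (by positivity) hG
  rw [Real.log_mul (by positivity) (by positivity), Real.log_pow,
    Real.log_rpow (by norm_num), Real.log_mul (by positivity) (by positivity),
    Real.log_mul (by positivity) (by positivity)] at hlogG
  have hlogG2 : Real.log s - Real.log 2 ≤ Real.log (G.card : ℝ) := by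
    rw [← Real.log_div (by positivity) (by norm_num)]
    exact Real.log_le_log (by positivity) hGcard
  have hgain : 1 / 6400 * c ≤ (1 / 20 : ℝ) ^ 2 / 2 * (m.choose (r - 1) : ℝ) / m * Real.log 2 := by
    rw [hchoose1]
    have e1 : (1 / 20 : ℝ) ^ 2 / 2 * (r * a) / m * Real.log 2 =
        1 / 800 * ((r : ℝ) / m) * (a * Real.log 2) := by ring
    rw [e1]
    have e2 : (1 / 4 : ℝ) ≤ (r : ℝ) / m := by
      rw [le_div_iff₀ hmpos]; linarith
    have e3 : c / 2 ≤ a * Real.log 2 := by linarith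
    calc 1 / 6400 * c = 1 / 800 * (1 / 4) * (c / 2) := by ring
      _ ≤ 1 / 800 * ((r : ℝ) / m) * (a * Real.log 2) := by
          have hc0 : 0 ≤ c := cc_nonneg m
          gcongr
  have hknp : Real.log ((stF (m + 2) (r + 1)).card : ℝ) ≤ Real.log (num ExK (m + 2)) := by
    apply Real.log_le_log hst2pos
    exact_mod_cast hKNE (m + 2) (r + 1)
  have hcc2 : cc (m + 2) ≤ 5 * c := by
    have e1 := (h4 m hm4).2
    have e2 := (h4 (m + 1) (by omega)).2
    have e3 : cc (m + 1 + 1) = cc (m + 2) := rfl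
    have hc0 : 0 ≤ c := cc_nonneg m
    rw [e3] at e2
    rw [← hc] at e1
    norm_num at e1 e2
    linarith
  have hlog2' : Real.log 2 ≤ 1 := by
    have := Real.log_two_lt_d9
    linarith
  norm_num at hc1 hr4 hsbs hfac hgain hlogG ⊢
  linarith


theorem pav_le_ex (n : ℕ) : num PavK n ≤ num ExK n := by
  rw [← card_labelled n, ← card_paving n]
  have : (pavingSet n).ncard ≤ Nat.card (LabelledMatroid n) := by
    rw [← Set.ncard_univ]; exact Set.ncard_le_ncard (Set.subset_univ _)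
  exact Nat.add_le_add_right this 1

/-- few pairs for all matroids -/
theorem ex_pairs (hKNP : Stmt_KNP) (hKNU : Stmt_KNU) (hSTW : Stmt_STW)
    (hPUE : Stmt_PUE) (hBIG : Stmt_BIG) (hGLU : Stmt_GLU) (hSBS : Stmt_SBS) (hCCR : Stmt_CCR)
    (hCCI : Stmt_CCI) (hGEQ : Stmt_GEQ) : ∃ c₁ : ℝ, 0 < c₁ ∧ ∃ n₀ : ℕ, ∀ n ≥ n₀,
    (∑ σ ∈ (univ : Finset (Equiv.Perm (Fin n))).erase 1, (fx ExK (exm σ) (range n) : ℝ)) ≤
      Real.exp (-(c₁ * cc n)) * num ExK n := by
  have hKNE : ∀ n r : ℕ, (stF n r).card ≤ num ExK n := fun n r =>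
    (hKNP n r).trans (pav_le_ex n)
  have hlow : ∀ n, 1 ≤ n → cc n ≤ Real.log (num ExK n) := by
    intro n hn
    refine (hKNU n hn).trans ?_
    rcases Nat.eq_zero_or_pos (stF n (n / 2)).card with h | h
    · rw [h, Nat.cast_zero, Real.log_zero]
      apply Real.log_nonneg
      exact_mod_cast num_pos_ex n
    · apply Real.log_le_log (by exact_mod_cast h)
      exact_mod_cast hKNE n (n / 2)
  obtain ⟨c₀, hc₀, hg⟩ := npe hSTW hPUE hBIG hGLU hKNE hSBS hCCR hCCI
  exact ⟨c₀ / 8, by linarith, hGEQ ExK ExK_MC (fun S F h => h.2) hlow num_pos_ex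
    (upe hSTW hPUE) c₀ hc₀ hg⟩

/-- few pairs for paving matroids -/
theorem pav_pairsQ (hPMC : Stmt_PMC) (hKNP : Stmt_KNP) (hKNU : Stmt_KNU) (hSTW : Stmt_STW)
    (hPUP : Stmt_PUP) (hBIG : Stmt_BIG) (hGLU : Stmt_GLU) (hSBS : Stmt_SBS) (hCCR : Stmt_CCR)
    (hCCI : Stmt_CCI) (hGEQ : Stmt_GEQ) : ∃ c₁ : ℝ, 0 < c₁ ∧ ∃ n₀ : ℕ, ∀ n ≥ n₀,
    (∑ σ ∈ (univ : Finset (Equiv.Perm (Fin n))).erase 1, (fx PavK (exm σ) (range n) : ℝ)) ≤
      Real.exp (-(c₁ * cc n)) * num PavK n := by
  have hlow : ∀ n, 1 ≤ n → cc n ≤ Real.log (num PavK n) := by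
    intro n hn
    refine (hKNU n hn).trans ?_
    rcases Nat.eq_zero_or_pos (stF n (n / 2)).card with h | h
    · rw [h, Nat.cast_zero, Real.log_zero]
      apply Real.log_nonneg
      exact_mod_cast num_pos_pav n
    · apply Real.log_le_log (by exact_mod_cast h)
      exact_mod_cast hKNP n (n / 2)
  obtain ⟨c₀, hc₀, hg⟩ := npa hSTW hPUP hBIG hGLU hKNP hSBS hCCR hCCI
  exact ⟨c₀ / 8, by linarith, hGEQ PavK hPMC (fun S F h => h.1.2) hlow num_pos_pav
    (upa hSTW hPUP) c₀ hc₀ hg⟩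

/-- from `cc` to the binomial coefficient -/
theorem rate (hCCI : Stmt_CCI) (c₁ : ℝ) (hc₁ : 0 < c₁) : ∃ c : ℝ, 0 < c ∧ ∃ n₀ : ℕ, ∀ n ≥ n₀,
    Real.exp (-(c₁ * cc n)) ≤ Real.exp (-(c * (n.choose (n / 2) : ℝ) / n)) / 4 := by
  have hlog : 0 < Real.log 2 := Real.log_pos (by norm_num)
  refine ⟨c₁ * Real.log 2 / 2, by positivity, ?_⟩
  obtain ⟨n₁, h1⟩ := hCCI (c₁ / 4) (by linarith)
  refine ⟨max n₁ 2, fun n hn => ?_⟩
  simp only [ge_iff_le, max_le_iff] at hn
  have h2 := h1 n hn.1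
  have h3 : (2 : ℝ) ≤ n := by exact_mod_cast hn.2
  have h4 : (8 : ℝ) ≤ (n : ℝ) ^ 3 := by
    have := pow_le_pow_left₀ (by norm_num : (0 : ℝ) ≤ 2) h3 3
    linarith
  have h5 : c₁ * Real.log 2 / 2 * (n.choose (n / 2) : ℝ) / n = c₁ * cc n / 2 := by
    unfold cc; ring
  rw [h5, le_div_iff₀ (by norm_num)]
  have h6 : (4 : ℝ) ≤ Real.exp (c₁ * cc n / 2) := by
    have := Real.add_one_le_exp (c₁ * cc n / 2)
    linarith
  calc Real.exp (-(c₁ * cc n)) * 4 ≤ Real.exp (-(c₁ * cc n)) * Real.exp (c₁ * cc n / 2) :=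
        mul_le_mul_of_nonneg_left h6 (Real.exp_pos _).le
    _ = Real.exp (-(c₁ * cc n / 2)) := by rw [← Real.exp_add]; congr 1; ring

/-- the number of pairs (matroid, nontrivial automorphism) -/
theorem pairs_le_fx (n : ℕ) : pairs n ≤
    ∑ σ ∈ (univ : Finset (Equiv.Perm (Fin n))).erase 1, fx ExK (exm σ) (range n) := by
  unfold pairs
  apply Finset.sum_le_sum
  intro σ _
  unfold fx
  apply Set.ncard_le_ncard_of_injOn fam _ fam_injective.injOn
    ((fin_cls ExK_MC (range n)).subset (fun F hF => hF.1))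
  intro M hM
  exact ⟨fam_ExK M, rl_fam hM⟩

/-- the conclusion for all matroids -/
theorem all_conclude (n : ℕ) (δ : ℝ) (hδ0 : 0 ≤ δ)
    (hP : (∑ σ ∈ (univ : Finset (Equiv.Perm (Fin n))).erase 1,
      (fx ExK (exm σ) (range n) : ℝ)) ≤ δ / 4 * num ExK n) :
      (∀ P : Set (LabelledMatroid n), IsoClosed P →
        |unlabelledProportion P - labelledProportion P| ≤ δ) ∧
      1 - δ ≤ labelledProportion {M : LabelledMatroid n | Asymmetric M} ∧
      1 - δ ≤ unlabelledProportion {M : LabelledMatroid n | Asymmetric M} := by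
  have hl : (0 : ℝ) < Nat.card (LabelledMatroid n) := by exact_mod_cast labelled_pos n
  have hl1 : (1 : ℝ) ≤ Nat.card (LabelledMatroid n) := by exact_mod_cast labelled_pos n
  have hδ : (pairs n : ℝ) / Nat.card (LabelledMatroid n) ≤ δ / 2 := by
    have h2 : (pairs n : ℝ) ≤
        ∑ σ ∈ (univ : Finset (Equiv.Perm (Fin n))).erase 1, (fx ExK (exm σ) (range n) : ℝ) := by
      exact_mod_cast pairs_le_fx n
    have h3 : ((num ExK n : ℕ) : ℝ) = Nat.card (LabelledMatroid n) + 1 := by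
      rw [← card_labelled n]; push_cast; ring
    rw [h3] at hP
    rw [div_le_iff₀ hl]
    nlinarith
  have hlab : 1 - δ / 2 ≤ labelledProportion {M : LabelledMatroid n | Asymmetric M} := by
    unfold labelledProportion
    have hsum : {M : LabelledMatroid n | Asymmetric M}.ncard +
        {M : LabelledMatroid n | ¬ Asymmetric M}.ncard = Nat.card (LabelledMatroid n) := by
      have := Set.ncard_add_ncard_compl {M : LabelledMatroid n | Asymmetric M}
      exact this
    have hna := asym_labelled n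
    have h1 : (Nat.card (LabelledMatroid n) : ℝ) - pairs n ≤
        ({M : LabelledMatroid n | Asymmetric M}.ncard : ℝ) := by
      have : Nat.card (LabelledMatroid n) ≤
          {M : LabelledMatroid n | Asymmetric M}.ncard + pairs n := by omega
      have : (Nat.card (LabelledMatroid n) : ℝ) ≤
          {M : LabelledMatroid n | Asymmetric M}.ncard + pairs n := by exact_mod_cast this
      linarith
    rw [le_div_iff₀ hl]
    rw [div_le_iff₀ hl] at hδ
    linarith
  refine ⟨fun P hP => (transfer P hP).trans (by linarith), by linarith, ?_⟩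
  have := transfer {M : LabelledMatroid n | Asymmetric M} (asym_isoClosed n)
  rw [abs_le] at this
  linarith [this.1]

/-- the conclusion for paving matroids -/
theorem pav_conclude (hPMC : Stmt_PMC) (n : ℕ) (δ : ℝ) (hδ0 : 0 ≤ δ)
    (hP : (∑ σ ∈ (univ : Finset (Equiv.Perm (Fin n))).erase 1,
      (fx PavK (exm σ) (range n) : ℝ)) ≤ δ / 4 * num PavK n) :
    ((pavingSet n).ncard : ℝ) ≤
      (Quotient.mk (isoSetoid n) '' pavingSet n).ncard * n.factorial ∧
    ((Quotient.mk (isoSetoid n) '' pavingSet n).ncard : ℝ) * n.factorial ≤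
      (1 + δ) * (pavingSet n).ncard ∧
    (1 - δ) * (pavingSet n).ncard ≤ ({M | M ∈ pavingSet n ∧ Asymmetric M}.ncard : ℝ) := by
  classical
  obtain ⟨b1, b2⟩ := pav_bounds hPMC n
  have b1' : ((pavingSet n).ncard : ℝ) ≤
    (Quotient.mk (isoSetoid n) '' pavingSet n).ncard * n.factorial := by exact_mod_cast b1
  have b2' : ((Quotient.mk (isoSetoid n) '' pavingSet n).ncard : ℝ) * n.factorial ≤
    (pavingSet n).ncard +
    ∑ σ ∈ (univ : Finset (Equiv.Perm (Fin n))).erase 1, (fx PavK (exm σ) (range n) : ℝ) := by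
    exact_mod_cast b2
  have b4 : ((num PavK n : ℕ) : ℝ) = (pavingSet n).ncard + 1 := by
    rw [← card_paving n]; push_cast; ring
  have b5 : (1 : ℝ) ≤ (pavingSet n).ncard := by exact_mod_cast paving_pos n
  rw [b4] at hP
  have h1 : {M | M ∈ pavingSet n ∧ ¬ Asymmetric M} ⊆
      ⋃ σ ∈ (Finset.univ : Finset (Equiv.Perm (Fin n))).erase 1,
        {M : LabelledMatroid n | M ∈ pavingSet n ∧ IsIso σ M M} := by
    rintro M ⟨hM, hM'⟩
    unfold Asymmetric at hM'
    push Not at hM'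
    obtain ⟨σ, hσ, hσ1⟩ := hM'
    rw [Set.mem_iUnion₂]
    exact ⟨σ, Finset.mem_erase.mpr ⟨hσ1, Finset.mem_univ _⟩, hM, hσ⟩
  have h2 : {M | M ∈ pavingSet n ∧ ¬ Asymmetric M}.ncard ≤
      ∑ σ ∈ (univ : Finset (Equiv.Perm (Fin n))).erase 1, fx PavK (exm σ) (range n) := by
    refine (Set.ncard_le_ncard h1 (Set.toFinite _)).trans
      ((Finset.set_ncard_biUnion_le _ _).trans ?_)
    apply Finset.sum_le_sum
    intro σ _
    unfold fx
    apply Set.ncard_le_ncard_of_injOn fam _ fam_injective.injOn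
      ((fin_cls hPMC (range n)).subset (fun F hF => hF.1))
    intro M hM
    exact ⟨(pav_iff M).mpr hM.1, rl_fam hM.2⟩
  have b6 : ({M | M ∈ pavingSet n ∧ ¬ Asymmetric M}.ncard : ℝ) ≤
      ∑ σ ∈ (univ : Finset (Equiv.Perm (Fin n))).erase 1,
        (fx PavK (exm σ) (range n) : ℝ) := by exact_mod_cast h2
  have b7 : ({M | M ∈ pavingSet n ∧ Asymmetric M}.ncard : ℝ) +
      ({M | M ∈ pavingSet n ∧ ¬ Asymmetric M}.ncard : ℝ) = (pavingSet n).ncard := by
    have hu : {M | M ∈ pavingSet n ∧ Asymmetric M} ∪ {M | M ∈ pavingSet n ∧ ¬ Asymmetric M} =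
        pavingSet n := by
      ext M
      simp only [Set.mem_union, Set.mem_ofPred_eq]
      tauto
    have hd : Disjoint {M | M ∈ pavingSet n ∧ Asymmetric M}
        {M | M ∈ pavingSet n ∧ ¬ Asymmetric M} := by
      rw [Set.disjoint_left]
      rintro M ⟨-, h3⟩ ⟨-, h4⟩
      exact h4 h3
    have := Set.ncard_union_eq hd (Set.toFinite _) (Set.toFinite _)
    rw [hu] at this
    exact_mod_cast this.symm
  refine ⟨b1', by nlinarith, by nlinarith⟩

end Asm

end Pool.Agent.MAE
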