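import Pool.Agent.MAE.Stmts

/-!
Squad MAE (MP_f46acb_co): module BIG, few stable families are almost as large as possible.
-/

set_option autoImplicit false

namespace Pool.Agent.MAE

open Pool.Agent.Helper3.MAS Finset

namespace BIG_

theorem num : 101 * Real.log 10 - 95 * Real.log 9 ≤ 30 := by
  have h1 : Real.log ((10 : ℝ) ^ 101) = 101 * Real.log 10 := by
    rw [Real.log_pow]
    norm_num
  have h2 : Real.log ((9 : ℝ) ^ 95) = 95 * Real.log 9 := by
    rw [Real.log_pow]
    norm_num
  have h3 : (10 : ℝ) ^ 101 ≤ 9 ^ 95 * Real.exp 30 := by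
    have he : (27 / 10 : ℝ) ^ 30 ≤ Real.exp 30 := by
      have h5 : Real.exp 30 = Real.exp 1 ^ 30 := by
        rw [← Real.exp_nat_mul]
        norm_num
      rw [h5]
      refine pow_le_pow_left₀ (by norm_num) ?_ 30
      have := Real.exp_one_gt_d9
      linarith
    calc (10 : ℝ) ^ 101 ≤ 9 ^ 95 * (27 / 10 : ℝ) ^ 30 := by norm_num
      _ ≤ 9 ^ 95 * Real.exp 30 := by
        refine mul_le_mul_of_nonneg_left he (by positivity)
  have h4 : Real.log ((10 : ℝ) ^ 101) ≤ Real.log (9 ^ 95 * Real.exp 30) :=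
    Real.log_le_log (by positivity) h3
  rw [Real.log_mul (by positivity) (Real.exp_pos _).ne', Real.log_exp, h1, h2] at h4
  linarith

theorem al_nonneg (n r : ℕ) : 0 ≤ al n r := by
  unfold al
  positivity

end BIG_

open BIG_ in
theorem big_proof (hSTW : Stmt_STW) : Stmt_BIG := by
  obtain ⟨n₀, h⟩ := hSTW 9 (1 / 100) (by norm_num) (by norm_num)
  refine ⟨n₀, fun n hn r h1 h2 => ?_⟩
  have h3 := h n hn r h1 h2
  set S : ℝ := ∑ X ∈ stF n r, (9 : ℝ) ^ X.card with hS
  have ha := al_nonneg n r
  have h4 : S ≤ Real.exp ((1 + 1 / 100) * al n r * Real.log (1 + 9)) :=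
    (Real.le_exp_log S).trans (Real.exp_le_exp.2 h3)
  have h5 : ((((stF n r).filter (fun X => 19 / 20 * al n r < (X.card : ℝ))).card : ℕ) : ℝ)
      * Real.exp (19 / 20 * al n r * Real.log 9) ≤ S := by
    calc ((((stF n r).filter (fun X => 19 / 20 * al n r < (X.card : ℝ))).card : ℕ) : ℝ)
          * Real.exp (19 / 20 * al n r * Real.log 9)
        = ∑ X ∈ (stF n r).filter (fun X => 19 / 20 * al n r < (X.card : ℝ)),
            Real.exp (19 / 20 * al n r * Real.log 9) := by
          rw [Finset.sum_const, nsmul_eq_mul]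
      _ ≤ ∑ X ∈ (stF n r).filter (fun X => 19 / 20 * al n r < (X.card : ℝ)), (9 : ℝ) ^ X.card := by
          refine Finset.sum_le_sum fun X hX => ?_
          have hX2 := (Finset.mem_filter.1 hX).2
          have hl : 0 < Real.log 9 := Real.log_pos (by norm_num)
          have e : (9 : ℝ) ^ X.card = Real.exp ((X.card : ℝ) * Real.log 9) := by
            rw [← Real.log_pow, Real.exp_log (by positivity)]
          rw [e]
          exact Real.exp_le_exp.2 (mul_le_mul_of_nonneg_right hX2.le hl.le)
      _ ≤ S := by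
          refine Finset.sum_le_sum_of_subset_of_nonneg (Finset.filter_subset _ _) ?_
          intro X _ _
          positivity
  have h6 := h5.trans h4
  have h7 : (0 : ℝ) < Real.exp (19 / 20 * al n r * Real.log 9) := Real.exp_pos _
  have h8 : ((((stF n r).filter (fun X => 19 / 20 * al n r < (X.card : ℝ))).card : ℕ) : ℝ)
      ≤ Real.exp ((1 + 1 / 100) * al n r * Real.log (1 + 9))
        / Real.exp (19 / 20 * al n r * Real.log 9) := by
    rw [le_div_iff₀ h7]
    exact h6
  refine h8.trans ?_
  rw [← Real.exp_sub]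
  refine Real.exp_le_exp.2 ?_
  have h9 : (1 : ℝ) + 9 = 10 := by norm_num
  rw [h9]
  have h10 : (1 + 1 / 100) * al n r * Real.log 10 - 19 / 20 * al n r * Real.log 9
      = (al n r / 100) * (101 * Real.log 10 - 95 * Real.log 9) := by ring
  rw [h10]
  calc (al n r / 100) * (101 * Real.log 10 - 95 * Real.log 9) ≤ (al n r / 100) * 30 :=
        mul_le_mul_of_nonneg_left num (by positivity)
    _ = 3 / 10 * al n r := by ring

end Pool.Agent.MAE
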