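import Pool.Agent.MAE.Stmts

set_option autoImplicit false

namespace Pool.Agent.MAE

open Pool.Agent.Helper3.MAS Finset

namespace CCI_

/-- the middle binomial coefficient is at least the average -/
theorem mid (n : ℕ) : (2 : ℝ) ^ n ≤ (n + 1 : ℝ) * (n.choose (n / 2) : ℝ) := by
  have h1 : ∑ i ∈ range (n + 1), n.choose i ≤ ∑ _i ∈ range (n + 1), n.choose (n / 2) :=
    Finset.sum_le_sum fun i _ => Nat.choose_le_middle i n
  rw [Nat.sum_range_choose, Finset.sum_const, Finset.card_range, smul_eq_mul] at h1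
  exact_mod_cast h1

end CCI_

theorem cci_proof : Stmt_CCI := by
  intro ε hε
  have hl : 0 < Real.log 2 := Real.log_pos (by norm_num)
  have h1 := tendsto_pow_const_div_const_pow_of_one_lt 5 (r := (2 : ℝ)) (by norm_num)
  have h2 : 0 < ε * Real.log 2 / 2 := by positivity
  have h3 := h1.eventually (eventually_le_nhds h2)
  rw [Filter.eventually_atTop] at h3
  obtain ⟨N, hN⟩ := h3
  refine ⟨max N 1, fun n hn => ?_⟩
  have hn1 : 1 ≤ n := (le_max_right _ _).trans hn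
  have hn1' : (1 : ℝ) ≤ n := by exact_mod_cast hn1
  have h4 := hN n ((le_max_left _ _).trans hn)
  have h5 := CCI_.mid n
  have h2n : (0 : ℝ) < 2 ^ n := by positivity
  rw [div_le_iff₀ h2n] at h4
  unfold cc
  have hnp : (0 : ℝ) < n := by linarith
  have hkey : (n : ℝ) ^ 4 * (n + 1) ≤ ε * (Real.log 2 * (n.choose (n / 2) : ℝ)) * (n + 1) := by
    have h6 : (n : ℝ) ^ 4 * (n + 1) ≤ 2 * (n : ℝ) ^ 5 := by
      have : (n : ℝ) ^ 4 * (n + 1) ≤ (n : ℝ) ^ 4 * (n + n) := by gcongr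
      linarith [this]
    have h7 : 2 * (n : ℝ) ^ 5 ≤ ε * Real.log 2 * 2 ^ n := by linarith
    have h8 : ε * Real.log 2 * 2 ^ n ≤ ε * Real.log 2 * ((n + 1) * (n.choose (n / 2) : ℝ)) := by
      gcongr
    linarith
  have h9 : (n : ℝ) ^ 4 ≤ ε * (Real.log 2 * (n.choose (n / 2) : ℝ)) :=
    le_of_mul_le_mul_right hkey (by linarith)
  rw [← mul_div_assoc, le_div_iff₀ hnp]
  calc (n : ℝ) ^ 3 * n = (n : ℝ) ^ 4 := by ring
    _ ≤ _ := h9

end Pool.Agent.MAE

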