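import Pool.Agent.MAE.Stmts

/-!
Module CCR: growth of `cc`.
-/

set_option autoImplicit false

namespace Pool.Agent.MAE

open Pool.Agent.Helper3.MAS Finset

namespace CCR_

theorem even_eq (m : ℕ) : ((2 * m + 1).choose m : ℝ) * (m + 1) = ((2 * m).choose m : ℝ) * (2 * m + 1) := by
  have h := Nat.add_one_mul_choose_eq (2 * m) m
  have h2 := Nat.choose_symm_half m
  have h3 : (2 * m + 1).choose (m + 1) = (2 * m + 1).choose m := by
    exact h2
  rw [h3] at h
  have h4 : ((2 * m + 1 : ℕ) : ℝ) * ((2 * m).choose m : ℝ) =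
      ((2 * m + 1).choose m : ℝ) * ((m + 1 : ℕ) : ℝ) := by
    exact_mod_cast h
  push_cast at h4
  linarith

theorem odd_eq (m : ℕ) : ((2 * m + 2).choose (m + 1) : ℝ) = 2 * ((2 * m + 1).choose m : ℝ) := by
  have h2 := Nat.choose_symm_half m
  have h : (2 * m + 2).choose (m + 1) = (2 * m + 1).choose m + (2 * m + 1).choose (m + 1) :=
    Nat.choose_succ_succ (2 * m + 1) m
  rw [h2] at h
  rw [h]; push_cast; ring

theorem key (n : ℕ) (hn : 1 ≤ n) :
    cc (n + 1) ≤ 2 * cc n ∧ 2 * cc n ≤ (1 + 2 / (n : ℝ)) * cc (n + 1) := by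
  have hl : 0 < Real.log 2 := Real.log_pos (by norm_num)
  have hn' : (0 : ℝ) < n := by exact_mod_cast hn
  rcases Nat.even_or_odd' n with ⟨m, rfl | rfl⟩
  · have e1 : 2 * m / 2 = m := by omega
    have e2 : (2 * m + 1) / 2 = m := by omega
    have hm : (0 : ℝ) < m := by
      have : 0 < m := by omega
      exact_mod_cast this
    have h := even_eq m
    have hc : (0 : ℝ) ≤ ((2 * m).choose m : ℝ) := by positivity
    have h5 : ((2 * m + 1).choose m : ℝ) = ((2 * m).choose m : ℝ) * (2 * m + 1) / (m + 1) := by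
      field_simp
      linarith
    unfold cc
    rw [e1, e2, h5]
    push_cast
    have a1 : Real.log 2 * (((2 * m).choose m : ℝ) * (2 * m + 1) / (m + 1)) / (2 * m + 1) =
        Real.log 2 * ((2 * m).choose m : ℝ) / (m + 1) := by
      field_simp
    have a2 : 2 * (Real.log 2 * ((2 * m).choose m : ℝ) / (2 * m)) =
        Real.log 2 * ((2 * m).choose m : ℝ) / m := by
      field_simp
    rw [a1, a2]
    have hA : 0 ≤ Real.log 2 * ((2 * m).choose m : ℝ) := by positivity
    constructor
    · exact div_le_div_of_nonneg_left hA hm (by linarith)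
    · apply le_of_eq
      field_simp
  · have e1 : (2 * m + 1) / 2 = m := by omega
    have e2 : (2 * m + 1 + 1) / 2 = m + 1 := by omega
    have h := odd_eq m
    unfold cc
    rw [e1, e2]
    rw [show 2 * m + 1 + 1 = 2 * m + 2 by ring, h]
    push_cast
    set A := Real.log 2 * ((2 * m + 1).choose m : ℝ) with hA'
    have hA : 0 ≤ A := by positivity
    have a1 : Real.log 2 * (2 * ((2 * m + 1).choose m : ℝ)) / (2 * m + 2) = 2 * (A / (2 * m + 2)) := by
      rw [hA']; ring
    rw [a1]
    have hm : (0 : ℝ) ≤ m := by positivity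
    constructor
    · have : A / (2 * (m : ℝ) + 2) ≤ A / (2 * m + 1) :=
        div_le_div_of_nonneg_left hA (by linarith) (by linarith)
      linarith
    · have h1 : (1 + 2 / (2 * (m : ℝ) + 1)) * (2 * (A / (2 * m + 2))) - 2 * (A / (2 * m + 1)) =
          2 * A / ((2 * m + 1) * (2 * m + 2)) := by
        field_simp
        ring
      have h2 : 0 ≤ 2 * A / ((2 * (m : ℝ) + 1) * (2 * m + 2)) := by positivity
      linarith

end CCR_

open CCR_ in
theorem ccr_proof : Stmt_CCR := by
  intro η hη
  obtain ⟨N, hN⟩ := exists_nat_gt (2 / η)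
  refine ⟨N + 1, fun n hn => ?_⟩
  have hn1 : 1 ≤ n := by omega
  obtain ⟨h1, h2⟩ := key n hn1
  have hn' : (0 : ℝ) < n := by exact_mod_cast hn1
  have hc : ∀ k, 0 ≤ cc k := by
    intro k
    unfold cc
    have hl : 0 ≤ Real.log 2 := Real.log_nonneg (by norm_num)
    positivity
  have hb : 2 / (n : ℝ) ≤ η := by
    rw [div_le_iff₀ hn']
    have h3 : (N : ℝ) ≤ n := by
      have : N ≤ n := by omega
      exact_mod_cast this
    rw [div_lt_iff₀ hη] at hN
    nlinarith
  constructor
  · refine h2.trans ?_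
    exact mul_le_mul_of_nonneg_right (by linarith) (hc _)
  · have := hc n
    nlinarith

end Pool.Agent.MAE
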