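import Pool.Agent.MAE.Stmts

/-!
Squad MAE (MP_f46acb_co), module CLO: transpositions, the two moved elements are clones.
-/

set_option autoImplicit false

namespace Pool.Agent.MAE

open Pool.Agent.Helper3.MAS Finset

namespace CLO_

theorem mdel {x : ℕ} {F : Finset (Finset ℕ)} {B : Finset ℕ} : B ∈ del x F ↔ B ∈ F ∧ x ∉ B :=
  Finset.mem_filter

theorem mem_con2 {x y : ℕ} (hxy : x ≠ y) {F : Finset (Finset ℕ)} {A : Finset ℕ} :
    A ∈ con y (con x F) ↔ ∃ B ∈ F, x ∈ B ∧ y ∈ B ∧ (B.erase x).erase y = A := by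
  unfold con
  constructor
  · intro h
    obtain ⟨C, hC, hCA⟩ := Finset.mem_image.mp h
    obtain ⟨hC1, hC2⟩ := Finset.mem_filter.mp hC
    obtain ⟨B, hB, hBC⟩ := Finset.mem_image.mp hC1
    obtain ⟨hB1, hB2⟩ := Finset.mem_filter.mp hB
    subst hBC
    exact ⟨B, hB1, hB2, Finset.mem_of_mem_erase hC2, hCA⟩
  · rintro ⟨B, hB, hx, hy, hA⟩
    refine Finset.mem_image.mpr ⟨B.erase x, Finset.mem_filter.mpr ⟨Finset.mem_image.mpr
      ⟨B, Finset.mem_filter.mpr ⟨hB, hx⟩, rfl⟩, Finset.mem_erase.mpr ⟨hxy.symm, hy⟩⟩, hA⟩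

/-- the members containing `y` and not `x` are determined by the two minors -/
theorem char {x y : ℕ} (hxy : x ≠ y) {F : Finset (Finset ℕ)} (hE : Exch F)
    (hQ : ∀ B ∈ F, ∀ B' ∈ F, B.card = B'.card) (hD : (del y (del x F)).Nonempty)
    (hC : (con y (con x F)).Nonempty) {A : Finset ℕ} (hxA : x ∉ A) (hyA : y ∉ A)
    (inv : insert x A ∈ F ↔ insert y A ∈ F) :
    insert y A ∈ F ↔ (∃ B ∈ del y (del x F), A ⊆ B ∧ B.card = A.card + 1) ∧
      ∃ A' ∈ con y (con x F), A' ⊆ A ∧ A'.card + 1 = A.card := by
  constructor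
  · intro hA
    constructor
    · obtain ⟨B0, hB0⟩ := hD
      rw [mdel, mdel] at hB0
      obtain ⟨b, hb, hbA, hbF⟩ := hE _ hA _ hB0.1.1 y (Finset.mem_insert_self _ _) hB0.2
      rw [Finset.erase_insert hyA] at hbF
      have hbA' : b ∉ A := fun h => hbA (Finset.mem_insert_of_mem h)
      refine ⟨insert b A, ?_, Finset.subset_insert _ _, Finset.card_insert_of_notMem hbA'⟩
      rw [mdel, mdel]
      refine ⟨⟨hbF, ?_⟩, ?_⟩
      · intro h
        rcases Finset.mem_insert.mp h with h | h
        · exact hB0.1.2 (h ▸ hb)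
        · exact hxA h
      · intro h
        rcases Finset.mem_insert.mp h with h | h
        · exact hB0.2 (h ▸ hb)
        · exact hyA h
    · -- a member containing `x`, `y` with the largest intersection
      have hne : (F.filter (fun D => x ∈ D ∧ y ∈ D)).Nonempty := by
        obtain ⟨A0, hA0⟩ := hC
        rw [mem_con2 hxy] at hA0
        obtain ⟨D, hD1, hD2, hD3, -⟩ := hA0
        exact ⟨D, Finset.mem_filter.mpr ⟨hD1, hD2, hD3⟩⟩
      obtain ⟨D, hDm, hmax⟩ := Finset.exists_max_image _
        (fun D : Finset ℕ => (D ∩ insert y A).card) hne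
      obtain ⟨hDF, hxD, hyD⟩ := Finset.mem_filter.mp hDm
      have hsd : D \ insert y A = {x} := by
        ext d
        rw [Finset.mem_sdiff, Finset.mem_singleton]
        constructor
        · rintro ⟨hd, hdA⟩
          by_contra hdx
          have hdy : d ≠ y := fun h => hdA (h ▸ Finset.mem_insert_self _ _)
          obtain ⟨e, he, heD, heF⟩ := hE _ hDF _ hA d hd hdA
          have hm := hmax (insert e (D.erase d)) (Finset.mem_filter.mpr ⟨heF,
            Finset.mem_insert_of_mem (Finset.mem_erase.mpr ⟨Ne.symm hdx, hxD⟩),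
            Finset.mem_insert_of_mem (Finset.mem_erase.mpr ⟨hdy.symm, hyD⟩)⟩)
          have hsub : insert e (D ∩ insert y A) ⊆ insert e (D.erase d) ∩ insert y A := by
            intro w hw
            rw [Finset.mem_inter]
            rcases Finset.mem_insert.mp hw with rfl | hw
            · exact ⟨Finset.mem_insert_self _ _, he⟩
            · rw [Finset.mem_inter] at hw
              refine ⟨Finset.mem_insert_of_mem (Finset.mem_erase.mpr ⟨?_, hw.1⟩), hw.2⟩
              rintro rfl
              exact hdA hw.2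
          have h1 := Finset.card_le_card hsub
          rw [Finset.card_insert_of_notMem (fun h => heD (Finset.mem_inter.mp h).1)] at h1
          omega
        · rintro rfl
          refine ⟨hxD, ?_⟩
          intro h
          rcases Finset.mem_insert.mp h with h | h
          · exact hxy h
          · exact hxA h
      have hcard := hQ _ hDF _ hA
      have hsd2 : (insert y A \ D).card = 1 := by
        have e1 := Finset.card_sdiff_add_card_inter D (insert y A)
        have e2 := Finset.card_sdiff_add_card_inter (insert y A) D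
        rw [hsd, Finset.card_singleton] at e1
        rw [Finset.inter_comm] at e2
        omega
      obtain ⟨a, ha⟩ := Finset.card_eq_one.mp hsd2
      have ha' : a ∈ insert y A \ D := ha ▸ Finset.mem_singleton_self a
      rw [Finset.mem_sdiff] at ha'
      have hay : a ≠ y := fun h => ha'.2 (h ▸ hyD)
      have haA : a ∈ A := by
        rcases Finset.mem_insert.mp ha'.1 with h | h
        · exact absurd h hay
        · exact h
      refine ⟨A.erase a, ?_, Finset.erase_subset _ _, ?_⟩
      · rw [mem_con2 hxy]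
        refine ⟨D, hDF, hxD, hyD, ?_⟩
        ext w
        simp only [Finset.mem_erase]
        constructor
        · rintro ⟨hwy, hwx, hwD⟩
          have hwA : w ∈ insert y A := by
            by_contra h
            have : w ∈ D \ insert y A := Finset.mem_sdiff.mpr ⟨hwD, h⟩
            rw [hsd, Finset.mem_singleton] at this
            exact hwx this
          rcases Finset.mem_insert.mp hwA with h | h
          · exact absurd h hwy
          · exact ⟨fun h' => ha'.2 (h' ▸ hwD), h⟩
        · rintro ⟨hwa, hwA⟩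
          refine ⟨fun h => hyA (h ▸ hwA), fun h => hxA (h ▸ hwA), ?_⟩
          by_contra h
          have : w ∈ insert y A \ D := Finset.mem_sdiff.mpr ⟨Finset.mem_insert_of_mem hwA, h⟩
          rw [ha, Finset.mem_singleton] at this
          exact hwa this
      · rw [Finset.card_erase_of_mem haA]
        have : 0 < A.card := Finset.card_pos.mpr ⟨a, haA⟩
        omega
  · rintro ⟨⟨B, hB, hAB, hBc⟩, A', hA', hA'A, hA'c⟩
    rw [mdel, mdel] at hB
    rw [mem_con2 hxy] at hA'
    obtain ⟨D, hDF, hxD, hyD, rfl⟩ := hA'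
    -- the additional element of `B`
    have hsdc : (B \ A).card = 1 := by
      rw [Finset.card_sdiff_of_subset hAB]
      omega
    obtain ⟨b, hb⟩ := Finset.card_eq_one.mp hsdc
    have hb' : b ∈ B \ A := hb ▸ Finset.mem_singleton_self b
    rw [Finset.mem_sdiff] at hb'
    have hBe : B.erase b = A := by
      ext w
      rw [Finset.mem_erase]
      constructor
      · rintro ⟨h1, h2⟩
        by_contra h3
        have : w ∈ B \ A := Finset.mem_sdiff.mpr ⟨h2, h3⟩
        rw [hb, Finset.mem_singleton] at this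
        exact h1 this
      · intro h
        exact ⟨fun h' => hb'.2 (h' ▸ h), hAB h⟩
    have hbx : b ≠ x := fun h => hB.1.2 (h ▸ hb'.1)
    have hby : b ≠ y := fun h => hB.2 (h ▸ hb'.1)
    have hbD : b ∉ D := by
      intro h
      exact hb'.2 (hA'A (Finset.mem_erase.mpr ⟨hby, Finset.mem_erase.mpr ⟨hbx, h⟩⟩))
    obtain ⟨z, hz, hzB, hzF⟩ := hE _ hB.1.1 _ hDF b hb'.1 hbD
    rw [hBe] at hzF
    by_cases hzx : z = x
    · rw [hzx] at hzF
      exact inv.mp hzF
    · by_cases hzy : z = y
      · rw [hzy] at hzF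
        exact hzF
      · exfalso
        exact hzB (hAB (hA'A (Finset.mem_erase.mpr ⟨hzy, Finset.mem_erase.mpr ⟨hzx, hz⟩⟩)))

end CLO_

open CLO_ in
theorem clo_proof (hEQC : Stmt_EQC) : Stmt_CLO := by
  intro K hK hKE n S hS σ x y hx hy hxy hσx hσy hfix
  have hy' : y ∈ S.erase x := Finset.mem_erase.mpr ⟨hxy.symm, hy⟩
  have hc1 : (S.erase x).card = n + 1 := by rw [Finset.card_erase_of_mem hx, hS]; rfl
  have hc2 : ((S.erase x).erase y).card = n := by rw [Finset.card_erase_of_mem hy', hc1]; rfl
  have imem : ∀ F : Finset (Finset ℕ), rl σ F = F → ∀ B, B ∈ F ↔ B.image σ ∈ F := by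
    intro F hF B
    constructor
    · intro h
      rw [← hF]
      exact mem_rl.mpr h
    · intro h
      rw [← hF] at h
      exact mem_rl.mp h
  have hxi : ∀ B : Finset ℕ, x ∈ B.image σ ↔ y ∈ B := by
    intro B
    constructor
    · intro h
      obtain ⟨w, hw, hwx⟩ := Finset.mem_image.mp h
      have : w = y := σ.injective (hwx.trans hσy.symm)
      rwa [← this]
    · intro h
      exact Finset.mem_image.mpr ⟨y, h, hσy⟩
  have himg : ∀ A : Finset ℕ, A ⊆ S → x ∉ A → y ∉ A → A.image σ = A := by
    intro A hA hxA hyA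
    have h1 : ∀ w ∈ A, σ w = w := fun w hw =>
      hfix w (hA hw) (fun h => hxA (h ▸ hw)) (fun h => hyA (h ▸ hw))
    ext w
    rw [Finset.mem_image]
    constructor
    · rintro ⟨v, hv, rfl⟩
      rw [h1 v hv]
      exact hv
    · intro hw
      exact ⟨w, hw, h1 w hw⟩
  have inv : ∀ F : Finset (Finset ℕ), rl σ F = F → ∀ A : Finset ℕ, A ⊆ S → x ∉ A → y ∉ A →
      (insert x A ∈ F ↔ insert y A ∈ F) := by
    intro F hF A hA hxA hyA
    rw [imem F hF (insert x A), Finset.image_insert, hσx, himg A hA hxA hyA]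
  have hsubS : ∀ F, K S F → ∀ B ∈ F, B ⊆ S := fun F hF B hB =>
    Finset.mem_powerset.mp (hK.sub hF hB)
  -- the three parts
  obtain ⟨A1, hA1⟩ : ∃ A1 : Set (Finset (Finset ℕ)), A1 = {F | (K S F ∧ rl σ F = F) ∧
    (del y (del x F)).Nonempty ∧ (con y (con x F)).Nonempty} := ⟨_, rfl⟩
  obtain ⟨A2, hA2⟩ : ∃ A2 : Set (Finset (Finset ℕ)), A2 = {F | (K S F ∧ rl σ F = F) ∧
    ¬ (del y (del x F)).Nonempty} := ⟨_, rfl⟩
  obtain ⟨A3, hA3⟩ : ∃ A3 : Set (Finset (Finset ℕ)), A3 = {F | (K S F ∧ rl σ F = F) ∧
    ¬ (con y (con x F)).Nonempty} := ⟨_, rfl⟩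
  have hfin : {F | K S F}.Finite := fin_cls hK S
  have hf1 : A1.Finite := hfin.subset (by rw [hA1]; exact fun F hF => hF.1.1)
  have hf2 : A2.Finite := hfin.subset (by rw [hA2]; exact fun F hF => hF.1.1)
  have hf3 : A3.Finite := hfin.subset (by rw [hA3]; exact fun F hF => hF.1.1)
  have hcov : {F | K S F ∧ rl σ F = F} ⊆ A1 ∪ (A2 ∪ A3) := by
    intro F hF
    by_cases h1 : (del y (del x F)).Nonempty
    · by_cases h2 : (con y (con x F)).Nonempty
      · left; rw [hA1]; exact ⟨hF, h1, h2⟩
      · right; right; rw [hA3]; exact ⟨hF, h2⟩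
    · right; left; rw [hA2]; exact ⟨hF, h1⟩
  have hb1 : A1.ncard ≤ (num K n) ^ 2 := by
    rw [sq]
    rw [← cnt_eq_num hK hc2]
    unfold cnt
    rw [← Set.ncard_prod, hA1]
    apply Set.ncard_le_ncard_of_injOn
      (fun F => (del y (del x F), con y (con x F))) _ _
      ((fin_cls hK _).prod (fin_cls hK _))
    · rintro F ⟨⟨hF, hσF⟩, -⟩
      exact ⟨hK.del hy' (hK.del hx hF), hK.con hy' (hK.con hx hF)⟩
    · have key : ∀ F F' : Finset (Finset ℕ), K S F → K S F' → rl σ F = F → rl σ F' = F' →
          (del y (del x F)).Nonempty → (con y (con x F)).Nonempty →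
          del y (del x F) = del y (del x F') → con y (con x F) = con y (con x F') →
          ∀ B ∈ F, B ∈ F' := by
        intro F F' hKF hKF' hF hF' hn1 hn2 h2 h3
        have hn1' : (del y (del x F')).Nonempty := h2 ▸ hn1
        have hn2' : (con y (con x F')).Nonempty := h3 ▸ hn2
        have mid : ∀ A : Finset ℕ, A ⊆ S → x ∉ A → y ∉ A → insert y A ∈ F → insert y A ∈ F' := by
          intro A hA hxA hyA h
          rw [char hxy (hKE S F' hKF') (hEQC F' (hKE S F' hKF')) hn1' hn2' hxA hyA
            (inv F' hF' A hA hxA hyA), ← h2, ← h3]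
          exact (char hxy (hKE S F hKF) (hEQC F (hKE S F hKF)) hn1 hn2 hxA hyA
            (inv F hF A hA hxA hyA)).mp h
        intro B hB
        have hBS := hsubS F hKF B hB
        by_cases hxB : x ∈ B
        · by_cases hyB : y ∈ B
          · have e1 : (B.erase x).erase y ∈ con y (con x F) :=
              (mem_con2 hxy).mpr ⟨B, hB, hxB, hyB, rfl⟩
            rw [h3, mem_con2 hxy] at e1
            obtain ⟨C, hC, hxC, hyC, hCB⟩ := e1
            have hC0 : C.erase x = B.erase x := by
              rw [← Finset.insert_erase (Finset.mem_erase.mpr ⟨hxy.symm, hyC⟩), hCB,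
                Finset.insert_erase (Finset.mem_erase.mpr ⟨hxy.symm, hyB⟩)]
            have hC1 : C = B := by
              rw [← Finset.insert_erase hxC, hC0, Finset.insert_erase hxB]
            rwa [← hC1]
          · have hAS : B.erase x ⊆ S := (Finset.erase_subset _ _).trans hBS
            have hxA : x ∉ B.erase x := Finset.notMem_erase _ _
            have hyA : y ∉ B.erase x := fun h => hyB (Finset.mem_of_mem_erase h)
            have e1 : insert x (B.erase x) ∈ F := by rwa [Finset.insert_erase hxB]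
            have e2 := mid _ hAS hxA hyA ((inv F hF _ hAS hxA hyA).mp e1)
            have e3 := (inv F' hF' _ hAS hxA hyA).mpr e2
            rwa [Finset.insert_erase hxB] at e3
        · by_cases hyB : y ∈ B
          · have hAS : B.erase y ⊆ S := (Finset.erase_subset _ _).trans hBS
            have hyA : y ∉ B.erase y := Finset.notMem_erase _ _
            have hxA : x ∉ B.erase y := fun h => hxB (Finset.mem_of_mem_erase h)
            have e1 : insert y (B.erase y) ∈ F := by rwa [Finset.insert_erase hyB]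
            have e2 := mid _ hAS hxA hyA e1
            rwa [Finset.insert_erase hyB] at e2
          · have e1 : B ∈ del y (del x F) := mdel.mpr ⟨mdel.mpr ⟨hB, hxB⟩, hyB⟩
            rw [h2] at e1
            exact (mdel.mp (mdel.mp e1).1).1
      rintro F ⟨⟨hKF, hF⟩, hn1, hn2⟩ F' ⟨⟨hKF', hF'⟩, hn1', hn2'⟩ h
      simp only [Prod.mk.injEq] at h
      ext B
      exact ⟨key F F' hKF hKF' hF hF' hn1 hn2 h.1 h.2 B,
        key F' F hKF' hKF hF' hF hn1' hn2' h.1.symm h.2.symm B⟩
  have hb2 : A2.ncard ≤ num K (n + 1) := by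
    rw [← cnt_eq_num hK hc1]
    unfold cnt
    rw [hA2]
    apply Set.ncard_le_ncard_of_injOn (fun F => con x F) _ _ (fin_cls hK _)
    · rintro F ⟨⟨hF, hσF⟩, -⟩
      exact hK.con hx hF
    · have key : ∀ F F' : Finset (Finset ℕ), rl σ F = F → rl σ F' = F' →
          ¬ (del y (del x F)).Nonempty → con x F = con x F' → ∀ B ∈ F, B ∈ F' := by
        intro F F' hF hF' hn h
        have c1 : ∀ B ∈ F, x ∈ B → B ∈ F' := by
          intro B hB hxB
          have e1 : B.erase x ∈ con x F :=
            Finset.mem_image.mpr ⟨B, Finset.mem_filter.mpr ⟨hB, hxB⟩, rfl⟩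
          rw [h] at e1
          obtain ⟨C, hC, hCB⟩ := Finset.mem_image.mp e1
          rw [Finset.mem_filter] at hC
          have : C = B := by rw [← Finset.insert_erase hC.2, hCB, Finset.insert_erase hxB]
          rw [← this]
          exact hC.1
        intro B hB
        by_cases hxB : x ∈ B
        · exact c1 B hB hxB
        · by_cases hyB : y ∈ B
          · exact (imem F' hF' B).mpr (c1 _ ((imem F hF B).mp hB) ((hxi B).mpr hyB))
          · exact absurd ⟨B, mdel.mpr ⟨mdel.mpr ⟨hB, hxB⟩, hyB⟩⟩ hn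
      rintro F ⟨⟨-, hF⟩, hn⟩ F' ⟨⟨-, hF'⟩, hn'⟩ h
      ext B
      exact ⟨key F F' hF hF' hn h B, key F' F hF' hF hn' h.symm B⟩
  have hb3 : A3.ncard ≤ num K (n + 1) := by
    rw [← cnt_eq_num hK hc1]
    unfold cnt
    rw [hA3]
    apply Set.ncard_le_ncard_of_injOn (fun F => del x F) _ _ (fin_cls hK _)
    · rintro F ⟨⟨hF, hσF⟩, -⟩
      exact hK.del hx hF
    · have key : ∀ F F' : Finset (Finset ℕ), rl σ F = F → rl σ F' = F' →
          ¬ (con y (con x F)).Nonempty → del x F = del x F' → ∀ B ∈ F, B ∈ F' := by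
        intro F F' hF hF' hn h
        have c1 : ∀ B ∈ F, x ∉ B → B ∈ F' := by
          intro B hB hxB
          have e1 : B ∈ del x F := mdel.mpr ⟨hB, hxB⟩
          rw [h] at e1
          exact (mdel.mp e1).1
        intro B hB
        by_cases hxB : x ∈ B
        · by_cases hyB : y ∈ B
          · exact absurd ⟨_, (mem_con2 hxy).mpr ⟨B, hB, hxB, hyB, rfl⟩⟩ hn
          · exact (imem F' hF' B).mpr
              (c1 _ ((imem F hF B).mp hB) (fun h' => hyB ((hxi B).mp h')))
        · exact c1 B hB hxB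
      rintro F ⟨⟨-, hF⟩, hn⟩ F' ⟨⟨-, hF'⟩, hn'⟩ h
      ext B
      exact ⟨key F F' hF hF' hn h B, key F' F hF' hF hn' h.symm B⟩
  have htot : fx K σ S ≤ A1.ncard + (A2.ncard + A3.ncard) := by
    unfold fx
    refine (Set.ncard_le_ncard hcov (hf1.union (hf2.union hf3))).trans ?_
    refine (Set.ncard_union_le _ _).trans ?_
    exact Nat.add_le_add_left (Set.ncard_union_le _ _) _
  omega

end Pool.Agent.MAE
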