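import Pool.Agent.MAE.Stmts2

set_option autoImplicit false

/-!
Squad MAE: the fundamental cocircuit.
-/

namespace Pool.Agent.MAE

open Pool.Agent.Helper3.MAS Finset

theorem coc_proof : Stmt_COC := by
  classical
  intro n r F hF Z b hZ hZr hb hbF B hB hdis
  have hF' := hF
  unfold allF at hF'
  rw [Finset.mem_filter, Finset.mem_powerset] at hF'
  obtain ⟨hsub, -, hex⟩ := hF'
  have hrange : ∀ y, ∀ D ∈ F, y ∈ D → y ∈ range n := by
    intro y D hD hy
    have h1 := hsub hD
    rw [Finset.mem_powersetCard] at h1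
    exact h1.1 hy
  rw [Finset.disjoint_left] at hdis
  by_cases hbB : b ∈ B
  · refine hdis ?_ hbB
    rw [Finset.mem_filter]
    exact ⟨hrange b B hB hbB, hb, hbF⟩
  · obtain ⟨y, hy, hyZ, hyF⟩ := hex (insert b Z) hbF B hB b (Finset.mem_insert_self b Z) hbB
    rw [Finset.erase_insert hb] at hyF
    rw [Finset.mem_insert, not_or] at hyZ
    refine hdis ?_ hy
    rw [Finset.mem_filter]
    exact ⟨hrange y B hB hy, hyZ.2, hyF⟩

end Pool.Agent.MAE
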