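import Pool.Agent.MAE.Stmts

set_option autoImplicit false

/-!
Squad MAE, module DEG: a large family of `r`-sets has a member with many neighbours.
-/

namespace Pool.Agent.MAE

open Pool.Agent.Helper3.MAS Finset

namespace DEG_

open Classical in
/-- incidence -/
noncomputable def ind (Z B : Finset ℕ) : ℕ := if Z ⊆ B then 1 else 0

lemma ind_mul (Z B B' : Finset ℕ) : ind Z B * ind Z B' = if Z ⊆ B ∩ B' then 1 else 0 := by
  unfold ind
  by_cases h1 : Z ⊆ B
  · by_cases h2 : Z ⊆ B'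
    · rw [if_pos h1, if_pos h2, if_pos (Finset.subset_inter h1 h2)]
    · have h3 : ¬ Z ⊆ B ∩ B' := fun h => h2 (h.trans Finset.inter_subset_right)
      rw [if_pos h1, if_neg h2, if_neg h3]
  · have h3 : ¬ Z ⊆ B ∩ B' := fun h => h1 (h.trans Finset.inter_subset_left)
    rw [if_neg h1, if_neg h3, zero_mul]

/-- the number of `k`-sets below a subset of the ground set -/
lemma sum_sub (n k : ℕ) (D : Finset ℕ) (hD : D ⊆ range n) :
    (∑ Z ∈ (range n).powersetCard k, if Z ⊆ D then 1 else 0) = D.card.choose k := by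
  rw [← Finset.card_filter, ← Finset.card_powersetCard]
  congr 1
  ext Z
  rw [Finset.mem_filter, Finset.mem_powersetCard, Finset.mem_powersetCard]
  constructor
  · rintro ⟨⟨_, h2⟩, h3⟩
    exact ⟨h3, h2⟩
  · rintro ⟨h1, h2⟩
    exact ⟨⟨h1.trans hD, h2⟩, h1⟩

end DEG_

theorem deg_proof : Stmt_DEG := by
  classical
  intro n r hr hrn A hA hne
  set 𝒵 := (range n).powersetCard (r - 1) with h𝒵
  have hAr : ∀ B ∈ A, B ⊆ range n ∧ B.card = r := fun B hB =>
    Finset.mem_powersetCard.mp (hA hB)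
  -- first moment
  have hm1 : ∑ Z ∈ 𝒵, ∑ B ∈ A, DEG_.ind Z B = r * A.card := by
    rw [Finset.sum_comm]
    have : ∀ B ∈ A, ∑ Z ∈ 𝒵, DEG_.ind Z B = r := by
      intro B hB
      obtain ⟨h1, h2⟩ := hAr B hB
      have h3 := DEG_.sum_sub n (r - 1) B h1
      have h4 : ∑ Z ∈ 𝒵, DEG_.ind Z B =
          ∑ Z ∈ (range n).powersetCard (r - 1), if Z ⊆ B then 1 else 0 := by
        apply Finset.sum_congr rfl
        intro Z _
        unfold DEG_.ind
        by_cases h : Z ⊆ B
        · simp [h]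
        · simp [h]
      rw [h4, h3, h2]
      obtain ⟨k, rfl⟩ : ∃ k, r = k + 1 := ⟨r - 1, by omega⟩
      simp
    rw [Finset.sum_congr rfl this, Finset.sum_const, smul_eq_mul, mul_comm]
  -- second moment
  have hm2 : ∑ Z ∈ 𝒵, (∑ B ∈ A, DEG_.ind Z B) ^ 2 ≤ ∑ B ∈ A, (r + (nbr r A B).card) := by
    have e1 : ∑ Z ∈ 𝒵, (∑ B ∈ A, DEG_.ind Z B) ^ 2 =
        ∑ B ∈ A, ∑ B' ∈ A, ∑ Z ∈ 𝒵, DEG_.ind Z B * DEG_.ind Z B' := by
      have : ∀ Z ∈ 𝒵, (∑ B ∈ A, DEG_.ind Z B) ^ 2 =
          ∑ B ∈ A, ∑ B' ∈ A, DEG_.ind Z B * DEG_.ind Z B' := by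
        intro Z _
        rw [sq, Finset.sum_mul_sum]
      rw [Finset.sum_congr rfl this, Finset.sum_comm]
      apply Finset.sum_congr rfl
      intro B _
      rw [Finset.sum_comm]
    rw [e1]
    apply Finset.sum_le_sum
    intro B hB
    obtain ⟨hB1, hB2⟩ := hAr B hB
    have hbound : ∀ B' ∈ A, ∑ Z ∈ 𝒵, DEG_.ind Z B * DEG_.ind Z B' ≤
        (if B' = B then r else 0) + (if (B ∩ B').card + 1 = r then 1 else 0) := by
      intro B' hB'
      obtain ⟨hB'1, hB'2⟩ := hAr B' hB'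
      have h4 : ∑ Z ∈ 𝒵, DEG_.ind Z B * DEG_.ind Z B' =
          ∑ Z ∈ (range n).powersetCard (r - 1), if Z ⊆ B ∩ B' then 1 else 0 := by
        apply Finset.sum_congr rfl
        intro Z _
        rw [DEG_.ind_mul]
      rw [h4, DEG_.sum_sub n (r - 1) (B ∩ B') (Finset.inter_subset_left.trans hB1)]
      by_cases h : B' = B
      · rw [if_pos h, h, Finset.inter_self, hB2]
        obtain ⟨k, rfl⟩ : ∃ k, r = k + 1 := ⟨r - 1, by omega⟩
        simp
      · rw [if_neg h]
        have hlt : (B ∩ B').card < r := by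
          by_contra hcon
          push Not at hcon
          have h5 : B ∩ B' = B := Finset.eq_of_subset_of_card_le Finset.inter_subset_left
            (by rw [hB2]; exact hcon)
          have h6 : B ∩ B' = B' := Finset.eq_of_subset_of_card_le Finset.inter_subset_right
            (by rw [hB'2]; exact hcon)
          exact h (h6.symm.trans h5)
        by_cases h7 : (B ∩ B').card + 1 = r
        · rw [if_pos h7]
          have h8 : r - 1 = (B ∩ B').card := by omega
          rw [h8, Nat.choose_self]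
        · rw [if_neg h7, Nat.choose_eq_zero_of_lt (by omega)]
    refine (Finset.sum_le_sum hbound).trans ?_
    rw [Finset.sum_add_distrib, Finset.sum_ite_eq' A B, if_pos hB]
    apply Nat.add_le_add_left
    unfold nbr
    rw [Finset.card_filter]
  -- Cauchy
  have hC : (0 : ℝ) < (n.choose (r - 1) : ℝ) := by
    exact_mod_cast Nat.choose_pos (by omega)
  have hcard : (𝒵.card : ℝ) = (n.choose (r - 1) : ℝ) := by
    rw [h𝒵, Finset.card_powersetCard, Finset.card_range]
  have hcs := sq_sum_le_card_mul_sum_sq (s := 𝒵) (f := fun Z => ((∑ B ∈ A, DEG_.ind Z B : ℕ) : ℝ))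
  rw [hcard] at hcs
  have hm1' : ∑ Z ∈ 𝒵, ((∑ B ∈ A, DEG_.ind Z B : ℕ) : ℝ) = r * A.card := by
    exact_mod_cast hm1
  have hm2' : ∑ Z ∈ 𝒵, ((∑ B ∈ A, DEG_.ind Z B : ℕ) : ℝ) ^ 2 ≤
      ∑ B ∈ A, ((r : ℝ) + ((nbr r A B).card : ℝ)) := by
    exact_mod_cast hm2
  rw [hm1'] at hcs
  by_contra hcon
  push Not at hcon
  have hApos : (0 : ℝ) < A.card := by exact_mod_cast hne.card_pos
  have hrpos : (0 : ℝ) < r := by exact_mod_cast hr
  have hal : (A.card : ℝ) / al n r = r * A.card / (n.choose (r - 1) : ℝ) := by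
    unfold al
    field_simp
  have hsum : ∑ B ∈ A, ((r : ℝ) + ((nbr r A B).card : ℝ)) <
      ∑ B ∈ A, ((r : ℝ) * (r * A.card / (n.choose (r - 1) : ℝ))) := by
    apply Finset.sum_lt_sum_of_nonempty hne
    intro B hB
    have h := hcon B hB
    rw [hal] at h
    linarith
  rw [Finset.sum_const, nsmul_eq_mul] at hsum
  have h1 : ((r : ℝ) * A.card) ^ 2 < (n.choose (r - 1) : ℝ) *
      (A.card * (r * (r * A.card / (n.choose (r - 1) : ℝ)))) :=
    (hcs.trans (mul_le_mul_of_nonneg_left hm2' hC.le)).trans_lt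
      (mul_lt_mul_of_pos_left hsum hC)
  have h2 : (n.choose (r - 1) : ℝ) * (A.card * (r * (r * A.card / (n.choose (r - 1) : ℝ)))) =
      ((r : ℝ) * A.card) ^ 2 := by
    field_simp
  linarith

end Pool.Agent.MAE
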