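import Pool.Agent.MAE.Stmts2

/-!
Squad MAE, module DEX: dual exchange.
-/

set_option autoImplicit false

namespace Pool.Agent.MAE

open Pool.Agent.Helper3.MAS Finset

theorem dex_proof (hEQC : Stmt_EQC) : Stmt_DEX := by
  intro F hF B hB B' hB' e he he'
  classical
  obtain ⟨D, hD, hmax⟩ := Finset.exists_max_image
    (F.filter (fun D => e ∈ D ∧ B ∩ B' ⊆ D)) (fun D => (D ∩ B').card)
    ⟨B, Finset.mem_filter.mpr ⟨hB, he, Finset.inter_subset_left⟩⟩
  rw [Finset.mem_filter] at hD
  obtain ⟨hDF, heD, hsub⟩ := hD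
  have h1 : ∀ d ∈ D, d ∉ B' → d = e := by
    intro d hd hd'
    by_contra hde
    obtain ⟨y, hy, hyD, hyF⟩ := hF D hDF B' hB' d hd hd'
    have hmem : insert y (D.erase d) ∈ F.filter (fun D => e ∈ D ∧ B ∩ B' ⊆ D) := by
      rw [Finset.mem_filter]
      refine ⟨hyF, ?_, ?_⟩
      · exact Finset.mem_insert_of_mem (Finset.mem_erase.mpr ⟨fun h => hde h.symm, heD⟩)
      · intro w hw
        have hwB' : w ∈ B' := (Finset.mem_inter.mp hw).2
        exact Finset.mem_insert_of_mem
          (Finset.mem_erase.mpr ⟨fun h => hd' (h ▸ hwB'), hsub hw⟩)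
    have h2 := hmax _ hmem
    have h3 : insert y (D ∩ B') ⊆ insert y (D.erase d) ∩ B' := by
      intro w hw
      rcases Finset.mem_insert.mp hw with rfl | hw
      · exact Finset.mem_inter.mpr ⟨Finset.mem_insert_self _ _, hy⟩
      · have hw' := Finset.mem_inter.mp hw
        exact Finset.mem_inter.mpr ⟨Finset.mem_insert_of_mem
          (Finset.mem_erase.mpr ⟨fun h => hd' (h ▸ hw'.2), hw'.1⟩), hw'.2⟩
    have h4 := Finset.card_le_card h3
    rw [Finset.card_insert_of_notMem (fun h => hyD (Finset.mem_inter.mp h).1)] at h4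
    omega
  have hsd : D \ B' = {e} := by
    ext w
    rw [Finset.mem_sdiff, Finset.mem_singleton]
    constructor
    · rintro ⟨hw, hw'⟩
      exact h1 w hw hw'
    · rintro rfl
      exact ⟨heD, he'⟩
  have hcard : D.card = B'.card := hEQC F hF D hDF B' hB'
  have hc2 : (B' \ D).card = 1 := by
    have e1 := Finset.card_sdiff_add_card_inter D B'
    have e2 := Finset.card_sdiff_add_card_inter B' D
    rw [hsd, Finset.card_singleton] at e1
    rw [Finset.inter_comm] at e2
    omega
  obtain ⟨z, hz⟩ := Finset.card_eq_one.mp hc2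
  have hz1 : z ∈ B' \ D := by rw [hz]; exact Finset.mem_singleton_self z
  rw [Finset.mem_sdiff] at hz1
  refine ⟨z, hz1.1, ?_, ?_⟩
  · intro hzB
    exact hz1.2 (hsub (Finset.mem_inter.mpr ⟨hzB, hz1.1⟩))
  · have : insert e (B'.erase z) = D := by
      ext w
      rw [Finset.mem_insert, Finset.mem_erase]
      constructor
      · rintro (rfl | ⟨hw, hw'⟩)
        · exact heD
        · by_contra hwD
          have : w ∈ B' \ D := Finset.mem_sdiff.mpr ⟨hw', hwD⟩
          rw [hz, Finset.mem_singleton] at this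
          exact hw this
      · intro hw
        by_cases hwB' : w ∈ B'
        · right
          exact ⟨fun h => hz1.2 (h ▸ hw), hwB'⟩
        · left
          exact h1 w hw hwB'
    rw [this]
    exact hDF

end Pool.Agent.MAE
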