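import Pool.Agent.MAE.Stmts2

/-!
Squad MAE, module DIC (two adjacent non-bases).
-/

set_option autoImplicit false

namespace Pool.Agent.MAE

open Pool.Agent.Helper3.MAS Finset

namespace DIC_

/-- `Z + b` with `b ∉ Z` is `X` if it is contained in `X` and the sizes agree -/
lemma insert_eq {Z X : Finset ℕ} {b r : ℕ} (hZ : Z ⊆ X) (hb : b ∈ X) (hbZ : b ∉ Z)
    (hZc : Z.card + 1 = r) (hX : X.card = r) : insert b Z = X := by
  apply Finset.eq_of_subset_of_card_le (Finset.insert_subset hb hZ)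
  rw [Finset.card_insert_of_notMem hbZ, hX, hZc]

end DIC_

theorem dic_proof : Stmt_DIC := by
  intro n r F hF X hX X' hX' hc hXF hXF'
  have hEx : Exch F := by
    simp only [allF, Finset.mem_filter] at hF
    exact hF.2.2
  by_contra hcon
  have h1 : ¬ (∀ Y ∈ (range n).powersetCard r, Y ⊆ X ∪ X' → Y ∉ F) := fun h => hcon (Or.inl h)
  have h2 : ¬ (∀ Y ∈ (range n).powersetCard r, X ∩ X' ⊆ Y → Y ∉ F) := fun h => hcon (Or.inr h)
  have h1' : ∃ Y ∈ (range n).powersetCard r, Y ⊆ X ∪ X' ∧ Y ∈ F := by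
    by_contra h
    exact h1 (fun Y hY hYs hYF => h ⟨Y, hY, hYs, hYF⟩)
  have h2' : ∃ Y ∈ (range n).powersetCard r, X ∩ X' ⊆ Y ∧ Y ∈ F := by
    by_contra h
    exact h2 (fun Y hY hYs hYF => h ⟨Y, hY, hYs, hYF⟩)
  obtain ⟨Y, -, hYs, hYF⟩ := h1'
  obtain ⟨Y', hY', hZY', hYF'⟩ := h2'
  have hXc : X.card = r := (Finset.mem_powersetCard.mp hX).2
  have hXc' : X'.card = r := (Finset.mem_powersetCard.mp hX').2
  have hYc' : Y'.card = r := (Finset.mem_powersetCard.mp hY').2
  -- `Y' = Z + b`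
  have hd : (Y' \ (X ∩ X')).card = 1 := by
    rw [Finset.card_sdiff_of_subset hZY']
    omega
  obtain ⟨b, hb⟩ := Finset.card_eq_one.mp hd
  have hbm : b ∈ Y' \ (X ∩ X') := by rw [hb]; exact Finset.mem_singleton_self b
  obtain ⟨hbY, hbZ⟩ := Finset.mem_sdiff.mp hbm
  have hYe : insert b (X ∩ X') = Y' := DIC_.insert_eq hZY' hbY hbZ hc hYc'
  have hbX : b ∉ X := by
    intro h
    apply hXF
    rw [← DIC_.insert_eq Finset.inter_subset_left h hbZ hc hXc, hYe]
    exact hYF'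
  have hbX' : b ∉ X' := by
    intro h
    apply hXF'
    rw [← DIC_.insert_eq Finset.inter_subset_right h hbZ hc hXc', hYe]
    exact hYF'
  have hbYY : b ∉ Y := by
    intro h
    rcases Finset.mem_union.mp (hYs h) with h | h
    · exact hbX h
    · exact hbX' h
  obtain ⟨y, hyY, hyY', hyF⟩ := hEx Y' hYF' Y hYF b hbY hbYY
  have he : Y'.erase b = X ∩ X' := by
    rw [← hYe, Finset.erase_insert hbZ]
  rw [he] at hyF
  have hyZ : y ∉ X ∩ X' := fun h => hyY' (hZY' h)
  rcases Finset.mem_union.mp (hYs hyY) with h | h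
  · apply hXF
    rw [← DIC_.insert_eq Finset.inter_subset_left h hyZ hc hXc]
    exact hyF
  · apply hXF'
    rw [← DIC_.insert_eq Finset.inter_subset_right h hyZ hc hXc']
    exact hyF

end Pool.Agent.MAE
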