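import Pool.Agent.MAE.Stmts

/-!
DUA: complementation of stable families.
-/

set_option autoImplicit false

namespace Pool.Agent.MAE

open Pool.Agent.Helper3.MAS Finset

namespace DUA_

/-- complements of the members -/
def comp (n : ℕ) (X : Finset (Finset ℕ)) : Finset (Finset ℕ) := X.image (fun B => range n \ B)

open Classical in
theorem comp_mem {n r : ℕ} (hr : r ≤ n) {X : Finset (Finset ℕ)} (hX : X ∈ stF n r) :
    comp n X ∈ stF n (n - r) := by
  unfold stF at hX ⊢
  rw [mem_filter, mem_powerset] at hX ⊢
  obtain ⟨-, hX1, hX2⟩ := hX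
  have hsub : comp n X ⊆ (range n).powersetCard (n - r) := by
    intro C hC
    obtain ⟨B, hB, rfl⟩ := mem_image.mp hC
    have hB' := mem_powersetCard.mp (hX1 hB)
    rw [mem_powersetCard]
    refine ⟨sdiff_subset, ?_⟩
    rw [card_sdiff_of_subset hB'.1, card_range, hB'.2]
  refine ⟨hsub, hsub, ?_⟩
  intro C hC a ha b hb hbC hmem
  obtain ⟨B, hB, rfl⟩ := mem_image.mp hC
  obtain ⟨D, hD, hDe⟩ := mem_image.mp hmem
  have hB' := mem_powersetCard.mp (hX1 hB)
  have hD' := mem_powersetCard.mp (hX1 hD)
  rw [mem_sdiff] at ha hbC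
  have hbB : b ∈ B := by
    by_contra h
    exact hbC ⟨hb, h⟩
  have hDeq : D = insert a (B.erase b) := by
    ext w
    have hw := Finset.ext_iff.mp hDe w
    simp only [mem_sdiff, mem_insert, mem_erase] at hw ⊢
    by_cases hwn : w ∈ range n
    · by_cases hwa : w = a
      · subst hwa
        have : w ≠ b := fun h => ha.2 (h ▸ hbB)
        tauto
      · by_cases hwb : w = b
        · subst hwb
          tauto
        · tauto
    · constructor
      · intro h; exact absurd (hD'.1 h) hwn
      · rintro (rfl | ⟨-, h⟩)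
        · exact absurd ha.1 hwn
        · exact absurd (hB'.1 h) hwn
  rw [hDeq] at hD
  exact hX2 B hB b hbB a ha.1 ha.2 hD

open Classical in
theorem comp_comp {n r : ℕ} {X : Finset (Finset ℕ)} (hX : X ∈ stF n r) :
    comp n (comp n X) = X := by
  unfold stF at hX
  rw [mem_filter, mem_powerset] at hX
  unfold comp
  rw [image_image]
  have : ∀ B ∈ X, ((fun B => range n \ B) ∘ (fun B => range n \ B)) B = id B := by
    intro B hB
    have hB' := mem_powersetCard.mp (hX.1 hB)
    simp only [Function.comp, id]
    exact Finset.sdiff_sdiff_eq_self hB'.1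
  rw [image_congr (fun B hB => this B hB), image_id]

end DUA_

theorem dua_proof : Stmt_DUA := by
  intro n r hr
  have hr' : n - (n - r) = r := Nat.sub_sub_self hr
  refine Finset.card_bij' (fun X _ => DUA_.comp n X) (fun X _ => DUA_.comp n X) ?_ ?_ ?_ ?_
  · intro X hX; exact DUA_.comp_mem hr hX
  · intro X hX
    have := DUA_.comp_mem (Nat.sub_le n r) hX
    rwa [hr'] at this
  · intro X hX; exact DUA_.comp_comp hX
  · intro X hX; exact DUA_.comp_comp hX

end Pool.Agent.MAE
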