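import Pool.Agent.Helper3.MAS.Exch

/-!
Squad MAE (MP_f46acb_co): definitions.
-/

set_option autoImplicit false

namespace Pool.Agent.MAE

open Pool.Agent.Helper3.MAS Finset

/-- paving (or empty) exchange families -/
def PavK (S : Finset ℕ) (F : Finset (Finset ℕ)) : Prop :=
  ExK S F ∧ ∀ B ∈ F, ∀ Z, Z ⊆ S → Z.card + 1 = B.card → ∃ B' ∈ F, Z ⊆ B'

/-- the number of members of the class on `S` fixed by `σ` -/
noncomputable def fx (K : Finset ℕ → Finset (Finset ℕ) → Prop) (σ : Equiv.Perm ℕ)
    (S : Finset ℕ) : ℕ := {F | K S F ∧ rl σ F = F}.ncard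

/-- stable families of `r`-subsets of `{0,...,n-1}`: no two members are adjacent in the Johnson
graph -/
def Stab (n r : ℕ) (X : Finset (Finset ℕ)) : Prop :=
  X ⊆ (range n).powersetCard r ∧
    ∀ B ∈ X, ∀ a ∈ B, ∀ b ∈ range n, b ∉ B → insert b (B.erase a) ∉ X

open Classical in
/-- the finite set of all stable families -/
noncomputable def stF (n r : ℕ) : Finset (Finset (Finset ℕ)) :=
  ((range n).powersetCard r).powerset.filter (Stab n r)

open Classical in
/-- the finite set of all nonempty paving families of rank `r` on `{0,...,n-1}` -/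
noncomputable def pavF (n r : ℕ) : Finset (Finset (Finset ℕ)) :=
  ((range n).powersetCard r).powerset.filter (fun F => F.Nonempty ∧ PavK (range n) F)

/-- number of subsets of size at most `q` of a set of size `N` -/
def sbs (N q : ℕ) : ℕ := ∑ i ∈ range (q + 1), N.choose i

/-- Knuth's exponent -/
noncomputable def cc (n : ℕ) : ℝ := Real.log 2 * (n.choose (n / 2) : ℝ) / n

/-- the packing bound `C(n,r-1)/r` -/
noncomputable def al (n r : ℕ) : ℝ := (n.choose (r - 1) : ℝ) / r

/-- members of `A` adjacent to `B` in the Johnson graph -/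
def nbr (r : ℕ) (A : Finset (Finset ℕ)) (B : Finset ℕ) : Finset (Finset ℕ) :=
  A.filter (fun B' => (B ∩ B').card + 1 = r)

/-- the `(r-1)`-subsets of `{0,...,m-1}` contained in no member of `I` -/
def avl (m r : ℕ) (I : Finset (Finset ℕ)) : Finset (Finset ℕ) :=
  ((range m).powersetCard (r - 1)).filter (fun A => ∀ C ∈ I, ¬ A ⊆ C)

/-- the permutation of `ℕ` given by a permutation of `Fin m` -/
noncomputable def exm {m : ℕ} (π : Equiv.Perm (Fin m)) : Equiv.Perm ℕ :=
  π.viaEmbedding Fin.valEmbedding

/-- the glued family: patterns `{m}`, `{m+1}` and `{m, m+1}` on the two new elements -/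
def glue (m : ℕ) (I J X : Finset (Finset ℕ)) : Finset (Finset ℕ) :=
  I.image (insert m) ∪ (J \ I).image (insert (m + 1)) ∪
    X.image (fun A => insert m (insert (m + 1) A))

end Pool.Agent.MAE
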