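import Pool.Agent.MAE.Stmts2

/-!
Squad MAE, module ENC: the number of matroids of a given rank against the number of stable
families (containers and the Sauer Shelah lemma).
-/

set_option autoImplicit false

namespace Pool.Agent.MAE

open Pool.Agent.Helper3.MAS Finset

namespace ENC_

/-- adjacency -/
def adj (r : ℕ) (u w : Finset ℕ) : Prop := u ≠ w ∧ (u ∩ w).card + 1 = r

instance (r : ℕ) : DecidableRel (adj r) := fun u w => by unfold adj; infer_instance

theorem adj_irr (r : ℕ) (u : Finset ℕ) : ¬ adj r u u := fun h => h.1 rfl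

theorem adj_iff {r : ℕ} {u w : Finset ℕ} (hu : u.card = r) :
    adj r u w ↔ (u ∩ w).card + 1 = r := by
  refine ⟨fun h => h.2, fun h => ⟨?_, h⟩⟩
  rintro rfl
  rw [Finset.inter_self] at h
  omega

/-- number of small subsets -/
theorem card_small {α : Type} [DecidableEq α] (U : Finset α) (q : ℕ) :
    (U.powerset.filter (fun X => X.card ≤ q)).card = sbs U.card q := by
  have : U.powerset.filter (fun X => X.card ≤ q) =
      (range (q + 1)).biUnion (fun i => U.powersetCard i) := by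
    ext X
    simp only [mem_filter, mem_powerset, mem_biUnion, mem_range, mem_powersetCard]
    constructor
    · rintro ⟨h1, h2⟩
      exact ⟨X.card, by omega, h1, rfl⟩
    · rintro ⟨i, hi, h1, h2⟩
      exact ⟨h1, by omega⟩
  rw [this, card_biUnion]
  · simp only [card_powersetCard]
    rfl
  · intro i _ j _ hij
    rw [Function.onFun, disjoint_left]
    intro X h1 h2
    rw [mem_powersetCard] at h1 h2
    exact hij (h1.2.symm.trans h2.2)

/-- the undecided sets -/
def VV (n r : ℕ) (P Q : Finset (Finset ℕ)) : Finset (Finset ℕ) :=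
  ((range n).powersetCard r) \ kno n r P Q

/-- the data of a family -/
structure Dat (n r Δ q : ℕ)
    (cont : Finset (Finset ℕ) → Finset (Finset ℕ) → Finset (Finset ℕ) → Finset (Finset ℕ))
    (F P Q S S2 CC HH : Finset (Finset ℕ)) : Prop where
  pp : P = smd n (Δ + 1) F
  qq : Q = smc n (Δ + 1) F
  sub : S ⊆ VV n r P Q \ F
  card : S.card ≤ q
  csub : cont P Q S ⊆ VV n r P Q
  deg : ∀ X ∈ cont P Q S, ((cont P Q S).filter (fun Y => adj r X Y)).card ≤ Δ
  cov : ∀ X ∈ VV n r P Q, X ∉ cont P Q S → X ∉ F → X ∈ S ∨ ∃ s ∈ S, adj r s X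
  s2 : S2 ⊆ S
  all : ∀ s ∈ S2, ∀ X ∈ (range n).powersetCard r, (s ∩ X).card + 1 = r → X ∉ F
  cc : CC.card ≤ q
  hh : HH.card ≤ q
  ccs : CC ⊆ (range n).powerset
  hhs : HH ⊆ (range n).powerset
  cer : ∀ C ∈ CC, ∀ X ∈ (range n).powersetCard r, C ⊆ X → X ∉ F
  her : ∀ H ∈ HH, ∀ X ∈ (range n).powersetCard r, X ⊆ H → X ∉ F
  com : ∀ s ∈ S, s ∉ S2 → ∀ X ∈ (range n).powersetCard r, (s ∩ X).card + 1 = r → X ∉ F →
    (∃ C ∈ CC, C ⊆ X) ∨ ∃ H ∈ HH, X ⊆ H

theorem kno_not_mem {n r d : ℕ} {F : Finset (Finset ℕ)} {X : Finset ℕ}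
    (h : X ∈ kno n r (smd n d F) (smc n d F)) : X ∉ F := by
  intro hX
  unfold kno smd smc at h
  simp only [mem_filter] at h
  rcases h.2 with ⟨D, hD, h1⟩ | ⟨D, hD, h1⟩
  · exact hD.2.2 X hX h1
  · exact hD.2.2 X hX h1

variable {n r Δ q : ℕ}
  {cont : Finset (Finset ℕ) → Finset (Finset ℕ) → Finset (Finset ℕ) → Finset (Finset ℕ)}

/-- the data determine the family outside the container -/
theorem agree {F F' P Q S S2 CC HH : Finset (Finset ℕ)}
    (h : Dat n r Δ q cont F P Q S S2 CC HH) (h' : Dat n r Δ q cont F' P Q S S2 CC HH)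
    {X : Finset ℕ} (hX : X ∈ (range n).powersetCard r) (hA : X ∉ cont P Q S) (hF : X ∉ F) :
    X ∉ F' := by
  by_cases hk : X ∈ kno n r P Q
  · rw [h'.pp, h'.qq] at hk
    exact kno_not_mem hk
  · have hV : X ∈ VV n r P Q := mem_sdiff.2 ⟨hX, hk⟩
    rcases h.cov X hV hA hF with hS | ⟨s, hs, hadj⟩
    · exact (mem_sdiff.1 (h'.sub hS)).2
    · by_cases h2 : s ∈ S2
      · exact h'.all s h2 X hX hadj.2
      · rcases h.com s hs h2 X hX hadj.2 hF with ⟨C, hC, h3⟩ | ⟨H, hH, h3⟩
        · exact h'.cer C hC X hX h3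
        · exact h'.her H hH X hX h3

/-- the data exist -/
theorem exists_dat (hr : 1 ≤ r) (hrn : r ≤ n)
    (hq : al n r / r * Real.log (1 + (n.choose r : ℝ) / al n r) + 1 + 2 * al n r / Δ ≤ q)
    (hLOC : Stmt_LOC)
    (hcont : ∀ P Q K : Finset (Finset ℕ), K ⊆ VV n r P Q → ∃ S, S ⊆ K ∧
      (S.card : ℝ) ≤ al n r / r * Real.log (1 + (VV n r P Q).card / al n r) + 1 +
        2 * al n r / Δ ∧
      cont P Q S ⊆ VV n r P Q ∧
      (∀ X ∈ cont P Q S, ((cont P Q S).filter (fun Y => adj r X Y)).card ≤ Δ) ∧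
      (∀ X ∈ VV n r P Q, X ∉ cont P Q S → X ∈ K → X ∈ S ∨ ∃ s ∈ S, adj r s X))
    {F : Finset (Finset ℕ)} (hF : F ∈ allF n r) :
    ∃ P Q S S2 CC HH, Dat n r Δ q cont F P Q S S2 CC HH := by
  classical
  obtain ⟨S, h1, h2, h3, h4, h5⟩ := hcont (smd n (Δ + 1) F) (smc n (Δ + 1) F)
    (VV n r (smd n (Δ + 1) F) (smc n (Δ + 1) F) \ F) sdiff_subset
  have hal : 0 < al n r := by
    unfold al
    have : 0 < n.choose (r - 1) := Nat.choose_pos (by omega)
    positivity
  have hcard : S.card ≤ q := by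
    have h6 : ((VV n r (smd n (Δ + 1) F) (smc n (Δ + 1) F)).card : ℝ) ≤ n.choose r := by
      have : (VV n r (smd n (Δ + 1) F) (smc n (Δ + 1) F)).card ≤ n.choose r := by
        refine (card_le_card sdiff_subset).trans ?_
        rw [card_powersetCard, card_range]
      exact_mod_cast this
    have h7 : (S.card : ℝ) ≤ q := by
      refine h2.trans (le_trans ?_ hq)
      have : Real.log (1 + (VV n r (smd n (Δ + 1) F) (smc n (Δ + 1) F)).card / al n r) ≤
          Real.log (1 + (n.choose r : ℝ) / al n r) := by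
        apply Real.log_le_log (by positivity)
        gcongr
      gcongr
    exact_mod_cast h7
  set S2 := S.filter (fun s => ∀ X ∈ (range n).powersetCard r, (s ∩ X).card + 1 = r → X ∉ F)
    with hS2
  have hex : ∀ s ∈ S \ S2, ∃ C H : Finset ℕ, C ⊆ range n ∧ H ⊆ range n ∧
      (∀ X ∈ (range n).powersetCard r, (C ⊆ X ∨ X ⊆ H) → X ∉ F) ∧
      (∀ X ∈ (range n).powersetCard r, (s ∩ X).card + 1 = r → X ∉ F → (C ⊆ X ∨ X ⊆ H)) := by
    intro s hs
    rw [mem_sdiff] at hs
    have hsm := mem_sdiff.1 (h1 hs.1)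
    have hsx : s ∈ (range n).powersetCard r := (mem_sdiff.1 hsm.1).1
    rcases hLOC n r F hF s hsx hsm.2 with h | h
    · exact absurd (mem_filter.2 ⟨hs.1, h⟩) hs.2
    · exact h
  choose! C H hC hH hCH hcom using hex
  refine ⟨_, _, S, S2, (S \ S2).image C, (S \ S2).image H, rfl, rfl, h1, hcard, h3, h4, ?_,
    filter_subset _ _, fun s hs => (mem_filter.1 hs).2, ?_, ?_, ?_, ?_, ?_, ?_, ?_⟩
  · intro X hX hA hF
    exact h5 X hX hA (mem_sdiff.2 ⟨hX, hF⟩)
  · exact card_image_le.trans ((card_le_card sdiff_subset).trans hcard)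
  · exact card_image_le.trans ((card_le_card sdiff_subset).trans hcard)
  · intro D hD
    obtain ⟨s, hs, rfl⟩ := mem_image.1 hD
    exact mem_powerset.2 (hC s hs)
  · intro D hD
    obtain ⟨s, hs, rfl⟩ := mem_image.1 hD
    exact mem_powerset.2 (hH s hs)
  · intro D hD X hX hDX
    obtain ⟨s, hs, rfl⟩ := mem_image.1 hD
    exact hCH s hs X hX (Or.inl hDX)
  · intro D hD X hX hDX
    obtain ⟨s, hs, rfl⟩ := mem_image.1 hD
    exact hCH s hs X hX (Or.inr hDX)
  · intro s hs hs2 X hX hadj hXF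
    have hs' : s ∈ S \ S2 := mem_sdiff.2 ⟨hs, hs2⟩
    rcases hcom s hs' X hX hadj hXF with h | h
    · exact Or.inl ⟨C s, mem_image_of_mem _ hs', h⟩
    · exact Or.inr ⟨H s, mem_image_of_mem _ hs', h⟩

theorem allF_sub {F : Finset (Finset ℕ)} (hF : F ∈ allF n r) :
    F ⊆ (range n).powersetCard r := by
  classical
  unfold allF at hF
  exact mem_powerset.1 (mem_filter.1 hF).1

/-- the families with the same data -/
theorem fibre (hr : 1 ≤ r) (hSHA : Stmt_SHA) {P Q S S2 CC HH : Finset (Finset ℕ)}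
    {𝓕 : Finset (Finset (Finset ℕ))} (h𝓕 : ∀ F ∈ 𝓕, F ∈ allF n r)
    (hD : ∀ F ∈ 𝓕, Dat n r Δ q cont F P Q S S2 CC HH) : 𝓕.card ≤ (stF n r).card := by
  classical
  rcases 𝓕.eq_empty_or_nonempty with h | ⟨F0, hF0⟩
  · rw [h]
    simp
  set A := cont P Q S with hA
  have hAX : A ⊆ (range n).powersetCard r := (hD F0 hF0).csub.trans sdiff_subset
  have hinj : Set.InjOn (fun F => A \ F) (𝓕 : Set (Finset (Finset ℕ))) := by
    intro F hF F' hF' he
    simp only [mem_coe] at hF hF' he
    ext X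
    by_cases hX : X ∈ (range n).powersetCard r
    · by_cases hXA : X ∈ A
      · have := congrArg (fun T => X ∈ T) he
        simp only [mem_sdiff, hXA, true_and, eq_iff_iff] at this
        tauto
      · constructor
        · intro h
          by_contra h'
          exact agree (hD F' hF') (hD F hF) hX hXA h' h
        · intro h
          by_contra h'
          exact agree (hD F hF) (hD F' hF') hX hXA h' h
    · exact ⟨fun h => absurd (allF_sub (h𝓕 F hF) h) hX,
        fun h => absurd (allF_sub (h𝓕 F' hF') h) hX⟩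
  rw [← card_image_of_injOn hinj]
  refine (card_le_card_shatterer _).trans (card_le_card ?_)
  intro I hI
  rw [mem_shatterer] at hI
  have hIA : I ⊆ A := by
    obtain ⟨u, hu, hIu⟩ := hI (Subset.refl I)
    obtain ⟨F, hF, rfl⟩ := mem_image.1 hu
    exact (inter_eq_left.1 hIu).trans sdiff_subset
  unfold stF
  rw [mem_filter, mem_powerset]
  refine ⟨hIA.trans hAX, hIA.trans hAX, ?_⟩
  intro B hB a ha b hb hbB hB'
  have hne : B ≠ insert b (B.erase a) := by
    intro h
    exact hbB (h ▸ mem_insert_self _ _)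
  have hBr : B.card = r := (mem_powersetCard.1 (hAX (hIA hB))).2
  have hint : (B ∩ insert b (B.erase a)).card + 1 = r := by
    have : B ∩ insert b (B.erase a) = B.erase a := by
      ext x
      simp only [mem_inter, mem_insert, mem_erase]
      constructor
      · rintro ⟨h1, rfl | h2⟩
        · exact absurd h1 hbB
        · exact h2
      · rintro ⟨h1, h2⟩
        exact ⟨h2, Or.inr ⟨h1, h2⟩⟩
    rw [this, card_erase_of_mem ha, hBr]
    omega
  obtain ⟨u, hu, hu2⟩ := hI (t := {B, insert b (B.erase a)}) (by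
    intro x hx
    rw [mem_insert, mem_singleton] at hx
    rcases hx with rfl | rfl
    · exact hB
    · exact hB')
  obtain ⟨F, hF, rfl⟩ := mem_image.1 hu
  obtain ⟨u', hu', hu2'⟩ := hI (t := {B}) (singleton_subset_iff.2 hB)
  obtain ⟨F', hF', rfl⟩ := mem_image.1 hu'
  have e1 : B ∉ F := by
    have : B ∈ I ∩ (A \ F) := by rw [hu2]; simp
    exact (mem_sdiff.1 (mem_inter.1 this).2).2
  have e2 : insert b (B.erase a) ∉ F := by
    have : insert b (B.erase a) ∈ I ∩ (A \ F) := by rw [hu2]; simp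
    exact (mem_sdiff.1 (mem_inter.1 this).2).2
  have e3 : B ∉ F' := by
    have : B ∈ I ∩ (A \ F') := by rw [hu2']; simp
    exact (mem_sdiff.1 (mem_inter.1 this).2).2
  have e4 : insert b (B.erase a) ∈ F' := by
    by_contra h
    have : insert b (B.erase a) ∈ I ∩ (A \ F') :=
      mem_inter.2 ⟨hB', mem_sdiff.2 ⟨hIA hB', h⟩⟩
    rw [hu2', mem_singleton] at this
    exact hne this.symm
  have d := hD F hF
  have d' := hD F' hF'
  refine hSHA n r Δ F F' A B (insert b (B.erase a)) (h𝓕 F hF) (h𝓕 F' hF') hAX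
    (d.pp.symm.trans d'.pp) (d.qq.symm.trans d'.qq) ?_ ?_ ?_ (hIA hB) (hIA hB') hint e1 e2 e3 e4
  · intro Y hY
    rw [← d.pp, ← d.qq]
    exact (mem_sdiff.1 (d.csub hY)).2
  · intro Y hY hYA
    constructor
    · intro h
      by_contra h'
      exact agree d' d hY hYA h' h
    · intro h
      by_contra h'
      exact agree d d' hY hYA h' h
  · intro Y hY
    have hYr : Y.card = r := (mem_powersetCard.1 (hAX hY)).2
    refine le_trans (card_le_card ?_) (d.deg Y hY)
    intro W hW
    rw [mem_filter] at hW ⊢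
    exact ⟨hW.1, (adj_iff hYr).2 hW.2⟩

end ENC_

open ENC_ in
theorem enc_proof (hRUN : Stmt_RUN) (hDEG : Stmt_DEG) (hLOC : Stmt_LOC) (hSHA : Stmt_SHA) :
    Stmt_ENC := by
  classical
  intro n r Δ q hr hrn hΔ hq
  have hal : 0 < al n r := by
    unfold al
    have : 0 < n.choose (r - 1) := Nat.choose_pos (by omega)
    positivity
  have hrun := fun P Q : Finset (Finset ℕ) => hRUN (adj r) (adj_irr r) (VV n r P Q) (al n r) r Δ
    hal (by positivity) hΔ (by
      intro A hA hne
      obtain ⟨B, hB, hB2⟩ := hDEG n r hr hrn A (hA.trans sdiff_subset) hne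
      refine ⟨B, hB, hB2.trans ?_⟩
      have hBr : B.card = r := (mem_powersetCard.1 ((mem_sdiff.1 (hA hB)).1)).2
      have : (nbr r A B).card ≤ (A.filter (fun w => adj r B w)).card := by
        refine card_le_card ?_
        intro W hW
        unfold nbr at hW
        rw [mem_filter] at hW ⊢
        exact ⟨hW.1, (adj_iff hBr).2 hW.2⟩
      exact_mod_cast this)
  choose cont hcont using hrun
  have hex : ∀ F ∈ allF n r, ∃ T : Finset (Finset ℕ) × Finset (Finset ℕ) × Finset (Finset ℕ) ×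
      Finset (Finset ℕ) × Finset (Finset ℕ) × Finset (Finset ℕ),
      Dat n r Δ q cont F T.1 T.2.1 T.2.2.1 T.2.2.2.1 T.2.2.2.2.1 T.2.2.2.2.2 := by
    intro F hF
    obtain ⟨P, Q, S, S2, CC, HH, h⟩ := exists_dat hr hrn hq hLOC hcont hF
    exact ⟨(P, Q, S, S2, CC, HH), h⟩
  choose! T hT using hex
  set PW := ((range n).powerset.filter (fun D => D.card ≤ Δ + 1)).powerset with hPW
  set SW := ((range n).powersetCard r).powerset.filter (fun X => X.card ≤ q) with hSW
  set CW := ((range n).powerset).powerset.filter (fun X => X.card ≤ q) with hCW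
  have c1 : PW.card = 2 ^ sbs n (Δ + 1) := by
    rw [hPW, card_powerset, card_small, card_range]
  have c2 : SW.card = sbs (n.choose r) q := by
    rw [hSW, card_small, card_powersetCard, card_range]
  have c3 : CW.card = sbs (2 ^ n) q := by
    rw [hCW, card_small, card_powerset, card_range]
  have hmaps : ∀ F ∈ allF n r, T F ∈ PW ×ˢ PW ×ˢ SW ×ˢ SW ×ˢ CW ×ˢ CW := by
    intro F hF
    have h := hT F hF
    have hSX : (T F).2.2.1 ⊆ (range n).powersetCard r :=
      h.sub.trans (sdiff_subset.trans sdiff_subset)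
    simp only [mem_product]
    refine ⟨?_, ?_, ?_, ?_, ?_, ?_⟩
    · rw [hPW, mem_powerset, h.pp]
      intro D hD
      unfold smd at hD
      rw [mem_filter] at hD ⊢
      exact ⟨hD.1, hD.2.1⟩
    · rw [hPW, mem_powerset, h.qq]
      intro D hD
      unfold smc at hD
      rw [mem_filter] at hD ⊢
      exact ⟨hD.1, hD.2.1⟩
    · exact mem_filter.2 ⟨mem_powerset.2 hSX, h.card⟩
    · exact mem_filter.2 ⟨mem_powerset.2 (h.s2.trans hSX), (card_le_card h.s2).trans h.card⟩
    · exact mem_filter.2 ⟨mem_powerset.2 h.ccs, h.cc⟩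
    · exact mem_filter.2 ⟨mem_powerset.2 h.hhs, h.hh⟩
  have hfib : ∀ t ∈ PW ×ˢ PW ×ˢ SW ×ˢ SW ×ˢ CW ×ˢ CW,
      ((allF n r).filter (fun F => T F = t)).card ≤ (stF n r).card := by
    intro t _
    refine fibre (Δ := Δ) (q := q) (cont := cont) (P := t.1) (Q := t.2.1) (S := t.2.2.1)
      (S2 := t.2.2.2.1) (CC := t.2.2.2.2.1) (HH := t.2.2.2.2.2) hr hSHA
      (fun F hF => (mem_filter.1 hF).1) ?_
    intro F hF
    have h1 := (mem_filter.1 hF).2
    have h2 := hT F (mem_filter.1 hF).1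
    rw [h1] at h2
    exact h2
  have hfin := card_le_mul_card_image_of_maps_to hmaps (stF n r).card hfib
  rw [card_product, card_product, card_product, card_product, card_product, c1, c2, c3] at hfin
  refine hfin.trans (le_of_eq ?_)
  rw [two_mul, pow_add]
  ring

end Pool.Agent.MAE
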