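import Pool.Agent.MAE.Stmts

set_option autoImplicit false

/-!
Squad MAE: members of an exchange family have the same size.
-/

namespace Pool.Agent.MAE

open Pool.Agent.Helper3.MAS Finset

namespace EQC_

theorem aux (F : Finset (Finset ℕ)) (hF : Exch F) (B' : Finset ℕ) (hB' : B' ∈ F) :
    ∀ n : ℕ, ∀ B ∈ F, (B \ B').card = n → B.card = B'.card := by
  intro n
  induction n with
  | zero =>
    intro B hB h
    rw [Finset.card_eq_zero, Finset.sdiff_eq_empty_iff_subset] at h
    by_cases hBB : B' ⊆ B
    · rw [Finset.Subset.antisymm h hBB]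
    · rw [Finset.not_subset] at hBB
      obtain ⟨x, hx, hxB⟩ := hBB
      obtain ⟨y, hy, hyB, -⟩ := hF B' hB' B hB x hx hxB
      exact absurd (h hy) hyB
  | succ n ih =>
    intro B hB h
    have hne : (B \ B').Nonempty := by
      rw [← Finset.card_pos]; omega
    obtain ⟨x, hx⟩ := hne
    rw [Finset.mem_sdiff] at hx
    obtain ⟨y, hy, hyB, hyF⟩ := hF B hB B' hB' x hx.1 hx.2
    have h1 := ih _ hyF (by
      have e : insert y (B.erase x) \ B' = (B \ B').erase x := by
        ext z
        simp only [Finset.mem_sdiff, Finset.mem_insert, Finset.mem_erase]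
        constructor
        · rintro ⟨rfl | h1, h2⟩
          · exact absurd hy h2
          · exact ⟨h1.1, h1.2, h2⟩
        · rintro ⟨h1, h2, h3⟩
          exact ⟨Or.inr ⟨h1, h2⟩, h3⟩
      rw [e, Finset.card_erase_of_mem (Finset.mem_sdiff.2 hx), h]
      rfl)
    rw [← h1, Finset.card_insert_of_notMem (fun h => hyB (Finset.mem_of_mem_erase h)),
      Finset.card_erase_add_one hx.1]

end EQC_

theorem eqc_proof : Stmt_EQC := by
  intro F hF B hB B' hB'
  exact EQC_.aux F hF B' hB' _ B hB rfl

end Pool.Agent.MAE
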