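import Pool.Agent.MAE.Stmts

set_option autoImplicit false

namespace Pool.Agent.MAE

open Pool.Agent.Helper3.MAS Finset

namespace EXT_

theorem step {n i : ℕ} (h : 3 * i + 2 ≤ n) : 2 * n.choose i ≤ n.choose (i + 1) := by
  have h1 := Nat.choose_succ_right_eq n i
  have h2 : (2 * n.choose i) * (i + 1) ≤ n.choose (i + 1) * (i + 1) := by
    rw [h1]
    have h3 : 2 * (i + 1) ≤ n - i := by omega
    calc (2 * n.choose i) * (i + 1) = n.choose i * (2 * (i + 1)) := by ring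
      _ ≤ n.choose i * (n - i) := Nat.mul_le_mul_left _ h3
  exact Nat.le_of_mul_le_mul_right h2 (Nat.succ_pos i)

theorem chain {n r : ℕ} : ∀ k : ℕ, 3 * (r + k) ≤ n + 1 → 2 ^ k * n.choose r ≤ n.choose (r + k) := by
  intro k
  induction k with
  | zero => intro _; simp
  | succ k ih =>
    intro h
    have h1 := ih (by omega)
    have h2 : 2 * n.choose (r + k) ≤ n.choose (r + k + 1) := step (by omega)
    calc 2 ^ (k + 1) * n.choose r = 2 * (2 ^ k * n.choose r) := by ring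
      _ ≤ 2 * n.choose (r + k) := Nat.mul_le_mul_left _ h1
      _ ≤ n.choose (r + (k + 1)) := h2

theorem main (ε : ℝ) (hε : 0 < ε) : ∃ n₀ : ℕ, ∀ n ≥ n₀, ∀ r : ℕ, 4 * r < n + 4 →
    (n.choose r : ℝ) * (n : ℝ) ^ 2 ≤ ε * cc n := by
  have hl2 : 0 < Real.log 2 := Real.log_pos (by norm_num)
  have ht := tendsto_pow_const_div_const_pow_of_one_lt 3 (show (1 : ℝ) < 2 by norm_num)
  have hpos : 0 < ε * Real.log 2 / 15625 := by positivity
  obtain ⟨k0, hk0⟩ := Filter.eventually_atTop.mp (ht.eventually_lt_const hpos)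
  refine ⟨12 * (k0 + 1) + 13, ?_⟩
  intro n hn r hr
  obtain ⟨k, hk⟩ : ∃ k, r + k = (n + 1) / 3 := ⟨(n + 1) / 3 - r, by omega⟩
  have hk1 : n ≤ 12 * k + 13 := by omega
  have hk2 : k0 ≤ k := by omega
  have hk3 : 1 ≤ k := by omega
  have h1 : 2 ^ k * n.choose r ≤ n.choose (n / 2) :=
    (chain k (by omega)).trans (Nat.choose_le_middle _ _)
  have h2 : (2 : ℝ) ^ k * n.choose r ≤ n.choose (n / 2) := by exact_mod_cast h1
  have h3 := hk0 k hk2
  rw [div_lt_iff₀ (by positivity)] at h3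
  have h4 : (n : ℝ) ≤ 25 * k := by
    have : n ≤ 25 * k := by omega
    exact_mod_cast this
  have h5 : (n : ℝ) ^ 3 ≤ 15625 * (k : ℝ) ^ 3 := by
    calc (n : ℝ) ^ 3 ≤ (25 * k) ^ 3 := by gcongr
      _ = 15625 * (k : ℝ) ^ 3 := by ring
  have h6 : (n : ℝ) ^ 3 ≤ ε * Real.log 2 * 2 ^ k := by
    have : 15625 * (k : ℝ) ^ 3 ≤ 15625 * (ε * Real.log 2 / 15625 * 2 ^ k) :=
      mul_le_mul_of_nonneg_left h3.le (by norm_num)
    calc (n : ℝ) ^ 3 ≤ 15625 * (k : ℝ) ^ 3 := h5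
      _ ≤ 15625 * (ε * Real.log 2 / 15625 * 2 ^ k) := this
      _ = ε * Real.log 2 * 2 ^ k := by ring
  have hn0 : (0 : ℝ) < n := by
    have : 0 < n := by omega
    exact_mod_cast this
  unfold cc
  rw [← mul_div_assoc, le_div_iff₀ hn0]
  calc (n.choose r : ℝ) * (n : ℝ) ^ 2 * n = (n : ℝ) ^ 3 * n.choose r := by ring
    _ ≤ (ε * Real.log 2 * 2 ^ k) * n.choose r := by gcongr
    _ = ε * Real.log 2 * (2 ^ k * n.choose r) := by ring
    _ ≤ ε * Real.log 2 * n.choose (n / 2) := by gcongr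
    _ = ε * (Real.log 2 * n.choose (n / 2)) := by ring

end EXT_

open EXT_ in
theorem ext_proof : Stmt_EXT := by
  intro ε hε
  obtain ⟨n0, h0⟩ := main ε hε
  refine ⟨n0, ?_⟩
  intro n hn r hr
  rcases hr with hr | hr
  · exact h0 n hn r hr
  · rcases Nat.lt_or_ge n r with h | h
    · rw [Nat.choose_eq_zero_of_lt h]
      have hl2 : 0 < Real.log 2 := Real.log_pos (by norm_num)
      have : 0 ≤ cc n := by unfold cc; positivity
      simp only [Nat.cast_zero, zero_mul]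
      positivity
    · rw [← Nat.choose_symm h]
      exact h0 n hn (n - r) (by omega)

end Pool.Agent.MAE
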