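import Pool.Agent.MAE.Stmts2

set_option autoImplicit false

namespace Pool.Agent.MAE

open Pool.Agent.Helper3.MAS Finset

theorem fuc_proof (hDEX : Stmt_DEX) : Stmt_FUC := by
  intro n r F hF D X _hD hDc hX hXD B hB hsub
  simp only [allF, Finset.mem_filter, Finset.mem_powerset] at hF
  obtain ⟨hF1, _, hF2⟩ := hF
  have hXc : X.card = r := (Finset.mem_powersetCard.mp (hF1 hX)).2
  have hex : ∃ e ∈ D, e ∉ X := by
    by_contra h
    push Not at h
    have := Finset.card_le_card (s := D) (t := X) h
    omega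
  obtain ⟨e, heD, heX⟩ := hex
  have hDe : D = insert e X := by
    refine (Finset.eq_of_subset_of_card_le (Finset.insert_subset heD hXD) ?_).symm
    rw [Finset.card_insert_of_notMem heX]
    omega
  have hDX : D.erase e = X := by rw [hDe, Finset.erase_insert heX]
  have heC : e ∈ D.filter (fun z => D.erase z ∈ F) := by
    rw [Finset.mem_filter, hDX]
    exact ⟨heD, hX⟩
  obtain ⟨z, hzX, hzB, hz⟩ := hDEX F hF2 B hB X hX e (hsub heC) heX
  have hze : z ≠ e := fun h => heX (h ▸ hzX)
  have hDz : D.erase z = insert e (X.erase z) := by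
    rw [hDe, Finset.erase_insert_of_ne hze.symm]
  refine hzB (hsub ?_)
  rw [Finset.mem_filter, hDz]
  exact ⟨hXD hzX, hz⟩

end Pool.Agent.MAE

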