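import Pool.Agent.MAE.Stmts

set_option autoImplicit false

/-!
Squad MAE: the glued family is stable.
-/

namespace Pool.Agent.MAE

open Pool.Agent.Helper3.MAS Finset

namespace GLS_

theorem mem_stF {n r : ℕ} {X : Finset (Finset ℕ)} : X ∈ stF n r ↔ Stab n r X := by
  classical
  unfold stF
  rw [Finset.mem_filter, Finset.mem_powerset]
  exact ⟨fun h => h.2, fun h => ⟨h.1, h⟩⟩

/-- pairwise small intersections -/
theorem stab_inter {n r : ℕ} {X : Finset (Finset ℕ)} (h : Stab n r X) {B B' : Finset ℕ}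
    (hB : B ∈ X) (hB' : B' ∈ X) (hne : B ≠ B') : (B ∩ B').card + 2 ≤ r := by
  have h1 := Finset.mem_powersetCard.1 (h.1 hB)
  have h2 := Finset.mem_powersetCard.1 (h.1 hB')
  by_contra hc
  have e1 : (B \ B').card + (B ∩ B').card = B.card := Finset.card_sdiff_add_card_inter B B'
  have e2 : (B' \ B).card + (B' ∩ B).card = B'.card := Finset.card_sdiff_add_card_inter B' B
  rw [Finset.inter_comm B' B] at e2
  have p1 : (B \ B').Nonempty := by
    rw [Finset.nonempty_iff_ne_empty]
    intro h0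
    rw [Finset.sdiff_eq_empty_iff_subset] at h0
    exact hne (Finset.eq_of_subset_of_card_le h0 (by omega))
  have p1' := Finset.card_pos.2 p1
  have q1 : (B \ B').card = 1 := by omega
  have q2 : (B' \ B).card = 1 := by omega
  obtain ⟨a, ha⟩ := Finset.card_eq_one.1 q1
  obtain ⟨b, hb⟩ := Finset.card_eq_one.1 q2
  have ha' : a ∈ B ∧ a ∉ B' := by
    rw [← Finset.mem_sdiff, ha]; exact Finset.mem_singleton_self a
  have hb' : b ∈ B' ∧ b ∉ B := by
    rw [← Finset.mem_sdiff, hb]; exact Finset.mem_singleton_self b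
  refine h.2 B hB a ha'.1 b (h2.1 hb'.1) hb'.2 ?_
  have : insert b (B.erase a) = B' := by
    ext z
    have k1 : z ∈ B ∧ z ∉ B' → z = a := by
      intro hz
      rw [← Finset.mem_sdiff, ha, Finset.mem_singleton] at hz
      exact hz
    have k2 : z ∈ B' ∧ z ∉ B → z = b := by
      intro hz
      rw [← Finset.mem_sdiff, hb, Finset.mem_singleton] at hz
      exact hz
    rw [Finset.mem_insert, Finset.mem_erase]
    constructor
    · rintro (rfl | ⟨h3, h4⟩)
      · exact hb'.1
      · by_contra h5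
        exact h3 (k1 ⟨h4, h5⟩)
    · intro h3
      by_cases h4 : z ∈ B
      · right
        refine ⟨?_, h4⟩
        rintro rfl
        exact ha'.2 h3
      · left
        exact k2 ⟨h3, h4⟩
  rw [this]
  exact hB'

theorem stab_of_inter {n r : ℕ} {X : Finset (Finset ℕ)} (h1 : X ⊆ (range n).powersetCard r)
    (h2 : ∀ B ∈ X, ∀ B' ∈ X, B ≠ B' → (B ∩ B').card + 2 ≤ r) : Stab n r X := by
  refine ⟨h1, fun B hB a ha b _ hbB hmem => ?_⟩
  have hne : B ≠ insert b (B.erase a) := by
    intro h
    apply hbB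
    rw [h]
    exact Finset.mem_insert_self _ _
  have h3 := h2 B hB _ hmem hne
  have h4 : B.erase a ⊆ B ∩ insert b (B.erase a) := by
    intro z hz
    exact Finset.mem_inter.2 ⟨Finset.mem_of_mem_erase hz, Finset.mem_insert_of_mem hz⟩
  have h5 := Finset.card_le_card h4
  rw [Finset.card_erase_of_mem ha] at h5
  have h6 := (Finset.mem_powersetCard.1 (h1 hB)).2
  omega

theorem notMem_of_range {m : ℕ} {C : Finset ℕ} (h : C ⊆ range m) : m ∉ C ∧ m + 1 ∉ C := by
  constructor
  · intro h1
    have := Finset.mem_range.1 (h h1)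
    omega
  · intro h1
    have := Finset.mem_range.1 (h h1)
    omega

theorem sub_range {m : ℕ} {C : Finset ℕ} (h : C ⊆ range m) : C ⊆ range (m + 2) := by
  intro z hz
  have := Finset.mem_range.1 (h hz)
  rw [Finset.mem_range]
  omega

/-- the three kinds of members -/
theorem cases {m : ℕ} {I J X : Finset (Finset ℕ)} {B : Finset ℕ} (h : B ∈ glue m I J X) :
    (∃ C ∈ I, B = insert m C) ∨ (∃ C, C ∈ J ∧ C ∉ I ∧ B = insert (m + 1) C) ∨
      (∃ A ∈ X, B = insert m (insert (m + 1) A)) := by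
  unfold glue at h
  rw [Finset.mem_union, Finset.mem_union, Finset.mem_image, Finset.mem_image,
    Finset.mem_image] at h
  rcases h with (⟨C, hC, rfl⟩ | ⟨C, hC, rfl⟩) | ⟨A, hA, rfl⟩
  · exact Or.inl ⟨C, hC, rfl⟩
  · rw [Finset.mem_sdiff] at hC
    exact Or.inr (Or.inl ⟨C, hC.1, hC.2, rfl⟩)
  · exact Or.inr (Or.inr ⟨A, hA, rfl⟩)

theorem card_inter_insert {x : ℕ} {C D : Finset ℕ} :
    (insert x C ∩ insert x D).card ≤ (C ∩ D).card + 1 := by
  have : insert x C ∩ insert x D = insert x (C ∩ D) := by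
    rw [Finset.insert_inter_distrib]
  rw [this]
  exact Finset.card_insert_le _ _

/-- the pairs of kinds (1, 3) and (2, 3) -/
theorem avl_inter {r : ℕ} {C A : Finset ℕ} (hA : A.card = r - 1) (h : ¬ A ⊆ C) :
    (C ∩ A).card + 1 ≤ r - 1 := by
  have h1 : C ∩ A ⊆ A := Finset.inter_subset_right
  have h2 : (C ∩ A).card < A.card := by
    refine Finset.card_lt_card (Finset.ssubset_iff_subset_ne.2 ⟨h1, ?_⟩)
    intro h3
    apply h
    rw [← h3]
    exact Finset.inter_subset_left
  omega

/-- intersections of members of different kinds -/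
theorem pair12 {m r : ℕ} {C D : Finset ℕ} (hC : C ⊆ range m) (hD : D ⊆ range m)
    (hCr : C.card = r) (hDr : D.card = r) (hne : C ≠ D) :
    (insert m C ∩ insert (m + 1) D).card + 2 ≤ r + 1 := by
  have h1 := notMem_of_range hC
  have h2 := notMem_of_range hD
  have e : insert m C ∩ insert (m + 1) D = C ∩ D := by
    ext z
    simp only [Finset.mem_inter, Finset.mem_insert]
    constructor
    · rintro ⟨rfl | h3, h4 | h4⟩
      · omega
      · exact absurd h4 h2.1
      · subst h4
        exact absurd h3 h1.2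
      · exact ⟨h3, h4⟩
    · rintro ⟨h3, h4⟩
      exact ⟨Or.inr h3, Or.inr h4⟩
  rw [e]
  have h3 : (C ∩ D).card < C.card := by
    refine Finset.card_lt_card (Finset.ssubset_iff_subset_ne.2 ⟨Finset.inter_subset_left, ?_⟩)
    intro h4
    apply hne
    refine Finset.eq_of_subset_of_card_le ?_ (by omega)
    rw [← h4]
    exact Finset.inter_subset_right
  omega

theorem pair13 {m r x : ℕ} {C A : Finset ℕ} (hC : C ⊆ range m) (hA : A ⊆ range m)
    (hx : x = m ∨ x = m + 1) (hr : 1 ≤ r) (hAr : A.card = r - 1) (h : ¬ A ⊆ C) :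
    (insert x C ∩ insert m (insert (m + 1) A)).card + 2 ≤ r + 1 := by
  have h1 := notMem_of_range hC
  have h2 := notMem_of_range hA
  have e : insert x C ∩ insert m (insert (m + 1) A) ⊆ insert x (C ∩ A) := by
    intro z
    simp only [Finset.mem_inter, Finset.mem_insert]
    rintro ⟨h3 | h3, h4 | h4 | h4⟩
    · exact Or.inl h3
    · exact Or.inl h3
    · exact Or.inl h3
    · subst h4
      exact absurd h3 h1.1
    · subst h4
      exact absurd h3 h1.2
    · exact Or.inr ⟨h3, h4⟩
  have h3 := avl_inter hAr h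
  have h4 := (Finset.card_le_card e).trans (Finset.card_insert_le _ _)
  omega

end GLS_

open GLS_ in
theorem gls_proof : Stmt_GLS := by
  intro m r I J X hr hI hJ hX hsub
  rw [mem_stF] at hI hJ hX ⊢
  have hI' : ∀ C ∈ I, C ⊆ range m ∧ C.card = r := fun C hC =>
    Finset.mem_powersetCard.1 (hI.1 hC)
  have hJ' : ∀ C ∈ J, C ⊆ range m ∧ C.card = r := fun C hC =>
    Finset.mem_powersetCard.1 (hJ.1 hC)
  have hX' : ∀ C ∈ X, C ⊆ range m ∧ C.card = r - 1 := fun C hC =>
    Finset.mem_powersetCard.1 (hX.1 hC)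
  have hXI : ∀ A ∈ X, ∀ C ∈ I, ¬ A ⊆ C := fun A hA => by
    have := (Finset.mem_inter.1 (hsub hA)).1
    unfold avl at this
    exact (Finset.mem_filter.1 this).2
  have hXJ : ∀ A ∈ X, ∀ C ∈ J, ¬ A ⊆ C := fun A hA => by
    have := (Finset.mem_inter.1 (hsub hA)).2
    unfold avl at this
    exact (Finset.mem_filter.1 this).2
  refine stab_of_inter ?_ ?_
  · intro B hB
    rw [Finset.mem_powersetCard]
    rcases cases hB with ⟨C, hC, rfl⟩ | ⟨C, hC, -, rfl⟩ | ⟨A, hA, rfl⟩
    · obtain ⟨h1, h2⟩ := hI' C hC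
      refine ⟨Finset.insert_subset (by simp) (sub_range h1), ?_⟩
      rw [Finset.card_insert_of_notMem (notMem_of_range h1).1, h2]
    · obtain ⟨h1, h2⟩ := hJ' C hC
      refine ⟨Finset.insert_subset (by simp) (sub_range h1), ?_⟩
      rw [Finset.card_insert_of_notMem (notMem_of_range h1).2, h2]
    · obtain ⟨h1, h2⟩ := hX' A hA
      refine ⟨Finset.insert_subset (by simp) (Finset.insert_subset (by simp) (sub_range h1)), ?_⟩
      rw [Finset.card_insert_of_notMem, Finset.card_insert_of_notMem (notMem_of_range h1).2, h2]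
      · omega
      · rw [Finset.mem_insert]
        rintro (h3 | h3)
        · omega
        · exact (notMem_of_range h1).1 h3
  · intro B hB B' hB' hne
    rcases cases hB with ⟨C, hC, rfl⟩ | ⟨C, hC, hCI, rfl⟩ | ⟨A, hA, rfl⟩ <;>
    rcases cases hB' with ⟨D, hD, rfl⟩ | ⟨D, hD, hDI, rfl⟩ | ⟨E, hE, rfl⟩
    · have h1 : C ≠ D := fun h => hne (by rw [h])
      have h2 := stab_inter hI hC hD h1
      have h3 := card_inter_insert (x := m) (C := C) (D := D)
      omega
    · exact pair12 (hI' C hC).1 (hJ' D hD).1 (hI' C hC).2 (hJ' D hD).2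
        (fun h => hDI (h ▸ hC))
    · exact pair13 (hI' C hC).1 (hX' E hE).1 (Or.inl rfl) hr (hX' E hE).2 (hXI E hE C hC)
    · rw [Finset.inter_comm]
      exact pair12 (hI' D hD).1 (hJ' C hC).1 (hI' D hD).2 (hJ' C hC).2
        (fun h => hCI (h ▸ hD))
    · have h1 : C ≠ D := fun h => hne (by rw [h])
      have h2 := stab_inter hJ hC hD h1
      have h3 := card_inter_insert (x := m + 1) (C := C) (D := D)
      omega
    · exact pair13 (hJ' C hC).1 (hX' E hE).1 (Or.inr rfl) hr (hX' E hE).2 (hXJ E hE C hC)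
    · rw [Finset.inter_comm]
      exact pair13 (hI' D hD).1 (hX' A hA).1 (Or.inl rfl) hr (hX' A hA).2 (hXI A hA D hD)
    · rw [Finset.inter_comm]
      exact pair13 (hJ' D hD).1 (hX' A hA).1 (Or.inr rfl) hr (hX' A hA).2 (hXJ A hA D hD)
    · have h1 : A ≠ E := fun h => hne (by rw [h])
      have h2 := stab_inter hX hA hE h1
      have h3 := card_inter_insert (x := m) (C := insert (m + 1) A) (D := insert (m + 1) E)
      have h4 := card_inter_insert (x := m + 1) (C := A) (D := E)
      omega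

end Pool.Agent.MAE
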