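import Pool.Agent.MAE.Stmts

/-!
Squad MAE (MP_f46acb_co), module GLU: gluing two stable families, counting version.
-/

set_option autoImplicit false

namespace Pool.Agent.MAE

open Pool.Agent.Helper3.MAS Finset

namespace GLU_

theorem sub_of_mem {m k : ℕ} {X : Finset (Finset ℕ)} (hX : X ∈ stF m k) {B : Finset ℕ}
    (hB : B ∈ X) : B ∈ (range m).powersetCard k := by
  classical
  have h := (Finset.mem_filter.mp hX).1
  exact (Finset.mem_powerset.mp h) hB

theorem le_of_mem {m k : ℕ} {X : Finset (Finset ℕ)} (hX : X ∈ stF m k) :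
    X ⊆ (range m).powersetCard k := fun _ hB => sub_of_mem hX hB

theorem not_mem_of_sub {m : ℕ} {B : Finset ℕ} (hB : B ⊆ range m) : m ∉ B ∧ m + 1 ∉ B := by
  constructor
  · intro h
    have := Finset.mem_range.mp (hB h)
    omega
  · intro h
    have := Finset.mem_range.mp (hB h)
    omega

theorem glue1 {m : ℕ} {I J X : Finset (Finset ℕ)} (hI : ∀ B ∈ I, B ⊆ range m)
    (hJ : ∀ B ∈ J, B ⊆ range m) (hX : ∀ B ∈ X, B ⊆ range m) {B : Finset ℕ} (hB : B ⊆ range m) :
    insert m B ∈ glue m I J X ↔ B ∈ I := by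
  obtain ⟨b1, b2⟩ := not_mem_of_sub hB
  unfold glue
  rw [Finset.mem_union, Finset.mem_union, Finset.mem_image, Finset.mem_image, Finset.mem_image]
  constructor
  · rintro ((⟨C, hC, h⟩ | ⟨C, hC, h⟩) | ⟨C, hC, h⟩)
    · obtain ⟨c1, c2⟩ := not_mem_of_sub (hI C hC)
      have : C = B := by
        rw [← Finset.erase_insert c1, h, Finset.erase_insert b1]
      rwa [← this]
    · exfalso
      have h1 : m + 1 ∈ insert m B := by rw [← h]; exact Finset.mem_insert_self _ _
      rcases Finset.mem_insert.mp h1 with h2 | h2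
      · omega
      · exact b2 h2
    · exfalso
      have h1 : m + 1 ∈ insert m B := by
        rw [← h]; exact Finset.mem_insert_of_mem (Finset.mem_insert_self _ _)
      rcases Finset.mem_insert.mp h1 with h2 | h2
      · omega
      · exact b2 h2
  · intro h
    exact Or.inl (Or.inl ⟨B, h, rfl⟩)

theorem glue2 {m : ℕ} {I J X : Finset (Finset ℕ)} (hI : ∀ B ∈ I, B ⊆ range m)
    (hJ : ∀ B ∈ J, B ⊆ range m) (hX : ∀ B ∈ X, B ⊆ range m) {B : Finset ℕ} (hB : B ⊆ range m) :
    insert (m + 1) B ∈ glue m I J X ↔ B ∈ J \ I := by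
  obtain ⟨b1, b2⟩ := not_mem_of_sub hB
  have hm : m ∉ insert (m + 1) B := by
    intro h
    rcases Finset.mem_insert.mp h with h2 | h2
    · omega
    · exact b1 h2
  unfold glue
  rw [Finset.mem_union, Finset.mem_union, Finset.mem_image, Finset.mem_image, Finset.mem_image]
  constructor
  · rintro ((⟨C, hC, h⟩ | ⟨C, hC, h⟩) | ⟨C, hC, h⟩)
    · exfalso
      exact hm (by rw [← h]; exact Finset.mem_insert_self _ _)
    · obtain ⟨c1, c2⟩ := not_mem_of_sub (hJ C (Finset.mem_sdiff.mp hC).1)
      have : C = B := by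
        rw [← Finset.erase_insert c2, h, Finset.erase_insert b2]
      rwa [← this]
    · exfalso
      exact hm (by rw [← h]; exact Finset.mem_insert_self _ _)
  · intro h
    exact Or.inl (Or.inr ⟨B, h, rfl⟩)

theorem glue3 {m : ℕ} {I J X : Finset (Finset ℕ)} (hI : ∀ B ∈ I, B ⊆ range m)
    (hJ : ∀ B ∈ J, B ⊆ range m) (hX : ∀ B ∈ X, B ⊆ range m) {B : Finset ℕ} (hB : B ⊆ range m) :
    insert m (insert (m + 1) B) ∈ glue m I J X ↔ B ∈ X := by
  obtain ⟨b1, b2⟩ := not_mem_of_sub hB
  have hm : m ∉ insert (m + 1) B := by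
    intro h
    rcases Finset.mem_insert.mp h with h2 | h2
    · omega
    · exact b1 h2
  unfold glue
  rw [Finset.mem_union, Finset.mem_union, Finset.mem_image, Finset.mem_image, Finset.mem_image]
  constructor
  · rintro ((⟨C, hC, h⟩ | ⟨C, hC, h⟩) | ⟨C, hC, h⟩)
    · exfalso
      obtain ⟨c1, c2⟩ := not_mem_of_sub (hI C hC)
      have h1 : m + 1 ∈ insert m C := by
        rw [h]; exact Finset.mem_insert_of_mem (Finset.mem_insert_self _ _)
      rcases Finset.mem_insert.mp h1 with h2 | h2
      · omega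
      · exact c2 h2
    · exfalso
      obtain ⟨c1, c2⟩ := not_mem_of_sub (hJ C (Finset.mem_sdiff.mp hC).1)
      have h1 : m ∈ insert (m + 1) C := by
        rw [h]; exact Finset.mem_insert_self _ _
      rcases Finset.mem_insert.mp h1 with h2 | h2
      · omega
      · exact c1 h2
    · obtain ⟨c1, c2⟩ := not_mem_of_sub (hX C hC)
      have hm' : m ∉ insert (m + 1) C := by
        intro h
        rcases Finset.mem_insert.mp h with h2 | h2
        · omega
        · exact c1 h2
      have h3 : insert (m + 1) C = insert (m + 1) B := by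
        rw [← Finset.erase_insert hm', h, Finset.erase_insert hm]
      have : C = B := by
        rw [← Finset.erase_insert c2, h3, Finset.erase_insert b2]
      rwa [← this]
  · intro h
    exact Or.inr ⟨B, h, rfl⟩

/-- the subsets of size at most `q` -/
def small (N : Finset (Finset ℕ)) (q : ℕ) : Finset (Finset (Finset ℕ)) :=
  (range (q + 1)).biUnion (fun i => N.powersetCard i)

theorem card_small (N : Finset (Finset ℕ)) (q : ℕ) : (small N q).card ≤ sbs N.card q := by
  unfold small sbs
  refine Finset.card_biUnion_le.trans (le_of_eq ?_)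
  exact Finset.sum_congr rfl (fun i _ => Finset.card_powersetCard i N)

theorem mem_small {N : Finset (Finset ℕ)} {q : ℕ} {Y : Finset (Finset ℕ)} (h1 : Y ⊆ N)
    (h2 : Y.card ≤ q) : Y ∈ small N q := by
  unfold small
  rw [Finset.mem_biUnion]
  exact ⟨Y.card, Finset.mem_range.mpr (by omega), Finset.mem_powersetCard.mpr ⟨h1, rfl⟩⟩

end GLU_

open GLU_ in
theorem glu_proof (hSEL : Stmt_SEL) (hGSC : Stmt_GSC) (hGLS : Stmt_GLS) (hRLS : Stmt_RLS) :
    Stmt_GLU := by
  classical
  intro m r δ hr hrm hδ0 hδ1 G hG hGc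
  set q : ℕ := ⌊2 / δ ^ 2 * ((al m r) ^ 2 / (m.choose r : ℝ))⌋₊ with hq
  set c : ℝ := δ ^ 2 / 2 * (m.choose (r - 1) : ℝ) with hc
  have hm1 : 1 ≤ m := hr.trans hrm
  have hm0 : (0 : ℝ) < m := by exact_mod_cast hm1
  have key : ∀ p ∈ G ×ˢ G, ∃ π : Equiv.Perm (Fin m), ∃ Q : Finset (Finset ℕ),
      rl (exm π) p.2 ∈ stF m r ∧ (p.1 ∩ rl (exm π) p.2).card ≤ q ∧ c / m ≤ (Q.card : ℝ) ∧
      ∀ X ⊆ Q, X ∈ stF m (r - 1) ∧ glue m p.1 (rl (exm π) p.2) X ∈ stF (m + 2) (r + 1) := by
    rintro ⟨I, J⟩ hp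
    obtain ⟨hI, hJ⟩ := Finset.mem_product.mp hp
    obtain ⟨π, h1, h2⟩ := hSEL m r δ hr hrm hδ0 hδ1 I (hG hI) J (hG hJ) (hGc I hI) (hGc J hJ)
    have hJ' : rl (exm π) J ∈ stF m r := hRLS m r π J (hG hJ)
    have hA : avl m r I ∩ avl m r (rl (exm π) J) ⊆ (range m).powersetCard (r - 1) := by
      intro A hA
      exact (Finset.mem_filter.mp (Finset.mem_inter.mp hA).1).1
    obtain ⟨Q, hQ1, hQ2, hQ3⟩ := hGSC m (r - 1) _ hm1 hA
    refine ⟨π, Q, hJ', ?_, ?_, ?_⟩
    · exact Nat.le_floor h2
    · exact (div_le_div_of_nonneg_right h1 hm0.le).trans hQ2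
    · intro X hX
      exact ⟨hQ3 X hX, hGLS m r I _ X hr (hG hI) hJ' (hQ3 X hX) (hX.trans hQ1)⟩
  choose! π Q k1 k2 k3 k4 using key
  -- the map
  set S : Finset (Σ _ : Finset (Finset ℕ) × Finset (Finset ℕ), Finset (Finset ℕ)) :=
    (G ×ˢ G).sigma (fun p => (Q p).powerset) with hS
  set T : Finset (Finset (Finset ℕ) × Equiv.Perm (Fin m) × Finset (Finset ℕ)) :=
    stF (m + 2) (r + 1) ×ˢ ((univ : Finset (Equiv.Perm (Fin m))) ×ˢ
      small ((range m).powersetCard r) q) with hT
  have hcard : S.card ≤ T.card := by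
    refine Finset.card_le_card_of_injOn
      (fun s => (glue m s.1.1 (rl (exm (π s.1)) s.1.2) s.2, π s.1,
        s.1.1 ∩ rl (exm (π s.1)) s.1.2)) ?_ ?_
    · rintro ⟨p, X⟩ hs
      obtain ⟨hp, hX⟩ := Finset.mem_sigma.mp (Finset.mem_coe.mp hs)
      have hX' : X ⊆ Q p := Finset.mem_powerset.mp hX
      rw [Finset.mem_coe, hT, Finset.mem_product, Finset.mem_product]
      refine ⟨(k4 p hp X hX').2, Finset.mem_univ _, mem_small ?_ (k2 p hp)⟩
      intro B hB
      exact sub_of_mem (hG (Finset.mem_product.mp hp).1) (Finset.mem_inter.mp hB).1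
    · rintro ⟨p, X⟩ hs ⟨p', X'⟩ hs' h
      obtain ⟨hp, hX⟩ := Finset.mem_sigma.mp (Finset.mem_coe.mp hs)
      obtain ⟨hp', hX'⟩ := Finset.mem_sigma.mp (Finset.mem_coe.mp hs')
      have hXQ : X ⊆ Q p := Finset.mem_powerset.mp hX
      have hXQ' : X' ⊆ Q p' := Finset.mem_powerset.mp hX'
      simp only [Prod.mk.injEq] at h
      obtain ⟨e1, e2, e3⟩ := h
      have sI : ∀ B ∈ p.1, B ⊆ range m := fun B hB =>
        (Finset.mem_powersetCard.mp (sub_of_mem (hG (Finset.mem_product.mp hp).1) hB)).1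
      have sI' : ∀ B ∈ p'.1, B ⊆ range m := fun B hB =>
        (Finset.mem_powersetCard.mp (sub_of_mem (hG (Finset.mem_product.mp hp').1) hB)).1
      have sJ : ∀ B ∈ rl (exm (π p)) p.2, B ⊆ range m := fun B hB =>
        (Finset.mem_powersetCard.mp (sub_of_mem (k1 p hp) hB)).1
      have sJ' : ∀ B ∈ rl (exm (π p')) p'.2, B ⊆ range m := fun B hB =>
        (Finset.mem_powersetCard.mp (sub_of_mem (k1 p' hp') hB)).1
      have sX : ∀ B ∈ X, B ⊆ range m := fun B hB =>
        (Finset.mem_powersetCard.mp (sub_of_mem (k4 p hp X hXQ).1 hB)).1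
      have sX' : ∀ B ∈ X', B ⊆ range m := fun B hB =>
        (Finset.mem_powersetCard.mp (sub_of_mem (k4 p' hp' X' hXQ').1 hB)).1
      have a1 : p.1 = p'.1 := by
        ext B
        constructor
        · intro hB
          have h1 := (glue1 sI sJ sX (sI B hB)).mpr hB
          rw [e1] at h1
          exact (glue1 sI' sJ' sX' (sI B hB)).mp h1
        · intro hB
          have h1 := (glue1 sI' sJ' sX' (sI' B hB)).mpr hB
          rw [← e1] at h1
          exact (glue1 sI sJ sX (sI' B hB)).mp h1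
      have a2 : rl (exm (π p)) p.2 \ p.1 = rl (exm (π p')) p'.2 \ p'.1 := by
        ext B
        constructor
        · intro hB
          have hs := sJ B (Finset.mem_sdiff.mp hB).1
          have h1 := (glue2 sI sJ sX hs).mpr hB
          rw [e1] at h1
          exact (glue2 sI' sJ' sX' hs).mp h1
        · intro hB
          have hs := sJ' B (Finset.mem_sdiff.mp hB).1
          have h1 := (glue2 sI' sJ' sX' hs).mpr hB
          rw [← e1] at h1
          exact (glue2 sI sJ sX hs).mp h1
      have a3 : X = X' := by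
        ext B
        constructor
        · intro hB
          have h1 := (glue3 sI sJ sX (sX B hB)).mpr hB
          rw [e1] at h1
          exact (glue3 sI' sJ' sX' (sX B hB)).mp h1
        · intro hB
          have h1 := (glue3 sI' sJ' sX' (sX' B hB)).mpr hB
          rw [← e1] at h1
          exact (glue3 sI sJ sX (sX' B hB)).mp h1
      have a4 : rl (exm (π p)) p.2 = rl (exm (π p')) p'.2 := by
        have b1 : ∀ A B : Finset (Finset ℕ), B = (B \ A) ∪ (A ∩ B) := by
          intro A B
          ext x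
          simp only [Finset.mem_union, Finset.mem_sdiff, Finset.mem_inter]
          tauto
        rw [b1 p.1 (rl (exm (π p)) p.2), b1 p'.1 (rl (exm (π p')) p'.2), a2, e3]
      have a5 : p.2 = p'.2 := by
        rw [e2] at a4
        exact rl_injective _ a4
      have a6 : p = p' := Prod.ext a1 a5
      subst a6
      subst a3
      rfl
  -- the cardinalities
  have hTc : (T.card : ℝ) ≤ ((stF (m + 2) (r + 1)).card : ℝ) *
      (m.factorial * sbs (m.choose r) q) := by
    have h1 : T.card = (stF (m + 2) (r + 1)).card * (m.factorial *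
        (small ((range m).powersetCard r) q).card) := by
      rw [hT, Finset.card_product, Finset.card_product, Finset.card_univ, Fintype.card_perm,
        Fintype.card_fin]
    have h2 : (small ((range m).powersetCard r) q).card ≤ sbs (m.choose r) q := by
      have := card_small ((range m).powersetCard r) q
      rwa [Finset.card_powersetCard, Finset.card_range] at this
    rw [h1]
    push_cast
    refine mul_le_mul_of_nonneg_left ?_ (Nat.cast_nonneg _)
    refine mul_le_mul_of_nonneg_left ?_ (Nat.cast_nonneg _)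
    exact_mod_cast h2
  have hSc : (G.card : ℝ) ^ 2 * (2 : ℝ) ^ (c / m) ≤ (S.card : ℝ) := by
    have h1 : (S.card : ℝ) = ∑ p ∈ G ×ˢ G, (2 : ℝ) ^ (Q p).card := by
      rw [hS, Finset.card_sigma]
      push_cast
      refine Finset.sum_congr rfl (fun p _ => ?_)
      rw [Finset.card_powerset]
      push_cast
      rfl
    rw [h1]
    have h2 : ((G ×ˢ G).card : ℝ) = (G.card : ℝ) ^ 2 := by
      rw [Finset.card_product]
      push_cast
      ring
    rw [← h2, ← nsmul_eq_mul]
    refine Finset.card_nsmul_le_sum _ _ _ (fun p hp => ?_)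
    have h3 := k3 p hp
    calc (2 : ℝ) ^ (c / m) ≤ (2 : ℝ) ^ ((Q p).card : ℝ) :=
          Real.rpow_le_rpow_of_exponent_le (by norm_num) h3
      _ = (2 : ℝ) ^ (Q p).card := Real.rpow_natCast _ _
  have h : (S.card : ℝ) ≤ T.card := by exact_mod_cast hcard
  have hfin := hSc.trans (h.trans hTc)
  rw [hc] at hfin
  exact hfin

end Pool.Agent.MAE
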