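import Pool.Agent.MAE.Stmts

set_option autoImplicit false

namespace Pool.Agent.MAE

open Pool.Agent.Helper3.MAS Finset

theorem gsc_proof : Stmt_GSC := by
  classical
  intro m k A hm hA
  have : NeZero m := ⟨by omega⟩
  let s : Finset ℕ → ZMod m := fun B => ∑ i ∈ B, (i : ZMod m)
  obtain ⟨a, ha⟩ : ∃ a : ZMod m, A.card ≤ m * (A.filter (fun B => s B = a)).card := by
    obtain ⟨a, -, ha⟩ := Finset.exists_max_image (Finset.univ : Finset (ZMod m))
      (fun a => (A.filter (fun B => s B = a)).card) ⟨0, Finset.mem_univ _⟩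
    refine ⟨a, ?_⟩
    rw [Finset.card_eq_sum_card_fiberwise (f := s) (t := Finset.univ)
      (fun _ _ => Finset.mem_coe.mpr (Finset.mem_univ _))]
    calc ∑ b : ZMod m, (A.filter (fun B => s B = b)).card
        ≤ ∑ _b : ZMod m, (A.filter (fun B => s B = a)).card :=
          Finset.sum_le_sum (fun b hb => ha b hb)
      _ = m * (A.filter (fun B => s B = a)).card := by
          rw [Finset.sum_const, Finset.card_univ, ZMod.card, smul_eq_mul]
  refine ⟨A.filter (fun B => s B = a), Finset.filter_subset _ _, ?_, ?_⟩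
  · have hm' : (0 : ℝ) < m := by exact_mod_cast hm
    rw [div_le_iff₀ hm']
    have : (A.card : ℝ) ≤ m * (A.filter (fun B => s B = a)).card := by exact_mod_cast ha
    linarith
  · intro X hX
    have hXA : X ⊆ (range m).powersetCard k :=
      hX.trans ((Finset.filter_subset _ _).trans hA)
    unfold stF
    rw [Finset.mem_filter]
    refine ⟨Finset.mem_powerset.mpr hXA, hXA, ?_⟩
    intro B hB x hx b hbn hb hmem
    have h1 : s B = a := (Finset.mem_filter.mp (hX hB)).2
    have h2 : s (insert b (B.erase x)) = a := (Finset.mem_filter.mp (hX hmem)).2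
    have hBn : B ⊆ range m := (Finset.mem_powersetCard.mp (hXA hB)).1
    have e1 : s B = (x : ZMod m) + s (B.erase x) := by
      change ∑ i ∈ B, (i : ZMod m) = _ + ∑ i ∈ B.erase x, (i : ZMod m)
      rw [Finset.add_sum_erase _ _ hx]
    have e2 : s (insert b (B.erase x)) = (b : ZMod m) + s (B.erase x) := by
      change ∑ i ∈ insert b (B.erase x), (i : ZMod m) = _ + ∑ i ∈ B.erase x, (i : ZMod m)
      rw [Finset.sum_insert (fun h => hb (Finset.mem_of_mem_erase h))]
    rw [h1] at e1
    rw [h2, e1] at e2
    have e3 : (x : ZMod m) = (b : ZMod m) := add_right_cancel e2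
    have hxn : x < m := Finset.mem_range.mp (hBn hx)
    have hbn' : b < m := Finset.mem_range.mp hbn
    have e4 : x = b := by
      have := congrArg ZMod.val e3
      rwa [ZMod.val_natCast_of_lt hxn, ZMod.val_natCast_of_lt hbn'] at this
    exact hb (e4 ▸ hx)

end Pool.Agent.MAE
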