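import Pool.Agent.MAE.Stmts

/-!
Squad MAE, module INV: involutions fix few families.
-/

set_option autoImplicit false

namespace Pool.Agent.MAE

open Pool.Agent.Helper3.MAS Finset

namespace INV_

/-- the inductive statement -/
def DD (K : Finset ℕ → Finset (Finset ℕ) → Prop) (a : ℝ) : Prop :=
  ∀ η : ℝ, 0 < η → ∃ n₀ : ℕ, ∀ S : Finset ℕ, n₀ ≤ S.card → ∀ σ : Equiv.Perm ℕ,
    (∀ w ∈ S, σ w ∈ S ∧ σ (σ w) = w) → (∃ w ∈ S, σ w ≠ w) →
    Real.log (fx K σ S) ≤ (1 + a + η) * cc S.card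

theorem cc_nonneg (n : ℕ) : 0 ≤ cc n := by
  unfold cc
  have := Real.log_nonneg (by norm_num : (1 : ℝ) ≤ 2)
  positivity

theorem fx_le (K : Finset ℕ → Finset (Finset ℕ) → Prop) (hK : MC K) (σ : Equiv.Perm ℕ)
    (S : Finset ℕ) : fx K σ S ≤ num K S.card := by
  rw [← cnt_eq_num hK rfl]
  unfold fx cnt
  exact Set.ncard_le_ncard (fun F hF => hF.1) (fin_cls hK S)

theorem log_le {m : ℕ} {x : ℝ} (hx : 0 ≤ x) (h : (m : ℝ) ≤ Real.exp x) : Real.log m ≤ x := by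
  rcases Nat.eq_zero_or_pos m with h0 | h0
  · rw [h0]
    simpa using hx
  · have : (0 : ℝ) < m := by exact_mod_cast h0
    exact (Real.log_le_iff_le_exp this).2 h

theorem le_exp {m : ℕ} {x : ℝ} (h : Real.log m ≤ x) : (m : ℝ) ≤ Real.exp x := by
  rcases Nat.eq_zero_or_pos m with h0 | h0
  · rw [h0]
    have := Real.exp_pos x
    simpa using this.le
  · have : (0 : ℝ) < m := by exact_mod_cast h0
    exact (Real.log_le_iff_le_exp this).1 h

theorem base (K : Finset ℕ → Finset (Finset ℕ) → Prop) (hK : MC K)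
    (hub : ∀ ε : ℝ, 0 < ε → ∃ n₀ : ℕ, ∀ n ≥ n₀, Real.log (num K n) ≤ (2 + ε) * cc n) :
    DD K 1 := by
  intro η hη
  obtain ⟨n₀, h₀⟩ := hub η hη
  refine ⟨n₀, ?_⟩
  intro S hS σ _ _
  have h1 := h₀ S.card hS
  have hc := cc_nonneg S.card
  have h2 : (0 : ℝ) ≤ (2 + η) * cc S.card := by positivity
  have h3 : Real.log (fx K σ S) ≤ (2 + η) * cc S.card := by
    apply log_le h2
    have h4 : ((fx K σ S : ℕ) : ℝ) ≤ num K S.card := by exact_mod_cast fx_le K hK σ S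
    exact h4.trans (le_exp h1)
  linarith

theorem arithA (a e c0 c1 c2 : ℝ) (ha : 0 ≤ a) (ha1 : a ≤ 1) (he : 0 < e) (he1 : e ≤ 1 / 10)
    (hc0 : 0 ≤ c0) (hc2 : 0 ≤ c2) (h1 : 2 * c0 ≤ (1 + e) * c1) (h2 : 2 * c1 ≤ (1 + e) * c2) :
    (2 + e) * c0 + 2 * ((1 + a + e) * c0) ≤ (1 + a / 2 + 10 * e) * c2 := by
  have h3 : 4 * c0 ≤ (1 + e) ^ 2 * c2 := by nlinarith
  have h4 : (2 + e) * c0 + 2 * ((1 + a + e) * c0) = (1 + a / 2 + 3 * e / 4) * (4 * c0) := by ring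
  rw [h4]
  have h5 : (1 + a / 2 + 3 * e / 4) * (4 * c0) ≤
      (1 + a / 2 + 3 * e / 4) * ((1 + e) ^ 2 * c2) :=
    mul_le_mul_of_nonneg_left h3 (by positivity)
  refine h5.trans ?_
  rw [← mul_assoc]
  apply mul_le_mul_of_nonneg_right _ hc2
  nlinarith [mul_nonneg ha he.le, mul_nonneg he.le he.le, mul_nonneg (mul_nonneg he.le he.le) ha,
    mul_nonneg (mul_nonneg he.le he.le) he.le, mul_le_mul_of_nonneg_left he1 he.le,
    mul_le_mul_of_nonneg_left ha1 he.le]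

theorem arithB (a e c1 c2 : ℝ) (ha : 0 ≤ a) (he : 0 < e) (he1 : e ≤ 1 / 10)
    (hc2 : 0 ≤ c2) (h2 : 2 * c1 ≤ (1 + e) * c2) (h3 : 2 ≤ e * c2) :
    2 + (2 + e) * ((1 + e) * c1) ≤ (1 + a / 2 + 10 * e) * c2 := by
  have h4 : (2 + e) * ((1 + e) * c1) = (1 + e / 2) * (1 + e) * (2 * c1) := by ring
  rw [h4]
  have h5 : (1 + e / 2) * (1 + e) * (2 * c1) ≤ (1 + e / 2) * (1 + e) * ((1 + e) * c2) :=
    mul_le_mul_of_nonneg_left h2 (by positivity)
  have h6 : (1 + e / 2) * (1 + e) * ((1 + e) * c2) = ((1 + e / 2) * (1 + e) * (1 + e)) * c2 := by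
    ring
  have h7 : (1 + e / 2) * (1 + e) * (1 + e) ≤ 1 + 9 * e := by
    nlinarith [mul_nonneg he.le he.le, mul_le_mul_of_nonneg_left he1 he.le,
      mul_le_mul_of_nonneg_left he1 (mul_nonneg he.le he.le)]
  have h8 := mul_le_mul_of_nonneg_right h7 hc2
  have h9 : 0 ≤ a / 2 * c2 := by positivity
  nlinarith

theorem step (hPEL : Stmt_PEL) (hCLO : Stmt_CLO) (hCCR : Stmt_CCR) (hCCI : Stmt_CCI)
    (K : Finset ℕ → Finset (Finset ℕ) → Prop) (hK : MC K) (hE : ∀ S F, K S F → Exch F)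
    (hub : ∀ ε : ℝ, 0 < ε → ∃ n₀ : ℕ, ∀ n ≥ n₀, Real.log (num K n) ≤ (2 + ε) * cc n)
    (a : ℝ) (ha : 0 ≤ a) (ha1 : a ≤ 1) (hD : DD K a) : DD K (a / 2) := by
  intro η hη
  set e : ℝ := min η 1 / 10 with he
  have he0 : 0 < e := by
    have : 0 < min η 1 := lt_min hη one_pos
    positivity
  have he1 : e ≤ 1 / 10 := by
    have : min η 1 ≤ 1 := min_le_right _ _
    rw [he]; linarith
  have heη : 10 * e ≤ η := by
    have : min η 1 ≤ η := min_le_left _ _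
    rw [he]; linarith
  obtain ⟨n₁, h₁⟩ := hub e he0
  obtain ⟨n₂, h₂⟩ := hD e he0
  obtain ⟨n₃, h₃⟩ := hCCR e he0
  obtain ⟨n₄, h₄⟩ := hCCI e he0
  refine ⟨n₁ + n₂ + n₃ + n₄ + 4, ?_⟩
  intro S hS σ hinv hmov
  obtain ⟨n, hn⟩ : ∃ n, S.card = n + 2 := ⟨S.card - 2, by omega⟩
  obtain ⟨x, hx, hxm⟩ := hmov
  set y := σ x with hy
  have hyS : y ∈ S := (hinv x hx).1
  have hyx : σ y = x := (hinv x hx).2
  have hxy : x ≠ y := fun h => hxm h.symm
  have c2 := cc_nonneg (n + 2)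
  have c1 := cc_nonneg (n + 1)
  have c0 := cc_nonneg n
  have r1 : 2 * cc n ≤ (1 + e) * cc (n + 1) := (h₃ n (by omega)).1
  have r2 : 2 * cc (n + 1) ≤ (1 + e) * cc (n + 2) := (h₃ (n + 1) (by omega)).1
  have hfin : (1 + a / 2 + 10 * e) * cc (n + 2) ≤ (1 + a / 2 + η) * cc S.card := by
    rw [hn]
    apply mul_le_mul_of_nonneg_right _ c2
    linarith
  refine le_trans ?_ hfin
  have hnn : 0 ≤ (1 + a / 2 + 10 * e) * cc (n + 2) := by positivity
  set S' := (S.erase x).erase y with hS'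
  have hyS' : y ∈ S.erase x := Finset.mem_erase.2 ⟨hxy.symm, hyS⟩
  have hcard : S'.card = n := by
    rw [hS', Finset.card_erase_of_mem hyS', Finset.card_erase_of_mem hx, hn]
    omega
  by_cases hcase : ∃ w ∈ S', σ w ≠ w
  · -- another moved element
    have hinv' : ∀ w ∈ S', σ w ∈ S' ∧ σ (σ w) = w := by
      intro w hw
      obtain ⟨hwy, hw2⟩ := Finset.mem_erase.1 hw
      obtain ⟨hwx, hwS⟩ := Finset.mem_erase.1 hw2
      obtain ⟨g1, g2⟩ := hinv w hwS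
      refine ⟨Finset.mem_erase.2 ⟨?_, Finset.mem_erase.2 ⟨?_, g1⟩⟩, g2⟩
      · intro h
        apply hwx
        rw [← g2, h, hyx]
      · intro h
        apply hwy
        rw [← g2, h]
    have k1 := h₂ S' (by rw [hcard]; omega) σ hinv' hcase
    rw [hcard] at k1
    have k2 := h₁ n (by omega)
    have k3 := hPEL K hK n S hn σ x y hx hyS hxy rfl hyx
    have k4 : ((fx K σ S : ℕ) : ℝ) ≤ (num K n : ℝ) * (fx K σ S' : ℝ) ^ 2 := by exact_mod_cast k3
    have k5 := le_exp k1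
    have k6 := le_exp k2
    have k7 : ((fx K σ S : ℕ) : ℝ) ≤
        Real.exp ((2 + e) * cc n + 2 * ((1 + a + e) * cc n)) := by
      refine k4.trans ?_
      have : Real.exp ((2 + e) * cc n + 2 * ((1 + a + e) * cc n)) =
          Real.exp ((2 + e) * cc n) * Real.exp ((1 + a + e) * cc n) ^ 2 := by
        rw [Real.exp_add]
        congr 1
        rw [← Real.exp_nat_mul]
        norm_num
      rw [this]
      have h0 : (0 : ℝ) ≤ (fx K σ S' : ℝ) := Nat.cast_nonneg _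
      exact mul_le_mul k6 (pow_le_pow_left₀ h0 k5 2) (by positivity) (Real.exp_pos _).le
    have k8 := arithA a e (cc n) (cc (n + 1)) (cc (n + 2)) ha ha1 he0 he1 c0 c2 r1 r2
    exact log_le hnn (k7.trans (Real.exp_le_exp.2 k8))
  · push Not at hcase
    have hfix : ∀ w ∈ S, w ≠ x → w ≠ y → σ w = w := fun w hw h1 h2 =>
      hcase w (Finset.mem_erase.2 ⟨h2, Finset.mem_erase.2 ⟨h1, hw⟩⟩)
    have k3 := hCLO K hK hE n S hn σ x y hx hyS hxy rfl hyx hfix
    have k4 : ((fx K σ S : ℕ) : ℝ) ≤ (num K n : ℝ) ^ 2 + 2 * (num K (n + 1) : ℝ) := by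
      exact_mod_cast k3
    set M : ℝ := (2 + e) * ((1 + e) * cc (n + 1)) with hM
    have k5 : (num K n : ℝ) ^ 2 ≤ Real.exp M := by
      have g1 := le_exp (h₁ n (by omega))
      have g2 : (num K n : ℝ) ^ 2 ≤ Real.exp ((2 + e) * cc n) ^ 2 :=
        pow_le_pow_left₀ (Nat.cast_nonneg _) g1 2
      refine g2.trans ?_
      rw [← Real.exp_nat_mul]
      apply Real.exp_le_exp.2
      rw [hM]
      push_cast
      nlinarith
    have k6 : (num K (n + 1) : ℝ) ≤ Real.exp M := by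
      have g1 := le_exp (h₁ (n + 1) (by omega))
      refine g1.trans (Real.exp_le_exp.2 ?_)
      rw [hM]
      have : cc (n + 1) ≤ (1 + e) * cc (n + 1) := by nlinarith
      exact mul_le_mul_of_nonneg_left this (by positivity)
    have k7 : ((fx K σ S : ℕ) : ℝ) ≤ Real.exp (2 + M) := by
      have g1 : (3 : ℝ) ≤ Real.exp 2 := by
        have := Real.add_one_le_exp (2 : ℝ)
        linarith
      rw [Real.exp_add]
      have g2 := Real.exp_pos M
      nlinarith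
    have k9 : (2 : ℝ) ≤ e * cc (n + 2) := by
      have g1 := h₄ (n + 2) (by omega)
      refine le_trans ?_ g1
      have g2 : (2 : ℝ) ≤ ((n + 2 : ℕ) : ℝ) := by
        push_cast
        have : (0 : ℝ) ≤ n := Nat.cast_nonneg n
        linarith
      nlinarith [mul_self_nonneg (((n + 2 : ℕ) : ℝ) - 1)]
    have k8 := arithB a e (cc (n + 1)) (cc (n + 2)) ha he0 he1 c2 r2 k9
    exact log_le hnn (k7.trans (Real.exp_le_exp.2 k8))

end INV_

open INV_ in
theorem inv_proof (hPEL : Stmt_PEL) (hCLO : Stmt_CLO) (hCCR : Stmt_CCR) (hCCI : Stmt_CCI) :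
    Stmt_INV := by
  intro K hK hE _ hub η hη
  have hall : ∀ t : ℕ, DD K ((1 / 2 : ℝ) ^ t) := by
    intro t
    induction t with
    | zero => simpa using base K hK hub
    | succ t ih =>
      have h1 : (0 : ℝ) ≤ (1 / 2) ^ t := by positivity
      have h2 : ((1 / 2 : ℝ)) ^ t ≤ 1 := pow_le_one₀ (by norm_num) (by norm_num)
      have := step hPEL hCLO hCCR hCCI K hK hE hub _ h1 h2 ih
      rw [pow_succ]
      have e : (1 / 2 : ℝ) ^ t * (1 / 2) = (1 / 2 : ℝ) ^ t / 2 := by ring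
      rw [e]
      exact this
  obtain ⟨t, ht⟩ := exists_pow_lt_of_lt_one (by positivity : (0 : ℝ) < η / 2)
    (by norm_num : (1 / 2 : ℝ) < 1)
  obtain ⟨n₀, h₀⟩ := hall t (η / 2) (by positivity)
  refine ⟨n₀, ?_⟩
  intro S hS σ h1 h2
  refine (h₀ S hS σ h1 h2).trans ?_
  apply mul_le_mul_of_nonneg_right _ (cc_nonneg _)
  linarith

end Pool.Agent.MAE
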