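import Pool.Agent.MAE.Stmts

/-!
Squad MAE, module KNP: complements of stable families are paving.
-/

set_option autoImplicit false

namespace Pool.Agent.MAE

open Pool.Agent.Helper3.MAS Finset

namespace KNP_

theorem mem_stF {n r : ℕ} {X : Finset (Finset ℕ)} : X ∈ stF n r ↔ Stab n r X := by
  classical
  unfold stF
  simp only [Finset.mem_filter, Finset.mem_powerset]
  exact ⟨fun h => h.2, fun h => ⟨h.1, h⟩⟩

theorem pav_compl {n r : ℕ} {X : Finset (Finset ℕ)} (hX : Stab n r X) :
    PavK (range n) (((range n).powersetCard r).filter (fun B => B ∉ X)) := by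
  refine ⟨⟨?_, ?_⟩, ?_⟩
  · intro B hB
    rw [Finset.mem_powerset]
    exact (Finset.mem_powersetCard.mp (Finset.mem_filter.mp hB).1).1
  · apply exch_compl
    intro B hB a ha b hb hmem
    have hbn : b ∈ range n :=
      (Finset.mem_powersetCard.mp (hX.1 hmem)).1 (Finset.mem_insert_self _ _)
    exact hX.2 B hB a ha b hbn hb hmem
  · intro B hB Z hZ hcard
    rw [Finset.mem_filter, Finset.mem_powersetCard] at hB
    obtain ⟨⟨hBn, hBr⟩, hBX⟩ := hB
    have hZc : Z.card + 1 = r := by rw [hcard, hBr]
    obtain ⟨i, hiB, hiZ⟩ : ∃ i ∈ B, i ∉ Z := by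
      by_contra h
      push Not at h
      have := Finset.card_le_card (show B ⊆ Z from h)
      omega
    have hin : i ∈ range n := hBn hiB
    have hmemP : ∀ j ∈ range n, j ∉ Z → insert j Z ∈ (range n).powersetCard r := by
      intro j hj hjZ
      rw [Finset.mem_powersetCard]
      refine ⟨Finset.insert_subset hj hZ, ?_⟩
      rw [Finset.card_insert_of_notMem hjZ, hZc]
    by_cases hc : insert i Z ∈ X
    · by_cases h2 : ∃ j ∈ range n, j ∉ Z ∧ j ≠ i
      · obtain ⟨j, hj, hjZ, hji⟩ := h2
        refine ⟨insert j Z, Finset.mem_filter.mpr ⟨hmemP j hj hjZ, ?_⟩,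
          Finset.subset_insert _ _⟩
        have := hX.2 _ hc i (Finset.mem_insert_self _ _) j hj (by
          intro h
          rcases Finset.mem_insert.mp h with h | h
          · exact hji h
          · exact hjZ h)
        rwa [Finset.erase_insert hiZ] at this
      · push Not at h2
        exfalso
        have hsub : B ⊆ insert i Z := by
          intro w hw
          by_cases hwZ : w ∈ Z
          · exact Finset.mem_insert_of_mem hwZ
          · rw [h2 w (hBn hw) hwZ]
            exact Finset.mem_insert_self _ _
        have : B = insert i Z := Finset.eq_of_subset_of_card_le hsub (by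
          rw [Finset.card_insert_of_notMem hiZ]; omega)
        rw [← this] at hc
        exact hBX hc
    · exact ⟨insert i Z, Finset.mem_filter.mpr ⟨hmemP i hin hiZ, hc⟩,
        Finset.subset_insert _ _⟩

end KNP_

theorem knp_proof : Stmt_KNP := by
  intro n r
  classical
  unfold num cnt
  rw [← Set.ncard_coe_finset]
  apply Set.ncard_le_ncard_of_injOn
    (fun X => ((range n).powersetCard r).filter (fun B => B ∉ X)) _ _
    ((fin_cls ExK_MC (range n)).subset (fun F hF => hF.1))
  · intro X hX
    have := KNP_.pav_compl (KNP_.mem_stF.mp (Finset.mem_coe.mp hX))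
    rw [Set.mem_ofPred_eq]
    convert this
  · intro X hX Y hY h
    have hX' := KNP_.mem_stF.mp (Finset.mem_coe.mp hX)
    have hY' := KNP_.mem_stF.mp (Finset.mem_coe.mp hY)
    have key : ∀ Z W : Finset (Finset ℕ), Z ⊆ (range n).powersetCard r →
        ((range n).powersetCard r).filter (fun B => B ∉ Z) =
        ((range n).powersetCard r).filter (fun B => B ∉ W) → Z ⊆ W := by
      intro Z W hZ h B hB
      by_contra hBW
      have hBP : B ∈ (range n).powersetCard r := hZ hB
      have : B ∈ ((range n).powersetCard r).filter (fun B => B ∉ W) :=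
        Finset.mem_filter.mpr ⟨hBP, hBW⟩
      rw [← h] at this
      exact (Finset.mem_filter.mp this).2 hB
    exact Finset.Subset.antisymm (key X Y hX'.1 h) (key Y X hY'.1 h.symm)

end Pool.Agent.MAE
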