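import Pool.Agent.MAE.Stmts

/-!
Squad MAE, module KNU: Knuth's lower bound for the number of stable families.
-/

set_option autoImplicit false

namespace Pool.Agent.MAE

open Pool.Agent.Helper3.MAS Finset

namespace KNU_

theorem exists_class (n r : ℕ) (hn : 1 ≤ n) : ∃ Q : Finset (Finset ℕ),
    Q ⊆ (range n).powersetCard r ∧ n.choose r ≤ n * Q.card ∧
    ∀ B ∈ Q, ∀ x ∈ B, ∀ b ∈ range n, b ∉ B → insert b (B.erase x) ∉ Q := by
  classical
  have : NeZero n := ⟨by omega⟩
  let s : Finset ℕ → ZMod n := fun B => ∑ i ∈ B, (i : ZMod n)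
  let P := (range n).powersetCard r
  have hPcard : P.card = n.choose r := by simp [P]
  obtain ⟨a, ha⟩ : ∃ a : ZMod n, n.choose r ≤ n * (P.filter (fun B => s B = a)).card := by
    obtain ⟨a, -, ha⟩ := Finset.exists_max_image (Finset.univ : Finset (ZMod n))
      (fun a => (P.filter (fun B => s B = a)).card) ⟨0, Finset.mem_univ _⟩
    refine ⟨a, ?_⟩
    rw [← hPcard, Finset.card_eq_sum_card_fiberwise (f := s) (t := Finset.univ)
      (fun _ _ => Finset.mem_coe.mpr (Finset.mem_univ _))]
    calc ∑ b : ZMod n, (P.filter (fun B => s B = b)).card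
        ≤ ∑ _b : ZMod n, (P.filter (fun B => s B = a)).card :=
          Finset.sum_le_sum (fun b hb => ha b hb)
      _ = n * (P.filter (fun B => s B = a)).card := by
          rw [Finset.sum_const, Finset.card_univ, ZMod.card, smul_eq_mul]
  refine ⟨P.filter (fun B => s B = a), Finset.filter_subset _ _, ha, ?_⟩
  intro B hB x hx b hbn hb hmem
  have h1 : s B = a := (Finset.mem_filter.mp hB).2
  have h2 : s (insert b (B.erase x)) = a := (Finset.mem_filter.mp hmem).2
  have hBn : B ⊆ range n := (Finset.mem_powersetCard.mp (Finset.mem_filter.mp hB).1).1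
  have e1 : s B = (x : ZMod n) + s (B.erase x) := by
    change ∑ i ∈ B, (i : ZMod n) = _ + ∑ i ∈ B.erase x, (i : ZMod n)
    rw [Finset.add_sum_erase _ _ hx]
  have e2 : s (insert b (B.erase x)) = (b : ZMod n) + s (B.erase x) := by
    change ∑ i ∈ insert b (B.erase x), (i : ZMod n) = _ + ∑ i ∈ B.erase x, (i : ZMod n)
    rw [Finset.sum_insert (fun h => hb (Finset.mem_of_mem_erase h))]
  rw [h1] at e1
  rw [h2, e1] at e2
  have e3 : (x : ZMod n) = (b : ZMod n) := add_right_cancel e2
  have hxn : x < n := Finset.mem_range.mp (hBn hx)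
  have hbn' : b < n := Finset.mem_range.mp hbn
  have e4 : x = b := by
    have := congrArg ZMod.val e3
    rwa [ZMod.val_natCast_of_lt hxn, ZMod.val_natCast_of_lt hbn'] at this
  exact hb (e4 ▸ hx)

end KNU_

theorem knu_proof : Stmt_KNU := by
  classical
  intro n hn
  obtain ⟨Q, hQP, hcard, hQ⟩ := KNU_.exists_class n (n / 2) hn
  have hsub : Q.powerset ⊆ stF n (n / 2) := by
    intro X hX
    have hXQ : X ⊆ Q := Finset.mem_powerset.mp hX
    unfold stF
    rw [Finset.mem_filter, Finset.mem_powerset]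
    refine ⟨hXQ.trans hQP, hXQ.trans hQP, ?_⟩
    intro B hB a ha b hb hbB hmem
    exact hQ B (hXQ hB) a ha b hb hbB (hXQ hmem)
  have h1 : 2 ^ Q.card ≤ (stF n (n / 2)).card := by
    rw [← Finset.card_powerset]
    exact Finset.card_le_card hsub
  have h2 : (2 : ℝ) ^ Q.card ≤ ((stF n (n / 2)).card : ℝ) := by exact_mod_cast h1
  have h3 := Real.log_le_log (by positivity) h2
  rw [Real.log_pow] at h3
  refine le_trans ?_ h3
  unfold cc
  have hn0 : (0 : ℝ) < n := by exact_mod_cast hn
  rw [div_le_iff₀ hn0]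
  have h4 : ((n.choose (n / 2) : ℕ) : ℝ) ≤ n * Q.card := by exact_mod_cast hcard
  have h5 : 0 < Real.log 2 := Real.log_pos (by norm_num)
  nlinarith

end Pool.Agent.MAE
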