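import Pool.Agent.MAE.Stmts

set_option autoImplicit false

/-!
Weighted number of stable sets in a graph with a supersaturation property (Kleitman-Winston).
-/

namespace Pool.Agent.MAE

open Pool.Agent.Helper3.MAS Finset

namespace KWG_

section defs

variable (adj : Finset ℕ → Finset ℕ → Prop) [DecidableRel adj]

/-- stable subsets -/
def St (A : Finset (Finset ℕ)) : Finset (Finset (Finset ℕ)) :=
  A.powerset.filter (fun I => ∀ u ∈ I, ∀ w ∈ I, ¬ adj u w)

/-- weighted number of stable subsets -/
noncomputable def Z (y : ℝ) (A : Finset (Finset ℕ)) : ℝ := ∑ I ∈ St adj A, y ^ I.card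

theorem Z_le_pow {y : ℝ} (hy : 0 ≤ y) (A : Finset (Finset ℕ)) : Z adj y A ≤ (1 + y) ^ A.card := by
  unfold Z St
  have h1 : ∑ I ∈ A.powerset, y ^ I.card = (1 + y) ^ A.card := by
    have h2 := Finset.sum_pow_mul_eq_add_pow y 1 A
    simp only [one_pow, mul_one] at h2
    rw [h2, add_comm]
  rw [← h1]
  exact Finset.sum_le_sum_of_subset_of_nonneg (Finset.filter_subset _ _)
    fun _ _ _ => pow_nonneg hy _

theorem Z_step {y : ℝ} (hy : 0 ≤ y) (A : Finset (Finset ℕ)) (v : Finset ℕ) :
    Z adj y A ≤ Z adj y (A.erase v) +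
      y * Z adj y ((A.erase v).filter (fun w => ¬ adj v w)) := by
  classical
  unfold Z
  rw [← Finset.sum_filter_add_sum_filter_not (St adj A) (fun I => v ∉ I)]
  refine add_le_add ?_ ?_
  · refine Finset.sum_le_sum_of_subset_of_nonneg ?_ fun _ _ _ => pow_nonneg hy _
    intro I hI
    simp only [St, Finset.mem_filter, Finset.mem_powerset] at hI ⊢
    refine ⟨fun w hw => Finset.mem_erase.2 ⟨?_, hI.1.1 hw⟩, hI.1.2⟩
    rintro rfl
    exact hI.2 hw
  · have h1 : ∑ I ∈ (St adj A).filter (fun I => ¬ v ∉ I), y ^ I.card =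
        ∑ I ∈ (St adj A).filter (fun I => ¬ v ∉ I), y * y ^ (I.erase v).card := by
      refine Finset.sum_congr rfl fun I hI => ?_
      have hv : v ∈ I := by
        have := (Finset.mem_filter.1 hI).2
        simpa using this
      rw [Finset.card_erase_of_mem hv, ← pow_succ',
        Nat.sub_add_cancel (Finset.card_pos.2 ⟨v, hv⟩)]
    rw [h1, ← Finset.mul_sum]
    refine mul_le_mul_of_nonneg_left ?_ hy
    have h2 : Set.InjOn (fun I : Finset (Finset ℕ) => I.erase v)
        ((St adj A).filter (fun I => ¬ v ∉ I) : Finset (Finset (Finset ℕ))) := by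
      intro I hI J hJ hIJ
      have hv : v ∈ I := by
        have := (Finset.mem_filter.1 hI).2
        simpa using this
      have hv' : v ∈ J := by
        have := (Finset.mem_filter.1 hJ).2
        simpa using this
      simp only at hIJ
      rw [← Finset.insert_erase hv, ← Finset.insert_erase hv', hIJ]
    rw [← Finset.sum_image (f := fun J : Finset (Finset ℕ) => y ^ J.card) h2]
    refine Finset.sum_le_sum_of_subset_of_nonneg ?_ fun _ _ _ => pow_nonneg hy _
    intro J hJ
    obtain ⟨I, hI, rfl⟩ := Finset.mem_image.1 hJ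
    have hv : v ∈ I := by
      have := (Finset.mem_filter.1 hI).2
      simpa using this
    simp only [St, Finset.mem_filter, Finset.mem_powerset] at hI ⊢
    refine ⟨fun w hw => ?_, fun u hu w hw =>
      hI.1.2 u (Finset.mem_of_mem_erase hu) w (Finset.mem_of_mem_erase hw)⟩
    have hw' := Finset.mem_erase.1 hw
    exact Finset.mem_filter.2 ⟨Finset.mem_erase.2 ⟨hw'.1, hI.1.1 hw'.2⟩, hI.1.2 v hv w hw'.2⟩

end defs

/-- `log(x/y) ≥ (x-y)/x` -/
theorem log_ge {x z : ℝ} (hx : 0 < x) (hz : 0 < z) : (x - z) / x ≤ Real.log x - Real.log z := by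
  have h1 := Real.log_le_sub_one_of_pos (x := z / x) (by positivity)
  rw [Real.log_div hz.ne' hx.ne'] at h1
  have h2 : (x - z) / x = 1 - z / x := by field_simp
  rw [h2]
  linarith

end KWG_

open KWG_ in
theorem kwg_proof : Stmt_KWG := by
  intro adj _ hirr V α ρ ε κ y hα hρ hε hρε hκ hy hyV hV hdeg W hW hst
  have hy0 : 0 ≤ y := by linarith
  set R : ℝ := (1 + ε) * α with hR
  set K : ℝ := α * κ / ρ with hK
  have hK0 : 0 < K := by positivity
  have hεα : 0 < ε * α := by positivity
  have hV0 : (0 : ℝ) < V.card := by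
    have : 0 < (1 + ε) * α := by positivity
    linarith
  have hsmall : ∀ A : Finset (Finset ℕ), (A.card : ℝ) ≤ R → Z adj y A ≤ (1 + y) ^ R := by
    intro A hA
    refine (Z_le_pow adj hy0 A).trans ?_
    rw [← Real.rpow_natCast]
    exact Real.rpow_le_rpow_of_exponent_le (by linarith) hA
  have hP : 0 < (1 + y) ^ R := Real.rpow_pos_of_pos (by linarith) _
  have hbig : ∀ A : Finset (Finset ℕ), A ⊆ V → R < (A.card : ℝ) → Z adj y A ≤
      (1 + y) ^ R * Real.exp (κ + K * (Real.log (A.card - α) - Real.log (ε * α))) := by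
    intro A
    refine Finset.strongInduction (p := fun A => A ⊆ V → R < (A.card : ℝ) → Z adj y A ≤
      (1 + y) ^ R * Real.exp (κ + K * (Real.log (A.card - α) - Real.log (ε * α)))) ?_ A
    intro A ih hAV hA
    have hmα : ε * α < (A.card : ℝ) - α := by
      rw [hR] at hA
      linarith
    have hm0 : (0 : ℝ) < (A.card : ℝ) - α := hεα.trans hmα
    have hAne : A.Nonempty := by
      rw [← Finset.card_pos]
      have : (0 : ℝ) < A.card := by linarith
      exact_mod_cast this
    obtain ⟨v, hv, hd⟩ := hdeg A hAV hAne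
    have hψ0 : 0 ≤ K * (Real.log ((A.card : ℝ) - α) - Real.log (ε * α)) :=
      mul_nonneg hK0.le (sub_nonneg.2 (Real.log_le_log hεα hmα.le))
    set ψ := K * (Real.log ((A.card : ℝ) - α) - Real.log (ε * α)) with hψ
    set δ : ℝ := K / ((A.card : ℝ) - α) with hδ
    have hδ0 : 0 < δ := by positivity
    have hδκ : δ ≤ κ := by
      have h1 : δ ≤ K / (ε * α) := by
        rw [hδ]
        exact div_le_div_of_nonneg_left hK0.le hεα hmα.le
      refine h1.trans ?_
      rw [div_le_iff₀ hεα, hK, div_le_iff₀ hρ]
      have : α * κ * 1 ≤ α * κ * (ρ * ε) := mul_le_mul_of_nonneg_left hρε (by positivity)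
      linarith
    -- first term
    have hA1 : (A.erase v) ⊂ A := Finset.erase_ssubset hv
    have hc1 : ((A.erase v).card : ℝ) = (A.card : ℝ) - 1 := by
      rw [Finset.card_erase_of_mem hv, Nat.cast_sub (Finset.card_pos.2 hAne)]
      simp
    have ht1 : Z adj y (A.erase v) ≤ (1 + y) ^ R * Real.exp (κ + ψ - δ) := by
      by_cases hc : R < ((A.erase v).card : ℝ)
      · refine (ih _ hA1 (hA1.subset.trans hAV) hc).trans ?_
        refine mul_le_mul_of_nonneg_left (Real.exp_le_exp.2 ?_) hP.le
        rw [hc1] at hc ⊢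
        have h0 : 0 < (A.card : ℝ) - 1 - α := by
          rw [hR] at hc
          nlinarith
        have h1 := log_ge hm0 h0
        have h2 : ((A.card : ℝ) - α - (A.card - 1 - α)) / ((A.card : ℝ) - α) =
            1 / ((A.card : ℝ) - α) := by
          congr 1
          ring
        rw [h2] at h1
        have h3 := mul_le_mul_of_nonneg_left h1 hK0.le
        have h4 : K * (1 / ((A.card : ℝ) - α)) = δ := by rw [hδ]; ring
        rw [h4] at h3
        rw [hψ]
        linarith
      · push Not at hc
        refine (hsmall _ hc).trans ?_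
        have : 1 ≤ Real.exp (κ + ψ - δ) := Real.one_le_exp (by linarith)
        nlinarith
    -- second term
    set A' := (A.erase v).filter (fun w => ¬ adj v w) with hA'
    have hA2 : A' ⊂ A := lt_of_le_of_lt (Finset.filter_subset _ _) hA1
    have hc2 : (A'.card : ℝ) + (A.filter (fun w => adj v w)).card + 1 = A.card := by
      have h1 : A.filter (fun w => adj v w) = (A.erase v).filter (fun w => adj v w) := by
        ext w
        simp only [Finset.mem_filter, Finset.mem_erase]
        constructor
        · rintro ⟨h1, h2⟩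
          refine ⟨⟨?_, h1⟩, h2⟩
          rintro rfl
          exact hirr _ h2
        · rintro ⟨⟨_, h1⟩, h2⟩
          exact ⟨h1, h2⟩
      have h2 := Finset.card_filter_add_card_filter_not (s := A.erase v) (fun w => adj v w)
      rw [h1]
      have h3 : (((A.erase v).filter (fun w => adj v w)).card : ℝ) + (A'.card : ℝ) =
          (A.erase v).card := by
        rw [hA']
        exact_mod_cast h2
      rw [hc1] at h3
      linarith
    have ht2 : Z adj y A' ≤ (1 + y) ^ R * Real.exp (κ + ψ - κ) := by
      by_cases hc : R < (A'.card : ℝ)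
      · refine (ih _ hA2 (hA2.subset.trans hAV) hc).trans ?_
        refine mul_le_mul_of_nonneg_left (Real.exp_le_exp.2 ?_) hP.le
        have h0 : 0 < (A'.card : ℝ) - α := by
          rw [hR] at hc
          nlinarith
        have h1 := log_ge hm0 h0
        have h3 := mul_le_mul_of_nonneg_left h1 hK0.le
        have h4 : κ ≤ K * (((A.card : ℝ) - α - (A'.card - α)) / ((A.card : ℝ) - α)) := by
          have h5 : ρ * ((A.card : ℝ) / α - 1) ≤ (A.card : ℝ) - α - (A'.card - α) := by
            linarith
          have h6 : ρ * ((A.card : ℝ) / α - 1) = ρ / α * ((A.card : ℝ) - α) := by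
            field_simp
          rw [h6] at h5
          have h7 : K * (ρ / α) = κ := by
            rw [hK]
            field_simp
          calc κ = K * (ρ / α * ((A.card : ℝ) - α) / ((A.card : ℝ) - α)) := by
                rw [mul_div_assoc, div_self hm0.ne', mul_one, h7]
            _ ≤ _ := by gcongr
        rw [hψ]
        linarith
      · push Not at hc
        refine (hsmall _ hc).trans ?_
        have : 1 ≤ Real.exp (κ + ψ - κ) := Real.one_le_exp (by linarith)
        nlinarith
    -- combine
    have hfin : Real.exp (-δ) + y * Real.exp (-κ) ≤ 1 := by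
      have h1 : Real.exp (-δ) ≤ 1 / (1 + δ) := by
        rw [Real.exp_neg, ← one_div]
        exact one_div_le_one_div_of_le (by linarith) (by linarith [Real.add_one_le_exp δ])
      have h2 : y * Real.exp (-κ) ≤ 1 / (1 + V.card * ρ / α) := by
        have h3 : 0 < 1 + V.card * ρ / α := by positivity
        rw [le_div_iff₀ h3, Real.exp_neg]
        have h4 : y * (Real.exp κ)⁻¹ * (1 + V.card * ρ / α) =
            (y * (1 + V.card * ρ / α)) / Real.exp κ := by ring
        rw [h4]
        exact div_le_one_of_le₀ hyV (Real.exp_pos _).le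
      have h3 : 1 / (1 + V.card * ρ / α) ≤ δ / (1 + δ) := by
        have h4 : (A.card : ℝ) - α ≤ V.card := by
          have : (A.card : ℝ) ≤ V.card := by exact_mod_cast Finset.card_le_card hAV
          linarith
        have h5 : α / (V.card * ρ) ≤ δ := by
          rw [hδ, hK]
          rw [div_div, div_le_div_iff₀ (by positivity) (by positivity)]
          have h6 : ρ * ((A.card : ℝ) - α) ≤ V.card * ρ * κ := by
            have h7 : ρ * ((A.card : ℝ) - α) ≤ ρ * V.card := mul_le_mul_of_nonneg_left h4 hρ.le
            have h8 : ρ * V.card * 1 ≤ ρ * V.card * κ :=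
              mul_le_mul_of_nonneg_left hκ (by positivity)
            linarith
          have := mul_le_mul_of_nonneg_left h6 hα.le
          linarith
        rw [div_le_div_iff₀ (by positivity) (by linarith)]
        have h6 : 1 ≤ δ * (V.card * ρ / α) := by
          have h7 : 0 < V.card * ρ / α := by positivity
          have h8 := mul_le_mul_of_nonneg_right h5 h7.le
          have h9 : α / (V.card * ρ) * (V.card * ρ / α) = 1 := by
            field_simp
          linarith
        linarith
      have h4 : 1 / (1 + δ) + δ / (1 + δ) = 1 := by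
        rw [← add_div]
        exact div_self (by linarith)
      linarith
    refine (Z_step adj hy0 A v).trans ?_
    have e1 : Real.exp (κ + ψ - δ) = Real.exp (κ + ψ) * Real.exp (-δ) := by
      rw [← Real.exp_add]
      congr 1
    have e2 : Real.exp (κ + ψ - κ) = Real.exp (κ + ψ) * Real.exp (-κ) := by
      rw [← Real.exp_add]
      congr 1
    rw [e1] at ht1
    rw [e2] at ht2
    have hE := Real.exp_pos (κ + ψ)
    calc Z adj y (A.erase v) + y * Z adj y A'
        ≤ (1 + y) ^ R * (Real.exp (κ + ψ) * Real.exp (-δ)) +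
          y * ((1 + y) ^ R * (Real.exp (κ + ψ) * Real.exp (-κ))) :=
          add_le_add ht1 (mul_le_mul_of_nonneg_left ht2 hy0)
      _ = (1 + y) ^ R * Real.exp (κ + ψ) * (Real.exp (-δ) + y * Real.exp (-κ)) := by ring
      _ ≤ (1 + y) ^ R * Real.exp (κ + ψ) * 1 :=
          mul_le_mul_of_nonneg_left hfin (by positivity)
      _ = _ := by rw [mul_one]
  -- the family
  have hWZ : ∑ I ∈ W, y ^ I.card ≤ Z adj y V := by
    unfold Z
    refine Finset.sum_le_sum_of_subset_of_nonneg ?_ fun _ _ _ => pow_nonneg hy0 _
    intro I hI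
    exact Finset.mem_filter.2 ⟨hW hI, hst I hI⟩
  refine hWZ.trans ?_
  have hεV : ε * α ≤ V.card := by
    have : (1 + ε) * α = α + ε * α := by ring
    linarith
  by_cases hc : R < (V.card : ℝ)
  · refine (hbig V (Finset.Subset.refl V) hc).trans ?_
    refine mul_le_mul_of_nonneg_left (Real.exp_le_exp.2 ?_) hP.le
    rw [Real.log_div hV0.ne' hεα.ne']
    have h0 : 0 < (V.card : ℝ) - α := by
      rw [hR] at hc
      nlinarith
    have h1 : Real.log ((V.card : ℝ) - α) ≤ Real.log V.card :=
      Real.log_le_log h0 (by linarith)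
    have := mul_le_mul_of_nonneg_left (sub_le_sub_right h1 (Real.log (ε * α))) hK0.le
    linarith
  · push Not at hc
    refine (hsmall V hc).trans ?_
    have h1 : 0 ≤ Real.log (V.card / (ε * α)) :=
      Real.log_nonneg (by rw [le_div_iff₀ hεα]; linarith)
    have h2 : 1 ≤ Real.exp (κ + K * Real.log (V.card / (ε * α))) :=
      Real.one_le_exp (by have := mul_nonneg hK0.le h1; linarith)
    nlinarith

end Pool.Agent.MAE
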