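import Pool.Agent.MAE.Stmts2

/-!
Squad MAE (MP_f46acb_co), module LOC: the non-bases adjacent to a non-basis are certified by two
sets.
-/

set_option autoImplicit false

namespace Pool.Agent.MAE

open Pool.Agent.Helper3.MAS Finset

namespace LOC_

theorem adj_form {s X : Finset ℕ} {r : ℕ} (hs : s.card = r) (hX : X.card = r)
    (h : (s ∩ X).card + 1 = r) : ∃ a ∈ s, ∃ b, b ∉ s ∧ X = insert b (s.erase a) := by
  have h1 : (s \ X).card = 1 := by
    have := card_sdiff_add_card_inter s X
    omega
  have h2 : (X \ s).card = 1 := by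
    have := card_sdiff_add_card_inter X s
    rw [inter_comm] at this
    omega
  obtain ⟨a, ha⟩ := card_eq_one.1 h1
  obtain ⟨b, hb⟩ := card_eq_one.1 h2
  have ha' : a ∈ s \ X := by rw [ha]; exact mem_singleton_self a
  have hb' : b ∈ X \ s := by rw [hb]; exact mem_singleton_self b
  rw [mem_sdiff] at ha' hb'
  refine ⟨a, ha'.1, b, hb'.2, ?_⟩
  ext z
  rw [mem_insert, mem_erase]
  constructor
  · intro hz
    by_cases hzs : z ∈ s
    · right
      refine ⟨?_, hzs⟩
      rintro rfl
      exact ha'.2 hz
    · left
      have : z ∈ X \ s := mem_sdiff.2 ⟨hz, hzs⟩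
      rw [hb, mem_singleton] at this
      exact this
  · rintro (rfl | ⟨h3, h4⟩)
    · exact hb'.1
    · by_contra hz
      have : z ∈ s \ X := mem_sdiff.2 ⟨h4, hz⟩
      rw [ha, mem_singleton] at this
      exact h3 this

end LOC_

open LOC_ in
theorem loc_proof (hFUC : Stmt_FUC) (hCOC : Stmt_COC) : Stmt_LOC := by
  classical
  intro n r F hF s hs hsF
  by_cases hall : ∀ X ∈ (range n).powersetCard r, (s ∩ X).card + 1 = r → X ∉ F
  · exact Or.inl hall
  right
  push Not at hall
  obtain ⟨X₀, hX₀, hadj, hX₀F⟩ := hall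
  have hs' := mem_powersetCard.1 hs
  have hX₀' := mem_powersetCard.1 hX₀
  obtain ⟨a, ha, b, hb, hXe⟩ := adj_form hs'.2 hX₀'.2 hadj
  have hE : Exch F := by
    unfold allF at hF
    exact (mem_filter.1 hF).2.2
  set Z := s.erase a with hZ
  set D := insert b s with hD
  set C := D.filter (fun z => D.erase z ∈ F) with hC
  set K := (range n).filter (fun y => y ∉ Z ∧ insert y Z ∈ F) with hK
  have hbn : b ∈ range n := hX₀'.1 (by rw [hXe]; exact mem_insert_self _ _)
  have hDn : D ⊆ range n := insert_subset hbn hs'.1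
  have hZn : Z ⊆ range n := (erase_subset _ _).trans hs'.1
  have hDc : D.card = r + 1 := by rw [hD, card_insert_of_notMem hb, hs'.2]
  have hZc : Z.card + 1 = r := by
    rw [hZ, card_erase_of_mem ha, hs'.2]
    have : 0 < s.card := card_pos.2 ⟨a, ha⟩
    omega
  have hbZ : b ∉ Z := fun h => hb (mem_of_mem_erase h)
  have hXD : X₀ ⊆ D := by
    rw [hXe]
    exact insert_subset_insert _ (erase_subset _ _)
  have hZa : insert a Z = s := insert_erase ha
  refine ⟨C, range n \ K, (filter_subset _ _).trans hDn, sdiff_subset, ?_, ?_⟩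
  · rintro X hX (h | h) hXF
    · exact hFUC n r F hF D X₀ hDn hDc hX₀F hXD X hXF h
    · refine hCOC n r F hF Z b hZn hZc hbZ (hXe ▸ hX₀F) X hXF ?_
      rw [disjoint_left]
      intro z hz hzX
      exact (mem_sdiff.1 (h hzX)).2 hz
  · intro Y hY hYa hYF
    have hY' := mem_powersetCard.1 hY
    obtain ⟨c, hc, y, hy, hYe⟩ := adj_form hs'.2 hY'.2 hYa
    by_contra hcon
    push Not at hcon
    obtain ⟨h1, h2⟩ := hcon
    have hyn : y ∈ range n := hY'.1 (by rw [hYe]; exact mem_insert_self _ _)
    -- `c ∈ C`
    have hcC : D.erase c ∈ F := by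
      by_contra hn
      refine h1 fun z hz => ?_
      have hz' := mem_filter.1 hz
      have hzb : z ≠ b := by
        rintro rfl
        have := hz'.2
        rw [hD, erase_insert hb] at this
        exact hsF this
      have hzc : z ≠ c := by
        rintro rfl
        exact hn hz'.2
      have hzs : z ∈ s := by
        rcases mem_insert.1 hz'.1 with h | h
        · exact absurd h hzb
        · exact h
      rw [hYe]
      exact mem_insert_of_mem (mem_erase.2 ⟨hzc, hzs⟩)
    -- `y ∈ K`
    have hyK : y ∉ Z ∧ insert y Z ∈ F := by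
      by_contra hn
      refine h2 fun z hz => ?_
      rw [mem_sdiff]
      refine ⟨hY'.1 hz, fun hzK => ?_⟩
      have hzK' := (mem_filter.1 hzK).2
      rw [hYe] at hz
      rcases mem_insert.1 hz with h | h
      · rw [h] at hzK'
        exact hn hzK'
      · have hzs : z ∈ s := mem_of_mem_erase h
        by_cases hza : z = a
        · rw [hza, hZa] at hzK'
          exact hsF hzK'.2
        · exact hzK'.1 (mem_erase.2 ⟨hza, hzs⟩)
    have hbc : b ≠ c := by
      rintro rfl
      exact hb hc
    have hyb : y ≠ b := by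
      rintro rfl
      refine hYF ?_
      rw [hYe]
      rw [hD, erase_insert_of_ne hbc] at hcC
      exact hcC
    obtain ⟨w, hw, hwB, hwF⟩ := hE (D.erase c) hcC (insert y Z) hyK.2 b
      (mem_erase.2 ⟨hbc, mem_insert_self _ _⟩) (by
        rw [mem_insert]
        rintro (h | h)
        · exact hyb h.symm
        · exact hbZ h)
    have hBe : (D.erase c).erase b = s.erase c := by
      rw [erase_right_comm, hD, erase_insert hb]
    rw [hBe] at hwF
    rcases mem_insert.1 hw with h | h
    · rw [h, ← hYe] at hwF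
      exact hYF hwF
    · have hws : w ∈ s := mem_of_mem_erase h
      have hwc : w = c := by
        by_contra hne
        exact hwB (mem_erase.2 ⟨hne, mem_insert_of_mem hws⟩)
      rw [hwc, insert_erase hc] at hwF
      exact hsF hwF

end Pool.Agent.MAE
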