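import Pool.Agent.MAE.Stmts

/-!
Module PAD: adjacency of non-bases in paving families.
-/

set_option autoImplicit false

namespace Pool.Agent.MAE

open Pool.Agent.Helper3.MAS Finset

theorem pad_proof : Stmt_PAD := by
  classical
  intro n r F hr hF W x z y hW hc hx hz hy hxW hzW hyW hxz hxy hyz h1 h2 h3
  have hF2 := hF
  simp only [pavF, mem_filter, mem_powerset] at hF2
  obtain ⟨hsub, -, hex, hpav⟩ := hF2
  have hcz : (insert z W).card = W.card + 1 := card_insert_of_notMem hzW
  have hB1 := mem_powersetCard.1 (hsub h3)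
  obtain ⟨B2, hB2, hZB⟩ := hpav _ h3 (insert z W)
    (insert_subset hz hW) (by rw [hB1.2]; omega)
  have hB2c := (mem_powersetCard.1 (hsub hB2)).2
  obtain ⟨w, hwB, hwZ⟩ : ∃ w ∈ B2, w ∉ insert z W := by
    by_contra hcon
    push Not at hcon
    have := card_le_card (show B2 ⊆ insert z W from hcon)
    omega
  have hB2e : insert w (insert z W) = B2 := by
    refine eq_of_subset_of_card_le (insert_subset hwB hZB) ?_
    rw [card_insert_of_notMem hwZ]
    omega
  have hwx : w ≠ x := by
    rintro rfl
    exact h1 (hB2e ▸ hB2)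
  have hwy : w ≠ y := by
    rintro rfl
    rw [insert_comm] at h2
    exact h2 (hB2e ▸ hB2)
  have hwW : w ∉ W := fun h => hwZ (mem_insert_of_mem h)
  obtain ⟨v, hv, hvB, hvF⟩ := hex.2 B2 hB2 _ h3 w hwB (by simp [hwx, hwy, hwW])
  have he : B2.erase w = insert z W := by rw [← hB2e, erase_insert hwZ]
  rw [he] at hvF
  have hWB : W ⊆ B2 := (subset_insert z W).trans hZB
  rcases mem_insert.1 hv with rfl | hv
  · exact h1 hvF
  · rcases mem_insert.1 hv with rfl | hv
    · rw [insert_comm] at hvF
      exact h2 hvF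
    · exact hvB (hWB hv)

end Pool.Agent.MAE
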