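import Pool.Agent.MAE.Stmts

set_option autoImplicit false

namespace Pool.Agent.MAE

open Pool.Agent.Helper3.MAS Finset

namespace PBL_

def Good (n r : ℕ) (F : Finset (Finset ℕ)) (D : Finset ℕ) : Prop :=
  D ⊆ range n ∧ r ≤ D.card ∧ ∀ C, C ⊆ D → C.card = r → C ∉ F

theorem union (hPAD : Stmt_PAD) {n r : ℕ} {F : Finset (Finset ℕ)} (hr : 2 ≤ r) (hF : F ∈ pavF n r)
    {D D' : Finset ℕ} (hD : Good n r F D) (hD' : Good n r F D') (hc : r ≤ (D ∩ D').card + 1) :
    Good n r F (D ∪ D') := by
  obtain ⟨Z, hZ, hZc⟩ := Finset.exists_subset_card_eq (s := D ∩ D') (n := r - 1) (by omega)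
  have hZD : Z ⊆ D := hZ.trans inter_subset_left
  have hZD' : Z ⊆ D' := hZ.trans inter_subset_right
  have hins : ∀ u ∈ D ∪ D', u ∉ Z → insert u Z ∉ F := by
    intro u hu huZ
    have hcard : (insert u Z).card = r := by rw [card_insert_of_notMem huZ]; omega
    rcases mem_union.mp hu with h | h
    · exact hD.2.2 _ (insert_subset h hZD) hcard
    · exact hD'.2.2 _ (insert_subset h hZD') hcard
  have key : ∀ k : ℕ, ∀ C, C ⊆ D ∪ D' → C.card = r → (C \ Z).card = k → C ∉ F := by
    intro k
    induction k with
    | zero =>
      intro C hC hCr hk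
      have : C ⊆ Z := by rw [card_eq_zero, sdiff_eq_empty_iff_subset] at hk; exact hk
      have := card_le_card this
      omega
    | succ k ih =>
      intro C hC hCr hk
      rcases Nat.eq_zero_or_pos k with h0 | h0
      · rw [h0] at hk
        obtain ⟨u, hu⟩ := card_eq_one.mp hk
        have huC : u ∈ C \ Z := by rw [hu]; exact mem_singleton_self u
        rw [mem_sdiff] at huC
        have hsub : C ⊆ insert u Z := by
          intro w hw
          by_cases hwZ : w ∈ Z
          · exact mem_insert_of_mem hwZ
          · have : w ∈ C \ Z := mem_sdiff.mpr ⟨hw, hwZ⟩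
            rw [hu, mem_singleton] at this
            rw [this]; exact mem_insert_self _ _
        have heq : C = insert u Z := by
          apply eq_of_subset_of_card_le hsub
          rw [card_insert_of_notMem huC.2]; omega
        rw [heq]
        exact hins u (hC huC.1) huC.2
      · obtain ⟨u, hu, v, hv, huv⟩ := one_lt_card.mp (show 1 < (C \ Z).card by omega)
        have hzex : ∃ z ∈ Z, z ∉ C := by
          by_contra hcon
          push Not at hcon
          have := card_sdiff_of_subset (show Z ⊆ C from hcon)
          omega
        obtain ⟨z, hzZ, hzC⟩ := hzex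
        rw [mem_sdiff] at hu hv
        have hvu : v ∈ C.erase u := mem_erase.mpr ⟨huv.symm, hv.1⟩
        have hWc : ((C.erase u).erase v).card + 2 = r := by
          rw [card_erase_of_mem hvu, card_erase_of_mem hu.1]; omega
        have hWC : (C.erase u).erase v ⊆ C := (erase_subset _ _).trans (erase_subset _ _)
        have hUn : D ∪ D' ⊆ range n := union_subset hD.1 hD'.1
        have hzU : z ∈ D ∪ D' := mem_union_left _ (hZD hzZ)
        have hzu : z ≠ u := fun h => hzC (h ▸ hu.1)
        have hzv : z ≠ v := fun h => hzC (h ▸ hv.1)
        have hzW : z ∉ (C.erase u).erase v := fun h => hzC (hWC h)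
        have huW : u ∉ (C.erase u).erase v := by simp
        have hvW : v ∉ (C.erase u).erase v := by simp
        have h1 : insert u (insert z ((C.erase u).erase v)) ∉ F := by
          apply ih
          · apply insert_subset (hC hu.1)
            apply insert_subset hzU
            exact hWC.trans hC
          · rw [card_insert_of_notMem, card_insert_of_notMem hzW]
            · omega
            · rw [mem_insert]; push Not; exact ⟨hzu.symm, huW⟩
          · have : insert u (insert z ((C.erase u).erase v)) \ Z = (C \ Z).erase v := by
              ext w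
              simp only [mem_sdiff, mem_insert, mem_erase]
              constructor
              · rintro ⟨h | h | h, hwZ⟩
                · rw [h]; exact ⟨huv, hu.1, hu.2⟩
                · rw [h] at hwZ; exact absurd hzZ hwZ
                · exact ⟨h.1, h.2.2, hwZ⟩
              · rintro ⟨h1, h2, h3⟩
                refine ⟨?_, h3⟩
                by_cases h : w = u
                · exact Or.inl h
                · exact Or.inr (Or.inr ⟨h1, h, h2⟩)
            rw [this, card_erase_of_mem (mem_sdiff.mpr hv)]; omega
        have h2 : insert z (insert v ((C.erase u).erase v)) ∉ F := by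
          apply ih
          · apply insert_subset hzU
            apply insert_subset (hC hv.1)
            exact hWC.trans hC
          · rw [card_insert_of_notMem, card_insert_of_notMem hvW]
            · omega
            · rw [mem_insert]; push Not; exact ⟨hzv, hzW⟩
          · have : insert z (insert v ((C.erase u).erase v)) \ Z = (C \ Z).erase u := by
              ext w
              simp only [mem_sdiff, mem_insert, mem_erase]
              constructor
              · rintro ⟨h | h | h, hwZ⟩
                · rw [h] at hwZ; exact absurd hzZ hwZ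
                · rw [h]; exact ⟨huv.symm, hv.1, hv.2⟩
                · exact ⟨h.2.1, h.2.2, hwZ⟩
              · rintro ⟨h1, h2, h3⟩
                refine ⟨?_, h3⟩
                by_cases h : w = v
                · exact Or.inr (Or.inl h)
                · exact Or.inr (Or.inr ⟨h, h1, h2⟩)
            rw [this, card_erase_of_mem (mem_sdiff.mpr hu)]; omega
        have h3 := hPAD n r F hr hF ((C.erase u).erase v) u z v ((hWC.trans hC).trans hUn) hWc
          (hUn (hC hu.1)) (hUn hzU) (hUn (hC hv.1)) huW hzW hvW hzu.symm huv hzv.symm h1 h2
        rwa [insert_erase hvu, insert_erase hu.1] at h3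
  refine ⟨union_subset hD.1 hD'.1, hD.2.1.trans (card_le_card subset_union_left), ?_⟩
  intro C hC hCr
  exact key _ C hC hCr rfl

end PBL_

open PBL_ in
open Classical in
theorem pbl_proof (hPAD : Stmt_PAD) : Stmt_PBL := by
  intro n r F hr hF
  refine ⟨(range n).powerset.filter (fun D => Good n r F D ∧
    ∀ D', Good n r F D' → D ⊆ D' → D' ⊆ D), ?_, ?_, ?_⟩
  · intro D hD
    rw [mem_filter] at hD
    exact ⟨hD.2.1.1, hD.2.1.2.1⟩
  · intro D hD D' hD' hne
    rw [mem_filter] at hD hD'
    by_contra hcon
    have hu := union hPAD hr hF hD.2.1 hD'.2.1 (by omega)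
    have h1 := hD.2.2 _ hu subset_union_left
    have h2 := hD'.2.2 _ hu subset_union_right
    exact hne (Subset.antisymm (subset_union_left.trans h2) (subset_union_right.trans h1))
  · intro B hB
    rw [mem_powersetCard] at hB
    constructor
    · intro hBF
      have hG : Good n r F B := ⟨hB.1, hB.2.ge, fun C hC hCr => by
        have : C = B := eq_of_subset_of_card_le hC (by omega)
        rwa [this]⟩
      obtain ⟨D, hD, hmax⟩ := exists_max_image
        ((range n).powerset.filter (fun D => Good n r F D ∧ B ⊆ D)) card
        ⟨B, mem_filter.mpr ⟨mem_powerset.mpr hB.1, hG, Subset.refl _⟩⟩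
      rw [mem_filter] at hD
      refine ⟨D, mem_filter.mpr ⟨hD.1, hD.2.1, ?_⟩, hD.2.2⟩
      intro D' hD' hDD'
      have h1 := hmax D' (mem_filter.mpr ⟨mem_powerset.mpr hD'.1, hD', hD.2.2.trans hDD'⟩)
      rw [eq_of_subset_of_card_le hDD' h1]
    · rintro ⟨D, hD, hBD⟩
      rw [mem_filter] at hD
      exact hD.2.1.2.2 B hBD hB.2

end Pool.Agent.MAE
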