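import Pool.Agent.MAE.Stmts

/-!
Squad MAE (MP_f46acb_co), module PEL: peeling off a 2-cycle.
-/

set_option autoImplicit false

namespace Pool.Agent.MAE

open Pool.Agent.Helper3.MAS Finset

namespace PEL_

theorem mdel {x : ℕ} {F : Finset (Finset ℕ)} {B : Finset ℕ} : B ∈ del x F ↔ B ∈ F ∧ x ∉ B :=
  Finset.mem_filter

theorem mem_con2 {x y : ℕ} (hxy : x ≠ y) {F : Finset (Finset ℕ)} {A : Finset ℕ} :
    A ∈ con y (con x F) ↔ ∃ B ∈ F, x ∈ B ∧ y ∈ B ∧ (B.erase x).erase y = A := by
  unfold con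
  constructor
  · intro h
    obtain ⟨C, hC, hCA⟩ := Finset.mem_image.mp h
    obtain ⟨hC1, hC2⟩ := Finset.mem_filter.mp hC
    obtain ⟨B, hB, hBC⟩ := Finset.mem_image.mp hC1
    obtain ⟨hB1, hB2⟩ := Finset.mem_filter.mp hB
    subst hBC
    exact ⟨B, hB1, hB2, Finset.mem_of_mem_erase hC2, hCA⟩
  · rintro ⟨B, hB, hx, hy, hA⟩
    refine Finset.mem_image.mpr ⟨B.erase x, Finset.mem_filter.mpr ⟨Finset.mem_image.mpr
      ⟨B, Finset.mem_filter.mpr ⟨hB, hx⟩, rfl⟩, Finset.mem_erase.mpr ⟨hxy.symm, hy⟩⟩, hA⟩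

theorem rl_eq_of_subset {σ : Equiv.Perm ℕ} {G : Finset (Finset ℕ)}
    (h : ∀ B ∈ G, B.image σ ∈ G) : rl σ G = G := by
  have h1 : rl σ G ⊆ G := by
    intro A hA
    obtain ⟨B, hB, rfl⟩ := Finset.mem_image.mp hA
    exact h B hB
  refine Finset.eq_of_subset_of_card_le h1 ?_
  unfold rl
  rw [Finset.card_image_of_injective _ (Finset.image_injective σ.injective)]

end PEL_

open PEL_ in
theorem pel_proof : Stmt_PEL := by
  intro K hK n S hS σ x y hx hy hxy hσx hσy
  have hy' : y ∈ S.erase x := Finset.mem_erase.mpr ⟨hxy.symm, hy⟩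
  have hc1 : (S.erase x).card = n + 1 := by rw [Finset.card_erase_of_mem hx, hS]; rfl
  have hc2 : ((S.erase x).erase y).card = n := by rw [Finset.card_erase_of_mem hy', hc1]; rfl
  have imem : ∀ F : Finset (Finset ℕ), rl σ F = F → ∀ B, B ∈ F ↔ B.image σ ∈ F := by
    intro F hF B
    constructor
    · intro h
      rw [← hF]
      exact mem_rl.mpr h
    · intro h
      rw [← hF] at h
      exact mem_rl.mp h
  have hxi : ∀ B : Finset ℕ, x ∈ B.image σ ↔ y ∈ B := by
    intro B
    constructor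
    · intro h
      obtain ⟨w, hw, hwx⟩ := Finset.mem_image.mp h
      have : w = y := σ.injective (hwx.trans hσy.symm)
      rwa [← this]
    · intro h
      exact Finset.mem_image.mpr ⟨y, h, hσy⟩
  have hyi : ∀ B : Finset ℕ, y ∈ B.image σ ↔ x ∈ B := by
    intro B
    constructor
    · intro h
      obtain ⟨w, hw, hwx⟩ := Finset.mem_image.mp h
      have : w = x := σ.injective (hwx.trans hσx.symm)
      rwa [← this]
    · intro h
      exact Finset.mem_image.mpr ⟨x, h, hσx⟩
  rw [← cnt_eq_num hK hc2, sq]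
  unfold fx cnt
  rw [← Set.ncard_prod, ← Set.ncard_prod]
  have hfin : {F | K ((S.erase x).erase y) F ∧ rl σ F = F}.Finite :=
    (fin_cls hK _).subset (fun F hF => hF.1)
  apply Set.ncard_le_ncard_of_injOn
    (fun F => (con y (del x F), (del y (del x F), con y (con x F)))) _ _
    ((fin_cls hK _).prod (hfin.prod hfin))
  · rintro F ⟨hF, hσF⟩
    refine ⟨hK.con hy' (hK.del hx hF), ⟨hK.del hy' (hK.del hx hF), ?_⟩,
      ⟨hK.con hy' (hK.con hx hF), ?_⟩⟩
    · refine rl_eq_of_subset (fun B hB => ?_)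
      rw [mdel, mdel] at hB
      rw [mdel, mdel, hxi, hyi]
      exact ⟨⟨(imem F hσF B).mp hB.1.1, hB.2⟩, hB.1.2⟩
    · refine rl_eq_of_subset (fun A hA => ?_)
      rw [mem_con2 hxy] at hA
      obtain ⟨B, hB, hxB, hyB, rfl⟩ := hA
      rw [mem_con2 hxy]
      refine ⟨B.image σ, (imem F hσF B).mp hB, (hxi B).mpr hyB, (hyi B).mpr hxB, ?_⟩
      rw [Finset.image_erase σ.injective, Finset.image_erase σ.injective, hσx, hσy,
        Finset.erase_right_comm]
  · have key : ∀ F F' : Finset (Finset ℕ), rl σ F = F → rl σ F' = F' →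
        con y (del x F) = con y (del x F') → del y (del x F) = del y (del x F') →
        con y (con x F) = con y (con x F') → ∀ B ∈ F, B ∈ F' := by
      intro F F' hF hF' h1 h2 h3
      have c3 : ∀ B ∈ F, x ∉ B → y ∈ B → B ∈ F' := by
        intro B hB hxB hyB
        have e1 : B.erase y ∈ con y (del x F) := Finset.mem_image.mpr
          ⟨B, Finset.mem_filter.mpr ⟨mdel.mpr ⟨hB, hxB⟩, hyB⟩, rfl⟩
        rw [h1] at e1
        obtain ⟨C, hC, hCB⟩ := Finset.mem_image.mp e1
        rw [Finset.mem_filter] at hC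
        have hC1 : C = B := by
          rw [← Finset.insert_erase hC.2, hCB, Finset.insert_erase hyB]
        rw [← hC1]
        exact (mdel.mp hC.1).1
      intro B hB
      by_cases hxB : x ∈ B
      · by_cases hyB : y ∈ B
        · have e1 : (B.erase x).erase y ∈ con y (con x F) :=
            (mem_con2 hxy).mpr ⟨B, hB, hxB, hyB, rfl⟩
          rw [h3, mem_con2 hxy] at e1
          obtain ⟨C, hC, hxC, hyC, hCB⟩ := e1
          have hC0 : C.erase x = B.erase x := by
            rw [← Finset.insert_erase (Finset.mem_erase.mpr ⟨hxy.symm, hyC⟩), hCB,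
              Finset.insert_erase (Finset.mem_erase.mpr ⟨hxy.symm, hyB⟩)]
          have hC1 : C = B := by
            rw [← Finset.insert_erase hxC, hC0, Finset.insert_erase hxB]
          rwa [← hC1]
        · have e1 : B.image σ ∈ F := (imem F hF B).mp hB
          have e2 : B.image σ ∈ F' := c3 _ e1 (fun h => hyB ((hxi B).mp h)) ((hyi B).mpr hxB)
          exact (imem F' hF' B).mpr e2
      · by_cases hyB : y ∈ B
        · exact c3 B hB hxB hyB
        · have e1 : B ∈ del y (del x F) := mdel.mpr ⟨mdel.mpr ⟨hB, hxB⟩, hyB⟩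
          rw [h2] at e1
          exact (mdel.mp (mdel.mp e1).1).1
    rintro F ⟨-, hF⟩ F' ⟨-, hF'⟩ h
    simp only [Prod.mk.injEq] at h
    ext B
    exact ⟨key F F' hF hF' h.1 h.2.1 h.2.2 B,
      key F' F hF' hF h.1.symm h.2.1.symm h.2.2.symm B⟩

end Pool.Agent.MAE
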