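import Pool.Agent.MAE.Stmts

/-!
Squad MAE, module PMC: paving families are closed under minors and relabelling.
-/

set_option autoImplicit false

namespace Pool.Agent.MAE

open Pool.Agent.Helper3.MAS Finset

theorem pmc_proof : Stmt_PMC where
  sub h := h.1.1
  perm := by
    rintro S F σ ⟨h1, h2⟩
    refine ⟨ExK_MC.perm σ h1, ?_⟩
    intro B hB Z hZ hc
    obtain ⟨C, hC, rfl⟩ := Finset.mem_image.mp hB
    have e1 : (Z.image σ.symm).image σ = Z := by
      rw [Finset.image_image]
      have : (⇑σ ∘ ⇑σ.symm) = id := by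
        funext i
        simp
      rw [this, Finset.image_id]
    have hZS : Z.image σ.symm ⊆ S := by
      intro w hw
      obtain ⟨z, hz, rfl⟩ := Finset.mem_image.mp hw
      obtain ⟨s, hs, hsz⟩ := Finset.mem_image.mp (hZ hz)
      rw [← hsz]
      simpa using hs
    have hcard : (Z.image σ.symm).card + 1 = C.card := by
      rw [Finset.card_image_of_injective _ σ.symm.injective, hc,
        Finset.card_image_of_injective _ σ.injective]
    obtain ⟨B', hB', hZB⟩ := h2 C hC _ hZS hcard
    refine ⟨B'.image σ, mem_rl.mpr hB', ?_⟩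
    rw [← e1]
    exact Finset.image_subset_image hZB
  del := by
    rintro S F x hx ⟨h1, h2⟩
    refine ⟨ExK_MC.del hx h1, ?_⟩
    intro B hB Z hZ hc
    rw [mem_del] at hB
    rw [Finset.subset_erase] at hZ
    obtain ⟨B', hB', hZB⟩ := h2 B hB.1 Z hZ.1 hc
    by_cases hxB : x ∈ B'
    · obtain ⟨y, hy, hyB, hyF⟩ := h1.2 B' hB' B hB.1 x hxB hB.2
      refine ⟨insert y (B'.erase x), mem_del.mpr ⟨hyF, ?_⟩, ?_⟩
      · intro h
        rcases Finset.mem_insert.mp h with rfl | h
        · exact hB.2 hy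
        · exact (Finset.notMem_erase _ _) h
      · intro z hz
        refine Finset.mem_insert_of_mem (Finset.mem_erase.mpr ⟨?_, hZB hz⟩)
        rintro rfl
        exact hZ.2 hz
    · exact ⟨B', mem_del.mpr ⟨hB', hxB⟩, hZB⟩
  con := by
    rintro S F x hx ⟨h1, h2⟩
    refine ⟨ExK_MC.con hx h1, ?_⟩
    intro B hB Z hZ hc
    rw [mem_con] at hB
    rw [Finset.subset_erase] at hZ
    have hZS : insert x Z ⊆ S := Finset.insert_subset hx hZ.1
    have hcard : (insert x Z).card + 1 = (insert x B).card := by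
      rw [Finset.card_insert_of_notMem hZ.2, Finset.card_insert_of_notMem hB.1, hc]
    obtain ⟨B', hB', hZB⟩ := h2 _ hB.2 _ hZS hcard
    have hxB : x ∈ B' := hZB (Finset.mem_insert_self _ _)
    refine ⟨B'.erase x, mem_con.mpr ⟨Finset.notMem_erase _ _, ?_⟩, ?_⟩
    · rw [Finset.insert_erase hxB]
      exact hB'
    · intro z hz
      refine Finset.mem_erase.mpr ⟨?_, hZB (Finset.mem_insert_of_mem hz)⟩
      rintro rfl
      exact hZ.2 hz

end Pool.Agent.MAE
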