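import Pool.Agent.MAE.Stmts

/-!
Squad MAE, module PTS: the number of paving families against the number of stable families.
-/

set_option autoImplicit false

namespace Pool.Agent.MAE

open Pool.Agent.Helper3.MAS Finset

namespace PTS_

/-- two members of `H` with `r - 1` common points coincide -/
theorem eq_of_sub {r : ℕ} {H : Finset (Finset ℕ)}
    (h2 : ∀ D ∈ H, ∀ D' ∈ H, D ≠ D' → (D ∩ D').card + 2 ≤ r) {D D' Z : Finset ℕ} (hD : D ∈ H)
    (hD' : D' ∈ H) (hZ : Z ⊆ D) (hZ' : Z ⊆ D') (hc : r ≤ Z.card + 1) : D = D' := by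
  by_contra hne
  have h := h2 D hD D' hD' hne
  have h3 := card_le_card (subset_inter hZ hZ')
  omega

open Classical in
/-- the encoding of one family -/
theorem enc {n r : ℕ} {F H : Finset (Finset ℕ)} (hr : 2 ≤ r)
    (hF : F ⊆ (range n).powersetCard r)
    (h1 : ∀ D ∈ H, D ⊆ range n ∧ r ≤ D.card)
    (h2 : ∀ D ∈ H, ∀ D' ∈ H, D ≠ D' → (D ∩ D').card + 2 ≤ r)
    (h3 : ∀ B ∈ (range n).powersetCard r, B ∉ F ↔ ∃ D ∈ H, B ⊆ D) :
    ∃ (Y : Finset (Finset ℕ)) (E : Finset (Finset ℕ × ℕ)), Y ∈ stF n r ∧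
      E ⊆ (range n).powersetCard r ×ˢ range n ∧ E.card * r.choose 2 ≤ n.choose (r - 1) ∧
      ((range n).powersetCard r).filter (fun B => ∀ C ∈ Y,
        ¬ B ⊆ C ∪ (range n).filter (fun y => (C, y) ∈ E)) = F := by
  have hrep : ∀ D : Finset ℕ, ∃ C : Finset ℕ, D ∈ H → C ⊆ D ∧ C.card = r := by
    intro D
    by_cases hD : D ∈ H
    · obtain ⟨C, hC, hc⟩ := exists_subset_card_eq (h1 D hD).2
      exact ⟨C, fun _ => ⟨hC, hc⟩⟩
    · exact ⟨∅, fun h => absurd h hD⟩
  choose rep hrep using hrep
  set E : Finset (Finset ℕ × ℕ) :=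
    H.biUnion (fun D => (D \ rep D).image (fun y => (rep D, y))) with hE
  have memE : ∀ C y, (C, y) ∈ E ↔ ∃ D ∈ H, (y ∈ D ∧ y ∉ rep D) ∧ rep D = C := by
    intro C y
    simp only [hE, mem_biUnion, mem_image, mem_sdiff, Prod.mk.injEq]
    constructor
    · rintro ⟨D, hD, x, hx, hC, rfl⟩
      exact ⟨D, hD, hx, hC⟩
    · rintro ⟨D, hD, hy, hC⟩
      exact ⟨D, hD, y, hy, hC, rfl⟩
  have hinj : ∀ D ∈ H, ∀ D' ∈ H, rep D = rep D' → D = D' := by
    intro D hD D' hD' h
    refine eq_of_sub h2 hD hD' (hrep D hD).1 ?_ (Nat.le_succ_of_le (hrep D hD).2.ge)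
    rw [h]
    exact (hrep D' hD').1
  refine ⟨H.image rep, E, ?_, ?_, ?_, ?_⟩
  · rw [stF, mem_filter, mem_powerset, Stab]
    have hsub : H.image rep ⊆ (range n).powersetCard r := by
      intro C hC
      obtain ⟨D, hD, rfl⟩ := mem_image.1 hC
      rw [mem_powersetCard]
      exact ⟨(hrep D hD).1.trans (h1 D hD).1, (hrep D hD).2⟩
    refine ⟨hsub, hsub, ?_⟩
    intro B hB a ha b hb hbB hmem
    obtain ⟨D, hD, rfl⟩ := mem_image.1 hB
    obtain ⟨D', hD', he⟩ := mem_image.1 hmem
    have hc : ((rep D).erase a).card = r - 1 := by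
      rw [card_erase_of_mem ha, (hrep D hD).2]
    have heq : D = D' := by
      refine eq_of_sub h2 hD hD' ((erase_subset a _).trans (hrep D hD).1) ?_ (by omega)
        (Z := (rep D).erase a)
      have := (hrep D' hD').1
      rw [he] at this
      exact (subset_insert _ _).trans this
    subst heq
    apply hbB
    rw [he]
    exact mem_insert_self _ _
  · rintro ⟨C, y⟩ h
    obtain ⟨D, hD, hy, rfl⟩ := (memE C y).1 h
    rw [mem_product, mem_powersetCard]
    exact ⟨⟨(hrep D hD).1.trans (h1 D hD).1, (hrep D hD).2⟩, (h1 D hD).1 hy.1⟩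
  · have hcard : (E.sigma (fun e => e.1.powersetCard 2)).card = E.card * r.choose 2 := by
      rw [card_sigma, sum_const_nat (m := r.choose 2)]
      rintro ⟨C, y⟩ h
      obtain ⟨D, hD, hy, rfl⟩ := (memE C y).1 h
      rw [card_powersetCard, (hrep D hD).2]
    rw [← hcard]
    have hn : ((range n).powersetCard (r - 1)).card = n.choose (r - 1) := by
      rw [card_powersetCard, card_range]
    rw [← hn]
    refine card_le_card_of_injOn (fun x => insert x.1.2 (x.1.1 \ x.2)) ?_ ?_
    · rintro ⟨⟨C, y⟩, P⟩ h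
      simp only [coe_sigma, Set.mem_sigma_iff, mem_coe, mem_powersetCard] at h
      obtain ⟨h, hP, hPc⟩ := h
      obtain ⟨D, hD, hy, rfl⟩ := (memE C y).1 h
      simp only [mem_coe, mem_powersetCard]
      refine ⟨?_, ?_⟩
      · intro x hx
        rcases mem_insert.1 hx with rfl | hx
        · exact (h1 D hD).1 hy.1
        · exact (h1 D hD).1 ((hrep D hD).1 (mem_sdiff.1 hx).1)
      · rw [card_insert_of_notMem (fun hx => hy.2 (mem_sdiff.1 hx).1), card_sdiff_of_subset hP,
          (hrep D hD).2, hPc]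
        omega
    · rintro ⟨⟨C, y⟩, P⟩ h ⟨⟨C', y'⟩, P'⟩ h' heq
      simp only [coe_sigma, Set.mem_sigma_iff, mem_coe, mem_powersetCard] at h h'
      obtain ⟨h, hP, hPc⟩ := h
      obtain ⟨h', hP', hPc'⟩ := h'
      obtain ⟨D, hD, hy, rfl⟩ := (memE C y).1 h
      obtain ⟨D', hD', hy', rfl⟩ := (memE C' y').1 h'
      simp only at heq
      have hc : (insert y (rep D \ P)).card = r - 1 := by
        rw [card_insert_of_notMem (fun hx => hy.2 (mem_sdiff.1 hx).1), card_sdiff_of_subset hP,
          (hrep D hD).2, hPc]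
        omega
      have hs1 : insert y (rep D \ P) ⊆ D := by
        intro x hx
        rcases mem_insert.1 hx with rfl | hx
        · exact hy.1
        · exact (hrep D hD).1 (mem_sdiff.1 hx).1
      have hs2 : insert y (rep D \ P) ⊆ D' := by
        rw [heq]
        intro x hx
        rcases mem_insert.1 hx with rfl | hx
        · exact hy'.1
        · exact (hrep D' hD').1 (mem_sdiff.1 hx).1
      have hDD : D = D' := eq_of_sub h2 hD hD' hs1 hs2 (by omega)
      subst hDD
      have hyy : y = y' := by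
        have : y ∈ insert y' (rep D \ P') := by
          rw [← heq]
          exact mem_insert_self _ _
        rcases mem_insert.1 this with h | h
        · exact h
        · exact absurd (mem_sdiff.1 h).1 hy.2
      subst hyy
      have hPP : P = P' := by
        have e1 : rep D \ P = rep D \ P' := by
          have g1 : y ∉ rep D \ P := fun hx => hy.2 (mem_sdiff.1 hx).1
          have g2 : y ∉ rep D \ P' := fun hx => hy.2 (mem_sdiff.1 hx).1
          rw [← erase_insert g1, heq, erase_insert g2]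
        rw [← Finset.sdiff_sdiff_eq_self hP, e1, Finset.sdiff_sdiff_eq_self hP']
      subst hPP
      rfl
  · ext B
    rw [mem_filter]
    have hD : ∀ D ∈ H, rep D ∪ (range n).filter (fun y => (rep D, y) ∈ E) = D := by
      intro D hD
      ext x
      rw [mem_union, mem_filter, memE]
      constructor
      · rintro (hx | ⟨-, D', hD', hx, he⟩)
        · exact (hrep D hD).1 hx
        · rw [← hinj D' hD' D hD he]
          exact hx.1
      · intro hx
        by_cases hxr : x ∈ rep D
        · exact Or.inl hxr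
        · exact Or.inr ⟨(h1 D hD).1 hx, D, hD, ⟨hx, hxr⟩, rfl⟩
    constructor
    · rintro ⟨hB, hC⟩
      by_contra hBF
      obtain ⟨D, hDH, hBD⟩ := (h3 B hB).1 hBF
      refine hC (rep D) (mem_image_of_mem _ hDH) ?_
      rw [hD D hDH]
      exact hBD
    · intro hB
      refine ⟨hF hB, ?_⟩
      intro C hC hsub
      obtain ⟨D, hDH, rfl⟩ := mem_image.1 hC
      rw [hD D hDH] at hsub
      exact (h3 B (hF hB)).2 ⟨D, hDH, hsub⟩ hB

end PTS_

open PTS_ in
theorem pts_proof (hPBL : Stmt_PBL) : Stmt_PTS := by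
  classical
  intro n r hr hrn
  set q := n.choose (r - 1) / r.choose 2 with hq
  set S := (range n).powersetCard r ×ˢ range n with hS
  set EF : Finset (Finset (Finset ℕ × ℕ)) :=
    (range (q + 1)).biUnion (fun i => S.powersetCard i) with hEF
  let dec : (Finset (Finset ℕ)) × (Finset (Finset ℕ × ℕ)) → Finset (Finset ℕ) := fun YE =>
    ((range n).powersetCard r).filter (fun B => ∀ C ∈ YE.1,
      ¬ B ⊆ C ∪ (range n).filter (fun y => (C, y) ∈ YE.2))
  have key : pavF n r ⊆ (stF n r ×ˢ EF).image dec := by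
    intro F hF
    obtain ⟨H, h1, h2, h3⟩ := hPBL n r F hr hF
    have hFs : F ⊆ (range n).powersetCard r := by
      rw [pavF, mem_filter, mem_powerset] at hF
      exact hF.1
    obtain ⟨Y, E, hY, hE, hc, hdec⟩ := enc hr hFs h1 h2 h3
    refine mem_image.2 ⟨(Y, E), mem_product.2 ⟨hY, ?_⟩, ?_⟩
    · rw [hEF, mem_biUnion]
      refine ⟨E.card, ?_, mem_powersetCard.2 ⟨hE, rfl⟩⟩
      rw [mem_range, Nat.lt_succ_iff, hq, Nat.le_div_iff_mul_le (Nat.choose_pos hr)]
      exact hc
    · rw [← hdec]
  calc (pavF n r).card ≤ ((stF n r ×ˢ EF).image dec).card := card_le_card key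
    _ ≤ (stF n r ×ˢ EF).card := card_image_le
    _ = (stF n r).card * EF.card := card_product _ _
    _ ≤ (stF n r).card * sbs (n * n.choose r) q := by
        refine Nat.mul_le_mul_left _ ?_
        refine card_biUnion_le.trans (le_of_eq ?_)
        rw [sbs]
        refine sum_congr rfl fun i _ => ?_
        rw [card_powersetCard, hS, card_product, card_powersetCard, card_range, mul_comm]

end Pool.Agent.MAE
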