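import Pool.Agent.MAE.Stmts

/-!
Squad MAE, module PUP.
-/

set_option autoImplicit false

namespace Pool.Agent.MAE

open Pool.Agent.Helper3.MAS Finset

namespace PUP_

theorem pavF_card_le (n r : ℕ) : (pavF n r).card ≤ 2 ^ (n.choose r) := by
  classical
  unfold pavF
  refine (Finset.card_filter_le _ _).trans ?_
  rw [Finset.card_powerset, Finset.card_powersetCard, Finset.card_range]

theorem cc_eq (n : ℕ) (hn : 1 ≤ n) : (n.choose (n / 2) : ℝ) = n * cc n / Real.log 2 := by
  unfold cc
  have h2 : Real.log 2 ≠ 0 := (Real.log_pos (by norm_num)).ne'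
  have hn' : (n : ℝ) ≠ 0 := by positivity
  field_simp

theorem cc_nonneg (n : ℕ) : 0 ≤ cc n := by
  unfold cc
  have h2 : 0 < Real.log 2 := Real.log_pos (by norm_num)
  positivity

/-- the middle ranks -/
theorem mid (hPTS : Stmt_PTS) (hDUA : Stmt_DUA) (hSBS : Stmt_SBS) (n : ℕ) (hn : 8 ≤ n)
    (M : ℕ) (hM : ∀ r, n ≤ 4 * r → 2 * r ≤ n → (stF n r).card ≤ M)
    (r : ℕ) (h1 : n ≤ 4 * r) (h2 : 4 * r ≤ 3 * n) :
    ((pavF n r).card : ℝ) ≤ M * Real.exp ((256 * Real.log n / n + 1 / n ^ 2) * (cc n / Real.log 2)) := by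
  have hr2 : 2 ≤ r := by omega
  have hrn : r ≤ n := by omega
  have hst : (stF n r).card ≤ M := by
    by_cases h : 2 * r ≤ n
    · exact hM r h1 h
    · rw [hDUA n r hrn]
      exact hM (n - r) (by omega) (by omega)
  have hp := hPTS n r hr2 hrn
  set q : ℕ := n.choose (r - 1) / r.choose 2 with hq
  have hnpos : (0 : ℝ) < n := by
    have : 0 < n := by omega
    exact_mod_cast this
  have hn1 : (1 : ℝ) ≤ n := by
    have : 1 ≤ n := by omega
    exact_mod_cast this
  have hl2 : 0 < Real.log 2 := Real.log_pos (by norm_num)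
  have hlogn : 0 ≤ Real.log n := Real.log_nonneg hn1
  have hs := hSBS (n * n.choose r) q ((n : ℝ) ^ 4) (one_le_pow₀ hn1)
  -- the choose bounds
  have hmid : (n.choose (n / 2) : ℝ) = n * (cc n / Real.log 2) := by
    rw [cc_eq n (by omega)]; ring
  have hc1 : (n.choose (r - 1) : ℝ) ≤ n * (cc n / Real.log 2) := by
    rw [← hmid]; exact_mod_cast Nat.choose_le_middle _ _
  have hc2 : (n.choose r : ℝ) ≤ n * (cc n / Real.log 2) := by
    rw [← hmid]; exact_mod_cast Nat.choose_le_middle _ _
  have hD : 0 ≤ cc n / Real.log 2 := div_nonneg (cc_nonneg n) hl2.le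
  -- r choose 2
  have hr4 : (n : ℝ) ≤ 4 * r := by exact_mod_cast h1
  have hn8 : (8 : ℝ) ≤ n := by exact_mod_cast hn
  have hch : (n : ℝ) ^ 2 / 64 ≤ (r.choose 2 : ℝ) := by
    rw [Nat.cast_choose_two]
    nlinarith
  have hq1 : (q : ℝ) ≤ 64 * (cc n / Real.log 2) / n := by
    have h3 : (q : ℝ) ≤ (n.choose (r - 1) : ℝ) / (r.choose 2 : ℝ) := Nat.cast_div_le
    refine h3.trans ?_
    have hpos : (0 : ℝ) < (n : ℝ) ^ 2 / 64 := by positivity
    rw [div_le_div_iff₀ (lt_of_lt_of_le hpos hch) hnpos]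
    calc (n.choose (r - 1) : ℝ) * n ≤ (n * (cc n / Real.log 2)) * n := by
          exact mul_le_mul_of_nonneg_right hc1 hnpos.le
      _ = 64 * (cc n / Real.log 2) * ((n : ℝ) ^ 2 / 64) := by ring
      _ ≤ 64 * (cc n / Real.log 2) * (r.choose 2 : ℝ) := by
          exact mul_le_mul_of_nonneg_left hch (by positivity)
  have hsb : ((sbs (n * n.choose r) q : ℕ) : ℝ) ≤
      Real.exp ((256 * Real.log n / n + 1 / n ^ 2) * (cc n / Real.log 2)) := by
    refine hs.trans ?_
    have e1 : ((n : ℝ) ^ 4) ^ q = Real.exp (4 * q * Real.log n) := by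
      rw [← pow_mul, ← Real.rpow_natCast, Real.rpow_def_of_pos hnpos]
      congr 1
      push_cast
      ring
    rw [e1, ← Real.exp_add]
    apply Real.exp_le_exp.mpr
    have e2 : ((n * n.choose r : ℕ) : ℝ) / (n : ℝ) ^ 4 ≤ 1 / n ^ 2 * (cc n / Real.log 2) := by
      rw [div_le_iff₀ (by positivity)]
      push_cast
      calc (n : ℝ) * (n.choose r : ℝ) ≤ n * (n * (cc n / Real.log 2)) :=
            mul_le_mul_of_nonneg_left hc2 hnpos.le
        _ = 1 / n ^ 2 * (cc n / Real.log 2) * (n : ℝ) ^ 4 := by field_simp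
    have e3 : 4 * (q : ℝ) * Real.log n ≤ 256 * Real.log n / n * (cc n / Real.log 2) := by
      calc 4 * (q : ℝ) * Real.log n ≤ 4 * (64 * (cc n / Real.log 2) / n) * Real.log n := by
            gcongr
        _ = 256 * Real.log n / n * (cc n / Real.log 2) := by ring
    calc _ ≤ 256 * Real.log n / n * (cc n / Real.log 2) + 1 / n ^ 2 * (cc n / Real.log 2) :=
          add_le_add e3 e2
      _ = _ := by ring
  calc ((pavF n r).card : ℝ) ≤ (((stF n r).card * sbs (n * n.choose r) q : ℕ) : ℝ) := by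
        exact_mod_cast hp
    _ = ((stF n r).card : ℝ) * ((sbs (n * n.choose r) q : ℕ) : ℝ) := by push_cast; ring
    _ ≤ M * Real.exp ((256 * Real.log n / n + 1 / n ^ 2) * (cc n / Real.log 2)) := by
        apply mul_le_mul _ hsb (by positivity) (by positivity)
        exact_mod_cast hst

end PUP_

open PUP_ in
theorem pup_proof (hKNU : Stmt_KNU) (hPTS : Stmt_PTS) (hDUA : Stmt_DUA) (hSUM : Stmt_SUM)
    (hSBS : Stmt_SBS) (hEXT : Stmt_EXT) (hCCI : Stmt_CCI) : Stmt_PUP := by
  intro ε hε
  have hl2 : 0 < Real.log 2 := Real.log_pos (by norm_num)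
  obtain ⟨n1, hn1⟩ := hEXT (ε / 2) (by positivity)
  obtain ⟨n2, hn2⟩ := hCCI (ε / 2) (by positivity)
  -- eventually small
  have hlim : Filter.Tendsto (fun n : ℕ => (256 * Real.log n / n + 1 / (n : ℝ) ^ 2) / Real.log 2)
      Filter.atTop (nhds 0) := by
    have t1 : Filter.Tendsto (fun x : ℝ => Real.log x / x) Filter.atTop (nhds 0) := by
      simpa using Real.tendsto_pow_log_div_mul_add_atTop 1 0 1 one_ne_zero
    have t1' : Filter.Tendsto (fun n : ℕ => Real.log (n : ℝ) / (n : ℝ)) Filter.atTop (nhds 0) :=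
      t1.comp tendsto_natCast_atTop_atTop
    have t2 : Filter.Tendsto (fun n : ℕ => 1 / (n : ℝ) ^ 2) Filter.atTop (nhds 0) := by
      have := tendsto_one_div_atTop_nhds_zero_nat (𝕜 := ℝ)
      have h2 := this.mul this
      simp only [mul_zero] at h2
      refine h2.congr (fun n => ?_)
      rw [pow_two]
      rw [one_div_mul_one_div]
    have t3 := ((t1'.const_mul 256).add t2).div_const (Real.log 2)
    simp only [mul_zero, add_zero, zero_div] at t3
    refine t3.congr (fun n => ?_)
    ring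
  obtain ⟨n3, hn3⟩ := Filter.eventually_atTop.mp (hlim.eventually (gt_mem_nhds (show (0 : ℝ) < ε / 2 by positivity)))
  refine ⟨max (max n1 n2) (max n3 8), fun n hn => ?_⟩
  have hnn1 : n1 ≤ n := le_trans (le_trans (le_max_left _ _) (le_max_left _ _)) hn
  have hnn2 : n2 ≤ n := le_trans (le_trans (le_max_right _ _) (le_max_left _ _)) hn
  have hnn3 : n3 ≤ n := le_trans (le_trans (le_max_left _ _) (le_max_right _ _)) hn
  have hn8 : 8 ≤ n := le_trans (le_trans (le_max_right _ _) (le_max_right _ _)) hn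
  have hccn : 0 ≤ cc n := cc_nonneg n
  -- the maximiser
  set R : Finset ℕ := (range (n + 1)).filter (fun r => n ≤ 4 * r ∧ 2 * r ≤ n) with hR
  have hRne : R.Nonempty := ⟨n / 2, by
    rw [hR, mem_filter, mem_range]
    refine ⟨by omega, by omega, by omega⟩⟩
  obtain ⟨r0, hr0, hmax⟩ := Finset.exists_max_image R (fun r => (stF n r).card) hRne
  rw [hR, mem_filter, mem_range] at hr0
  obtain ⟨-, hr1, hr2⟩ := hr0
  have hM : ∀ r, n ≤ 4 * r → 2 * r ≤ n → (stF n r).card ≤ (stF n r0).card := by
    intro r h1 h2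
    exact hmax r (by rw [hR, mem_filter, mem_range]; exact ⟨by omega, h1, h2⟩)
  set M : ℕ := (stF n r0).card with hMdef
  have hMpos : 0 < M := by
    rw [hMdef, Finset.card_pos]
    refine ⟨∅, ?_⟩
    classical
    unfold stF
    rw [mem_filter]
    refine ⟨Finset.mem_powerset.mpr (Finset.empty_subset _), Finset.empty_subset _, ?_⟩
    intro B hB
    exact absurd hB (Finset.notMem_empty _)
  have hMr : (1 : ℝ) ≤ M := by exact_mod_cast hMpos
  have hcc : cc n ≤ Real.log M := by
    refine (hKNU n (by omega)).trans ?_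
    apply Real.log_le_log
    · have : 0 < (stF n (n / 2)).card := by
        rw [Finset.card_pos]
        refine ⟨∅, ?_⟩
        classical
        unfold stF
        rw [mem_filter]
        refine ⟨Finset.mem_powerset.mpr (Finset.empty_subset _), Finset.empty_subset _, ?_⟩
        intro B hB
        exact absurd hB (Finset.notMem_empty _)
      exact_mod_cast this
    · exact_mod_cast hM (n / 2) (by omega) (by omega)
  refine ⟨r0, hr1, hr2, hcc, ?_⟩
  -- bound for each rank
  have hrank : ∀ r ∈ range (n + 1), ((pavF n r).card : ℝ) ≤ M * Real.exp (ε / 2 * cc n) := by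
    intro r _
    by_cases h : n ≤ 4 * r ∧ 4 * r ≤ 3 * n
    · refine (mid hPTS hDUA hSBS n hn8 M hM r h.1 h.2).trans ?_
      apply mul_le_mul_of_nonneg_left _ (by positivity)
      apply Real.exp_le_exp.mpr
      have h3 := (hn3 n hnn3).le
      calc (256 * Real.log n / n + 1 / (n : ℝ) ^ 2) * (cc n / Real.log 2)
          = (256 * Real.log n / n + 1 / (n : ℝ) ^ 2) / Real.log 2 * cc n := by ring
        _ ≤ ε / 2 * cc n := mul_le_mul_of_nonneg_right h3 hccn
    · have h' : 4 * r < n + 4 ∨ 3 * n < 4 * r + 4 := by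
        by_contra hcon
        push Not at hcon
        exact h ⟨by omega, by omega⟩
      have hE := hn1 n hnn1 r h'
      have hnr : (1 : ℝ) ≤ (n : ℝ) ^ 2 := by
        have : (1 : ℝ) ≤ n := by exact_mod_cast (by omega : 1 ≤ n)
        nlinarith
      have h5 : (n.choose r : ℝ) ≤ ε / 2 * cc n := by
        refine le_trans ?_ hE
        exact le_mul_of_one_le_right (by positivity) hnr
      calc ((pavF n r).card : ℝ) ≤ ((2 ^ (n.choose r) : ℕ) : ℝ) := by
            exact_mod_cast pavF_card_le n r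
        _ = Real.exp (n.choose r * Real.log 2) := by
            push_cast
            rw [← Real.rpow_natCast, Real.rpow_def_of_pos (by norm_num)]
            ring_nf
        _ ≤ Real.exp (ε / 2 * cc n) := by
            apply Real.exp_le_exp.mpr
            have hl1 : Real.log 2 ≤ 1 := by
              have := Real.log_two_lt_d9; linarith
            calc (n.choose r : ℝ) * Real.log 2 ≤ (n.choose r : ℝ) * 1 :=
                  mul_le_mul_of_nonneg_left hl1 (by positivity)
              _ ≤ ε / 2 * cc n := by rw [mul_one]; exact h5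
        _ ≤ M * Real.exp (ε / 2 * cc n) :=
            le_mul_of_one_le_left (Real.exp_pos _).le hMr
  have hnum : (num PavK n : ℝ) ≤ (n + 2) * (M * Real.exp (ε / 2 * cc n)) := by
    have h1 : (num PavK n : ℝ) ≤ 1 + ∑ r ∈ range (n + 1), ((pavF n r).card : ℝ) := by
      exact_mod_cast hSUM n
    have h2 : ∑ r ∈ range (n + 1), ((pavF n r).card : ℝ) ≤
        (n + 1) * (M * Real.exp (ε / 2 * cc n)) := by
      have := Finset.sum_le_card_nsmul (range (n + 1)) (fun r => ((pavF n r).card : ℝ)) _ hrank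
      rw [Finset.card_range, nsmul_eq_mul] at this
      push_cast at this
      exact this
    have h3 : (1 : ℝ) ≤ M * Real.exp (ε / 2 * cc n) := by
      have : (1 : ℝ) ≤ Real.exp (ε / 2 * cc n) := Real.one_le_exp (by positivity)
      nlinarith
    calc (num PavK n : ℝ) ≤ 1 + ∑ r ∈ range (n + 1), ((pavF n r).card : ℝ) := h1
      _ ≤ M * Real.exp (ε / 2 * cc n) + (n + 1) * (M * Real.exp (ε / 2 * cc n)) := add_le_add h3 h2
      _ = (n + 2) * (M * Real.exp (ε / 2 * cc n)) := by ring
  rcases Nat.eq_zero_or_pos (num PavK n) with h0 | hpos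
  · rw [h0]
    simp only [Nat.cast_zero, Real.log_zero]
    have := Real.log_nonneg hMr
    positivity
  · have hposr : (0 : ℝ) < (num PavK n : ℝ) := by exact_mod_cast hpos
    have hn2' : (0 : ℝ) < (n : ℝ) + 2 := by positivity
    calc Real.log (num PavK n) ≤ Real.log ((n + 2) * (M * Real.exp (ε / 2 * cc n))) :=
          Real.log_le_log hposr hnum
      _ = Real.log (n + 2) + (Real.log M + ε / 2 * cc n) := by
          rw [Real.log_mul hn2'.ne' (by positivity), Real.log_mul (by positivity) (Real.exp_pos _).ne',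
            Real.log_exp]
      _ ≤ ε / 2 * cc n + (Real.log M + ε / 2 * cc n) := by
          gcongr
          refine le_trans ?_ (hn2 n hnn2)
          have h7 : Real.log ((n : ℝ) + 2) ≤ (n : ℝ) + 2 - 1 := Real.log_le_sub_one_of_pos hn2'
          have h8 : (8 : ℝ) ≤ n := by exact_mod_cast hn8
          nlinarith [sq_nonneg ((n : ℝ) - 1), mul_pos (show (0 : ℝ) < n by linarith) (show (0 : ℝ) < n by linarith)]
      _ = Real.log M + ε * cc n := by ring

end Pool.Agent.MAE
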