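import Pool.Agent.MAE.Stmts

/-!
Relabelling preserves stable families.
-/

set_option autoImplicit false

namespace Pool.Agent.MAE

open Pool.Agent.Helper3.MAS Finset

namespace RLS_

lemma exm_lt {m : ℕ} (π : Equiv.Perm (Fin m)) {x : ℕ} (hx : x ∈ range m) :
    exm π x ∈ range m := by
  have hx' := mem_range.1 hx
  have h : exm π ((⟨x, hx'⟩ : Fin m) : ℕ) = (π ⟨x, hx'⟩ : ℕ) :=
    Equiv.Perm.viaEmbedding_apply π Fin.valEmbedding ⟨x, hx'⟩
  have h2 : exm π x = (π ⟨x, hx'⟩ : ℕ) := h
  rw [h2]
  exact mem_range.2 (π ⟨x, hx'⟩).2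

lemma exm_image {m : ℕ} (π : Equiv.Perm (Fin m)) : (range m).image (exm π) = range m := by
  apply eq_of_subset_of_card_le
  · intro y hy
    obtain ⟨x, hx, rfl⟩ := mem_image.1 hy
    exact exm_lt π hx
  · rw [card_image_of_injective _ (exm π).injective]

lemma sub_image {m : ℕ} (π : Equiv.Perm (Fin m)) {B : Finset ℕ} (hB : B ⊆ range m) :
    B.image (exm π) ⊆ range m := by
  calc B.image (exm π) ⊆ (range m).image (exm π) := image_subset_image hB
    _ = range m := exm_image π

end RLS_

open RLS_ in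
theorem rls_proof : Stmt_RLS := by
  classical
  intro m r π I hI
  unfold stF at hI ⊢
  rw [mem_filter, mem_powerset] at hI ⊢
  obtain ⟨h1, -, h3⟩ := hI
  have key : rl (exm π) I ⊆ (range m).powersetCard r := by
    intro B hB
    unfold rl at hB
    obtain ⟨C, hC, rfl⟩ := mem_image.1 hB
    have := mem_powersetCard.1 (h1 hC)
    refine mem_powersetCard.2 ⟨sub_image π this.1, ?_⟩
    rw [card_image_of_injective _ (exm π).injective, this.2]
  refine ⟨key, key, ?_⟩
  intro B hB a ha b hb hbB hin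
  unfold rl at hB
  obtain ⟨C, hC, rfl⟩ := mem_image.1 hB
  obtain ⟨a', ha', rfl⟩ := mem_image.1 ha
  rw [← exm_image π] at hb
  obtain ⟨b', hb', rfl⟩ := mem_image.1 hb
  have hb'C : b' ∉ C := fun h => hbB (mem_image_of_mem _ h)
  refine h3 C hC a' ha' b' hb' hb'C ?_
  have e : insert ((exm π) b') ((C.image (exm π)).erase ((exm π) a')) =
      (insert b' (C.erase a')).image (exm π) := by
    rw [image_insert, image_erase (exm π).injective]
  rw [e] at hin
  exact mem_rl.1 hin

end Pool.Agent.MAE
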