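import Pool.Agent.MAE.Stmts

/-!
Squad MAE, module SBS: the number of subsets of bounded size.
-/

set_option autoImplicit false

namespace Pool.Agent.MAE

open Pool.Agent.Helper3.MAS Finset

theorem sbs_proof : Stmt_SBS := by
  intro N q w hw
  have hw0 : (0 : ℝ) < w := lt_of_lt_of_le one_pos hw
  unfold sbs
  push_cast
  have h1 : ∀ i ∈ range (q + 1), ((N.choose i : ℕ) : ℝ) ≤
      w ^ q * ((N.choose i : ℝ) * (1 / w) ^ i) := by
    intro i hi
    have hiq : i ≤ q := Nat.lt_succ_iff.mp (mem_range.mp hi)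
    have h2 : w ^ q = w ^ (q - i) * w ^ i := by
      rw [← pow_add, Nat.sub_add_cancel hiq]
    have h3 : w ^ q * ((N.choose i : ℝ) * (1 / w) ^ i) = w ^ (q - i) * (N.choose i : ℝ) := by
      rw [h2, one_div, inv_pow]
      field_simp
    rw [h3]
    have h4 : (1 : ℝ) ≤ w ^ (q - i) := one_le_pow₀ hw
    have h5 : (0 : ℝ) ≤ (N.choose i : ℝ) := Nat.cast_nonneg _
    nlinarith
  have h6 : ∑ i ∈ range (q + 1), ((N.choose i : ℕ) : ℝ) ≤
      w ^ q * ∑ i ∈ range (q + 1), ((N.choose i : ℝ) * (1 / w) ^ i) := by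
    rw [Finset.mul_sum]
    exact Finset.sum_le_sum h1
  have h7 : ∑ i ∈ range (q + 1), ((N.choose i : ℝ) * (1 / w) ^ i) ≤
      (1 + 1 / w) ^ N := by
    have h8 : (1 + 1 / w) ^ N = ∑ i ∈ range (N + 1), ((N.choose i : ℝ) * (1 / w) ^ i) := by
      rw [add_comm, add_pow]
      apply Finset.sum_congr rfl
      intro i _
      rw [one_pow, mul_one, mul_comm]
    have h9 : ∀ i, (0 : ℝ) ≤ (N.choose i : ℝ) * (1 / w) ^ i := by
      intro i
      positivity
    have h10 : ∑ i ∈ range (q + 1), ((N.choose i : ℝ) * (1 / w) ^ i) ≤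
        ∑ i ∈ range (q + N + 1), ((N.choose i : ℝ) * (1 / w) ^ i) := by
      apply Finset.sum_le_sum_of_subset_of_nonneg
      · intro i hi
        rw [mem_range] at hi ⊢
        omega
      · intro i _ _
        exact h9 i
    have h11 : ∑ i ∈ range (q + N + 1), ((N.choose i : ℝ) * (1 / w) ^ i) =
        ∑ i ∈ range (N + 1), ((N.choose i : ℝ) * (1 / w) ^ i) := by
      symm
      apply Finset.sum_subset
      · intro i hi
        rw [mem_range] at hi ⊢
        omega
      · intro i _ hi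
        rw [mem_range, not_lt] at hi
        rw [Nat.choose_eq_zero_of_lt (by omega)]
        simp
    rw [h8, ← h11]
    exact h10
  have h12 : (1 + 1 / w) ^ N ≤ Real.exp (N / w) := by
    have h13 : 1 + 1 / w ≤ Real.exp (1 / w) := by
      have := Real.add_one_le_exp (1 / w)
      linarith
    calc (1 + 1 / w) ^ N ≤ (Real.exp (1 / w)) ^ N :=
          pow_le_pow_left₀ (by positivity) h13 N
      _ = Real.exp (N / w) := by
          rw [← Real.exp_nat_mul]
          ring_nf
  calc ∑ i ∈ range (q + 1), ((N.choose i : ℕ) : ℝ)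
      ≤ w ^ q * ∑ i ∈ range (q + 1), ((N.choose i : ℝ) * (1 / w) ^ i) := h6
    _ ≤ w ^ q * Real.exp (N / w) := by
        apply mul_le_mul_of_nonneg_left (h7.trans h12) (by positivity)

end Pool.Agent.MAE
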