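import Pool.Agent.MAE.Stmts

set_option autoImplicit false

/-!
Squad MAE: choosing the relative position of two stable families.
-/

namespace Pool.Agent.MAE

open Pool.Agent.Helper3.MAS Finset

namespace SEL_

theorem mem_stF {n r : ℕ} {X : Finset (Finset ℕ)} : X ∈ stF n r ↔ Stab n r X := by
  classical
  unfold stF
  rw [Finset.mem_filter, Finset.mem_powerset]
  exact ⟨fun h => h.2, fun h => ⟨h.1, h⟩⟩

theorem exm_range {m : ℕ} (π : Equiv.Perm (Fin m)) {i : ℕ} (hi : i ∈ range m) :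
    exm π i ∈ range m := by
  rw [Finset.mem_range] at hi ⊢
  have h := Equiv.Perm.viaEmbedding_apply π Fin.valEmbedding (⟨i, hi⟩ : Fin m)
  have h2 : exm π i = (π ⟨i, hi⟩ : Fin m) := h
  rw [h2]
  exact (π ⟨i, hi⟩).2

theorem rl_avl {m r : ℕ} (π : Equiv.Perm (Fin m)) (J : Finset (Finset ℕ)) :
    rl (exm π) (avl m r J) ⊆ avl m r (rl (exm π) J) := by
  intro A hA
  unfold rl at hA
  rw [Finset.mem_image] at hA
  obtain ⟨A', hA', rfl⟩ := hA
  unfold avl at hA' ⊢
  rw [Finset.mem_filter, Finset.mem_powersetCard] at hA' ⊢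
  refine ⟨⟨?_, ?_⟩, ?_⟩
  · intro z hz
    rw [Finset.mem_image] at hz
    obtain ⟨w, hw, rfl⟩ := hz
    exact exm_range π (hA'.1.1 hw)
  · rw [Finset.card_image_of_injective _ (exm π).injective, hA'.1.2]
  · intro D hD hsub
    unfold rl at hD
    rw [Finset.mem_image] at hD
    obtain ⟨C, hC, rfl⟩ := hD
    rw [Finset.image_subset_image_iff (exm π).injective] at hsub
    exact hA'.2 C hC hsub

theorem avl_card {m r : ℕ} {δ : ℝ} (hAVC : Stmt_AVC) (hr : 1 ≤ r) (hrm : r ≤ m)
    {I : Finset (Finset ℕ)} (hI : I ∈ stF m r) (h : (I.card : ℝ) ≤ (1 - δ) * al m r) :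
    δ * (m.choose (r - 1) : ℝ) ≤ ((avl m r I).card : ℝ) := by
  have h1 := hAVC m r hr hrm I hI
  have h2 : ((avl m r I).card : ℝ) + r * I.card = m.choose (r - 1) := by exact_mod_cast h1
  have hr0 : (0 : ℝ) < r := by exact_mod_cast hr
  have h3 : (r : ℝ) * al m r = m.choose (r - 1) := by
    unfold al
    field_simp
  have h4 : (r : ℝ) * I.card ≤ r * ((1 - δ) * al m r) := mul_le_mul_of_nonneg_left h hr0.le
  have h5 : (r : ℝ) * ((1 - δ) * al m r) = (1 - δ) * (m.choose (r - 1)) := by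
    rw [← h3]; ring
  linarith

end SEL_

open SEL_ in
theorem sel_proof (hAVG : Stmt_AVG) (hAVC : Stmt_AVC) : Stmt_SEL := by
  intro m r δ hr hrm hδ hδ1 I hI J hJ hIc hJc
  have hr0 : (0 : ℝ) < r := by exact_mod_cast hr
  set N : ℝ := (m.choose (r - 1) : ℝ) with hN
  set P : ℝ := (m.choose r : ℝ) with hP
  have hN0 : 0 < N := by
    rw [hN]; exact_mod_cast Nat.choose_pos (by omega)
  have hP0 : 0 < P := by
    rw [hP]; exact_mod_cast Nat.choose_pos hrm
  have hal : 0 < al m r := by unfold al; positivity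
  have hAI := avl_card hAVC hr hrm hI hIc
  have hAJ := avl_card hAVC hr hrm hJ hJc
  have hsubI : avl m r I ⊆ (range m).powersetCard (r - 1) := Finset.filter_subset _ _
  have hsubJ : avl m r J ⊆ (range m).powersetCard (r - 1) := Finset.filter_subset _ _
  have e1 := hAVG m (r - 1) (avl m r I) (avl m r J) hsubI hsubJ
  have e2 := hAVG m r I J (mem_stF.1 hI).1 (mem_stF.1 hJ).1
  set a : Equiv.Perm (Fin m) → ℝ := fun π => ((avl m r I ∩ rl (exm π) (avl m r J)).card : ℝ) with ha
  set b : Equiv.Perm (Fin m) → ℝ := fun π => ((I ∩ rl (exm π) J).card : ℝ) with hb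
  have e1' : N * ∑ π, a π = m.factorial * ((avl m r I).card * (avl m r J).card) := by
    rw [hN, ha]
    beta_reduce
    exact_mod_cast e1
  have e2' : P * ∑ π, b π = m.factorial * (I.card * J.card) := by
    rw [hP, hb]
    beta_reduce
    exact_mod_cast e2
  have hF : (0 : ℝ) < m.factorial := by exact_mod_cast Nat.factorial_pos m
  have s1 : m.factorial * (δ ^ 2 * N) ≤ ∑ π, a π := by
    have h1 : (δ * N) * (δ * N) ≤ ((avl m r I).card : ℝ) * (avl m r J).card :=
      mul_le_mul hAI hAJ (by positivity) (by positivity)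
    have h2 : N * (m.factorial * (δ ^ 2 * N)) ≤ N * ∑ π, a π := by
      rw [e1']
      calc N * (m.factorial * (δ ^ 2 * N)) = m.factorial * ((δ * N) * (δ * N)) := by ring
        _ ≤ _ := mul_le_mul_of_nonneg_left h1 hF.le
    exact le_of_mul_le_mul_left h2 hN0
  have s2 : P * ∑ π, b π ≤ m.factorial * (al m r) ^ 2 := by
    rw [e2']
    have h1 : (I.card : ℝ) ≤ al m r := hIc.trans (by nlinarith)
    have h2 : (J.card : ℝ) ≤ al m r := hJc.trans (by nlinarith)
    rw [sq]
    exact mul_le_mul_of_nonneg_left (mul_le_mul h1 h2 (by positivity) hal.le) hF.le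
  have hcard : (Finset.univ : Finset (Equiv.Perm (Fin m))).card = m.factorial := by
    rw [Finset.card_univ, Fintype.card_perm, Fintype.card_fin]
  have key : ∃ π ∈ (Finset.univ : Finset (Equiv.Perm (Fin m))),
      δ ^ 2 / 2 ≤ a π / N - δ ^ 2 / 2 * (b π * P / (al m r) ^ 2) := by
    apply Finset.exists_le_of_sum_le Finset.univ_nonempty
    rw [Finset.sum_const, hcard, nsmul_eq_mul, Finset.sum_sub_distrib, ← Finset.mul_sum,
      ← Finset.sum_div, ← Finset.sum_div, ← Finset.sum_mul]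
    have t1 : m.factorial * δ ^ 2 ≤ (∑ π, a π) / N := by
      rw [le_div_iff₀ hN0]
      calc m.factorial * δ ^ 2 * N = m.factorial * (δ ^ 2 * N) := by ring
        _ ≤ _ := s1
    have t2 : (∑ π, b π) * P / (al m r) ^ 2 ≤ m.factorial := by
      rw [div_le_iff₀ (by positivity), mul_comm (∑ π, b π) P]
      exact s2
    have t3 : δ ^ 2 / 2 * ((∑ π, b π) * P / (al m r) ^ 2) ≤ δ ^ 2 / 2 * m.factorial :=
      mul_le_mul_of_nonneg_left t2 (by positivity)
    linarith
  obtain ⟨π, -, hπ⟩ := key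
  have hb0 : 0 ≤ b π := Nat.cast_nonneg _
  have hy0 : 0 ≤ b π * P / (al m r) ^ 2 := by positivity
  have hx1 : a π / N ≤ 1 := by
    rw [div_le_one hN0, ha, hN]
    have h1 : (avl m r I ∩ rl (exm π) (avl m r J)).card ≤ m.choose (r - 1) := by
      calc _ ≤ ((range m).powersetCard (r - 1)).card :=
            Finset.card_le_card (Finset.inter_subset_left.trans hsubI)
        _ = _ := by rw [Finset.card_powersetCard, Finset.card_range]
    beta_reduce
    exact_mod_cast h1
  refine ⟨π, ?_, ?_⟩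
  · have h1 : δ ^ 2 / 2 ≤ a π / N := by
      have : 0 ≤ δ ^ 2 / 2 * (b π * P / (al m r) ^ 2) := by positivity
      linarith
    rw [le_div_iff₀ hN0] at h1
    refine h1.trans ?_
    rw [ha]
    have h2 : (avl m r I ∩ rl (exm π) (avl m r J)).card ≤
        (avl m r I ∩ avl m r (rl (exm π) J)).card :=
      Finset.card_le_card (Finset.inter_subset_inter_left (rl_avl π J))
    beta_reduce
    exact_mod_cast h2
  · have h1 : δ ^ 2 / 2 * (b π * P / (al m r) ^ 2) ≤ 1 := by
      have : 0 ≤ δ ^ 2 / 2 := by positivity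
      linarith
    have h2 : b π = δ ^ 2 / 2 * (b π * P / (al m r) ^ 2) * (2 / δ ^ 2 * ((al m r) ^ 2 / P)) := by
      field_simp
    have h3 : b π ≤ 1 * (2 / δ ^ 2 * ((al m r) ^ 2 / P)) := by
      rw [h2]
      exact mul_le_mul_of_nonneg_right h1 (by positivity)
    rw [one_mul] at h3
    exact h3

end Pool.Agent.MAE
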