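import Pool.Agent.MAE.Stmts

/-!
STW: weighted number of stable families, asymptotically.
-/

set_option autoImplicit false

namespace Pool.Agent.MAE

open Pool.Agent.Helper3.MAS Finset

namespace STW_

theorem choose_two_le {n k : ℕ} (h2 : 2 ≤ k) (hk : k ≤ n / 2) : n.choose 2 ≤ n.choose k := by
  induction k, h2 using Nat.le_induction with
  | base => exact le_rfl
  | succ m _ ih =>
    exact (ih (by omega)).trans (Nat.choose_le_succ_of_lt_half_left (by omega))

theorem card_eq {n r : ℕ} (h1 : 1 ≤ r) (hr : r ≤ n) :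
    (n.choose r : ℝ) = al n r * ((n : ℝ) - r + 1) := by
  obtain ⟨k, rfl⟩ : ∃ k, r = k + 1 := ⟨r - 1, by omega⟩
  have h := Nat.choose_succ_right_eq n k
  have h' : (n.choose (k + 1) : ℝ) * (k + 1) = n.choose k * ((n : ℝ) - k) := by
    have : ((n.choose (k + 1) * (k + 1) : ℕ) : ℝ) = ((n.choose k * (n - k) : ℕ) : ℝ) := by rw [h]
    push_cast [Nat.cast_sub (by omega : k ≤ n)] at this
    exact this
  unfold al
  have hk : (0 : ℝ) < (k : ℝ) + 1 := by positivity
  have e : ((k + 1 : ℕ) : ℝ) = (k : ℝ) + 1 := by push_cast; ring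
  rw [Nat.add_sub_cancel, e]
  field_simp
  rw [h']
  ring

theorem al_lower {n r : ℕ} (h1 : 3 ≤ r) (hr : 2 * r ≤ n) : (n : ℝ) - 1 ≤ al n r := by
  unfold al
  have hr0 : (0 : ℝ) < r := by
    have : 0 < r := by omega
    exact_mod_cast this
  rw [le_div_iff₀ hr0]
  have h2 : ((n.choose 2 : ℕ) : ℝ) ≤ ((n.choose (r - 1) : ℕ) : ℝ) := by
    exact_mod_cast choose_two_le (by omega) (by omega)
  rw [Nat.cast_choose_two] at h2
  refine le_trans ?_ h2
  have h3 : 2 * (r : ℝ) ≤ n := by exact_mod_cast hr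
  have h4 : (1 : ℝ) ≤ n := by
    have : 1 ≤ n := by omega
    exact_mod_cast this
  nlinarith

theorem stab_not_adj {n r : ℕ} {I : Finset (Finset ℕ)} (hI : I ∈ stF n r) {u w : Finset ℕ}
    (hu : u ∈ I) (hw : w ∈ I) (h : u ≠ w ∧ (u ∩ w).card + 1 = r) : False := by
  classical
  unfold stF at hI
  obtain ⟨-, hI1, hI2⟩ := Finset.mem_filter.1 hI
  have hu' := Finset.mem_powersetCard.1 (hI1 hu)
  have hw' := Finset.mem_powersetCard.1 (hI1 hw)
  have c1 : (u \ w).card = 1 := by
    have := Finset.card_sdiff_add_card_inter u w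
    omega
  have c2 : (w \ u).card = 1 := by
    have := Finset.card_sdiff_add_card_inter w u
    rw [Finset.inter_comm] at this
    omega
  obtain ⟨a, ha⟩ := Finset.card_eq_one.1 c1
  obtain ⟨b, hb⟩ := Finset.card_eq_one.1 c2
  have ha1 : a ∈ u \ w := by rw [ha]; simp
  have hb1 : b ∈ w \ u := by rw [hb]; simp
  obtain ⟨ha2, ha3⟩ := Finset.mem_sdiff.1 ha1
  obtain ⟨hb2, hb3⟩ := Finset.mem_sdiff.1 hb1
  have e : insert b (u.erase a) = w := by
    ext x
    constructor
    · intro hx
      rcases Finset.mem_insert.1 hx with rfl | hx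
      · exact hb2
      · obtain ⟨hxa, hxu⟩ := Finset.mem_erase.1 hx
        by_contra hxw
        have : x ∈ u \ w := Finset.mem_sdiff.2 ⟨hxu, hxw⟩
        rw [ha, Finset.mem_singleton] at this
        exact hxa this
    · intro hx
      by_cases hxu : x ∈ u
      · refine Finset.mem_insert_of_mem (Finset.mem_erase.2 ⟨?_, hxu⟩)
        rintro rfl
        exact ha3 hx
      · have : x ∈ w \ u := Finset.mem_sdiff.2 ⟨hx, hxu⟩
        rw [hb, Finset.mem_singleton] at this
        rw [this]
        exact Finset.mem_insert_self _ _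
  have := hI2 u hu a ha2 b (hw'.1 hb2) hb3
  rw [e] at this
  exact this hw

end STW_

open STW_ in
theorem stw_proof (hDEG : Stmt_DEG) (hKWG : Stmt_KWG) : Stmt_STW := by
  classical
  intro y ε hy hε
  have hlog2 : 0 < Real.log 2 := Real.log_pos (by norm_num)
  have E1 : ∀ᶠ n : ℕ in Filter.atTop, (Real.log n) ^ 2 ≤ (ε * Real.log 2 / 60) * n := by
    have h := (Real.isLittleO_pow_log_id_atTop (n := 2)).def
      (c := ε * Real.log 2 / 60) (by positivity)
    have h' := tendsto_natCast_atTop_atTop (R := ℝ) |>.eventually h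
    filter_upwards [h'] with n hn
    simp only [id, Real.norm_eq_abs] at hn
    rw [abs_of_nonneg (by positivity : (0 : ℝ) ≤ Real.log n ^ 2),
      abs_of_nonneg (by positivity : (0 : ℝ) ≤ (n : ℝ))] at hn
    exact hn
  have E2 : ∀ᶠ n : ℕ in Filter.atTop,
      |Real.log (2 * y)| + |Real.log (2 / ε)| + 1 ≤ Real.log n :=
    (Real.tendsto_log_atTop.comp (tendsto_natCast_atTop_atTop (R := ℝ))).eventually_ge_atTop _
  have E3 : ∀ᶠ n : ℕ in Filter.atTop, 8 / ε + 12 + ε ≤ (n : ℝ) :=
    (tendsto_natCast_atTop_atTop (R := ℝ)).eventually_ge_atTop _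
  obtain ⟨n₀, hn₀⟩ := Filter.eventually_atTop.1 (E1.and (E2.and E3))
  refine ⟨n₀, fun n hn r hr4 hr2 => ?_⟩
  obtain ⟨h1, h2, h3⟩ := hn₀ n hn
  have h8 : 0 < 8 / ε := by positivity
  have hn12 : (12 : ℝ) ≤ n := by linarith
  have hn12' : 12 ≤ n := by exact_mod_cast hn12
  have hr3 : 3 ≤ r := by omega
  have hrn : r ≤ n := by omega
  have hr0 : (0 : ℝ) < r := by
    have : 0 < r := by omega
    exact_mod_cast this
  have hr4' : (n : ℝ) ≤ 4 * r := by exact_mod_cast hr4
  have hr2' : 2 * (r : ℝ) ≤ n := by exact_mod_cast hr2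
  obtain ⟨L, hL⟩ : ∃ L : ℝ, L = Real.log n := ⟨_, rfl⟩
  rw [← hL] at h1 h2
  have hL1 : 1 ≤ L := by
    have := abs_nonneg (Real.log (2 * y))
    have := abs_nonneg (Real.log (2 / ε))
    linarith
  obtain ⟨α, hα⟩ : ∃ α : ℝ, α = al n r := ⟨_, rfl⟩
  have hαn : (n : ℝ) - 1 ≤ α := by rw [hα]; exact al_lower hr3 hr2
  have hα0 : 0 < α := by linarith
  have hV : (n.choose r : ℝ) = α * ((n : ℝ) - r + 1) := by rw [hα]; exact card_eq (by omega) hrn
  obtain ⟨κ, hκ⟩ : ∃ κ : ℝ, κ = Real.log (y * (1 + (n : ℝ) ^ 2)) := ⟨_, rfl⟩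
  have hy0 : 0 < y := by linarith
  have hn0 : (0 : ℝ) < n := by linarith
  have hκ3 : κ ≤ 3 * L := by
    have e : Real.log (2 * y * (n : ℝ) ^ 2) = Real.log (2 * y) + 2 * L := by
      rw [Real.log_mul (by positivity) (by positivity), Real.log_pow, hL]
      push_cast
      ring
    have h4 : κ ≤ Real.log (2 * y * (n : ℝ) ^ 2) := by
      rw [hκ]
      apply Real.log_le_log (by positivity)
      have : 1 ≤ (n : ℝ) ^ 2 := by nlinarith
      nlinarith
    have h5 := le_abs_self (Real.log (2 * y))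
    have h6 := abs_nonneg (Real.log (2 / ε))
    linarith
  have hκ1 : 1 ≤ κ := by
    rw [hκ, Real.le_log_iff_exp_le (by positivity)]
    have h4 := Real.exp_one_lt_d9
    have h5 : (144 : ℝ) ≤ (n : ℝ) ^ 2 := by nlinarith
    nlinarith
  have hεr : 1 ≤ (r : ℝ) * (ε / 2) := by
    have h4 : 8 / ε ≤ 4 * r := by linarith
    rw [div_le_iff₀ hε] at h4
    linarith
  have key := hKWG (fun u w => u ≠ w ∧ (u ∩ w).card + 1 = r) (fun u h => h.1 rfl)
    ((range n).powersetCard r) α r (ε / 2) κ y hα0 hr0 (by positivity) hεr hκ1 hy ?_ ?_ ?_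
    (stF n r) ?_ ?_
  · have hcard : (((range n).powersetCard r).card : ℝ) = α * ((n : ℝ) - r + 1) := by
      rw [Finset.card_powersetCard, Finset.card_range, hV]
    rw [hcard] at key
    have hpos : 0 < ∑ X ∈ stF n r, y ^ X.card ∨ ∑ X ∈ stF n r, y ^ X.card = 0 := by
      rcases (Finset.sum_nonneg (fun X _ => by positivity :
        ∀ X ∈ stF n r, (0 : ℝ) ≤ y ^ X.card)).lt_or_eq with h | h
      · exact Or.inl h
      · exact Or.inr h.symm
    have hrhs : 0 ≤ (1 + ε) * al n r * Real.log (1 + y) := by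
      rw [← hα]
      have : 0 ≤ Real.log (1 + y) := Real.log_nonneg (by linarith)
      positivity
    rcases hpos with hpos | hzero
    · have h4 := Real.log_le_log hpos key
      rw [Real.log_mul (by positivity) (by positivity), Real.log_exp,
        Real.log_rpow (by positivity)] at h4
      refine h4.trans ?_
      rw [← hα]
      have e1 : α * ((n : ℝ) - r + 1) / (ε / 2 * α) = ((n : ℝ) - r + 1) * (2 / ε) := by
        field_simp
      rw [e1]
      have h5 : Real.log (((n : ℝ) - r + 1) * (2 / ε)) ≤ 2 * L := by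
        have h6 : Real.log (((n : ℝ) - r + 1) * (2 / ε)) ≤ Real.log ((n : ℝ) * (2 / ε)) := by
          apply Real.log_le_log
          · have : 0 < (n : ℝ) - r + 1 := by linarith
            positivity
          · have : (n : ℝ) - r + 1 ≤ n := by linarith
            gcongr
        have e2 : Real.log ((n : ℝ) * (2 / ε)) = L + Real.log (2 / ε) := by
          rw [Real.log_mul (by positivity) (by positivity), hL]
        rw [e2] at h6
        have h7 := le_abs_self (Real.log (2 / ε))
        have h8 := abs_nonneg (Real.log (2 * y))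
        linarith
      have h6 : Real.log 2 ≤ Real.log (1 + y) := Real.log_le_log (by norm_num) (by linarith)
      have hlog0 : 0 ≤ Real.log (((n : ℝ) - r + 1) * (2 / ε)) := by
        apply Real.log_nonneg
        rw [mul_div_assoc', le_div_iff₀ hε]
        linarith
      have h7 : α * κ / r * Real.log (((n : ℝ) - r + 1) * (2 / ε)) ≤ α * (24 * L ^ 2 / n) := by
        calc α * κ / r * Real.log (((n : ℝ) - r + 1) * (2 / ε)) ≤ α * (3 * L) / r * (2 * L) := by
              gcongr
          _ = α * (6 * L ^ 2 / r) := by ring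
          _ ≤ α * (6 * L ^ 2 / (n / 4)) := by
              gcongr
              linarith
          _ = α * (24 * L ^ 2 / n) := by ring
      have h8 : κ ≤ α * (6 * L ^ 2 / n) := by
        have h9 : (n : ℝ) / 2 ≤ α := by linarith
        calc κ ≤ 3 * L := hκ3
          _ ≤ 3 * L ^ 2 := by nlinarith
          _ = (n / 2) * (6 * L ^ 2 / n) := by field_simp; ring
          _ ≤ α * (6 * L ^ 2 / n) := by gcongr
      have h9 : 30 * L ^ 2 / n ≤ ε / 2 * Real.log 2 := by
        rw [div_le_iff₀ hn0]
        linarith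
      have h10 : κ + α * κ / r * Real.log (((n : ℝ) - r + 1) * (2 / ε)) ≤
          α * (ε / 2 * Real.log (1 + y)) := by
        calc κ + α * κ / r * Real.log (((n : ℝ) - r + 1) * (2 / ε)) ≤
              α * (6 * L ^ 2 / n) + α * (24 * L ^ 2 / n) := add_le_add h8 h7
          _ = α * (30 * L ^ 2 / n) := by ring
          _ ≤ α * (ε / 2 * Real.log (1 + y)) := by
              gcongr
              exact h9.trans (by gcongr)
      linarith
    · rw [hzero, Real.log_zero]
      exact hrhs
  · have hcard : (((range n).powersetCard r).card : ℝ) = α * ((n : ℝ) - r + 1) := by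
      rw [Finset.card_powersetCard, Finset.card_range, hV]
    rw [hcard, hκ, Real.exp_log (by positivity)]
    have e : α * ((n : ℝ) - r + 1) * r / α = ((n : ℝ) - r + 1) * r := by
      field_simp
    rw [e]
    have : ((n : ℝ) - r + 1) * r ≤ (n : ℝ) ^ 2 := by nlinarith
    nlinarith
  · have hcard : (((range n).powersetCard r).card : ℝ) = α * ((n : ℝ) - r + 1) := by
      rw [Finset.card_powersetCard, Finset.card_range, hV]
    rw [hcard]
    have h4 : 1 + ε / 2 ≤ (n : ℝ) - r + 1 := by linarith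
    calc (1 + ε / 2) * α ≤ ((n : ℝ) - r + 1) * α := by gcongr
      _ = α * ((n : ℝ) - r + 1) := by ring
  · intro A hA hne
    obtain ⟨B, hB, hB'⟩ := hDEG n r (by omega) hrn A hA hne
    refine ⟨B, hB, ?_⟩
    rw [hα]
    refine hB'.trans ?_
    have : (nbr r A B).card ≤ (A.filter (fun w => B ≠ w ∧ (B ∩ w).card + 1 = r)).card := by
      apply Finset.card_le_card
      intro w hw
      unfold nbr at hw
      obtain ⟨hwA, hw'⟩ := Finset.mem_filter.1 hw
      refine Finset.mem_filter.2 ⟨hwA, ?_, hw'⟩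
      rintro rfl
      have := (Finset.mem_powersetCard.1 (hA hB)).2
      rw [Finset.inter_self] at hw'
      omega
    exact_mod_cast this
  · intro I hI
    unfold stF at hI
    exact (Finset.mem_filter.1 hI).1
  · intro I hI u hu w hw h
    exact stab_not_adj hI hu hw h

end Pool.Agent.MAE
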