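import Pool.Agent.MAE.Stmts

set_option autoImplicit false

/-!
Squad MAE, module TRI: families fixed by a permutation with a cycle of length at least three.
-/

namespace Pool.Agent.MAE

open Pool.Agent.Helper3.MAS Finset

namespace TRI_

/-- relabelled sets stay in an invariant family -/
lemma pow_mem {σ : Equiv.Perm ℕ} {F : Finset (Finset ℕ)} (hF : rl σ F = F) (k : ℕ)
    (B : Finset ℕ) : B.image (σ ^ k : Equiv.Perm ℕ) ∈ F ↔ B ∈ F := by
  induction k generalizing B with
  | zero => simp
  | succ k ih =>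
    have e : B.image (σ ^ (k + 1) : Equiv.Perm ℕ) = (B.image (σ ^ k : Equiv.Perm ℕ)).image σ := by
      rw [Finset.image_image, pow_succ']
      rfl
    rw [e]
    nth_rewrite 1 [← hF]
    rw [mem_rl, ih]

/-- membership in the image under a power -/
lemma mem_pow {σ : Equiv.Perm ℕ} {B : Finset ℕ} {k : ℕ} {w : ℕ} :
    σ w ∈ B.image (σ ^ (k + 1) : Equiv.Perm ℕ) ↔ w ∈ B.image (σ ^ k : Equiv.Perm ℕ) := by
  constructor
  · intro h
    obtain ⟨u, hu, hw⟩ := Finset.mem_image.mp h
    rw [pow_succ'] at hw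
    exact Finset.mem_image.mpr ⟨u, hu, σ.injective hw⟩
  · intro h
    obtain ⟨u, hu, hw⟩ := Finset.mem_image.mp h
    refine Finset.mem_image.mpr ⟨u, hu, ?_⟩
    rw [pow_succ', ← hw]
    rfl

/-- if membership of `x` only grows along the orbit then it is constant -/
lemma const_of_mono (P : ℕ → Prop) (m : ℕ) (hm : 0 < m) (hper : ∀ k, P (k + m) ↔ P k)
    (hmono : ∀ k, P k → P (k + 1)) (k : ℕ) : P k ↔ P 0 := by
  have h1 : ∀ j k, P k → P (k + j) := by
    intro j
    induction j with
    | zero => intro k h; exact h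
    | succ j ih => intro k h; exact hmono _ (ih k h)
  have h2 : ∀ j, P (j * m) ↔ P 0 := by
    intro j
    induction j with
    | zero => simp
    | succ j ih => rw [Nat.succ_mul, hper, ih]
  constructor
  · intro h
    rw [← h2 k]
    have h3 : k ≤ k * m := Nat.le_mul_of_pos_right k hm
    have h4 := h1 (k * m - k) k h
    rwa [Nat.add_sub_cancel' h3] at h4
  · intro h
    have h4 := h1 k 0 h
    rwa [Nat.zero_add] at h4

lemma del_mem {F : Finset (Finset ℕ)} {x : ℕ} {B : Finset ℕ} (hB : B ∈ F) (h : x ∉ B) :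
    B ∈ del x F := Finset.mem_filter.mpr ⟨hB, h⟩

lemma con_mem {F : Finset (Finset ℕ)} {x : ℕ} {B : Finset ℕ} (hB : B ∈ F) (h : x ∈ B) :
    B.erase x ∈ con x F := Finset.mem_image.mpr ⟨B, Finset.mem_filter.mpr ⟨hB, h⟩, rfl⟩

lemma of_con {F : Finset (Finset ℕ)} {x : ℕ} {B : Finset ℕ} (h : B.erase x ∈ con x F)
    (hx : x ∈ B) : B ∈ F := by
  obtain ⟨C, hC, hCB⟩ := Finset.mem_image.mp h
  rw [Finset.mem_filter] at hC
  have : C = B := by
    rw [← Finset.insert_erase hC.2, ← Finset.insert_erase hx, hCB]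
  rw [← this]
  exact hC.1

lemma of_del {F : Finset (Finset ℕ)} {x : ℕ} {B : Finset ℕ} (h : B ∈ del x F) : B ∈ F :=
  (Finset.mem_filter.mp h).1

end TRI_

theorem tri_proof : Stmt_TRI := by
  classical
  intro K hK n S hS σ x y z hx hy hz hxy hyz hxz hσx hσy hper
  obtain ⟨m, hm, hσm⟩ := hper
  have hy' : y ∈ S.erase x := Finset.mem_erase.mpr ⟨hxy.symm, hy⟩
  have hz' : z ∈ (S.erase x).erase y :=
    Finset.mem_erase.mpr ⟨hyz.symm, Finset.mem_erase.mpr ⟨hxz.symm, hz⟩⟩
  have hc1 : ((S.erase x).erase y).card = n + 1 := by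
    rw [Finset.card_erase_of_mem hy', Finset.card_erase_of_mem hx, hS]
    omega
  have hc2 : (((S.erase x).erase y).erase z).card = n := by
    rw [Finset.card_erase_of_mem hz', hc1]
    omega
  rw [sq, ← cnt_eq_num hK hc1, ← cnt_eq_num hK hc2]
  unfold fx cnt
  rw [← Set.ncard_prod, ← Set.ncard_prod]
  apply Set.ncard_le_ncard_of_injOn
    (fun F => (con y (del x F), (del z (del y (del x F)), con z (con y (con x F))))) _ _
    ((fin_cls hK _).prod ((fin_cls hK _).prod (fin_cls hK _)))
  · rintro F ⟨hF, -⟩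
    exact ⟨hK.con hy' (hK.del hx hF), hK.del hz' (hK.del hy' (hK.del hx hF)),
      hK.con hz' (hK.con hy' (hK.con hx hF))⟩
  · have key : ∀ F F' : Finset (Finset ℕ), rl σ F = F → rl σ F' = F' →
        con y (del x F) = con y (del x F') →
        del z (del y (del x F)) = del z (del y (del x F')) →
        con z (con y (con x F)) = con z (con y (con x F')) → ∀ B ∈ F, B ∈ F' := by
      intro F F' hF hF' h1 h2 h3 B hB
      by_cases hk : ∃ k : ℕ, x ∉ B.image (σ ^ k : Equiv.Perm ℕ) ∧
          y ∈ B.image (σ ^ k : Equiv.Perm ℕ)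
      · obtain ⟨k, hxk, hyk⟩ := hk
        rw [← TRI_.pow_mem hF' k]
        have e1 := (TRI_.pow_mem hF k B).mpr hB
        have e2 := TRI_.con_mem (TRI_.del_mem e1 hxk) hyk
        rw [h1] at e2
        exact TRI_.of_del (TRI_.of_con e2 hyk)
      · push Not at hk
        have hone : ∀ C : Finset ℕ, C.image (σ ^ m : Equiv.Perm ℕ) = C := by
          intro C
          rw [hσm]
          simp
        have hperx : ∀ w k, w ∈ B.image (σ ^ (k + m) : Equiv.Perm ℕ) ↔
            w ∈ B.image (σ ^ k : Equiv.Perm ℕ) := by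
          intro w k
          rw [pow_add, hσm, mul_one]
        have hyx : ∀ k, y ∈ B.image (σ ^ (k + 1) : Equiv.Perm ℕ) ↔
            x ∈ B.image (σ ^ k : Equiv.Perm ℕ) := by
          intro k
          rw [← hσx]
          exact TRI_.mem_pow
        have hzy : ∀ k, z ∈ B.image (σ ^ (k + 1) : Equiv.Perm ℕ) ↔
            y ∈ B.image (σ ^ k : Equiv.Perm ℕ) := by
          intro k
          rw [← hσy]
          exact TRI_.mem_pow
        have hmono : ∀ k, x ∈ B.image (σ ^ k : Equiv.Perm ℕ) →
            x ∈ B.image (σ ^ (k + 1) : Equiv.Perm ℕ) := by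
          intro k h
          by_contra hcon
          exact hk (k + 1) hcon ((hyx k).mpr h)
        have hconst := TRI_.const_of_mono (fun k => x ∈ B.image (σ ^ k : Equiv.Perm ℕ)) m hm
          (fun k => hperx x k) hmono
        have h0 : B.image (σ ^ 0 : Equiv.Perm ℕ) = B := by simp
        have hyB : y ∈ B ↔ x ∈ B := by
          have e1 := hperx y 0
          rw [h0, Nat.zero_add] at e1
          have e2 := hyx (m - 1)
          rw [Nat.sub_add_cancel hm] at e2
          have e3 := hconst (m - 1)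
          simp only [h0] at e3
          rw [← e1, e2, e3]
        have hzB : z ∈ B ↔ x ∈ B := by
          have e0 := hperx z m
          have e1 := hperx z 0
          rw [h0, Nat.zero_add] at e1
          have e2 := hzy (m + m - 1)
          have e2' : m + m - 1 + 1 = m + m := by omega
          rw [e2'] at e2
          have e3 := hyx (m + m - 2)
          have e3' : m + m - 2 + 1 = m + m - 1 := by omega
          rw [e3'] at e3
          have e4 := hconst (m + m - 2)
          simp only [h0] at e4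
          rw [← e1, ← e0, e2, e3, e4]
        by_cases hxB : x ∈ B
        · have hyB' := hyB.mpr hxB
          have hzB' := hzB.mpr hxB
          have m1 : y ∈ B.erase x := Finset.mem_erase.mpr ⟨hxy.symm, hyB'⟩
          have m2 : z ∈ (B.erase x).erase y :=
            Finset.mem_erase.mpr ⟨hyz.symm, Finset.mem_erase.mpr ⟨hxz.symm, hzB'⟩⟩
          have e := TRI_.con_mem (TRI_.con_mem (TRI_.con_mem hB hxB) m1) m2
          rw [h3] at e
          exact TRI_.of_con (TRI_.of_con (TRI_.of_con e m2) m1) hxB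
        · have hyB' : y ∉ B := fun h => hxB (hyB.mp h)
          have hzB' : z ∉ B := fun h => hxB (hzB.mp h)
          have e := TRI_.del_mem (TRI_.del_mem (TRI_.del_mem hB hxB) hyB') hzB'
          rw [h2] at e
          exact TRI_.of_del (TRI_.of_del (TRI_.of_del e))
    rintro F ⟨-, hF⟩ F' ⟨-, hF'⟩ h
    simp only [Prod.mk.injEq] at h
    ext B
    exact ⟨key F F' hF hF' h.1 h.2.1 h.2.2 B,
      key F' F hF' hF h.1.symm h.2.1.symm h.2.2.symm B⟩

end Pool.Agent.MAE
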