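import Pool.Agent.MAE.Asm3
import Pool.Agent.MAE.EQC
import Pool.Agent.MAE.PMC
import Pool.Agent.MAE.KNP
import Pool.Agent.MAE.KNU
import Pool.Agent.MAE.TRI
import Pool.Agent.MAE.PEL
import Pool.Agent.MAE.CLO
import Pool.Agent.MAE.DUA
import Pool.Agent.MAE.DEG
import Pool.Agent.MAE.KWG
import Pool.Agent.MAE.STW
import Pool.Agent.MAE.BIG
import Pool.Agent.MAE.SBS
import Pool.Agent.MAE.PAD
import Pool.Agent.MAE.PBL
import Pool.Agent.MAE.PTS
import Pool.Agent.MAE.SUM
import Pool.Agent.MAE.AVG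
import Pool.Agent.MAE.AVC
import Pool.Agent.MAE.SEL
import Pool.Agent.MAE.RLS
import Pool.Agent.MAE.GSC
import Pool.Agent.MAE.GLS
import Pool.Agent.MAE.GLU
import Pool.Agent.MAE.CCR
import Pool.Agent.MAE.CCI
import Pool.Agent.MAE.EXT
import Pool.Agent.MAE.INV
import Pool.Agent.MAE.GEN
import Pool.Agent.MAE.PUP

/-!
All modules together.
-/

set_option autoImplicit false

namespace Pool.Agent.MAE

open Pool.Agent.Helper3.MAS Finset Filter Topology

theorem stw : Stmt_STW := stw_proof deg_proof kwg_proof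
theorem big : Stmt_BIG := big_proof stw
theorem clo : Stmt_CLO := clo_proof eqc_proof
theorem pbl : Stmt_PBL := pbl_proof pad_proof
theorem pts : Stmt_PTS := pts_proof pbl
theorem sum' : Stmt_SUM := sum_proof eqc_proof
theorem sel : Stmt_SEL := sel_proof avg_proof avc_proof
theorem glu : Stmt_GLU := glu_proof sel gsc_proof gls_proof rls_proof
theorem inv' : Stmt_INV := inv_proof pel_proof clo ccr_proof cci_proof
theorem gen : Stmt_GEN := gen_proof tri_proof pel_proof clo inv' ccr_proof cci_proof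
theorem pup : Stmt_PUP := pup_proof knu_proof pts dua_proof sum' sbs_proof ext_proof cci_proof

theorem pav_pairs : ∀ ε : ℝ, 0 < ε → ∃ n₀ : ℕ, ∀ n ≥ n₀,
    (∑ σ ∈ (univ : Finset (Equiv.Perm (Fin n))).erase 1, (fx PavK (exm σ) (range n) : ℝ)) ≤
      ε * num PavK n :=
  Asm.pav_pairs pmc_proof knp_proof knu_proof stw pup big glu sbs_proof ccr_proof cci_proof gen

end Pool.Agent.MAE
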