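import Pool.Agent.MAE.Stmts2

/-!
Squad MAE, module PUE.
-/

set_option autoImplicit false

namespace Pool.Agent.MAE

open Pool.Agent.Helper3.MAS Finset

namespace PUE_

theorem allF_card_le (n r : ℕ) : (allF n r).card ≤ 2 ^ (n.choose r) := by
  classical
  unfold allF
  refine (Finset.card_filter_le _ _).trans ?_
  rw [Finset.card_powerset, Finset.card_powersetCard, Finset.card_range]

theorem cc_eq (n : ℕ) (hn : 1 ≤ n) : (n.choose (n / 2) : ℝ) = n * (cc n / Real.log 2) := by
  unfold cc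
  have h2 : Real.log 2 ≠ 0 := (Real.log_pos (by norm_num)).ne'
  have hn' : (n : ℝ) ≠ 0 := by positivity
  field_simp

theorem cc_nonneg (n : ℕ) : 0 ≤ cc n := by
  unfold cc
  have h2 : 0 < Real.log 2 := Real.log_pos (by norm_num)
  positivity

theorem two_pow_le (n : ℕ) (hn : 1 ≤ n) :
    (2 : ℝ) ^ n ≤ (n + 1) * (n * (cc n / Real.log 2)) := by
  have h1 : 2 ^ n ≤ (n + 1) * n.choose (n / 2) := by
    rw [← Nat.sum_range_choose n]
    have := Finset.sum_le_card_nsmul (range (n + 1)) (fun r => n.choose r) (n.choose (n / 2))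
      (fun r _ => Nat.choose_le_middle r n)
    rwa [Finset.card_range, nsmul_eq_mul, Nat.cast_id] at this
  have h2 : ((2 ^ n : ℕ) : ℝ) ≤ (((n + 1) * n.choose (n / 2) : ℕ) : ℝ) := by exact_mod_cast h1
  push_cast at h2
  rwa [cc_eq n hn] at h2

/-- elementary bound for `sbs` -/
theorem sbs_le (hSBS : Stmt_SBS) (n N q : ℕ) (hn : 2 ≤ n) (hN : (N : ℝ) ≤ 2 ^ n) :
    ((sbs N q : ℕ) : ℝ) ≤
      Real.exp (4 * q * Real.log n + 2 / n ^ 2 * (cc n / Real.log 2)) := by
  have hn1 : (1 : ℝ) ≤ n := by exact_mod_cast (by omega : 1 ≤ n)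
  have hnpos : (0 : ℝ) < n := by linarith
  have hs := hSBS N q ((n : ℝ) ^ 4) (one_le_pow₀ hn1)
  have hl2 : 0 < Real.log 2 := Real.log_pos (by norm_num)
  have hD : 0 ≤ cc n / Real.log 2 := div_nonneg (cc_nonneg n) hl2.le
  refine hs.trans ?_
  have e1 : ((n : ℝ) ^ 4) ^ q = Real.exp (4 * q * Real.log n) := by
    rw [← pow_mul, ← Real.rpow_natCast, Real.rpow_def_of_pos hnpos]
    congr 1
    push_cast
    ring
  rw [e1, ← Real.exp_add]
  apply Real.exp_le_exp.mpr
  have e2 : (N : ℝ) / (n : ℝ) ^ 4 ≤ 2 / n ^ 2 * (cc n / Real.log 2) := by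
    rw [div_le_iff₀ (by positivity)]
    calc (N : ℝ) ≤ 2 ^ n := hN
      _ ≤ (n + 1) * (n * (cc n / Real.log 2)) := two_pow_le n (by omega)
      _ ≤ (2 * n) * (n * (cc n / Real.log 2)) := by
          apply mul_le_mul_of_nonneg_right _ (by positivity)
          linarith
      _ = 2 / n ^ 2 * (cc n / Real.log 2) * (n : ℝ) ^ 4 := by field_simp
  linarith

theorem al_pos (n r : ℕ) (h1 : 1 ≤ r) (h2 : r ≤ n) : 0 < al n r := by
  unfold al
  have : 0 < n.choose (r - 1) := Nat.choose_pos (by omega)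
  have hr : (0 : ℝ) < r := by exact_mod_cast h1
  have : (0 : ℝ) < (n.choose (r - 1) : ℝ) := by exact_mod_cast this
  positivity

theorem ratio (n r : ℕ) (h1 : 1 ≤ r) (h2 : r ≤ n) :
    (n.choose r : ℝ) / al n r = (n : ℝ) - r + 1 := by
  have h := Nat.choose_succ_right_eq n (r - 1)
  have e : r - 1 + 1 = r := by omega
  rw [e] at h
  have h' : (n.choose r : ℝ) * r = (n.choose (r - 1) : ℝ) * ((n : ℝ) - r + 1) := by
    have h3 : ((n.choose r * r : ℕ) : ℝ) = ((n.choose (r - 1) * (n - (r - 1)) : ℕ) : ℝ) := by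
      exact_mod_cast h
    push_cast at h3
    rw [Nat.cast_sub (by omega), Nat.cast_sub (by omega)] at h3
    rw [h3]
    push_cast
    ring
  have hr : (0 : ℝ) < r := by exact_mod_cast h1
  have hp := al_pos n r h1 h2
  rw [div_eq_iff hp.ne']
  unfold al
  field_simp
  linarith

/-- the middle ranks -/
theorem mid (hENC : Stmt_ENC) (hDUA : Stmt_DUA) (hSBS : Stmt_SBS) (n : ℕ) (hn : 16 ≤ n)
    (M : ℕ) (hM : ∀ r, n ≤ 4 * r → 2 * r ≤ n → (stF n r).card ≤ M)
    (r : ℕ) (h1 : n + 4 ≤ 4 * r) (h2 : 4 * r + 4 ≤ 3 * n) :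
    ((allF n r).card : ℝ) ≤ M * Real.exp (
      (512 * (Real.log n ^ 2 / n) + 256 * (Real.log n / Real.sqrt n) + 8 / n ^ 2) *
        (cc n / Real.log 2) + 32 * Real.log n +
        2 * (Real.exp 1 * (n : ℝ) ^ (Nat.sqrt n + 1))) := by
  have hr1 : 1 ≤ r := by omega
  have hrn : r ≤ n := by omega
  have hst : (stF n r).card ≤ M := by
    by_cases h : 2 * r ≤ n
    · exact hM r (by omega) h
    · rw [hDUA n r hrn]
      exact hM (n - r) (by omega) (by omega)
  have hn16 : (16 : ℝ) ≤ n := by exact_mod_cast hn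
  have hnpos : (0 : ℝ) < n := by linarith
  have hn1 : (1 : ℝ) ≤ n := by linarith
  have hl2 : 0 < Real.log 2 := Real.log_pos (by norm_num)
  have hlogn : 0 ≤ Real.log n := Real.log_nonneg hn1
  set D : ℝ := cc n / Real.log 2 with hDdef
  have hD : 0 ≤ D := div_nonneg (cc_nonneg n) hl2.le
  set Δ : ℕ := Nat.sqrt n with hΔ
  have hΔ1 : 1 ≤ Δ := by
    have : Nat.sqrt 1 ≤ Nat.sqrt n := Nat.sqrt_le_sqrt (by omega)
    simpa using this
  have hΔr : (1 : ℝ) ≤ Δ := by exact_mod_cast hΔ1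
  have hΔs : Real.sqrt n ≤ 2 * Δ := by
    have h3 : n < (Δ + 1) ^ 2 := Nat.lt_succ_sqrt' n
    have h4 : (n : ℝ) < ((Δ : ℝ) + 1) ^ 2 := by exact_mod_cast h3
    have h5 : Real.sqrt n ≤ (Δ : ℝ) + 1 := by
      rw [Real.sqrt_le_left (by positivity)]
      exact h4.le
    linarith
  have hsn : 0 < Real.sqrt n := Real.sqrt_pos.2 hnpos
  -- al
  have hal := al_pos n r hr1 hrn
  have hrr : (n : ℝ) + 4 ≤ 4 * r := by exact_mod_cast h1
  have hrpos : (0 : ℝ) < r := by exact_mod_cast hr1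
  have hal4 : al n r ≤ 4 * D := by
    unfold al
    rw [div_le_iff₀ hrpos]
    have h3 : (n.choose (r - 1) : ℝ) ≤ n * D := by
      rw [← cc_eq n (by omega)]
      exact_mod_cast Nat.choose_le_middle _ _
    calc (n.choose (r - 1) : ℝ) ≤ n * D := h3
      _ ≤ (4 * r) * D := mul_le_mul_of_nonneg_right (by linarith) hD
      _ = 4 * D * r := by ring
  have hlog1 : Real.log (1 + (n.choose r : ℝ) / al n r) ≤ 2 * Real.log n := by
    rw [ratio n r hr1 hrn]
    have hr1' : (1 : ℝ) ≤ r := by exact_mod_cast hr1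
    have hrn' : (r : ℝ) ≤ n := by exact_mod_cast hrn
    have e : 2 * Real.log n = Real.log ((n : ℝ) ^ 2) := by
      rw [Real.log_pow]; norm_num
    rw [e]
    apply Real.log_le_log (by linarith)
    nlinarith
  have hlog0 : 0 ≤ Real.log (1 + (n.choose r : ℝ) / al n r) := by
    apply Real.log_nonneg
    have : 0 ≤ (n.choose r : ℝ) / al n r := by positivity
    linarith
  set B : ℝ := al n r / r * Real.log (1 + (n.choose r : ℝ) / al n r) + 1 + 2 * al n r / Δ with hB
  have hB0 : 0 ≤ B := by positivity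
  have hBle : B ≤ 32 * D * (Real.log n / n) + 1 + 16 * D / Real.sqrt n := by
    have h3 : al n r / r ≤ 16 * D / n := by
      rw [div_le_div_iff₀ hrpos hnpos]
      calc al n r * n ≤ (4 * D) * (4 * r) := by
            apply mul_le_mul hal4 (by linarith) hnpos.le (by positivity)
        _ = 16 * D * r := by ring
    have h4 : al n r / r * Real.log (1 + (n.choose r : ℝ) / al n r) ≤
        (16 * D / n) * (2 * Real.log n) :=
      mul_le_mul h3 hlog1 hlog0 (by positivity)
    have h5 : 2 * al n r / Δ ≤ 16 * D / Real.sqrt n := by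
      rw [div_le_div_iff₀ (by positivity) hsn]
      calc 2 * al n r * Real.sqrt n ≤ 2 * (4 * D) * (2 * Δ) := by
            apply mul_le_mul _ hΔs hsn.le (by positivity)
            linarith
        _ = 16 * D * Δ := by ring
    calc B ≤ (16 * D / n) * (2 * Real.log n) + 1 + 16 * D / Real.sqrt n := by
          rw [hB]; linarith
      _ = _ := by ring
  set q : ℕ := ⌈B⌉₊ with hq
  have hqB : B ≤ q := Nat.le_ceil B
  have hq1 : (q : ℝ) ≤ B + 1 := (Nat.ceil_lt_add_one hB0).le
  have hE := hENC n r Δ q hr1 hrn hΔ1 hqB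
  have hN1 : ((n.choose r : ℕ) : ℝ) ≤ 2 ^ n := by
    have : n.choose r ≤ 2 ^ n := Nat.choose_le_two_pow _ _
    exact_mod_cast this
  have hs1 := sbs_le hSBS n (n.choose r) q (by omega) hN1
  have hs2 := sbs_le hSBS n (2 ^ n) q (by omega) (by push_cast; exact le_refl _)
  set E : ℝ := 4 * q * Real.log n + 2 / n ^ 2 * D with hEdef
  have hs3 : ((sbs n (Δ + 1) : ℕ) : ℝ) ≤ Real.exp 1 * (n : ℝ) ^ (Δ + 1) := by
    have := hSBS n (Δ + 1) n hn1
    rw [div_self hnpos.ne'] at this
    linarith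
  have hp2 : ((2 ^ (2 * sbs n (Δ + 1)) : ℕ) : ℝ) ≤
      Real.exp (2 * (Real.exp 1 * (n : ℝ) ^ (Δ + 1))) := by
    push_cast
    rw [← Real.rpow_natCast, Real.rpow_def_of_pos (by norm_num)]
    apply Real.exp_le_exp.mpr
    have hl1 : Real.log 2 ≤ 1 := by
      have := Real.log_two_lt_d9; linarith
    push_cast
    calc Real.log 2 * (2 * ((sbs n (Δ + 1) : ℕ) : ℝ)) ≤ 1 * (2 * ((sbs n (Δ + 1) : ℕ) : ℝ)) :=
          mul_le_mul_of_nonneg_right hl1 (by positivity)
      _ ≤ 2 * (Real.exp 1 * (n : ℝ) ^ (Δ + 1)) := by linarith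
  have hexp : 4 * E + 2 * (Real.exp 1 * (n : ℝ) ^ (Δ + 1)) ≤
      (512 * (Real.log n ^ 2 / n) + 256 * (Real.log n / Real.sqrt n) + 8 / n ^ 2) *
        D + 32 * Real.log n + 2 * (Real.exp 1 * (n : ℝ) ^ (Δ + 1)) := by
    have h3 : (q : ℝ) ≤ 32 * D * (Real.log n / n) + 2 + 16 * D / Real.sqrt n := by linarith
    have h4 : 4 * (q : ℝ) * Real.log n ≤
        4 * (32 * D * (Real.log n / n) + 2 + 16 * D / Real.sqrt n) * Real.log n := by
      gcongr
    have h5 : 4 * E ≤ 4 * (4 * (32 * D * (Real.log n / n) + 2 + 16 * D / Real.sqrt n) *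
        Real.log n + 2 / n ^ 2 * D) := by
      rw [hEdef]; linarith
    have h6 : 4 * (4 * (32 * D * (Real.log n / n) + 2 + 16 * D / Real.sqrt n) *
        Real.log n + 2 / n ^ 2 * D) = (512 * (Real.log n ^ 2 / n) +
        256 * (Real.log n / Real.sqrt n) + 8 / n ^ 2) * D + 32 * Real.log n := by ring
    linarith
  calc ((allF n r).card : ℝ) ≤ ((2 ^ (2 * sbs n (Δ + 1)) * (sbs (n.choose r) q) ^ 2 *
        (sbs (2 ^ n) q) ^ 2 * (stF n r).card : ℕ) : ℝ) := by exact_mod_cast hE
    _ = ((2 ^ (2 * sbs n (Δ + 1)) : ℕ) : ℝ) * ((sbs (n.choose r) q : ℕ) : ℝ) ^ 2 *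
        ((sbs (2 ^ n) q : ℕ) : ℝ) ^ 2 * ((stF n r).card : ℝ) := by push_cast; ring
    _ ≤ Real.exp (2 * (Real.exp 1 * (n : ℝ) ^ (Δ + 1))) * Real.exp E ^ 2 * Real.exp E ^ 2 *
        (M : ℝ) := by
        have hM' : ((stF n r).card : ℝ) ≤ M := by exact_mod_cast hst
        gcongr
    _ = M * Real.exp (4 * E + 2 * (Real.exp 1 * (n : ℝ) ^ (Δ + 1))) := by
        rw [← Real.exp_nat_mul, ← Real.exp_add, ← Real.exp_add, mul_comm]
        congr 2
        push_cast
        ring
    _ ≤ _ := by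
        apply mul_le_mul_of_nonneg_left _ (by positivity)
        exact Real.exp_le_exp.mpr hexp

/-- the asymptotics -/
theorem asym (hCCI : Stmt_CCI) (ε : ℝ) (hε : 0 < ε) : ∃ n₀ : ℕ, ∀ n ≥ n₀,
    (512 * (Real.log n ^ 2 / n) + 256 * (Real.log n / Real.sqrt n) + 8 / (n : ℝ) ^ 2) *
        (cc n / Real.log 2) + 32 * Real.log n +
        2 * (Real.exp 1 * (n : ℝ) ^ (Nat.sqrt n + 1)) ≤ ε * cc n := by
  have hl2 : 0 < Real.log 2 := Real.log_pos (by norm_num)
  have t1 : Filter.Tendsto (fun x : ℝ => Real.log x ^ 2 / x) Filter.atTop (nhds 0) := by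
    simpa using Real.tendsto_pow_log_div_mul_add_atTop 1 0 2 one_ne_zero
  have t1' : Filter.Tendsto (fun n : ℕ => Real.log (n : ℝ) ^ 2 / (n : ℝ)) Filter.atTop (nhds 0) :=
    t1.comp tendsto_natCast_atTop_atTop
  have t2 : Filter.Tendsto (fun n : ℕ => Real.log (n : ℝ) / Real.sqrt n) Filter.atTop
      (nhds 0) := by
    have h1 := (Real.continuous_sqrt.tendsto 0).comp t1'
    rw [Real.sqrt_zero] at h1
    refine h1.congr' ?_
    filter_upwards [Filter.eventually_ge_atTop 1] with n hn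
    have hn1 : (1 : ℝ) ≤ n := by exact_mod_cast hn
    simp only [Function.comp_apply]
    rw [Real.sqrt_div' _ (by positivity), Real.sqrt_sq (Real.log_nonneg hn1)]
  have t3 : Filter.Tendsto (fun n : ℕ => 1 / (n : ℝ) ^ 2) Filter.atTop (nhds 0) := by
    have := tendsto_one_div_atTop_nhds_zero_nat (𝕜 := ℝ)
    have h2 := this.mul this
    simp only [mul_zero] at h2
    refine h2.congr (fun n => ?_)
    rw [pow_two]
    rw [one_div_mul_one_div]
  have t4 : Filter.Tendsto (fun n : ℕ =>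
      (512 * (Real.log n ^ 2 / n) + 256 * (Real.log n / Real.sqrt n) + 8 / (n : ℝ) ^ 2) /
        Real.log 2) Filter.atTop (nhds 0) := by
    have h := (((t1'.const_mul 512).add (t2.const_mul 256)).add (t3.const_mul 8)).div_const
      (Real.log 2)
    simp only [mul_zero, add_zero, zero_div] at h
    refine h.congr (fun n => ?_)
    ring
  obtain ⟨m1, hm1⟩ := Filter.eventually_atTop.mp
    (t4.eventually (gt_mem_nhds (show (0 : ℝ) < ε / 3 by positivity)))
  obtain ⟨m2, hm2⟩ := hCCI (ε / 96) (by positivity)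
  -- exponent of the last term
  have hs2 : 0 < Real.log (Real.sqrt 2) := by
    apply Real.log_pos
    rw [Real.lt_sqrt (by norm_num)]
    norm_num
  obtain ⟨m3, hm3⟩ := Filter.eventually_atTop.mp
    (t2.eventually (gt_mem_nhds (show (0 : ℝ) < Real.log (Real.sqrt 2) / 2 by positivity)))
  have hsq1 : 1 < Real.sqrt 2 := by
    rw [Real.lt_sqrt (by norm_num)]
    norm_num
  have t5 := tendsto_pow_const_div_const_pow_of_one_lt 2 hsq1
  obtain ⟨m4, hm4⟩ := Filter.eventually_atTop.mp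
    (t5.eventually (gt_mem_nhds (show (0 : ℝ) < ε / (24 * Real.exp 1) by positivity)))
  refine ⟨max (max m1 m2) (max (max m3 m4) 2), fun n hn => ?_⟩
  have k1 : m1 ≤ n := le_trans (le_trans (le_max_left _ _) (le_max_left _ _)) hn
  have k2 : m2 ≤ n := le_trans (le_trans (le_max_right _ _) (le_max_left _ _)) hn
  have k34 : max m3 m4 ≤ n := le_trans (le_trans (le_max_left _ _) (le_max_right _ _)) hn
  have k3 : m3 ≤ n := le_trans (le_max_left _ _) k34
  have k4 : m4 ≤ n := le_trans (le_max_right _ _) k34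
  have k5 : 2 ≤ n := le_trans (le_trans (le_max_right _ _) (le_max_right _ _)) hn
  have hn2 : (2 : ℝ) ≤ n := by exact_mod_cast k5
  have hnpos : (0 : ℝ) < n := by linarith
  have hc := cc_nonneg n
  have a1 : (512 * (Real.log n ^ 2 / n) + 256 * (Real.log n / Real.sqrt n) + 8 / (n : ℝ) ^ 2) *
        (cc n / Real.log 2) ≤ ε / 3 * cc n := by
    calc _ = (512 * (Real.log n ^ 2 / n) + 256 * (Real.log n / Real.sqrt n) +
          8 / (n : ℝ) ^ 2) / Real.log 2 * cc n := by ring
      _ ≤ ε / 3 * cc n := mul_le_mul_of_nonneg_right (hm1 n k1).le hc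
  have a2 : 32 * Real.log n ≤ ε / 3 * cc n := by
    have h1 := hm2 n k2
    have h2 : Real.log n ≤ n - 1 := Real.log_le_sub_one_of_pos hnpos
    have h3 : (n : ℝ) ≤ (n : ℝ) ^ 3 := by nlinarith [sq_nonneg (n : ℝ), mul_pos hnpos hnpos]
    nlinarith
  have a3 : 2 * (Real.exp 1 * (n : ℝ) ^ (Nat.sqrt n + 1)) ≤ ε / 3 * cc n := by
    -- n ^ (sqrt n + 1) ≤ (sqrt 2) ^ n
    have hsn : 0 < Real.sqrt n := Real.sqrt_pos.2 hnpos
    have hsn1 : 1 ≤ Real.sqrt n := by
      rw [Real.one_le_sqrt]; linarith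
    have hΔ : ((Nat.sqrt n : ℕ) : ℝ) ≤ Real.sqrt n := Real.nat_sqrt_le_real_sqrt
    have hlog : 0 ≤ Real.log n := Real.log_nonneg (by linarith)
    have b1 : (n : ℝ) ^ (Nat.sqrt n + 1) ≤ Real.sqrt 2 ^ n := by
      have e1 : (n : ℝ) ^ (Nat.sqrt n + 1) =
          Real.exp (Real.log n * ((Nat.sqrt n + 1 : ℕ) : ℝ)) := by
        rw [← Real.rpow_natCast, Real.rpow_def_of_pos hnpos]
      have e2 : Real.sqrt 2 ^ n = Real.exp (Real.log (Real.sqrt 2) * n) := by
        rw [← Real.rpow_natCast, Real.rpow_def_of_pos (by positivity)]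
      rw [e1, e2]
      apply Real.exp_le_exp.mpr
      have h3 := (hm3 n k3).le
      rw [div_le_iff₀ hsn] at h3
      push_cast
      calc Real.log n * (((Nat.sqrt n : ℕ) : ℝ) + 1)
          ≤ Real.log n * (Real.sqrt n + Real.sqrt n) := by
            apply mul_le_mul_of_nonneg_left _ hlog
            linarith
        _ ≤ (Real.log (Real.sqrt 2) / 2 * Real.sqrt n) * (Real.sqrt n + Real.sqrt n) := by
            apply mul_le_mul_of_nonneg_right h3 (by positivity)
        _ = Real.log (Real.sqrt 2) * (Real.sqrt n * Real.sqrt n) := by ring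
        _ = Real.log (Real.sqrt 2) * n := by rw [Real.mul_self_sqrt hnpos.le]
    have h4 := (hm4 n k4).le
    have hpp : 0 < Real.sqrt 2 ^ n := by positivity
    rw [div_le_iff₀ hpp] at h4
    have h5 := two_pow_le n (by omega)
    have e3 : (2 : ℝ) ^ n = Real.sqrt 2 ^ n * Real.sqrt 2 ^ n := by
      rw [← mul_pow, Real.mul_self_sqrt (by norm_num)]
    -- cc n ≥ log 2 * 2^n / (n (n+1)) ≥ 2^n / (4 n^2)
    have h6 : (2 : ℝ) ^ n ≤ 4 * (n : ℝ) ^ 2 * cc n := by
      have hl2' : 1 / 2 ≤ Real.log 2 := by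
        have := Real.log_two_gt_d9; linarith
      have h7 : cc n / Real.log 2 ≤ 2 * cc n := by
        rw [div_le_iff₀ hl2]
        nlinarith
      calc (2 : ℝ) ^ n ≤ (n + 1) * (n * (cc n / Real.log 2)) := h5
        _ ≤ (2 * n) * (n * (2 * cc n)) := by
            apply mul_le_mul (by linarith) _ (by positivity) (by positivity)
            exact mul_le_mul_of_nonneg_left h7 hnpos.le
        _ = 4 * (n : ℝ) ^ 2 * cc n := by ring
    have he : 0 < Real.exp 1 := Real.exp_pos 1
    -- combine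
    have h8 : Real.sqrt 2 ^ n * Real.sqrt 2 ^ n ≤
        4 * (ε / (24 * Real.exp 1) * Real.sqrt 2 ^ n) * cc n := by
      rw [← e3]
      refine h6.trans ?_
      apply mul_le_mul_of_nonneg_right _ hc
      linarith
    have h9 : Real.sqrt 2 ^ n ≤ 4 * (ε / (24 * Real.exp 1)) * cc n := by
      have h10 : Real.sqrt 2 ^ n * Real.sqrt 2 ^ n ≤
          (4 * (ε / (24 * Real.exp 1)) * cc n) * Real.sqrt 2 ^ n := by
        calc _ ≤ 4 * (ε / (24 * Real.exp 1) * Real.sqrt 2 ^ n) * cc n := h8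
          _ = _ := by ring
      exact le_of_mul_le_mul_right h10 hpp
    calc 2 * (Real.exp 1 * (n : ℝ) ^ (Nat.sqrt n + 1))
        ≤ 2 * (Real.exp 1 * (4 * (ε / (24 * Real.exp 1)) * cc n)) := by
          apply mul_le_mul_of_nonneg_left _ (by norm_num)
          exact mul_le_mul_of_nonneg_left (b1.trans h9) he.le
      _ = ε / 3 * cc n := by field_simp; ring
  linarith

theorem stF_pos (n r : ℕ) : 0 < (stF n r).card := by
  rw [Finset.card_pos]
  refine ⟨∅, ?_⟩
  classical
  unfold stF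
  rw [mem_filter]
  refine ⟨Finset.mem_powerset.mpr (Finset.empty_subset _), Finset.empty_subset _, ?_⟩
  intro B hB
  exact absurd hB (Finset.notMem_empty _)

end PUE_

open PUE_ in
theorem pue_proof (hKNU : Stmt_KNU) (hENC : Stmt_ENC) (hDUA : Stmt_DUA) (hSUA : Stmt_SUA)
    (hSBS : Stmt_SBS) (hEXT : Stmt_EXT) (hCCI : Stmt_CCI) : Stmt_PUE := by
  intro ε hε
  have hl2 : 0 < Real.log 2 := Real.log_pos (by norm_num)
  obtain ⟨n1, hn1⟩ := hEXT (ε / 2) (by positivity)
  obtain ⟨n2, hn2⟩ := hCCI (ε / 2) (by positivity)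
  obtain ⟨n3, hn3⟩ := asym hCCI (ε / 2) (by positivity)
  refine ⟨max (max n1 n2) (max n3 16), fun n hn => ?_⟩
  have hnn1 : n1 ≤ n := le_trans (le_trans (le_max_left _ _) (le_max_left _ _)) hn
  have hnn2 : n2 ≤ n := le_trans (le_trans (le_max_right _ _) (le_max_left _ _)) hn
  have hnn3 : n3 ≤ n := le_trans (le_trans (le_max_left _ _) (le_max_right _ _)) hn
  have hn16 : 16 ≤ n := le_trans (le_trans (le_max_right _ _) (le_max_right _ _)) hn
  have hccn : 0 ≤ cc n := cc_nonneg n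
  -- the maximiser
  set R : Finset ℕ := (range (n + 1)).filter (fun r => n ≤ 4 * r ∧ 2 * r ≤ n) with hR
  have hRne : R.Nonempty := ⟨n / 2, by
    rw [hR, mem_filter, mem_range]
    refine ⟨by omega, by omega, by omega⟩⟩
  obtain ⟨r0, hr0, hmax⟩ := Finset.exists_max_image R (fun r => (stF n r).card) hRne
  rw [hR, mem_filter, mem_range] at hr0
  obtain ⟨-, hr1, hr2⟩ := hr0
  have hM : ∀ r, n ≤ 4 * r → 2 * r ≤ n → (stF n r).card ≤ (stF n r0).card := by
    intro r h1 h2
    exact hmax r (by rw [hR, mem_filter, mem_range]; exact ⟨by omega, h1, h2⟩)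
  set M : ℕ := (stF n r0).card with hMdef
  have hMpos : 0 < M := stF_pos n r0
  have hMr : (1 : ℝ) ≤ M := by exact_mod_cast hMpos
  have hcc : cc n ≤ Real.log M := by
    refine (hKNU n (by omega)).trans ?_
    apply Real.log_le_log
    · exact_mod_cast stF_pos n (n / 2)
    · exact_mod_cast hM (n / 2) (by omega) (by omega)
  refine ⟨r0, hr1, hr2, hcc, ?_⟩
  -- bound for each rank
  have hrank : ∀ r ∈ range (n + 1), ((allF n r).card : ℝ) ≤ M * Real.exp (ε / 2 * cc n) := by
    intro r _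
    by_cases h : n + 4 ≤ 4 * r ∧ 4 * r + 4 ≤ 3 * n
    · refine (mid hENC hDUA hSBS n hn16 M hM r h.1 h.2).trans ?_
      apply mul_le_mul_of_nonneg_left _ (by positivity)
      apply Real.exp_le_exp.mpr
      exact hn3 n hnn3
    · have h' : 4 * r < n + 4 ∨ 3 * n < 4 * r + 4 := by
        by_contra hcon
        push Not at hcon
        exact h ⟨by omega, by omega⟩
      have hE := hn1 n hnn1 r h'
      have hnr : (1 : ℝ) ≤ (n : ℝ) ^ 2 := by
        have : (1 : ℝ) ≤ n := by exact_mod_cast (by omega : 1 ≤ n)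
        nlinarith
      have h5 : (n.choose r : ℝ) ≤ ε / 2 * cc n := by
        refine le_trans ?_ hE
        exact le_mul_of_one_le_right (by positivity) hnr
      calc ((allF n r).card : ℝ) ≤ ((2 ^ (n.choose r) : ℕ) : ℝ) := by
            exact_mod_cast allF_card_le n r
        _ = Real.exp (n.choose r * Real.log 2) := by
            push_cast
            rw [← Real.rpow_natCast, Real.rpow_def_of_pos (by norm_num)]
            ring_nf
        _ ≤ Real.exp (ε / 2 * cc n) := by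
            apply Real.exp_le_exp.mpr
            have hl1 : Real.log 2 ≤ 1 := by
              have := Real.log_two_lt_d9; linarith
            calc (n.choose r : ℝ) * Real.log 2 ≤ (n.choose r : ℝ) * 1 :=
                  mul_le_mul_of_nonneg_left hl1 (by positivity)
              _ ≤ ε / 2 * cc n := by rw [mul_one]; exact h5
        _ ≤ M * Real.exp (ε / 2 * cc n) :=
            le_mul_of_one_le_left (Real.exp_pos _).le hMr
  have hnum : (num ExK n : ℝ) ≤ (n + 2) * (M * Real.exp (ε / 2 * cc n)) := by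
    have h1 : (num ExK n : ℝ) ≤ 1 + ∑ r ∈ range (n + 1), ((allF n r).card : ℝ) := by
      exact_mod_cast hSUA n
    have h2 : ∑ r ∈ range (n + 1), ((allF n r).card : ℝ) ≤
        (n + 1) * (M * Real.exp (ε / 2 * cc n)) := by
      have := Finset.sum_le_card_nsmul (range (n + 1)) (fun r => ((allF n r).card : ℝ)) _ hrank
      rw [Finset.card_range, nsmul_eq_mul] at this
      push_cast at this
      exact this
    have h3 : (1 : ℝ) ≤ M * Real.exp (ε / 2 * cc n) := by
      have : (1 : ℝ) ≤ Real.exp (ε / 2 * cc n) := Real.one_le_exp (by positivity)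
      nlinarith
    calc (num ExK n : ℝ) ≤ 1 + ∑ r ∈ range (n + 1), ((allF n r).card : ℝ) := h1
      _ ≤ M * Real.exp (ε / 2 * cc n) + (n + 1) * (M * Real.exp (ε / 2 * cc n)) := add_le_add h3 h2
      _ = (n + 2) * (M * Real.exp (ε / 2 * cc n)) := by ring
  rcases Nat.eq_zero_or_pos (num ExK n) with h0 | hpos
  · rw [h0]
    simp only [Nat.cast_zero, Real.log_zero]
    have := Real.log_nonneg hMr
    positivity
  · have hposr : (0 : ℝ) < (num ExK n : ℝ) := by exact_mod_cast hpos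
    have hn2' : (0 : ℝ) < (n : ℝ) + 2 := by positivity
    calc Real.log (num ExK n) ≤ Real.log ((n + 2) * (M * Real.exp (ε / 2 * cc n))) :=
          Real.log_le_log hposr hnum
      _ = Real.log (n + 2) + (Real.log M + ε / 2 * cc n) := by
          rw [Real.log_mul hn2'.ne' (by positivity), Real.log_mul (by positivity) (Real.exp_pos _).ne',
            Real.log_exp]
      _ ≤ ε / 2 * cc n + (Real.log M + ε / 2 * cc n) := by
          gcongr
          refine le_trans ?_ (hn2 n hnn2)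
          have h7 : Real.log ((n : ℝ) + 2) ≤ (n : ℝ) + 2 - 1 := Real.log_le_sub_one_of_pos hn2'
          have h8 : (16 : ℝ) ≤ n := by exact_mod_cast hn16
          nlinarith [sq_nonneg ((n : ℝ) - 1), mul_pos (show (0 : ℝ) < n by linarith) (show (0 : ℝ) < n by linarith)]
      _ = Real.log M + ε * cc n := by ring

end Pool.Agent.MAE
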