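import Pool.Agent.MAE.Stmts2

set_option autoImplicit false

/-!
Squad MAE, part 2: the container algorithm.
-/

namespace Pool.Agent.MAE

open Pool.Agent.Helper3.MAS Finset

namespace RUN_

theorem log_ge {x y : ℝ} (hx : 0 < x) (hy : 0 < y) : (x - y) / x ≤ Real.log (x / y) := by
  have h := Real.log_le_sub_one_of_pos (show 0 < y / x by positivity)
  have h2 : Real.log (x / y) = - Real.log (y / x) := by
    rw [← Real.log_inv, inv_div]
  rw [h2]
  have h3 : (x - y) / x = 1 - y / x := by field_simp
  rw [h3]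
  linarith

/-- the bound -/
noncomputable def ph (α ρ : ℝ) (Δ : ℕ) (m : ℝ) : ℝ :=
  if m ≤ 2 * α then m / Δ else α / ρ * Real.log ((m - α) / α) + 1 + 2 * α / Δ

theorem ph_nonneg {α ρ : ℝ} {Δ : ℕ} (hα : 0 < α) (hρ : 0 < ρ) {m : ℝ} (hm : 0 ≤ m) :
    0 ≤ ph α ρ Δ m := by
  unfold ph
  split_ifs with h
  · positivity
  · push Not at h
    have : 0 ≤ Real.log ((m - α) / α) :=
      Real.log_nonneg (by rw [le_div_iff₀ hα]; linarith)
    positivity

theorem ph_mono {α ρ : ℝ} {Δ : ℕ} (hα : 0 < α) (hρ : 0 < ρ) {m m' : ℝ}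
    (h : m' ≤ m) : ph α ρ Δ m' ≤ ph α ρ Δ m := by
  unfold ph
  split_ifs with h1 h2 h2
  · gcongr
  · push Not at h2
    have h3 : 0 ≤ Real.log ((m - α) / α) :=
      Real.log_nonneg (by rw [le_div_iff₀ hα]; linarith)
    have h4 : m' / (Δ : ℝ) ≤ 2 * α / Δ := by gcongr
    have h5 : 0 ≤ α / ρ * Real.log ((m - α) / α) := by positivity
    linarith
  · exact absurd (h.trans h2) h1
  · push Not at h1 h2
    have h3 : Real.log ((m' - α) / α) ≤ Real.log ((m - α) / α) := by
      apply Real.log_le_log
      · apply div_pos <;> linarith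
      · gcongr
    gcongr

theorem ph_step {α ρ : ℝ} {Δ : ℕ} (hα : 0 < α) (hρ : 0 < ρ) (hΔ : 1 ≤ Δ) {m m' d : ℝ}
    (h : m' = m - 1 - d) (hd : (Δ : ℝ) ≤ d) (hd2 : ρ * (m / α - 1) ≤ d) :
    ph α ρ Δ m' + 1 ≤ ph α ρ Δ m := by
  have hΔ' : (1 : ℝ) ≤ Δ := by exact_mod_cast hΔ
  have hΔ0 : (0 : ℝ) < Δ := by linarith
  unfold ph
  split_ifs with h1 h2 h2
  · rw [← sub_nonneg]
    have : m / (Δ : ℝ) - (m' / Δ + 1) = (1 + d - Δ) / Δ := by
      rw [h]; field_simp; ring
    rw [this]
    apply div_nonneg _ hΔ0.le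
    linarith
  · push Not at h2
    have h3 : 0 ≤ Real.log ((m - α) / α) :=
      Real.log_nonneg (by rw [le_div_iff₀ hα]; linarith)
    have h4 : m' / (Δ : ℝ) ≤ 2 * α / Δ := by gcongr
    have h5 : 0 ≤ α / ρ * Real.log ((m - α) / α) := by positivity
    linarith
  · exact absurd (by linarith : m' ≤ 2 * α) h1
  · push Not at h1 h2
    have hmα : 0 < m - α := by linarith
    have hmα' : 0 < m' - α := by linarith
    have h3 : Real.log ((m - α) / α) = Real.log ((m' - α) / α) +
        Real.log ((m - α) / (m' - α)) := by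
      rw [← Real.log_mul (by positivity) (by positivity)]
      congr 1
      field_simp
    have h4 := log_ge hmα hmα'
    have h5 : ρ / α ≤ ((m - α) - (m' - α)) / (m - α) := by
      rw [le_div_iff₀ hmα]
      have : ρ / α * (m - α) = ρ * (m / α - 1) := by field_simp
      rw [this]
      linarith
    have h6 : 1 ≤ α / ρ * Real.log ((m - α) / (m' - α)) := by
      have h7 : ρ / α ≤ Real.log ((m - α) / (m' - α)) := h5.trans h4
      calc (1 : ℝ) = α / ρ * (ρ / α) := by field_simp
        _ ≤ _ := by gcongr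
    rw [h3, mul_add]
    linarith

theorem main (adj : Finset ℕ → Finset ℕ → Prop) [DecidableRel adj]
    (hirr : ∀ u, ¬ adj u u) (V : Finset (Finset ℕ)) (α ρ : ℝ) (Δ : ℕ)
    (hα : 0 < α) (hρ : 0 < ρ) (hΔ : 1 ≤ Δ)
    (hss : ∀ A, A ⊆ V → A.Nonempty → ∃ v ∈ A,
      ρ * ((A.card : ℝ) / α - 1) ≤ ((A.filter (fun w => adj v w)).card : ℝ)) :
    ∀ m : ℕ, ∀ A : Finset (Finset ℕ), A ⊆ V → A.card = m →
      ∃ cont : Finset (Finset ℕ) → Finset (Finset ℕ), ∀ K : Finset (Finset ℕ), ∃ S, S ⊆ K ∧
        S ⊆ A ∧ (S.card : ℝ) ≤ ph α ρ Δ m ∧ cont S ⊆ A ∧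
        (∀ X ∈ cont S, ((cont S).filter (fun Y => adj X Y)).card ≤ Δ) ∧
        (∀ X ∈ A, X ∉ cont S → X ∈ K → X ∈ S ∨ ∃ s ∈ S, adj s X) := by
  intro m
  induction m using Nat.strong_induction_on with
  | _ m ih =>
    intro A hAV hAm
    by_cases hstop : ∀ X ∈ A, (A.filter (fun Y => adj X Y)).card ≤ Δ
    · refine ⟨fun _ => A, fun K => ⟨∅, by simp, by simp, ?_, subset_rfl, hstop, ?_⟩⟩
      · simpa using ph_nonneg hα hρ (Nat.cast_nonneg m)
      · intro X hX hX'
        exact absurd hX hX'
    · push Not at hstop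
      obtain ⟨X₀, hX₀, hX₀d⟩ := hstop
      have hne : A.Nonempty := ⟨X₀, hX₀⟩
      obtain ⟨v, hv, hvmax⟩ := A.exists_max_image (fun v => (A.filter (fun w => adj v w)).card) hne
      set N := A.filter (fun w => adj v w) with hN
      have hdΔ : Δ < N.card := hX₀d.trans_le (hvmax X₀ hX₀)
      have hd2 : ρ * ((m : ℝ) / α - 1) ≤ (N.card : ℝ) := by
        obtain ⟨u, hu, hu2⟩ := hss A hAV hne
        rw [hAm] at hu2
        refine hu2.trans ?_
        exact_mod_cast hvmax u hu
      have hmpos : 0 < m := by rw [← hAm]; exact Finset.card_pos.2 hne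
      have hc1 : (A.erase v).card = m - 1 := by rw [Finset.card_erase_of_mem hv, hAm]
      have hNsub : N ⊆ A.erase v := by
        intro w hw
        rw [Finset.mem_erase]
        refine ⟨?_, (Finset.mem_filter.1 hw).1⟩
        rintro rfl
        exact hirr _ (Finset.mem_filter.1 hw).2
      have hc2 : ((A.erase v) \ N).card = m - 1 - N.card := by
        rw [Finset.card_sdiff_of_subset hNsub, hc1]
      have hle : N.card ≤ m - 1 := by rw [← hc1]; exact Finset.card_le_card hNsub
      obtain ⟨c1, hc1'⟩ := ih (m - 1) (by omega) (A.erase v)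
        ((Finset.erase_subset _ _).trans hAV) hc1
      obtain ⟨c2, hc2'⟩ := ih (m - 1 - N.card) (by omega) ((A.erase v) \ N)
        ((Finset.sdiff_subset.trans (Finset.erase_subset _ _)).trans hAV) hc2
      classical
      refine ⟨fun S => if v ∈ S then c2 (S.erase v) else c1 S, fun K => ?_⟩
      by_cases hvK : v ∈ K
      · obtain ⟨S, hSK, hSA, hcard, hcs, hdeg, hcov⟩ := hc2' K
        have hvS : v ∉ S := by
          intro h
          have := Finset.mem_sdiff.1 (hSA h)
          simp at this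
        refine ⟨insert v S, ?_, ?_, ?_, ?_, ?_, ?_⟩
        · exact Finset.insert_subset hvK hSK
        · refine Finset.insert_subset hv (hSA.trans ?_)
          exact Finset.sdiff_subset.trans (Finset.erase_subset _ _)
        · rw [Finset.card_insert_of_notMem hvS]
          push_cast
          have h1 := ph_step hα hρ hΔ (m := (m : ℝ)) (m' := ((m - 1 - N.card : ℕ) : ℝ))
            (d := (N.card : ℝ)) (by
              rw [Nat.cast_sub hle, Nat.cast_sub (by omega)]; push_cast; ring)
            (by exact_mod_cast hdΔ.le) hd2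
          linarith
        · simp only [Finset.mem_insert_self, if_true, Finset.erase_insert hvS]
          exact hcs.trans (Finset.sdiff_subset.trans (Finset.erase_subset _ _))
        · simp only [Finset.mem_insert_self, if_true, Finset.erase_insert hvS]
          exact hdeg
        · simp only [Finset.mem_insert_self, if_true, Finset.erase_insert hvS]
          intro X hX hXc hXK
          by_cases hXv : X = v
          · left; rw [hXv]; exact Finset.mem_insert_self _ _
          by_cases hXN : X ∈ N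
          · right
            exact ⟨v, Finset.mem_insert_self _ _, (Finset.mem_filter.1 hXN).2⟩
          · rcases hcov X (Finset.mem_sdiff.2 ⟨Finset.mem_erase.2 ⟨hXv, hX⟩, hXN⟩) hXc hXK
              with h | ⟨s, hs, hsX⟩
            · left; exact Finset.mem_insert_of_mem h
            · right; exact ⟨s, Finset.mem_insert_of_mem hs, hsX⟩
      · obtain ⟨S, hSK, hSA, hcard, hcs, hdeg, hcov⟩ := hc1' K
        have hvS : v ∉ S := fun h => hvK (hSK h)
        refine ⟨S, hSK, hSA.trans (Finset.erase_subset _ _), ?_, ?_, ?_, ?_⟩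
        · refine hcard.trans (ph_mono hα hρ ?_)
          exact_mod_cast Nat.sub_le _ _
        · simp only [hvS, if_false]
          exact hcs.trans (Finset.erase_subset _ _)
        · simp only [hvS, if_false]
          exact hdeg
        · simp only [hvS, if_false]
          intro X hX hXc hXK
          have hXv : X ≠ v := by
            rintro rfl
            exact hvK hXK
          exact hcov X (Finset.mem_erase.2 ⟨hXv, hX⟩) hXc hXK

end RUN_

theorem run_proof : Stmt_RUN := by
  intro adj _ hirr V α ρ Δ hα hρ hΔ hss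
  obtain ⟨cont, hcont⟩ := RUN_.main adj hirr V α ρ Δ hα hρ hΔ hss V.card V subset_rfl rfl
  refine ⟨cont, fun K _ => ?_⟩
  obtain ⟨S, hSK, hSA, hcard, hcs, hdeg, hcov⟩ := hcont K
  refine ⟨S, hSK, hcard.trans ?_, hcs, hdeg, hcov⟩
  unfold RUN_.ph
  have hV0 : (0 : ℝ) ≤ V.card := Nat.cast_nonneg _
  have hΔ0 : (0 : ℝ) < Δ := by exact_mod_cast hΔ
  split_ifs with h
  · have h1 : 0 ≤ Real.log (1 + V.card / α) := Real.log_nonneg (by
      have : 0 ≤ (V.card : ℝ) / α := by positivity
      linarith)
    have h2 : (V.card : ℝ) / Δ ≤ 2 * α / Δ := by gcongr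
    have h3 : 0 ≤ α / ρ * Real.log (1 + V.card / α) := by positivity
    linarith
  · push Not at h
    have h1 : Real.log ((V.card - α) / α) ≤ Real.log (1 + V.card / α) := by
      apply Real.log_le_log
      · apply div_pos <;> linarith
      · rw [sub_div, div_self hα.ne']
        linarith
    have : α / ρ * Real.log ((V.card - α) / α) ≤ α / ρ * Real.log (1 + V.card / α) := by
      gcongr
    linarith

end Pool.Agent.MAE
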