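import Pool.Agent.MAE.Stmts2

/-!
Squad MAE, module SHA: no adjacent pair is shattered.
-/

set_option autoImplicit false

namespace Pool.Agent.MAE

open Pool.Agent.Helper3.MAS Finset

namespace SHA_

/-- two different `r`-sets with union of size at most `r + 1` are adjacent -/
theorem adjc (r : ℕ) (X W : Finset ℕ) (hX : X.card = r) (hW : W.card = r) (hne : W ≠ X)
    (hU : (X ∪ W).card ≤ r + 1) : (X ∩ W).card + 1 = r := by
  have h1 := Finset.card_union_add_card_inter X W
  have h2 : r < (X ∪ W).card := by
    by_contra hcon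
    push Not at hcon
    have h3 : X = X ∪ W := Finset.eq_of_subset_of_card_le Finset.subset_union_left (by omega)
    have h4 : W = X ∪ W := Finset.eq_of_subset_of_card_le Finset.subset_union_right (by omega)
    exact hne (h4.trans h3.symm)
  omega

/-- counting the exchanges -/
theorem cnt (r Δ : ℕ) (A : Finset (Finset ℕ)) (X' : Finset ℕ) (C : Finset ℕ)
    (f : ℕ → Finset ℕ) (hf : Set.InjOn f (C : Set ℕ))
    (hA : ∀ z ∈ C, f z ≠ X' → f z ∈ A ∧ (X' ∩ f z).card + 1 = r)
    (hd : (A.filter (fun W => (X' ∩ W).card + 1 = r)).card ≤ Δ) : C.card ≤ Δ + 1 := by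
  have h1 : C.image f ⊆ insert X' (A.filter (fun W => (X' ∩ W).card + 1 = r)) := by
    intro W hW
    obtain ⟨z, hz, rfl⟩ := Finset.mem_image.mp hW
    by_cases h : f z = X'
    · rw [h]
      exact Finset.mem_insert_self _ _
    · exact Finset.mem_insert_of_mem (Finset.mem_filter.mpr (hA z hz h))
  have h2 : (C.image f).card = C.card := Finset.card_image_of_injOn hf
  have h3 := Finset.card_le_card h1
  have h4 := Finset.card_insert_le X' (A.filter (fun W => (X' ∩ W).card + 1 = r))
  omega

end SHA_

open SHA_ in
theorem sha_proof (hFUC : Stmt_FUC) (hCOC : Stmt_COC) (hDIC : Stmt_DIC) : Stmt_SHA := by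
  intro n r Δ F F' A X X' hF hF' hA hP hQ hk hag hdeg hXA hX'A hadj hXF hX'F hXF' hX'F'
  have hXm := hA hXA
  have hX'm := hA hX'A
  have hXm' := Finset.mem_powersetCard.mp hXm
  have hX'm' := Finset.mem_powersetCard.mp hX'm
  have hkX := hk X hXA
  have hinF : ∀ Y ∈ (range n).powersetCard r, Y ∈ F' → Y ∉ F → Y ∈ A := by
    intro Y hY h1 h2
    by_contra h3
    exact h2 ((hag Y hY h3).mpr h1)
  rcases hDIC n r F hF X hXm X' hX'm hadj hXF hX'F with hi | hii
  · -- the union
    have hDc : (X ∪ X').card = r + 1 := by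
      have h1 := Finset.card_union_add_card_inter X X'
      omega
    have hDn : X ∪ X' ⊆ range n := Finset.union_subset hXm'.1 hX'm'.1
    have hfuc := hFUC n r F' hF' (X ∪ X') X' hDn hDc hX'F' Finset.subset_union_right
    set C := (X ∪ X').filter (fun z => (X ∪ X').erase z ∈ F') with hC
    have hCc : C.card ≤ Δ + 1 := by
      refine cnt r Δ A X' C (fun z => (X ∪ X').erase z) ?_ ?_ (hdeg X' hX'A)
      · intro a ha b hb hab
        have ha' : a ∈ X ∪ X' := (Finset.mem_filter.mp ha).1
        have hab' : (X ∪ X').erase a = (X ∪ X').erase b := hab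
        by_contra hne
        have h1 : a ∈ (X ∪ X').erase b := Finset.mem_erase.mpr ⟨hne, ha'⟩
        rw [← hab'] at h1
        exact (Finset.notMem_erase a _) h1
      · intro z hz hne
        have hz' := Finset.mem_filter.mp hz
        have hc : ((X ∪ X').erase z).card = r := by
          rw [Finset.card_erase_of_mem hz'.1, hDc]
          rfl
        have hsub : (X ∪ X').erase z ⊆ X ∪ X' := Finset.erase_subset _ _
        have hm : (X ∪ X').erase z ∈ (range n).powersetCard r :=
          Finset.mem_powersetCard.mpr ⟨hsub.trans hDn, hc⟩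
        refine ⟨hinF _ hm hz'.2 (hi _ hm hsub), ?_⟩
        refine adjc r X' _ hX'm'.2 hc hne ?_
        calc (X' ∪ (X ∪ X').erase z).card ≤ (X ∪ X').card :=
              Finset.card_le_card (Finset.union_subset Finset.subset_union_right hsub)
          _ = r + 1 := hDc
    have hCs : C ∈ smd n (Δ + 1) F' := by
      refine Finset.mem_filter.mpr ⟨Finset.mem_powerset.mpr ?_, hCc, hfuc⟩
      exact (Finset.filter_subset _ _).trans hDn
    rw [← hP] at hCs
    have hCX : C ⊆ X := by
      intro z hz
      have hz' := Finset.mem_filter.mp hz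
      by_contra hzX
      have hc : ((X ∪ X').erase z).card = r := by
        rw [Finset.card_erase_of_mem hz'.1, hDc]
        rfl
      have h1 : X ⊆ (X ∪ X').erase z := by
        intro y hy
        refine Finset.mem_erase.mpr ⟨?_, Finset.mem_union_left _ hy⟩
        intro h
        rw [h] at hy
        exact hzX hy
      have h2 : X = (X ∪ X').erase z := Finset.eq_of_subset_of_card_le h1 (by omega)
      apply hXF'
      rw [h2]
      exact hz'.2
    exact hkX (Finset.mem_filter.mpr ⟨hXm, Or.inl ⟨C, hCs, hCX⟩⟩)
  · -- the intersection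
    have hZX : X ∩ X' ⊆ X := Finset.inter_subset_left
    have hZX' : X ∩ X' ⊆ X' := Finset.inter_subset_right
    have hZn : X ∩ X' ⊆ range n := hZX.trans hXm'.1
    obtain ⟨b, hbX', hbZ⟩ : ∃ b ∈ X', b ∉ X ∩ X' := by
      by_contra hcon
      push Not at hcon
      have h1 : X' ⊆ X ∩ X' := hcon
      have h2 := Finset.card_le_card h1
      omega
    have hins : ∀ Y : Finset ℕ, Y.card = r → X ∩ X' ⊆ Y → ∀ y ∈ Y, y ∉ X ∩ X' →
        insert y (X ∩ X') = Y := by
      intro Y hYc hZY y hy hyZ
      refine Finset.eq_of_subset_of_card_le ?_ ?_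
      · exact Finset.insert_subset hy hZY
      · rw [Finset.card_insert_of_notMem hyZ]
        omega
    have hbi := hins X' hX'm'.2 hZX' b hbX' hbZ
    have hcoc := hCOC n r F' hF' (X ∩ X') b hZn hadj hbZ (by rw [hbi]; exact hX'F')
    set C := (range n).filter (fun y => y ∉ X ∩ X' ∧ insert y (X ∩ X') ∈ F') with hC
    have hCc : C.card ≤ Δ + 1 := by
      refine cnt r Δ A X' C (fun y => insert y (X ∩ X')) ?_ ?_ (hdeg X' hX'A)
      · intro a ha c hc hac
        have ha' : a ∉ X ∩ X' := (Finset.mem_filter.mp ha).2.1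
        have hac' : insert a (X ∩ X') = insert c (X ∩ X') := hac
        have h1 : a ∈ insert c (X ∩ X') := by
          rw [← hac']
          exact Finset.mem_insert_self _ _
        rcases Finset.mem_insert.mp h1 with h | h
        · exact h
        · exact absurd h ha'
      · intro z hz hne
        have hz' := Finset.mem_filter.mp hz
        have hc : (insert z (X ∩ X')).card = r := by
          rw [Finset.card_insert_of_notMem hz'.2.1]
          exact hadj
        have hsub : X ∩ X' ⊆ insert z (X ∩ X') := Finset.subset_insert _ _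
        have hm : insert z (X ∩ X') ∈ (range n).powersetCard r :=
          Finset.mem_powersetCard.mpr ⟨Finset.insert_subset hz'.1 hZn, hc⟩
        refine ⟨hinF _ hm hz'.2.2 (hii _ hm hsub), ?_⟩
        refine adjc r X' _ hX'm'.2 hc hne ?_
        have h1 := Finset.card_union_add_card_inter X' (insert z (X ∩ X'))
        have h2 : (X ∩ X').card ≤ (X' ∩ insert z (X ∩ X')).card :=
          Finset.card_le_card (Finset.subset_inter hZX' hsub)
        omega
    have hCs : C ∈ smc n (Δ + 1) F' := by
      refine Finset.mem_filter.mpr ⟨Finset.mem_powerset.mpr (Finset.filter_subset _ _), hCc, hcoc⟩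
    rw [← hQ] at hCs
    have hCX : Disjoint C X := by
      rw [Finset.disjoint_left]
      intro z hz hzX
      have hz' := Finset.mem_filter.mp hz
      have h2 := hins X hXm'.2 hZX z hzX hz'.2.1
      apply hXF'
      rw [← h2]
      exact hz'.2.2
    exact hkX (Finset.mem_filter.mpr ⟨hXm, Or.inr ⟨C, hCs, hCX⟩⟩)

end Pool.Agent.MAE
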