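import Pool.Agent.MAE.Stmts2

/-!
SUA: an exchange family is empty or has a rank.
-/

set_option autoImplicit false

namespace Pool.Agent.MAE

open Pool.Agent.Helper3.MAS Finset

theorem sua_proof (hEQC : Stmt_EQC) : Stmt_SUA := by
  classical
  intro n
  have hsub : {F | ExK (range n) F} ⊆
      ((insert ∅ ((range (n + 1)).biUnion (allF n)) : Finset (Finset (Finset ℕ))) :
        Set (Finset (Finset ℕ))) := by
    intro F hF
    rw [Finset.mem_coe]
    rcases F.eq_empty_or_nonempty with h | ⟨B, hB⟩
    · rw [h]
      exact Finset.mem_insert_self _ _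
    · have hP : ExK (range n) F := hF
      have hsub' : F ⊆ (range n).powerset := hP.1
      have hBn : B ⊆ range n := Finset.mem_powerset.1 (hsub' hB)
      have hc : B.card ≤ n := by
        have := Finset.card_le_card hBn
        rwa [Finset.card_range] at this
      refine Finset.mem_insert_of_mem (Finset.mem_biUnion.2 ⟨B.card, ?_, ?_⟩)
      · rw [Finset.mem_range]
        omega
      · unfold allF
        refine Finset.mem_filter.2 ⟨Finset.mem_powerset.2 ?_, ⟨B, hB⟩, hP.2⟩
        intro C hC
        exact Finset.mem_powersetCard.2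
          ⟨Finset.mem_powerset.1 (hsub' hC), hEQC F hP.2 C hC B hB⟩
  unfold num cnt
  calc Set.ncard {F | ExK (range n) F}
      ≤ Set.ncard ((insert ∅ ((range (n + 1)).biUnion (allF n)) : Finset (Finset (Finset ℕ))) :
        Set (Finset (Finset ℕ))) := Set.ncard_le_ncard hsub (Finset.finite_toSet _)
    _ = (insert ∅ ((range (n + 1)).biUnion (allF n))).card := Set.ncard_coe_finset _
    _ ≤ ((range (n + 1)).biUnion (allF n)).card + 1 := Finset.card_insert_le _ _
    _ ≤ (∑ r ∈ range (n + 1), (allF n r).card) + 1 := by
        gcongr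
        exact Finset.card_biUnion_le
    _ = 1 + ∑ r ∈ range (n + 1), (allF n r).card := by ring

end Pool.Agent.MAE
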