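import Pool.Agent.MAE.AsmE
import Pool.Agent.MAE.Main
import Pool.Agent.MAE.SUA
import Pool.Agent.MAE.DEX
import Pool.Agent.MAE.FUC
import Pool.Agent.MAE.COC
import Pool.Agent.MAE.DIC
import Pool.Agent.MAE.LOC
import Pool.Agent.MAE.RUN
import Pool.Agent.MAE.SHA
import Pool.Agent.MAE.ENC
import Pool.Agent.MAE.PUE

/-!
All modules together, second part.
-/

set_option autoImplicit false

namespace Pool.Agent.MAE

open Pool.Agent.Helper3.MAS Finset Filter Topology

theorem dex : Stmt_DEX := dex_proof eqc_proof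
theorem fuc : Stmt_FUC := fuc_proof dex
theorem loc : Stmt_LOC := loc_proof fuc coc_proof
theorem sha : Stmt_SHA := sha_proof fuc coc_proof dic_proof
theorem enc : Stmt_ENC := enc_proof run_proof deg_proof loc sha
theorem sua : Stmt_SUA := sua_proof eqc_proof
theorem pue : Stmt_PUE := pue_proof knu_proof enc dua_proof sua sbs_proof ext_proof cci_proof
theorem geq : Stmt_GEQ := geq_proof tri_proof pel_proof clo inv' ccr_proof cci_proof

/-- the conclusion for all matroids -/
theorem all_matroids : ∃ c : ℝ, 0 < c ∧ ∃ n₀ : ℕ, ∀ n ≥ n₀,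
    (∀ P : Set (LabelledMatroid n), IsoClosed P →
      |unlabelledProportion P - labelledProportion P| ≤
        Real.exp (-(c * (n.choose (n / 2) : ℝ) / n))) ∧
    1 - Real.exp (-(c * (n.choose (n / 2) : ℝ) / n)) ≤
      labelledProportion {M : LabelledMatroid n | Asymmetric M} ∧
    1 - Real.exp (-(c * (n.choose (n / 2) : ℝ) / n)) ≤
      unlabelledProportion {M : LabelledMatroid n | Asymmetric M} := by
  obtain ⟨c₁, hc₁, n₁, h1⟩ := Asm.ex_pairs knp_proof knu_proof stw pue big glu sbs_proof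
    ccr_proof cci_proof geq
  obtain ⟨c, hc, n₂, h2⟩ := Asm.rate cci_proof c₁ hc₁
  refine ⟨c, hc, max n₁ n₂, fun n hn => ?_⟩
  simp only [ge_iff_le, max_le_iff] at hn
  exact Asm.all_conclude n _ (Real.exp_pos _).le ((h1 n hn.1).trans
    (mul_le_mul_of_nonneg_right (h2 n hn.2) (by positivity)))

/-- the conclusion for paving matroids -/
theorem all_paving : ∃ c : ℝ, 0 < c ∧ ∃ n₀ : ℕ, ∀ n ≥ n₀,
    ((pavingSet n).ncard : ℝ) ≤
      (Quotient.mk (isoSetoid n) '' pavingSet n).ncard * n.factorial ∧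
    ((Quotient.mk (isoSetoid n) '' pavingSet n).ncard : ℝ) * n.factorial ≤
      (1 + Real.exp (-(c * (n.choose (n / 2) : ℝ) / n))) * (pavingSet n).ncard ∧
    (1 - Real.exp (-(c * (n.choose (n / 2) : ℝ) / n))) * (pavingSet n).ncard ≤
      ({M | M ∈ pavingSet n ∧ Asymmetric M}.ncard : ℝ) := by
  obtain ⟨c₁, hc₁, n₁, h1⟩ := Asm.pav_pairsQ pmc_proof knp_proof knu_proof stw pup big glu
    sbs_proof ccr_proof cci_proof geq
  obtain ⟨c, hc, n₂, h2⟩ := Asm.rate cci_proof c₁ hc₁
  refine ⟨c, hc, max n₁ n₂, fun n hn => ?_⟩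
  simp only [ge_iff_le, max_le_iff] at hn
  exact Asm.pav_conclude pmc_proof n _ (Real.exp_pos _).le ((h1 n hn.1).trans
    (mul_le_mul_of_nonneg_right (h2 n hn.2) (by positivity)))

end Pool.Agent.MAE
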