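import Pool.Agent.MAE.Defs

/-!
Squad MAE (MP_f46acb_co): statements of the modules.
-/

set_option autoImplicit false

namespace Pool.Agent.MAE

open Pool.Agent.Helper3.MAS Finset

/-- members of an exchange family have the same size -/
def Stmt_EQC : Prop := ∀ F : Finset (Finset ℕ), Exch F → ∀ B ∈ F, ∀ B' ∈ F, B.card = B'.card

/-- paving families are closed under minors and relabelling -/
def Stmt_PMC : Prop := MC PavK

/-- complements of stable families are paving -/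
def Stmt_KNP : Prop := ∀ n r : ℕ, (stF n r).card ≤ num PavK n

/-- Knuth's lower bound -/
def Stmt_KNU : Prop := ∀ n : ℕ, 1 ≤ n → cc n ≤ Real.log ((stF n (n / 2)).card : ℝ)

/-- number of families fixed by a permutation with a cycle of length at least three -/
def Stmt_TRI : Prop := ∀ K : Finset ℕ → Finset (Finset ℕ) → Prop, MC K →
  ∀ (n : ℕ) (S : Finset ℕ), S.card = n + 3 → ∀ (σ : Equiv.Perm ℕ) (x y z : ℕ),
    x ∈ S → y ∈ S → z ∈ S → x ≠ y → y ≠ z → x ≠ z → σ x = y → σ y = z →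
    (∃ k : ℕ, 0 < k ∧ σ ^ k = 1) →
    fx K σ S ≤ num K (n + 1) * (num K n) ^ 2

/-- peeling off a 2-cycle -/
def Stmt_PEL : Prop := ∀ K : Finset ℕ → Finset (Finset ℕ) → Prop, MC K →
  ∀ (n : ℕ) (S : Finset ℕ), S.card = n + 2 → ∀ (σ : Equiv.Perm ℕ) (x y : ℕ),
    x ∈ S → y ∈ S → x ≠ y → σ x = y → σ y = x →
    fx K σ S ≤ num K n * (fx K σ ((S.erase x).erase y)) ^ 2

/-- a transposition: the two moved elements are clones -/
def Stmt_CLO : Prop := ∀ K : Finset ℕ → Finset (Finset ℕ) → Prop, MC K →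
  (∀ S F, K S F → Exch F) →
  ∀ (n : ℕ) (S : Finset ℕ), S.card = n + 2 → ∀ (σ : Equiv.Perm ℕ) (x y : ℕ),
    x ∈ S → y ∈ S → x ≠ y → σ x = y → σ y = x →
    (∀ w ∈ S, w ≠ x → w ≠ y → σ w = w) →
    fx K σ S ≤ (num K n) ^ 2 + 2 * num K (n + 1)

/-- complementation -/
def Stmt_DUA : Prop := ∀ n r : ℕ, r ≤ n → (stF n r).card = (stF n (n - r)).card

/-- a large family of `r`-sets has a member with many neighbours -/
def Stmt_DEG : Prop := ∀ n r : ℕ, 1 ≤ r → r ≤ n → ∀ A : Finset (Finset ℕ),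
  A ⊆ (range n).powersetCard r → A.Nonempty →
    ∃ B ∈ A, (r : ℝ) * ((A.card : ℝ) / al n r - 1) ≤ ((nbr r A B).card : ℝ)

/-- counting stable sets (Kleitman and Winston) -/
def Stmt_KWG : Prop := ∀ (adj : Finset ℕ → Finset ℕ → Prop) [DecidableRel adj],
  (∀ u, ¬ adj u u) → ∀ (V : Finset (Finset ℕ)) (α ρ ε κ y : ℝ),
    0 < α → 0 < ρ → 0 < ε → 1 ≤ ρ * ε → 1 ≤ κ → 1 ≤ y →
    y * (1 + V.card * ρ / α) ≤ Real.exp κ → (1 + ε) * α ≤ V.card →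
    (∀ A, A ⊆ V → A.Nonempty → ∃ v ∈ A,
      ρ * ((A.card : ℝ) / α - 1) ≤ ((A.filter (fun w => adj v w)).card : ℝ)) →
    ∀ W : Finset (Finset (Finset ℕ)), W ⊆ V.powerset →
      (∀ I ∈ W, ∀ u ∈ I, ∀ w ∈ I, ¬ adj u w) →
      ∑ I ∈ W, y ^ I.card ≤
        (1 + y) ^ ((1 + ε) * α) * Real.exp (κ + α * κ / ρ * Real.log (V.card / (ε * α)))

/-- weighted number of stable families, asymptotically -/
def Stmt_STW : Prop := ∀ y ε : ℝ, 1 ≤ y → 0 < ε → ∃ n₀ : ℕ, ∀ n ≥ n₀, ∀ r : ℕ,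
  n ≤ 4 * r → 2 * r ≤ n →
    Real.log (∑ X ∈ stF n r, y ^ X.card) ≤ (1 + ε) * al n r * Real.log (1 + y)

/-- few stable families are almost as large as possible -/
def Stmt_BIG : Prop := ∃ n₀ : ℕ, ∀ n ≥ n₀, ∀ r : ℕ, n ≤ 4 * r → 2 * r ≤ n →
  ((((stF n r).filter (fun X => 19 / 20 * al n r < (X.card : ℝ))).card : ℕ) : ℝ) ≤
    Real.exp (3 / 10 * al n r)

/-- subsets of bounded size -/
def Stmt_SBS : Prop := ∀ (N q : ℕ) (w : ℝ), 1 ≤ w →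
  ((sbs N q : ℕ) : ℝ) ≤ w ^ q * Real.exp (N / w)

/-- closure classes of non-bases in a paving family: adjacent non-bases behave alike -/
def Stmt_PAD : Prop := ∀ (n r : ℕ) (F : Finset (Finset ℕ)), 2 ≤ r → F ∈ pavF n r →
  ∀ (W : Finset ℕ) (x z y : ℕ), W ⊆ range n → W.card + 2 = r → x ∈ range n → z ∈ range n →
    y ∈ range n → x ∉ W → z ∉ W → y ∉ W → x ≠ z → x ≠ y → y ≠ z →
    insert x (insert z W) ∉ F → insert z (insert y W) ∉ F → insert x (insert y W) ∉ F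

/-- every paving family is described by pairwise almost disjoint blocks -/
def Stmt_PBL : Prop := ∀ (n r : ℕ) (F : Finset (Finset ℕ)), 2 ≤ r → F ∈ pavF n r →
  ∃ H : Finset (Finset ℕ), (∀ D ∈ H, D ⊆ range n ∧ r ≤ D.card) ∧
    (∀ D ∈ H, ∀ D' ∈ H, D ≠ D' → (D ∩ D').card + 2 ≤ r) ∧
    (∀ B ∈ (range n).powersetCard r, B ∉ F ↔ ∃ D ∈ H, B ⊆ D)

/-- the number of paving families against the number of stable families -/
def Stmt_PTS : Prop := ∀ n r : ℕ, 2 ≤ r → r ≤ n →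
  (pavF n r).card ≤ (stF n r).card * sbs (n * n.choose r) (n.choose (r - 1) / r.choose 2)

/-- a family is empty or has a rank -/
def Stmt_SUM : Prop := ∀ n : ℕ, num PavK n ≤ 1 + ∑ r ∈ range (n + 1), (pavF n r).card

/-- averaging over permutations -/
def Stmt_AVG : Prop := ∀ (m k : ℕ) (X Y : Finset (Finset ℕ)),
  X ⊆ (range m).powersetCard k → Y ⊆ (range m).powersetCard k →
    m.choose k * ∑ π : Equiv.Perm (Fin m), (X ∩ rl (exm π) Y).card =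
      m.factorial * (X.card * Y.card)

/-- the number of `(r-1)`-sets in no member of a stable family -/
def Stmt_AVC : Prop := ∀ m r : ℕ, 1 ≤ r → r ≤ m → ∀ I ∈ stF m r,
  (avl m r I).card + r * I.card = m.choose (r - 1)

/-- choosing the relative position of two stable families -/
def Stmt_SEL : Prop := ∀ (m r : ℕ) (δ : ℝ), 1 ≤ r → r ≤ m → 0 < δ → δ < 1 →
  ∀ I ∈ stF m r, ∀ J ∈ stF m r,
    (I.card : ℝ) ≤ (1 - δ) * al m r → (J.card : ℝ) ≤ (1 - δ) * al m r →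
    ∃ π : Equiv.Perm (Fin m),
      δ ^ 2 / 2 * (m.choose (r - 1) : ℝ) ≤ ((avl m r I ∩ avl m r (rl (exm π) J)).card : ℝ) ∧
      ((I ∩ rl (exm π) J).card : ℝ) ≤ 2 / δ ^ 2 * ((al m r) ^ 2 / (m.choose r : ℝ))

/-- relabelling preserves stable families -/
def Stmt_RLS : Prop := ∀ (m r : ℕ) (π : Equiv.Perm (Fin m)), ∀ I ∈ stF m r,
  rl (exm π) I ∈ stF m r

/-- a Graham Sloane class with many elements in a given family -/
def Stmt_GSC : Prop := ∀ (m k : ℕ) (A : Finset (Finset ℕ)), 1 ≤ m →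
  A ⊆ (range m).powersetCard k →
  ∃ Q ⊆ A, (A.card : ℝ) / m ≤ Q.card ∧ ∀ X ⊆ Q, X ∈ stF m k

/-- the glued family is stable -/
def Stmt_GLS : Prop := ∀ (m r : ℕ) (I J X : Finset (Finset ℕ)), 1 ≤ r →
  I ∈ stF m r → J ∈ stF m r → X ∈ stF m (r - 1) → X ⊆ avl m r I ∩ avl m r J →
    glue m I J X ∈ stF (m + 2) (r + 1)

/-- gluing two stable families, counting version -/
def Stmt_GLU : Prop := ∀ (m r : ℕ) (δ : ℝ), 1 ≤ r → r ≤ m → 0 < δ → δ < 1 →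
  ∀ G ⊆ stF m r, (∀ I ∈ G, (I.card : ℝ) ≤ (1 - δ) * al m r) →
    ((G.card : ℝ)) ^ 2 * (2 : ℝ) ^ (δ ^ 2 / 2 * (m.choose (r - 1) : ℝ) / m) ≤
      ((stF (m + 2) (r + 1)).card : ℝ) * (m.factorial *
        sbs (m.choose r) ⌊2 / δ ^ 2 * ((al m r) ^ 2 / (m.choose r : ℝ))⌋₊)

/-- growth of `cc` -/
def Stmt_CCR : Prop := ∀ η : ℝ, 0 < η → ∃ n₀ : ℕ, ∀ n ≥ n₀,
  2 * cc n ≤ (1 + η) * cc (n + 1) ∧ cc (n + 1) ≤ (1 + η) * (2 * cc n)

/-- `cc` is large -/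
def Stmt_CCI : Prop := ∀ ε : ℝ, 0 < ε → ∃ n₀ : ℕ, ∀ n ≥ n₀, (n : ℝ) ^ 3 ≤ ε * cc n

/-- extreme binomial coefficients are small -/
def Stmt_EXT : Prop := ∀ ε : ℝ, 0 < ε → ∃ n₀ : ℕ, ∀ n ≥ n₀, ∀ r : ℕ,
  (4 * r < n + 4 ∨ 3 * n < 4 * r + 4) → (n.choose r : ℝ) * (n : ℝ) ^ 2 ≤ ε * cc n

/-- involutions fix few families -/
def Stmt_INV : Prop := ∀ K : Finset ℕ → Finset (Finset ℕ) → Prop, MC K →
  (∀ S F, K S F → Exch F) → (∀ n, 1 ≤ num K n) →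
  (∀ ε : ℝ, 0 < ε → ∃ n₀ : ℕ, ∀ n ≥ n₀, Real.log (num K n) ≤ (2 + ε) * cc n) →
  ∀ η : ℝ, 0 < η → ∃ n₀ : ℕ, ∀ S : Finset ℕ, n₀ ≤ S.card → ∀ σ : Equiv.Perm ℕ,
    (∀ w ∈ S, σ w ∈ S ∧ σ (σ w) = w) → (∃ w ∈ S, σ w ≠ w) →
    Real.log (fx K σ S) ≤ (1 + η) * cc S.card

/-- the general principle: few pairs (family, nontrivial automorphism) -/
def Stmt_GEN : Prop := ∀ K : Finset ℕ → Finset (Finset ℕ) → Prop, MC K →
  (∀ S F, K S F → Exch F) → (∀ n, 1 ≤ n → cc n ≤ Real.log (num K n)) → (∀ n, 1 ≤ num K n) →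
  (∀ ε : ℝ, 0 < ε → ∃ n₀ : ℕ, ∀ n ≥ n₀, Real.log (num K n) ≤ (2 + ε) * cc n) →
  (∃ c₀ : ℝ, 0 < c₀ ∧ ∃ n₀ : ℕ, ∀ n ≥ n₀,
    2 * Real.log (num K n) + c₀ * cc (n + 2) ≤ Real.log (num K (n + 2))) →
  ∀ ε : ℝ, 0 < ε → ∃ n₀ : ℕ, ∀ n ≥ n₀,
    (∑ σ ∈ (univ : Finset (Equiv.Perm (Fin n))).erase 1, (fx K (exm σ) (range n) : ℝ)) ≤
      ε * num K n

/-- the number of paving families against the maximal number of stable families -/
def Stmt_PUP : Prop := ∀ ε : ℝ, 0 < ε → ∃ n₀ : ℕ, ∀ n ≥ n₀, ∃ r : ℕ, n ≤ 4 * r ∧ 2 * r ≤ n ∧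
  cc n ≤ Real.log (stF n r).card ∧
  Real.log (num PavK n) ≤ Real.log (stF n r).card + ε * cc n

end Pool.Agent.MAE
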